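import Pool.Agent.RDG.TorF

/-!
# RG / TORG: functions on `k ^ n × T`, divisibility and units

Choose a basis `e_1, ..., e_r` of `X` (`Module.finBasis ℤ X`), `T ≅ (kˣ) ^ r`; `F (v, z) * ch c z`
for suitable `c` (large multiple of `e_1 + ... + e_r`) is given by a polynomial in `v` and in the
`ch e_i z` (`LR.poly`).
* `LR.mul_eq_zero`: with `LR.poly` both functions (times characters) are polynomials on
  `k ^ n × (kˣ) ^ r`; a polynomial vanishing there vanishes (multiply by the product of the torus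
  variables, `MvPolynomial.funext`, `k` infinite), and the polynomial ring is a domain.
* `LR.dvd`: `F ^ m = V * W ^ m`; multiply `F`, `W` by characters `χ_1, χ_2` such that
  `F' = F χ_1`, `W' = W χ_2`, and `V' = V χ_1 ^ m / χ_2 ^ m` are polynomials (choose `χ_2` first, then
  `χ_1` large). Then `F' ^ m = V' * W' ^ m` in the polynomial ring, so `W' ∣ F'`
  (`pow_dvd_pow_iff`, the polynomial ring over a field is a UFD, `IsIntegrallyClosed`),
  `F' = W' q'` and `q = q' χ_2 / χ_1`.
* `LR.unit`: `F` is nowhere zero. For fixed `z` the polynomial `v ↦ F (v, z)` has no zero, so it is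
  constant (`k` algebraically closed: restrict to lines, or Nullstellensatz); so `F (v, z) = F (0, z)
  = ∑ c_a ch a z` (with `ch_indep`). If two different `a` have `c_a ≠ 0`, take `y : X →+ ℤ` which is
  injective on the finite set of these `a` (e.g. `y e_i = M ^ i` for large `M`), `z(c)(x) = c ^ y(x)`;
  then `∑ c_a c ^ y(a)` times a power of `c` is a polynomial in `c` with nonzero constant term and
  positive degree, so it has a root `c ≠ 0`. Contradiction.
-/

set_option autoImplicit false

open MvPolynomial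

namespace Pool.Agent.RG

section pt

variable {k : Type*} [Field k] {X : Type*} [AddCommGroup X] {r : ℕ}

/-- the point of the torus with given coordinates -/
private noncomputable def tgPt (B : Module.Basis (Fin r) ℤ X) (u : Fin r → kˣ) : Tor k X where
  toFun a := ∏ i, u i ^ (B.repr a.toAdd i)
  map_one' := by
    simp
  map_mul' a c := by
    rw [toAdd_mul, map_add, ← Finset.prod_mul_distrib]
    refine Finset.prod_congr rfl fun i _ => ?_
    rw [Finsupp.add_apply, zpow_add]

private lemma tgPt_ch (B : Module.Basis (Fin r) ℤ X) (u : Fin r → kˣ) (a : X) :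
    ch a (tgPt B u) = ∏ i, u i ^ (B.repr a i) := rfl

private lemma tgPt_basis (B : Module.Basis (Fin r) ℤ X) (u : Fin r → kˣ) (i : Fin r) :
    ch (B i) (tgPt B u) = u i := by
  rw [tgPt_ch, Finset.prod_eq_single i]
  · rw [B.repr_self, Finsupp.single_eq_same, zpow_one]
  · intro j _ hj
    rw [B.repr_self, Finsupp.single_eq_of_ne hj, zpow_zero]
  · intro h
    exact absurd (Finset.mem_univ i) h

private lemma tg_repr (B : Module.Basis (Fin r) ℤ X) (a : X) (z : Tor k X) :
    ch a z = ∏ i, ch (B i) z ^ (B.repr a i) := by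
  conv_lhs => rw [← B.sum_repr a]
  unfold ch
  rw [ofAdd_sum, map_prod]
  refine Finset.prod_congr rfl fun i _ => ?_
  rw [ofAdd_zsmul, map_zpow]

end pt

section LR

variable {k : Type*} [Field k] {X : Type*} [AddCommGroup X] {τ τ' : Type*}
  {F F' : (τ → k) → Tor k X → k} [Infinite k] [Module.Finite ℤ X] [Module.Free ℤ X]

omit [Infinite k] in
private lemma tg_eval (Q : MvPolynomial (τ ⊕ Fin (Module.finrank ℤ X)) k) :
    LR (fun (v : τ → k) (z : Tor k X) =>
      eval (Sum.elim v fun i => (ch (Module.finBasis ℤ X i) z : k)) Q) := by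
  induction Q using MvPolynomial.induction_on with
  | C a => exact (LR.const a).congr fun v z => by rw [eval_C]
  | add p q hp hq => exact (hp.add hq).congr fun v z => by rw [map_add]
  | mul_X p j hp =>
    rcases j with j | i
    · exact (hp.mul (LR.poly' (MvPolynomial.X j))).congr fun v z => by
        rw [map_mul, eval_X, eval_X, Sum.elim_inl]
    · exact (hp.mul (LR.char (Module.finBasis ℤ X i))).congr fun v z => by
        rw [map_mul, eval_X, Sum.elim_inr]

private lemma tg_zero (Q : MvPolynomial (τ ⊕ Fin (Module.finrank ℤ X)) k)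
    (h : ∀ (v : τ → k) (z : Tor k X),
      eval (Sum.elim v fun i => (ch (Module.finBasis ℤ X i) z : k)) Q = 0) : Q = 0 := by
  refine MvPolynomial.funext_set
    (fun j => Sum.casesOn j (fun _ => Set.univ) (fun _ => ({0}ᶜ : Set k))) ?_ ?_
  · rintro (j | i)
    · exact Set.infinite_univ
    · exact (Set.finite_singleton (0 : k)).infinite_compl
  · intro x hx
    rw [map_zero]
    have hx' : ∀ i : Fin (Module.finrank ℤ X), x (Sum.inr i) ≠ 0 := fun i =>
      hx (Sum.inr i) (Set.mem_univ _)
    have e := h (fun j => x (Sum.inl j))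
      (tgPt (Module.finBasis ℤ X) fun i => Units.mk0 (x (Sum.inr i)) (hx' i))
    have hxe : x = Sum.elim (fun j => x (Sum.inl j)) fun i => (ch (Module.finBasis ℤ X i)
        (tgPt (Module.finBasis ℤ X) fun i => Units.mk0 (x (Sum.inr i)) (hx' i)) : k) := by
      funext j
      rcases j with j | i
      · rfl
      · rw [Sum.elim_inr, tgPt_basis, Units.val_mk0]
    rw [hxe]
    exact e

omit [Infinite k] in
/-- the form of `LR.poly` with integer coordinates -/
private lemma tg_poly (h : LR F) : ∃ N : ℕ, ∀ c : X,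
    (∀ i, (N : ℤ) ≤ (Module.finBasis ℤ X).repr c i) →
    ∃ Q : MvPolynomial (τ ⊕ Fin (Module.finrank ℤ X)) k,
    ∀ v z, F v z * (ch c z : k) =
      eval (Sum.elim v fun i => (ch (Module.finBasis ℤ X i) z : k)) Q := by
  obtain ⟨s, Q, hQ⟩ := h
  set B := Module.finBasis ℤ X with hB
  refine ⟨∑ a ∈ s, ∑ i, (B.repr a i).natAbs, fun c hc => ?_⟩
  have hpos : ∀ a ∈ s, ∀ i, 0 ≤ B.repr (a + c) i := by
    intro a ha i
    have h1 : (B.repr a i).natAbs ≤ ∑ a ∈ s, ∑ i, (B.repr a i).natAbs :=
      (Finset.single_le_sum (f := fun i => (B.repr a i).natAbs) (fun _ _ => Nat.zero_le _)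
        (Finset.mem_univ i)).trans
        (Finset.single_le_sum (f := fun a => ∑ i, (B.repr a i).natAbs)
          (fun _ _ => Nat.zero_le _) ha)
    have h2 := hc i
    rw [map_add, Finsupp.add_apply]
    have h3 : ((B.repr a i).natAbs : ℤ) ≤ B.repr c i := (Int.ofNat_le.2 h1).trans h2
    omega
  refine ⟨∑ a ∈ s, rename Sum.inl (Q a) * ∏ i, MvPolynomial.X (Sum.inr i) ^ (B.repr (a + c) i).toNat,
    fun v z => ?_⟩
  rw [hQ, Finset.sum_mul, map_sum]
  refine Finset.sum_congr rfl fun a ha => ?_
  rw [map_mul, eval_rename, map_prod, mul_assoc, ← Units.val_mul, ← ch_add, tg_repr B (a + c) z]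
  congr 1
  rw [Units.coe_prod]
  refine Finset.prod_congr rfl fun i _ => ?_
  rw [map_pow, eval_X, Sum.elim_inr, Units.val_zpow_eq_zpow_val]
  conv_lhs => rw [← Int.toNat_of_nonneg (hpos a ha i)]
  rw [zpow_natCast]

omit [Infinite k] in
private lemma tg_sub (h : LR F) (h' : LR F') : LR (fun v z => F v z - F' v z) :=
  (h.add ((LR.const (-1)).mul h')).congr fun v z => by ring

/-- up to a character a regular function is a polynomial in `v` and the coordinates of `T`; the
character can be taken arbitrarily large -/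
lemma LR.poly (h : LR F) : ∃ c₀ : X, ∀ c' : X, (∃ n : Fin (Module.finrank ℤ X) → ℕ,
    c' = ∑ i, n i • Module.finBasis ℤ X i) → ∃ Q : MvPolynomial (τ ⊕ Fin (Module.finrank ℤ X)) k,
    ∀ v z, F v z * (ch (c₀ + c') z : k) =
      eval (Sum.elim v fun i => (ch (Module.finBasis ℤ X i) z : k)) Q := by
  obtain ⟨N, hN⟩ := tg_poly h
  refine ⟨∑ i, (N : ℤ) • Module.finBasis ℤ X i, fun c' hc' => ?_⟩
  obtain ⟨n, rfl⟩ := hc'
  refine hN _ fun j => ?_
  rw [← Finset.sum_add_distrib]
  have : ∑ i, ((N : ℤ) • Module.finBasis ℤ X i + n i • Module.finBasis ℤ X i) =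
      ∑ i, ((N : ℤ) + n i) • Module.finBasis ℤ X i := by
    refine Finset.sum_congr rfl fun i _ => ?_
    rw [add_smul, natCast_zsmul _ (n i)]
  rw [this, Module.Basis.repr_sum_self]
  omega

lemma LR.mul_eq_zero (h : LR F) (h' : LR F') (e : ∀ v z, F v z * F' v z = 0) :
    (∀ v z, F v z = 0) ∨ ∀ v z, F' v z = 0 := by
  obtain ⟨N, hN⟩ := tg_poly h
  obtain ⟨N', hN'⟩ := tg_poly h'
  obtain ⟨c, hc⟩ : ∃ c : X, ∀ i, (N : ℤ) ≤ (Module.finBasis ℤ X).repr c i :=
    ⟨∑ i, (N : ℤ) • Module.finBasis ℤ X i, fun i => by rw [Module.Basis.repr_sum_self]⟩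
  obtain ⟨c', hc'⟩ : ∃ c : X, ∀ i, (N' : ℤ) ≤ (Module.finBasis ℤ X).repr c i :=
    ⟨∑ i, (N' : ℤ) • Module.finBasis ℤ X i, fun i => by rw [Module.Basis.repr_sum_self]⟩
  obtain ⟨Q, hQ⟩ := hN c hc
  obtain ⟨Q', hQ'⟩ := hN' c' hc'
  have h0 : Q * Q' = 0 := by
    refine tg_zero _ fun v z => ?_
    rw [map_mul, ← hQ, ← hQ']
    have := e v z
    linear_combination (ch c z : k) * (ch c' z : k) * this
  rcases _root_.mul_eq_zero.1 h0 with h1 | h1
  · left
    intro v z
    have := hQ v z
    rw [h1, map_zero, _root_.mul_eq_zero] at this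
    exact this.resolve_right (Units.ne_zero _)
  · right
    intro v z
    have := hQ' v z
    rw [h1, map_zero, _root_.mul_eq_zero] at this
    exact this.resolve_right (Units.ne_zero _)

lemma LR.dvd [Finite τ] {V W : (τ → k) → Tor k X → k} (h : LR F) (hV : LR V) (hW : LR W)
    (hW0 : ∃ v z, W v z ≠ 0) {m : ℕ} (hm : 0 < m) (e : ∀ v z, F v z ^ m = V v z * W v z ^ m) :
    ∃ q : (τ → k) → Tor k X → k, LR q ∧ ∀ v z, F v z = W v z * q v z := by
  set B := Module.finBasis ℤ X with hB
  obtain ⟨N, hN⟩ := tg_poly h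
  obtain ⟨NV, hNV⟩ := tg_poly hV
  obtain ⟨NW, hNW⟩ := tg_poly hW
  set cW : X := ∑ i, (NW : ℤ) • B i with hcW
  set f : X := ∑ i, ((N + NW + NV : ℕ) : ℤ) • B i with hf
  have hcWr : ∀ i, B.repr cW i = NW := fun i => by rw [hcW, Module.Basis.repr_sum_self]
  have hfr : ∀ i, B.repr f i = ((N + NW + NV : ℕ) : ℤ) := fun i => by
    rw [hf, Module.Basis.repr_sum_self]
  obtain ⟨PW, hPW⟩ := hNW cW (fun i => (hcWr i).ge)
  obtain ⟨PF, hPF⟩ := hN f (fun i => by rw [hfr]; push_cast; omega)
  obtain ⟨PV, hPV⟩ := hNV (m • f - m • cW) (fun i => by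
    rw [map_sub, map_nsmul, map_nsmul, Finsupp.sub_apply, Finsupp.smul_apply,
      Finsupp.smul_apply, hfr, hcWr, nsmul_eq_mul, nsmul_eq_mul]
    have h1 : (1 : ℤ) ≤ m := by exact_mod_cast hm
    push_cast
    nlinarith)
  have hchf : ∀ z : Tor k X, (ch (m • f - m • cW) z : k) * (ch cW z : k) ^ m = (ch f z : k) ^ m := by
    intro z
    rw [← Units.val_pow_eq_pow_val, ← Units.val_pow_eq_pow_val, ← Units.val_mul, ← ch_nsmul,
      ← ch_nsmul, ← ch_add, sub_add_cancel]
  have h0 : PF ^ m - PV * PW ^ m = 0 := by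
    refine tg_zero _ fun v z => ?_
    rw [map_sub, map_mul, map_pow, map_pow, ← hPW, ← hPF, ← hPV, mul_pow, mul_pow, e v z,
      ← hchf z]
    ring
  have hdvd : PW ^ m ∣ PF ^ m := ⟨PV, by rw [sub_eq_zero.1 h0, mul_comm]⟩
  have hdvd' : PW ∣ PF := (IsIntegrallyClosed.pow_dvd_pow_iff hm.ne').1 hdvd
  obtain ⟨q, hq⟩ := hdvd'
  refine ⟨_, (tg_eval q).mul (LR.char (cW - f)), fun v z => ?_⟩
  have h1 := hPF v z
  rw [hq, map_mul, ← hPW] at h1
  have h2 : (ch (cW - f) z : k) * (ch f z : k) = (ch cW z : k) := by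
    rw [← Units.val_mul, ← ch_add, sub_add_cancel]
  have h3 : (ch f z : k) ≠ 0 := Units.ne_zero _
  apply mul_right_cancel₀ h3
  rw [h1, ← h2]
  ring

lemma LR.unit [IsAlgClosed k] (h : LR F) (h0 : ∀ v z, F v z ≠ 0) :
    ∃ (c : k) (a : X), c ≠ 0 ∧ ∀ v z, F v z = c * (ch a z : k) := by
  classical
  obtain ⟨s, Q, hQ⟩ := h
  set B := Module.finBasis ℤ X with hB
  -- constant in `v`
  have h1 : ∀ v z, F v z = F 0 z := by
    intro v z
    set P : MvPolynomial τ k := ∑ a ∈ s, C (ch a z : k) * Q a with hP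
    have hPe : ∀ w, eval w P = F w z := by
      intro w
      rw [hQ, hP, map_sum]
      refine Finset.sum_congr rfl fun a _ => ?_
      rw [map_mul, eval_C, mul_comm]
    set p : Polynomial k := aeval (fun j => Polynomial.C (v j) * Polynomial.X) P with hp
    have hpe : ∀ t : k, p.eval t = F (fun j => v j * t) z := by
      intro t
      rw [← hPe, hp, ← Polynomial.coe_evalRingHom, MvPolynomial.aeval_def,
        MvPolynomial.hom_eval₂, ← MvPolynomial.eval₂_id]
      congr 1
      · ext x
        simp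
      · funext j
        simp
    have hdeg : p.degree = 0 := by
      by_contra hd
      obtain ⟨t, ht⟩ := IsAlgClosed.exists_root p hd
      rw [Polynomial.IsRoot.def, hpe] at ht
      exact h0 _ _ ht
    have hconst := Polynomial.eq_C_of_degree_eq_zero hdeg
    have e1 := hpe 1
    have e0 := hpe 0
    rw [hconst, Polynomial.eval_C] at e1 e0
    simp only [mul_one, mul_zero] at e1 e0
    rw [← e1, e0]
    rfl
  set cc : X → k := fun a => eval 0 (Q a) with hcc
  have hF0 : ∀ z, F 0 z = ∑ a ∈ s.filter (fun a => cc a ≠ 0), cc a * (ch a z : k) := by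
    intro z
    rw [hQ, Finset.sum_filter]
    refine Finset.sum_congr rfl fun a _ => ?_
    split_ifs with h
    · rfl
    · simp only [hcc] at h
      rw [not_not.1 h, zero_mul]
  set S := s.filter (fun a => cc a ≠ 0) with hS
  have hSc : ∀ a ∈ S, cc a ≠ 0 := fun a ha => (Finset.mem_filter.1 ha).2
  have hSne : S.Nonempty := by
    rw [Finset.nonempty_iff_ne_empty]
    intro hemp
    apply h0 0 1
    rw [hF0, hemp, Finset.sum_empty]
  by_cases hone : ∃ a, S = {a}
  · obtain ⟨a, ha⟩ := hone
    refine ⟨cc a, a, hSc a (by rw [ha]; exact Finset.mem_singleton_self a), fun v z => ?_⟩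
    rw [h1, hF0, ha, Finset.sum_singleton]
  exfalso
  -- a separating functional
  obtain ⟨y, hy⟩ : ∃ y : X →+ ℤ, ∀ a ∈ S, ∀ a' ∈ S, y a = y a' → a = a' := by
    set pp : X → Polynomial ℤ := fun a => ∑ i : Fin (Module.finrank ℤ X),
      Polynomial.C (B.repr a i) * Polynomial.X ^ (i : ℕ) with hpp
    have hppne : ∀ a, a ≠ 0 → pp a ≠ 0 := by
      intro a ha h
      apply ha
      apply B.ext_elem
      intro i
      have h2 : (pp a).coeff i = 0 := by rw [h, Polynomial.coeff_zero]
      rw [hpp] at h2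
      simp only [Polynomial.finsetSum_coeff, Polynomial.coeff_C_mul_X_pow] at h2
      rw [Finset.sum_eq_single i] at h2
      · rw [if_pos rfl] at h2
        rw [h2]
        simp
      · intro j _ hj
        rw [if_neg]
        intro h3
        exact hj (Fin.ext h3.symm)
      · intro h3
        exact absurd (Finset.mem_univ i) h3
    set D : Finset X := ((S ×ˢ S).image fun q => q.1 - q.2).filter (fun a => a ≠ 0) with hD
    have hprod : ∏ a ∈ D, pp a ≠ 0 :=
      Finset.prod_ne_zero_iff.2 fun a ha => hppne a (Finset.mem_filter.1 ha).2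
    obtain ⟨M, hM⟩ : ∃ M : ℤ, (∏ a ∈ D, pp a).eval M ≠ 0 := by
      by_contra hcon
      push Not at hcon
      exact hprod (Polynomial.funext fun M => by rw [hcon M, Polynomial.eval_zero])
    rw [Polynomial.eval_prod, Finset.prod_ne_zero_iff] at hM
    refine ⟨{ toFun := fun a => ∑ i : Fin (Module.finrank ℤ X), B.repr a i * M ^ (i : ℕ)
              map_zero' := by simp
              map_add' := fun a a' => by
                rw [← Finset.sum_add_distrib]
                refine Finset.sum_congr rfl fun i _ => ?_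
                rw [map_add, Finsupp.add_apply, add_mul] }, ?_⟩
    intro a ha a' ha' hyy
    by_contra hne
    have hmem : a - a' ∈ D := Finset.mem_filter.2
      ⟨Finset.mem_image.2 ⟨(a, a'), Finset.mem_product.2 ⟨ha, ha'⟩, rfl⟩, sub_ne_zero.2 hne⟩
    apply hM _ hmem
    have hyy' : ∑ i : Fin (Module.finrank ℤ X), B.repr a i * M ^ (i : ℕ) =
        ∑ i : Fin (Module.finrank ℤ X), B.repr a' i * M ^ (i : ℕ) := hyy
    have hppe : ∀ x, (pp x).eval M =
        ∑ i : Fin (Module.finrank ℤ X), B.repr x i * M ^ (i : ℕ) := by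
      intro x
      rw [hpp, Polynomial.eval_finsetSum]
      refine Finset.sum_congr rfl fun i _ => ?_
      rw [Polynomial.eval_mul, Polynomial.eval_C, Polynomial.eval_pow, Polynomial.eval_X]
    rw [hppe]
    simp only [map_sub, Finsupp.sub_apply, sub_mul, Finset.sum_sub_distrib]
    rw [hyy', sub_self]
  obtain ⟨a0, ha0, hmin⟩ := Finset.exists_min_image S y hSne
  obtain ⟨a1, ha1, hmax⟩ := Finset.exists_max_image S y hSne
  have hlt : y a0 < y a1 := by
    rcases (hmin a1 ha1).lt_or_eq with h | h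
    · exact h
    · exfalso
      apply hone
      refine ⟨a0, Finset.eq_singleton_iff_unique_mem.2 ⟨ha0, fun a ha => ?_⟩⟩
      apply hy a ha a0 ha0
      exact le_antisymm ((hmax a ha).trans h.ge) (hmin a ha)
  set p : Polynomial k := ∑ a ∈ S, Polynomial.C (cc a) * Polynomial.X ^ (y a - y a0).toNat with hp
  have hinj : ∀ a ∈ S, ∀ a' ∈ S, (y a - y a0).toNat = (y a' - y a0).toNat → a = a' := by
    intro a ha a' ha' he
    apply hy a ha a' ha'
    have e1 := hmin a ha
    have e2 := hmin a' ha'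
    omega
  have hcoeff : ∀ a ∈ S, p.coeff (y a - y a0).toNat = cc a := by
    intro a ha
    rw [hp]
    simp only [Polynomial.finsetSum_coeff, Polynomial.coeff_C_mul_X_pow]
    rw [Finset.sum_eq_single a]
    · rw [if_pos rfl]
    · intro a' ha' hne
      rw [if_neg]
      intro he
      exact hne (hinj a' ha' a ha he.symm)
    · intro h
      exact absurd ha h
  have hdeg : p.degree ≠ 0 := by
    intro hd
    have h2 := hcoeff a1 ha1
    have h3 : p.coeff (y a1 - y a0).toNat = 0 := by
      apply Polynomial.coeff_eq_zero_of_degree_lt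
      rw [hd]
      have : 0 < (y a1 - y a0).toNat := by omega
      exact_mod_cast this
    exact hSc a1 ha1 (h2.symm.trans h3)
  obtain ⟨t, ht⟩ := IsAlgClosed.exists_root p hdeg
  rw [Polynomial.IsRoot.def] at ht
  have ht0 : t ≠ 0 := by
    rintro rfl
    have h2 := hcoeff a0 ha0
    rw [sub_self, Int.toNat_zero, Polynomial.coeff_zero_eq_eval_zero, ht] at h2
    exact hSc a0 ha0 h2.symm
  set u : kˣ := Units.mk0 t ht0 with hu
  set z : Tor k X :=
    { toFun := fun a => u ^ (y a.toAdd)
      map_one' := by rw [toAdd_one, map_zero, zpow_zero]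
      map_mul' := fun a a' => by rw [toAdd_mul, map_add, zpow_add] } with hz
  have hzc : ∀ a : X, (ch a z : k) = t ^ (y a) := by
    intro a
    have : ch a z = u ^ (y a) := rfl
    rw [this, Units.val_zpow_eq_zpow_val, hu, Units.val_mk0]
  apply h0 0 z
  rw [hF0]
  have hsum : ∑ a ∈ S, cc a * (ch a z : k) = t ^ (y a0) * p.eval t := by
    rw [hp, Polynomial.eval_finsetSum, Finset.mul_sum]
    refine Finset.sum_congr rfl fun a ha => ?_
    rw [Polynomial.eval_mul, Polynomial.eval_C, Polynomial.eval_pow, Polynomial.eval_X, hzc]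
    have e1 : y a = y a0 + ((y a - y a0).toNat : ℤ) := by
      have := hmin a ha
      omega
    conv_lhs => rw [e1]
    rw [zpow_add₀ ht0, zpow_natCast]
    ring
  rw [hsum, ht, mul_zero]

/-- cancellation: if `F * W = 0` on a set where `W ≠ 0`... -/
lemma LR.eq_of_mul {W : (τ → k) → Tor k X → k} (h : LR F) (h' : LR F') (hW : LR W)
    (hW0 : ∃ v z, W v z ≠ 0) (e : ∀ v z, F v z * W v z = F' v z * W v z) :
    ∀ v z, F v z = F' v z := by
  intro v z
  obtain ⟨v0, z0, h00⟩ := hW0
  rcases LR.mul_eq_zero (tg_sub h h') hW (fun v z => by rw [sub_mul, e v z, sub_self]) with h1 | h1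
  · exact sub_eq_zero.1 (h1 v z)
  · exact absurd (h1 v0 z0) h00

end LR

end Pool.Agent.RG
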