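import Pool.Agent.RDG.Elt
import Pool.Agent.RDG.TorG

/-!
# RG / ATT: attractors

`Att l`: the elements `g` with `lim_{c → 0} t(l(c)) g t(l(c))⁻¹ = 1`. It is a subgroup, it contains the
root subgroups `x i` with `0 < l (root i)`, and in the coordinates of the big cell only those occur.
-/

set_option autoImplicit false

open MvPolynomial

namespace Pool.Agent.RG

variable {k : Type*} [Field k] {ι X Y : Type*} [AddCommGroup X] [AddCommGroup Y]
  {P : RootDatum ι X Y} {b : P.Base} {Γ : Type*} [Group Γ] (G : RedGrp k P b Γ)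

/-- the cocharacter of the torus -/
def coc (k : Type*) [Field k] {X : Type*} [AddCommGroup X] (l : X →+ ℤ) (c : kˣ) : Tor k X where
  toFun a := c ^ l a.toAdd
  map_one' := by simp
  map_mul' a d := by rw [toAdd_mul, map_add, zpow_add]

lemma ch_coc (l : X →+ ℤ) (c : kˣ) (a : X) : ch a (coc k l c) = c ^ l a := rfl

lemma eval_zero_of_units [Infinite k] {p : Polynomial k} (h : ∀ c : kˣ, p.eval (c : k) = 0) :
    p = 0 := by
  have h1 : p * Polynomial.X = 0 := by
    apply Polynomial.funext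
    intro c
    rw [Polynomial.eval_mul, Polynomial.eval_X, Polynomial.eval_zero]
    by_cases hc : c = 0
    · rw [hc, mul_zero]
    · rw [show c = ((Units.mk0 c hc : kˣ) : k) from rfl, h, zero_mul]
  exact (mul_eq_zero.1 h1).resolve_right Polynomial.X_ne_zero

lemma eval_eq_of_units [Infinite k] {p q : Polynomial k}
    (h : ∀ c : kˣ, p.eval (c : k) = q.eval (c : k)) : p = q := by
  rw [← sub_eq_zero]
  apply eval_zero_of_units
  intro c
  rw [Polynomial.eval_sub, h, sub_self]

namespace RedGrp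

/-- the product map of the big cell -/
def cel {N : ℕ} (e : Fin N ≃ {i // b.IsPos i}) (s : Fin N → k) (z : Tor k X) (r : Fin N → k) : Γ :=
  upr (fun j => G.x (e j)) s * G.t z * upr (fun j c => G.φ (e j) (lo c)) r

/-- `lim_{c → 0} t(l(c)) g t(l(c))⁻¹ = 1` -/
def Att (l : X →+ ℤ) : Subgroup Γ where
  carrier := {g | ∀ f ∈ G.A, ∃ q : Polynomial k,
    (∀ c : kˣ, f (G.t (coc k l c) * g * (G.t (coc k l c))⁻¹) = q.eval (c : k)) ∧ q.eval 0 = f 1}
  mul_mem' := by
    intro g h hg hh f hf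
    obtain ⟨m, a, c, ha, hc, e⟩ := G.comul f hf
    choose qa hqa hqa' using fun i => hg (a i) (ha i)
    choose qc hqc hqc' using fun i => hh (c i) (hc i)
    refine ⟨∑ i, qa i * qc i, fun z => ?_, ?_⟩
    · rw [show G.t (coc k l z) * (g * h) * (G.t (coc k l z))⁻¹ =
        (G.t (coc k l z) * g * (G.t (coc k l z))⁻¹) * (G.t (coc k l z) * h * (G.t (coc k l z))⁻¹) by
        group, e, Polynomial.eval_finsetSum]
      refine Finset.sum_congr rfl fun i _ => ?_
      rw [Polynomial.eval_mul, hqa, hqc]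
    · rw [Polynomial.eval_finsetSum]
      have h1 := e 1 1
      rw [one_mul] at h1
      rw [h1]
      refine Finset.sum_congr rfl fun i _ => ?_
      rw [Polynomial.eval_mul, hqa', hqc']
  one_mem' := by
    intro f _
    refine ⟨Polynomial.C (f 1), fun z => ?_, ?_⟩
    · rw [mul_one, mul_inv_cancel, Polynomial.eval_C]
    · rw [Polynomial.eval_C]
  inv_mem' := by
    intro g hg f hf
    obtain ⟨q, hq, hq'⟩ := hg _ (G.inv f hf)
    refine ⟨q, fun z => ?_, ?_⟩
    · rw [← hq]
      congr 1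
      group
    · rw [hq']
      rw [inv_one]

lemma x_att {l : X →+ ℤ} {i : ι} (h : 0 < l (P.root i)) (s : k) : G.x i s ∈ G.Att l := by
  intro f hf
  obtain ⟨Q, hQ⟩ := G.x_reg hf i
  obtain ⟨m, hm⟩ := Int.eq_ofNat_of_zero_le h.le
  refine ⟨Q.comp (Polynomial.X ^ m * Polynomial.C s), fun c => ?_, ?_⟩
  · rw [G.x_t, hQ, Polynomial.eval_comp, ch_coc, hm]
    rw [zpow_natCast, Units.val_pow_eq_pow_val, Polynomial.eval_mul, Polynomial.eval_pow,
      Polynomial.eval_X, Polynomial.eval_C]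
  · have hm' : m ≠ 0 := by
      rintro rfl
      rw [hm] at h
      exact lt_irrefl _ h
    rw [Polynomial.eval_comp, Polynomial.eval_mul, Polynomial.eval_pow, Polynomial.eval_X,
      zero_pow hm', zero_mul, ← hQ, x_zero]

omit [Field k] in
lemma conj_upr (g : Γ) {N : ℕ} (x : Fin N → k → Γ) (s : Fin N → k) :
    g * upr x s * g⁻¹ = (List.ofFn fun j => g * x j (s j) * g⁻¹).prod := by
  have h := map_list_prod (MulAut.conj g).toMonoidHom (List.ofFn fun j => x j (s j))
  rw [List.map_ofFn] at h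
  exact h

lemma lo_t (i : ι) (z : Tor k X) (c : k) :
    G.t z * G.φ i (lo c) * (G.t z)⁻¹ = G.φ i (lo ((ch (-P.root i) z : k) * c)) := by
  rw [G.φ_lo, G.φ_lo, G.x_t, root_neg]

lemma t_cel {N : ℕ} (e : Fin N ≃ {i // b.IsPos i}) (w : Tor k X) (s : Fin N → k) (z : Tor k X)
    (r : Fin N → k) : G.t w * G.cel e s z r * (G.t w)⁻¹ =
      G.cel e (fun j => (ch (P.root (e j)) w : k) * s j) z
        (fun j => (ch (-P.root (e j)) w : k) * r j) := by
  unfold cel
  have h1 := conj_upr (G.t w) (fun j => G.x (e j)) s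
  have h2 := conj_upr (G.t w) (fun j c => G.φ (e j) (lo c)) r
  have h3 : G.t w * G.t z * (G.t w)⁻¹ = G.t z := by
    rw [← map_mul, mul_comm w z, map_mul, mul_inv_cancel_right]
  have h4 : G.t w * (upr (fun j => G.x (e j)) s * G.t z * upr (fun j c => G.φ (e j) (lo c)) r) *
      (G.t w)⁻¹ = (G.t w * upr (fun j => G.x (e j)) s * (G.t w)⁻¹) * (G.t w * G.t z * (G.t w)⁻¹) *
      (G.t w * upr (fun j c => G.φ (e j) (lo c)) r * (G.t w)⁻¹) := by group
  rw [h4, h1, h2, h3]
  simp only [G.x_t, G.lo_t]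
  rfl

lemma upr_zero {N : ℕ} (x : Fin N → k → Γ) (h : ∀ j, x j 0 = 1) : upr x 0 = 1 := by
  unfold upr
  apply List.prod_eq_one
  intro g hg
  rw [List.mem_ofFn] at hg
  obtain ⟨j, rfl⟩ := hg
  exact h j

lemma cel_one {N : ℕ} (e : Fin N ≃ {i // b.IsPos i}) : G.cel e 0 1 0 = 1 := by
  unfold cel
  rw [upr_zero, upr_zero, map_one, one_mul, one_mul]
  · intro j
    rw [G.φ_lo, x_zero]
  · intro j
    rw [x_zero]

/-- the property of the big cell -/
def IsCel {N : ℕ} (e : Fin N ≃ {i // b.IsPos i}) (d : Γ → k) : Prop :=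
  d ∈ G.A ∧ (∀ g, d g ≠ 0 ↔ ∃ s z r, g = G.cel e s z r) ∧
    ∀ (Q : MvPolynomial (Fin N ⊕ Fin N) k) (a : X), ∃ n, ∃ f ∈ G.A, ∀ s z r,
      f (G.cel e s z r) = d (G.cel e s z r) ^ n * (eval (Sum.elim s r) Q * (ch a z : k))

lemma exists_isCel : ∃ (N : ℕ) (e : Fin N ≃ {i // b.IsPos i}) (d : Γ → k), G.IsCel e d := by
  obtain ⟨N, e, d, hd, h1, h2⟩ := G.bigCell
  exact ⟨N, e, d, hd, h1, h2⟩

variable {G}

lemma IsCel.inj {N : ℕ} {e : Fin N ≃ {i // b.IsPos i}} {d : Γ → k} (h : G.IsCel e d)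
    {s s' : Fin N → k} {z z' : Tor k X} {r r' : Fin N → k}
    (hh : G.cel e s z r = G.cel e s' z' r') : s = s' ∧ z = z' ∧ r = r' := by
  have hne : d (G.cel e s z r) ≠ 0 := (h.2.1 _).2 ⟨s, z, r, rfl⟩
  have key : ∀ (Q : MvPolynomial (Fin N ⊕ Fin N) k) (a : X),
      eval (Sum.elim s r) Q * (ch a z : k) = eval (Sum.elim s' r') Q * (ch a z' : k) := by
    intro Q a
    obtain ⟨n, f, _, hf⟩ := h.2.2 Q a
    have h1 := hf s z r
    have h2 := hf s' z' r'
    rw [← hh, h1] at h2
    exact mul_left_cancel₀ (pow_ne_zero n hne) h2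
  have hz : z = z' := by
    apply MonoidHom.ext
    intro a
    have h1 := key 1 a.toAdd
    rw [map_one, map_one, one_mul, one_mul] at h1
    exact Units.ext h1
  refine ⟨?_, hz, ?_⟩
  · funext j
    have h1 := key (MvPolynomial.X (Sum.inl j)) 0
    rw [eval_X, eval_X, ch_zero, ch_zero] at h1
    simpa using h1
  · funext j
    have h1 := key (MvPolynomial.X (Sum.inr j)) 0
    rw [eval_X, eval_X, ch_zero, ch_zero] at h1
    simpa using h1

/-- the elements of `Att l` in the coordinates of the big cell -/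
theorem IsCel.att [Infinite k] {N : ℕ} {e : Fin N ≃ {i // b.IsPos i}} {d : Γ → k}
    (h : G.IsCel e d) {l : X →+ ℤ} {g : Γ} (hg : g ∈ G.Att l) :
    ∃ s r, g = G.cel e s 1 r ∧ (∀ j, s j ≠ 0 → 0 < l (P.root (e j))) ∧
      ∀ j, r j ≠ 0 → l (P.root (e j)) < 0 := by
  have hone : d 1 ≠ 0 := (h.2.1 _).2 ⟨0, 1, 0, (G.cel_one e).symm⟩
  obtain ⟨q, hq, hq0⟩ := hg d h.1
  have hqne : q ≠ 0 := by
    rintro rfl
    rw [Polynomial.eval_zero] at hq0
    exact hone hq0.symm
  obtain ⟨c, hc⟩ : ∃ c : kˣ, q.eval (c : k) ≠ 0 := by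
    by_contra hcon
    push Not at hcon
    exact hqne (eval_zero_of_units hcon)
  rw [← hq, h.2.1] at hc
  obtain ⟨s', z, r', hs'⟩ := hc
  have hgg : g = (G.t (coc k l c))⁻¹ * (G.t (coc k l c) * g * (G.t (coc k l c))⁻¹) *
      (G.t (coc k l c)) := by group
  rw [hs', ← map_inv] at hgg
  have hgg2 : g = G.t (coc k l c)⁻¹ * G.cel e s' z r' * (G.t (coc k l c)⁻¹)⁻¹ := by
    rw [hgg, map_inv, inv_inv]
  rw [t_cel] at hgg2
  set s : Fin N → k := fun j => (ch (P.root (e j)) (coc k l c)⁻¹ : k) * s' j with hs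
  set r : Fin N → k := fun j => (ch (-P.root (e j)) (coc k l c)⁻¹ : k) * r' j with hr
  -- the value of a coordinate function
  have key : ∀ (Q : MvPolynomial (Fin N ⊕ Fin N) k) (a : X), ∃ (n : ℕ) (p : Polynomial k),
      (∀ w : kˣ, p.eval (w : k) = q.eval (w : k) ^ n *
        (eval (Sum.elim (fun j => ((w ^ l (P.root (e j)) : kˣ) : k) * s j)
          (fun j => ((w ^ (-l (P.root (e j))) : kˣ) : k) * r j)) Q * (ch a z : k))) ∧
      p.eval 0 = d 1 ^ n * (eval 0 Q) := by
    intro Q a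
    obtain ⟨n, f, hfA, hf⟩ := h.2.2 Q a
    obtain ⟨p, hp, hp0⟩ := hg f hfA
    refine ⟨n, p, fun w => ?_, ?_⟩
    · rw [← hp, ← hq, hgg2, t_cel, hf]
      simp only [ch_coc, map_neg]
    · rw [hp0, ← G.cel_one e, hf, G.cel_one e, ch_one']
      rw [Units.val_one, mul_one]
      have h5 : (Sum.elim 0 0 : Fin N ⊕ Fin N → k) = 0 := by
        funext x
        rcases x with x | x <;> rfl
      rw [h5]
  have hz : z = 1 := by
    apply MonoidHom.ext
    intro a
    obtain ⟨n, p, hp, hp0⟩ := key 1 a.toAdd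
    have h1 : p = q ^ n * Polynomial.C (ch a.toAdd z : k) := by
      apply eval_eq_of_units
      intro w
      rw [hp, Polynomial.eval_mul, Polynomial.eval_pow, Polynomial.eval_C, map_one, one_mul]
    rw [h1, Polynomial.eval_mul, Polynomial.eval_pow, Polynomial.eval_C, hq0, map_one] at hp0
    have h2 := mul_left_cancel₀ (pow_ne_zero n hone) hp0
    exact Units.ext h2
  refine ⟨s, r, ?_, ?_, ?_⟩
  · rw [hgg2, hz]
  · intro j hj
    by_contra hcon
    push Not at hcon
    obtain ⟨m, hm⟩ := Int.eq_ofNat_of_zero_le (neg_nonneg.2 hcon)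
    obtain ⟨n, p, hp, hp0⟩ := key (MvPolynomial.X (Sum.inl j)) 0
    have h1 : p * Polynomial.X ^ m = q ^ n * Polynomial.C (s j) := by
      apply eval_eq_of_units
      intro w
      rw [Polynomial.eval_mul, hp, Polynomial.eval_mul, Polynomial.eval_pow, Polynomial.eval_C,
        eval_X, ch_zero, Units.val_one, mul_one, Polynomial.eval_pow, Polynomial.eval_X]
      simp only [Sum.elim_inl]
      have h3 : ((w ^ l (P.root (e j)) : kˣ) : k) * (w : k) ^ m = 1 := by
        rw [← Units.val_pow_eq_pow_val, ← Units.val_mul, ← zpow_natCast w m, ← zpow_add]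
        have h4 : l (P.root (e j)) + (m : ℤ) = 0 := by
          have h5 : -l (P.root (e j)) = (m : ℤ) := hm
          omega
        rw [h4, zpow_zero, Units.val_one]
      linear_combination (q.eval (w : k) ^ n * s j) * h3
    have h2 := congrArg (Polynomial.eval 0) h1
    rw [Polynomial.eval_mul, Polynomial.eval_mul, hp0, Polynomial.eval_pow (p := q),
      Polynomial.eval_C, hq0, eval_X, Pi.zero_apply, mul_zero, zero_mul] at h2
    exact (mul_ne_zero (pow_ne_zero n hone) hj) h2.symm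
  · intro j hj
    by_contra hcon
    push Not at hcon
    obtain ⟨m, hm⟩ := Int.eq_ofNat_of_zero_le hcon
    obtain ⟨n, p, hp, hp0⟩ := key (MvPolynomial.X (Sum.inr j)) 0
    have h1 : p * Polynomial.X ^ m = q ^ n * Polynomial.C (r j) := by
      apply eval_eq_of_units
      intro w
      rw [Polynomial.eval_mul, hp, Polynomial.eval_mul, Polynomial.eval_pow, Polynomial.eval_C,
        eval_X, ch_zero, Units.val_one, mul_one, Polynomial.eval_pow, Polynomial.eval_X]
      simp only [Sum.elim_inr]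
      have h3 : ((w ^ (-l (P.root (e j))) : kˣ) : k) * (w : k) ^ m = 1 := by
        rw [← Units.val_pow_eq_pow_val, ← Units.val_mul, ← zpow_natCast w m, ← zpow_add]
        have h4 : -l (P.root (e j)) + (m : ℤ) = 0 := by
          have h5 : l (P.root (e j)) = (m : ℤ) := hm
          omega
        rw [h4, zpow_zero, Units.val_one]
      linear_combination (q.eval (w : k) ^ n * r j) * h3
    have h2 := congrArg (Polynomial.eval 0) h1
    rw [Polynomial.eval_mul, Polynomial.eval_mul, hp0, Polynomial.eval_pow (p := q),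
      Polynomial.eval_C, hq0, eval_X, Pi.zero_apply, mul_zero, zero_mul] at h2
    exact (mul_ne_zero (pow_ne_zero n hone) hj) h2.symm

end RedGrp

end Pool.Agent.RG
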