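import Pool.Agent.RDG.Cell
import Mathlib.RingTheory.Nullstellensatz

/-!
# RG / GLUE: functions which are regular on all the translates of the big cell are regular

* `cover`: let `I` be the ideal of `A` of all `a` with `a F ∈ A`. If `I ≠ A` it is contained in a
  maximal ideal `m`; `A` is a finitely generated algebra over the algebraically closed field `k`, so
  `A / m = k` (`Algebra.FiniteType`, `isAlgebraic`/`finite` of `A ⧸ m` by Zariski's lemma:
  `finite_of_finite_type_of_isJacobsonRing`, `IsAlgClosed.algebraMap_bijective_of_isIntegral`), and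
  the homomorphism `A → A / m = k` is the evaluation at a point `g` (`G.pts`). So `a g = 0` for all
  `a ∈ I`, contradiction. Hence `1 ∈ I`.
* `glue`: for `g ∈ Γ` let `F_g h = F (g * h)`. By `vd_ext'` there are `n` and `f ∈ A` with
  `f = vd ^ n * F_g` on the cell, and both sides are `0` outside (`n ≥ 1`), so `vd ^ n * F_g = f ∈ A`;
  translating by `g⁻¹`: `a F ∈ A` for `a h = vd (g⁻¹ * h) ^ n`, `a g = 1`.
* `frac`: Let `F` be a function on `Γ`, `f₀ ∈ A`, `v ∈ A`, `v ≠ 0`... see `Nrm.lean`.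
-/

set_option autoImplicit false

open MvPolynomial

namespace Pool.Agent.RG

variable {k : Type*} [Field k] {ι X Y : Type*} [AddCommGroup X] [AddCommGroup Y] [Finite ι]
  {P : RootDatum ι X Y} {b : P.Base} {Γ : Type*} [Group Γ] (G : RedGrp k P b Γ)
  [IsAlgClosed k]

namespace RedGrp

theorem cover (F : Γ → k) (h : ∀ g, ∃ a ∈ G.A, a g ≠ 0 ∧ a * F ∈ G.A) : F ∈ G.A := by
  classical
  let I : Ideal G.A :=
    { carrier := {a | (a : Γ → k) * F ∈ G.A}
      add_mem' := by
        intro a c ha hc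
        have := G.A.add_mem ha hc
        rw [← add_mul] at this
        exact this
      zero_mem' := by
        change (0 : Γ → k) * F ∈ G.A
        rw [zero_mul]
        exact G.A.zero_mem
      smul_mem' := by
        intro c a ha
        have := G.A.mul_mem c.2 ha
        rw [← mul_assoc] at this
        exact this }
  by_cases hI : I = ⊤
  · have h1 : (1 : G.A) ∈ I := by
      rw [hI]
      exact Submodule.mem_top
    have h2 : (1 : Γ → k) * F ∈ G.A := h1
    rwa [one_mul] at h2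
  · exfalso
    obtain ⟨M, hM, hIM⟩ := Ideal.exists_le_maximal I hI
    haveI : Algebra.FiniteType k G.A := (Subalgebra.fg_iff_finiteType G.A).1 G.fg
    letI : Field (G.A ⧸ M) := Ideal.Quotient.field M
    haveI : Algebra.FiniteType k (G.A ⧸ M) := inferInstance
    haveI : Module.Finite k (G.A ⧸ M) := finite_of_finite_type_of_isJacobsonRing k (G.A ⧸ M)
    have hb : Function.Bijective (algebraMap k (G.A ⧸ M)) :=
      IsAlgClosed.algebraMap_bijective_of_isIntegral
    let e : k ≃ₐ[k] (G.A ⧸ M) := AlgEquiv.ofBijective (Algebra.ofId k (G.A ⧸ M)) hb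
    let φ : G.A →ₐ[k] k := (e.symm : (G.A ⧸ M) →ₐ[k] k).comp (Ideal.Quotient.mkₐ k M)
    obtain ⟨g, hg, -⟩ := G.pts φ
    obtain ⟨a, ha, hag, haF⟩ := h g
    have h1 : (⟨a, ha⟩ : G.A) ∈ M := hIM haF
    have h2 : φ ⟨a, ha⟩ = 0 := by
      have h3 : Ideal.Quotient.mkₐ k M ⟨a, ha⟩ = 0 := by
        rw [Ideal.Quotient.mkₐ_eq_mk]
        exact Ideal.Quotient.eq_zero_iff_mem.2 h1
      change e.symm (Ideal.Quotient.mkₐ k M ⟨a, ha⟩) = 0
      rw [h3, map_zero]
    rw [hg] at h2
    exact hag h2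

variable [Module.Finite ℤ X] [Module.Free ℤ X] [P.IsReduced]

theorem glue (F : Γ → k) (h : ∀ g, LR fun (v : Fin (enN b) ⊕ Fin (enN b) → k) z =>
    F (g * G.om (fun j => v (Sum.inl j)) z fun j => v (Sum.inr j))) : F ∈ G.A := by
  refine G.cover F fun g => ?_
  obtain ⟨n₀, hn₀⟩ := G.vd_ext' (h g)
  obtain ⟨f, hf, h1, h2⟩ := hn₀ (n₀ + 1) (Nat.le_succ n₀)
  have h3 : ∀ h' : Γ, f h' = G.vd h' ^ (n₀ + 1) * F (g * h') := by
    intro h'
    by_cases h4 : G.vd h' = 0
    · rw [h2 h' h4, h4, zero_pow (Nat.succ_ne_zero n₀), zero_mul]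
    · obtain ⟨s, z, r, rfl⟩ := (G.vd_ne h').1 h4
      exact h1 s z r
  refine ⟨(fun h' => G.vd (g⁻¹ * h')) ^ (n₀ + 1), G.A.pow_mem (G.trL G.vd_mem g⁻¹) _, ?_, ?_⟩
  · rw [Pi.pow_apply, inv_mul_cancel, G.vd_one, one_pow]
    exact one_ne_zero
  · have h5 : (fun h' => G.vd (g⁻¹ * h')) ^ (n₀ + 1) * F = fun h' => f (g⁻¹ * h') := by
      funext h'
      rw [Pi.mul_apply, Pi.pow_apply, h3, mul_inv_cancel_left]
    rw [h5]
    exact G.trL hf g⁻¹

/-- the version for equivariant functions -/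
theorem glue' (l : X) (F : Γ → k)
    (h1 : ∀ g, ∀ u ∈ G.VV, ∀ z, F (g * (u * G.t z)) = ((ch l z)⁻¹ : kˣ) * F g)
    (h2 : ∀ g, ∃ Q : MvPolynomial (Fin (enN b)) k, ∀ s, F (g * upr G.xp s) = eval s Q) :
    F ∈ G.A := by
  refine G.glue F fun g => ?_
  obtain ⟨Q, hQ⟩ := h2 g
  refine (LR.single (rename Sum.inl Q) (-l)).congr fun v z => ?_
  have h3 := G.t_upr_xm z fun j => v (Sum.inr j)
  have h4 : G.t z * upr G.xm (fun j => v (Sum.inr j)) =
      (upr G.xm fun j => (ch (-P.root (en b j : ι)) z : k) * v (Sum.inr j)) * G.t z := by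
    rw [← h3, inv_mul_cancel_right]
  rw [om, mul_assoc, h4, ← mul_assoc, h1 _ _ (G.upr_mem_VV _), hQ, eval_rename, ch_neg, mul_comm]
  rfl

end RedGrp

end Pool.Agent.RG
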