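import Pool.Agent.DM.IndA

/-!
# RDG / TW: the twist of a pinned group

Let `k` be algebraically closed of characteristic `p`. For the data `P` (weights `X`) let `tw P p` be the group of the
weights `l` with `⟨l, i^∨⟩` and `⟨w0 l, i^∨⟩` divisible by `p`. `twist` is the data with the same group, torus and
root homomorphisms, but weights `tw P p`, where `l` is the character `t ↦ (ch l t) ^ (1/p)`. So `X` embeds in `tw P p`
as `a ↦ p a` (`jj`), with the same characters and the same induced modules (`Ind_jj`), the roots are the `p rt i`,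
and the coroots are divided by `p`. The weight `zt = (p (p - 1) / 2) 2ρ` is `(p-1)ρ` for the twist: this
also works for `p = 2` and `ρ ∉ X`, because `⟨2ρ, i^∨⟩` is even.

Proofs. `tw`: `P.wX (P.wX l) = l` from `ch_wX`, `wT_wT`, `ch_inj` (`wX_wX`). `rtp`: inverse of the Frobenius map on units.
`ch_jj`: `ch (p • a) t = (ch a t) ^ p` (`ch_nsmul`). `Ind_jj`: the two definitions only involve the characters.
`twist_rho2`: both are `p • ∑ rt i` in `X`. `stz`: `p (p - 1)` is even; `P.wX rho2 = - rho2` (`wX_rt`, reindexing by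
`P.sg`). `twist_ax`: every field of `P.Ax` except:
* `ch_inj`: `rtp` and `P.ch` are injective; `rt_inj`, `rt_red`: `nsmul_inj` (DM.Grp), `rt_red` for `m p`, `n p`;
* `h_dom`: `Dom` for the twist is `Dom` for `P` (the pairings are divided by `p > 0`: `Int.ediv_nonneg_iff_of_pos`);
* `tor_xp`, `tor_xm`: `ch_jj`. `ch_cr`: `rtp (z ^ (p * m)) = z ^ m`. `pair_rt`, `pair_rho`: `p * m / p = m`;
* `ch_wX`: `ch_wX` of `P`; `wX_rt`, `h_wX`: in `X`;
* `dom`: for dominant `l` let `v` be the function of `P.dom`, `f x = (v x) ^ (1/p)` (inverse of the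
  Frobenius map of `k`); `f (g * (t b)) = ..`; `f (g * u c) = eval c Q` by `hroot`; `PolyMap` with `r = 1`;
* `delta`, `ext`: the same functions, `Ind_jj` (`n • rho2 = jj (n • P.rho2)`).
-/

set_option autoImplicit false

open MvPolynomial

namespace Pool.Agent.RG

open Pool.Agent.DM

variable {k : Type*} [Field k] {G : Type*} [Group G] {T : Type*} [CommGroup T]
  {X : Type*} [AddCommGroup X] (P : PinData k G T X) (p : ℕ)

/-- the weights of the twist -/
def tw : AddSubgroup X where
  carrier := {l | ∀ i, (p : ℤ) ∣ P.pair i l ∧ (p : ℤ) ∣ P.pair i (P.wX l)}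
  zero_mem' i := by simp
  add_mem' ha hb i := by
    rw [map_add, map_add, map_add]
    exact ⟨dvd_add (ha i).1 (hb i).1, dvd_add (ha i).2 (hb i).2⟩
  neg_mem' ha i := by
    rw [map_neg, map_neg, map_neg, dvd_neg, dvd_neg]
    exact ha i

variable {P p}

lemma mem_tw {l : X} : l ∈ tw P p ↔ ∀ i, (p : ℤ) ∣ P.pair i l ∧ (p : ℤ) ∣ P.pair i (P.wX l) :=
  Iff.rfl

lemma wX_wX (hP : P.Ax) (l : X) : P.wX (P.wX l) = l :=
  hP.ch_inj (MonoidHom.ext fun t => by rw [hP.ch_wX, hP.ch_wX, hP.wT_wT])

lemma wX_tw (hP : P.Ax) {l : X} (hl : l ∈ tw P p) : P.wX l ∈ tw P p := fun i =>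
  ⟨(hl i).2, by rw [wX_wX hP]; exact (hl i).1⟩

lemma nsmul_tw (l : X) : p • l ∈ tw P p := fun i => by
  rw [map_nsmul, map_nsmul, map_nsmul, nsmul_eq_mul, nsmul_eq_mul]
  exact ⟨dvd_mul_right _ _, dvd_mul_right _ _⟩

variable (P p) in
/-- the embedding of the weights -/
def jj : X →+ tw P p where
  toFun l := ⟨p • l, nsmul_tw l⟩
  map_zero' := Subtype.ext (smul_zero _)
  map_add' _ _ := Subtype.ext (smul_add _ _ _)

section root

variable [IsAlgClosed k] [Fact p.Prime] [CharP k p]

variable (k p) in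
/-- `p`-th roots -/
noncomputable def rtp : kˣ ≃* kˣ := (Units.mapEquiv (frobeniusEquiv k p).toMulEquiv).symm

lemma rtp_pow (z : kˣ) : rtp k p (z ^ p) = z := by
  unfold rtp
  rw [MulEquiv.symm_apply_eq]
  apply Units.ext
  rw [Units.val_pow_eq_pow_val]
  rfl

lemma pow_rtp (z : kˣ) : (rtp k p z) ^ p = z := by
  rw [← map_pow, rtp_pow]

/-- the twist -/
noncomputable def twist (hP : P.Ax) : PinData k G T (tw P p) where
  N := P.N
  tor := P.tor
  ch l := (rtp k p).toMonoidHom.comp (P.ch l)
  rt j := jj P p (P.rt j)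
  phi := P.phi
  cr := P.cr
  pair i := AddMonoidHom.mk' (fun l => P.pair i l / p) fun a b => by
    rw [AddSubgroup.coe_add, map_add, Int.add_ediv_of_dvd_left (a.2 i).1]
  S := P.S
  h := P.h.comp (tw P p).subtype
  w0 := P.w0
  wT := P.wT
  wX := AddMonoidHom.mk' (fun l => ⟨P.wX l, wX_tw hP l.2⟩) fun _ _ =>
    Subtype.ext (map_add P.wX _ _)
  sg := P.sg

variable (hP : P.Ax)

lemma twist_u (c : Fin P.N → k) : (twist (p := p) hP).u c = P.u c := rfl

lemma twist_v (c : Fin P.N → k) : (twist (p := p) hP).v c = P.v c := rfl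

lemma twist_cell : (twist (p := p) hP).cell = P.cell := rfl

lemma twist_pair (i : Fin P.N) (l : tw P p) : (twist hP).pair i l * p = P.pair i l :=
  Int.ediv_mul_cancel (l.2 i).1

lemma twist_dom (l : tw P p) : (twist hP).Dom l ↔ P.Dom l := by
  have hp : (0 : ℤ) < p := by exact_mod_cast (Fact.out : p.Prime).pos
  constructor
  · intro h i hi
    rw [← twist_pair hP i l]
    exact mul_nonneg (h i hi) hp.le
  · intro h i hi
    have h1 := h i hi
    rw [← twist_pair hP i l] at h1
    exact nonneg_of_mul_nonneg_left h1 hp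

lemma twist_ch (l : tw P p) (t : T) : (twist hP).ch l t ^ p = P.ch l t :=
  pow_rtp _

lemma ch_jj (a : X) (t : T) : (twist (p := p) hP).ch (jj P p a) t = P.ch a t := by
  have h1 : (twist (p := p) hP).ch (jj P p a) t = rtp k p (P.ch (p • a) t) := rfl
  rw [h1, PinData.ch_nsmul hP, rtp_pow]

include hP in
lemma jj_inj : Function.Injective (jj P p) := fun a b h =>
  PinData.nsmul_inj (k := k) hP p (congrArg Subtype.val h)

lemma Ind_jj (a : X) : (twist (p := p) hP).Ind (jj P p a) = P.Ind a := by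
  ext f
  constructor
  · rintro ⟨h1, h2⟩
    refine ⟨fun g t b => ?_, h2⟩
    have h3 := h1 g t b
    rw [ch_jj] at h3
    exact h3
  · rintro ⟨h1, h2⟩
    refine ⟨fun g t b => ?_, h2⟩
    rw [ch_jj]
    exact h1 g t b

lemma twist_rho2 : (twist (p := p) hP).rho2 = jj P p P.rho2 :=
  (map_sum (jj P p) P.rt Finset.univ).symm

include hP in
private lemma wX_rho2_tw : P.wX P.rho2 = -P.rho2 := by
  unfold PinData.rho2
  rw [map_sum, ← Finset.sum_neg_distrib, ← Equiv.sum_comp P.sg (fun i => -P.rt i)]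
  exact Finset.sum_congr rfl fun i _ => hP.wX_rt i

/-- the weight `(p-1)ρ` of the twist -/
lemma exists_stz (heven : ∀ i, Even (P.pair i P.rho2)) :
    ∃ z : tw P p, (twist hP).Stz p z := by
  obtain ⟨m, hm⟩ := even_iff_two_dvd.1 (Nat.even_mul_pred_self p)
  have h1 : ∀ i, (p : ℤ) ∣ P.pair i (m • P.rho2) := by
    intro i
    obtain ⟨r, hr⟩ := heven i
    rw [map_nsmul, hr, nsmul_eq_mul]
    refine ⟨((p - 1 : ℕ) : ℤ) * r, ?_⟩
    have h2 : ((p : ℤ)) * ((p - 1 : ℕ) : ℤ) = 2 * m := by exact_mod_cast hm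
    linear_combination (-r) * h2
  have h2 : P.wX (m • P.rho2) = -(m • P.rho2) := by
    rw [map_nsmul, wX_rho2_tw hP, smul_neg]
  have h3 : m • P.rho2 ∈ tw P p := by
    intro i
    refine ⟨h1 i, ?_⟩
    rw [h2, map_neg, dvd_neg]
    exact h1 i
  refine ⟨⟨m • P.rho2, h3⟩, ?_, ?_⟩
  · rw [twist_rho2]
    apply Subtype.ext
    rw [AddSubgroup.coe_nsmul, AddSubgroup.coe_nsmul]
    change 2 • (m • P.rho2) = (p - 1) • (p • P.rho2)
    rw [← mul_smul, ← mul_smul, ← hm, mul_comm p]
  · apply Subtype.ext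
    rw [AddSubgroup.coe_neg]
    exact h2

theorem twist_ax (hroot : ∀ l, P.Dom l → (∀ i, (p : ℤ) ∣ P.pair i l) → ∀ v, P.IsV l v →
    ∀ g, ∃ Q : MvPolynomial (Fin P.N) k, ∀ c, v (g * P.u c) = (eval c Q) ^ p) :
    (twist (p := p) hP).Ax := by
  have hp : 0 < p := (Fact.out : p.Prime).pos
  have hp' : (0 : ℤ) < p := by exact_mod_cast hp
  have hhj : ∀ a : X, (twist (p := p) hP).h (jj P p a) = p * P.h a := by
    intro a
    change P.h (p • a) = _
    rw [map_nsmul, nsmul_eq_mul]
  have hpj : ∀ i (a : X), (twist (p := p) hP).pair i (jj P p a) = P.pair i a := by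
    intro i a
    have h1 := twist_pair hP i (jj P p a)
    have h2 : P.pair i ((jj P p a : tw P p) : X) = P.pair i a * p := by
      change P.pair i (p • a) = _
      rw [map_nsmul, nsmul_eq_mul, mul_comm]
    rw [h2] at h1
    exact mul_right_cancel₀ hp'.ne' h1
  constructor
  case ch_add =>
    intro l m t
    change rtp k p (P.ch ((l : X) + (m : X)) t) = _
    rw [hP.ch_add, map_mul]
    rfl
  case ch_inj =>
    intro l m h
    refine Subtype.ext (hP.ch_inj (MonoidHom.ext fun t => ?_))
    rw [← twist_ch hP, ← twist_ch hP, h]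
  case rt_inj => exact (jj_inj hP).comp hP.rt_inj
  case rt_red =>
    intro i j m n hm h
    apply hP.rt_red i j m n hm
    apply jj_inj (p := p) hP
    rw [map_nsmul, map_nsmul]
    exact h
  case h_pos =>
    intro i
    have h1 := hhj (P.rt i)
    have h2 : (twist (p := p) hP).h ((twist (p := p) hP).rt i) = p * P.h (P.rt i) := h1
    rw [h2]
    exact mul_pos hp' (hP.h_pos i)
  case h_mono =>
    intro i j hij
    have h2 : ∀ i, (twist (p := p) hP).h ((twist (p := p) hP).rt i) = p * P.h (P.rt i) :=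
      fun i => hhj (P.rt i)
    rw [h2, h2]
    exact mul_le_mul_of_nonneg_left (hP.h_mono i j hij) hp'.le
  case h_dom =>
    intro l hl
    exact hP.h_dom _ ((twist_dom hP l).1 hl)
  case tor_xp =>
    intro i t a
    have h1 : (twist (p := p) hP).ch ((twist (p := p) hP).rt i) t = P.ch (P.rt i) t :=
      ch_jj hP _ t
    rw [h1]
    exact hP.tor_xp i t a
  case tor_xm =>
    intro i t a
    have h1 : (twist (p := p) hP).ch ((twist (p := p) hP).rt i) t = P.ch (P.rt i) t :=
      ch_jj hP _ t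
    rw [h1]
    exact hP.tor_xm i t a
  case phi_dg => exact hP.phi_dg
  case ch_cr =>
    intro i l z
    change rtp k p (P.ch l (P.cr i z)) = _
    rw [hP.ch_cr, ← twist_pair hP, zpow_mul, zpow_natCast, rtp_pow]
  case pair_rt =>
    intro i
    exact (hpj i (P.rt i)).trans (hP.pair_rt i)
  case pair_rho =>
    intro i hi
    rw [twist_rho2]
    exact (hpj i P.rho2).trans (hP.pair_rho i hi)
  case u_inj => exact hP.u_inj
  case u_mul => exact hP.u_mul
  case u_inv => exact hP.u_inv
  case v_inj => exact hP.v_inj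
  case v_mul => exact hP.v_mul
  case v_inv => exact hP.v_inv
  case cell_inj => exact hP.cell_inj
  case dense => exact hP.dense
  case conj_u => exact hP.conj_u
  case conj_v => exact hP.conj_v
  case w0_tor => exact hP.w0_tor
  case wT_wT => exact hP.wT_wT
  case ch_wX =>
    intro l t
    change rtp k p (P.ch (P.wX l) t) = rtp k p (P.ch l (P.wT t))
    rw [hP.ch_wX]
  case wX_rt =>
    intro i
    apply Subtype.ext
    change P.wX (p • P.rt i) = -(p • P.rt (P.sg i))
    rw [map_nsmul, hP.wX_rt, smul_neg]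
  case w0_xp => exact hP.w0_xp
  case w0_xm => exact hP.w0_xm
  case sg_S => exact hP.sg_S
  case h_wX =>
    intro l
    exact hP.h_wX l
  case dom =>
    intro l hl
    have hl' := (twist_dom hP l).1 hl
    obtain ⟨v, hv, hv1⟩ := hP.dom l hl'
    have hf : ∀ x, ((frobeniusEquiv k p).symm (v x)) ^ p = v x := fun x => by
      have h1 := (frobeniusEquiv k p).apply_symm_apply (v x)
      rwa [frobeniusEquiv_apply, frobenius_def] at h1
    refine ⟨fun x => (frobeniusEquiv k p).symm (v x), ⟨fun g t b => ?_, fun g => ?_⟩, fun c => ?_⟩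
    · apply frobenius_inj k p
      rw [frobenius_def, frobenius_def, mul_pow, hf, hf, ← Units.val_pow_eq_pow_val, inv_pow,
        twist_ch]
      exact hv.1 g t b
    · obtain ⟨Q, hQ⟩ := hroot l hl' (fun i => (l.2 i).1) v ⟨hv, hv1⟩ g
      refine polyMap_iff.2 ⟨Q, fun c => ?_⟩
      apply frobenius_inj k p
      rw [frobenius_def, frobenius_def, hf]
      exact hQ c
    · apply frobenius_inj k p
      rw [frobenius_def, frobenius_def, hf, one_pow]
      exact hv1 c
  case delta =>
    rw [twist_rho2, Ind_jj]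
    exact hP.delta
  case ext =>
    intro Q
    obtain ⟨n, f, hf, hfc⟩ := hP.ext Q
    refine ⟨n, f, ?_, hfc⟩
    rw [twist_rho2, ← map_nsmul, Ind_jj]
    exact hf
  case gen_u => exact hP.gen_u
  case gen_v => exact hP.gen_v
  case gen => exact hP.gen

end root

end Pool.Agent.RG
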