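import Pool.Agent.RDG.PinA
import Pool.Agent.RDG.Tw
import Pool.Agent.RDG.Glue
import Pool.Agent.TRN.Low
import Pool.Agent.DM.Wt

/-!
# RDG / BR: from `PinData.Good` for the twist to `GoodIn`

`G.tws p` is the twist of `G.pin`. A rational representation of `G.pg` on `V`:
* `mem_wt_jj`: the weight spaces of weight `jj a` are the weight spaces of weight `a` (`ch_jj`);
* `isU_iff`: `G.pg.U` is the set of the `pin.u c` (`mem_U`, `upr_mem_UU`, `pin_u`);
* `ratOn`: `wts`: `sum_wt`; `fin`: `exists_finite`; `pu`: `ρ g x = ∑ f_i(g) w_i`, `f_i ∈ G.A`, and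
  `f_i (upr xp c)` is a polynomial in `c` (`Rg.upr`, `Rg.x` or `A_LR` with `z = 1`, `r = 0`);
* `low_wt`: `x ∈ low (h (jj a))` has `wt hρ b x = 0` for `ht a ≤ ht b`: `mem_low_iff` gives `x = ∑ y_l`, `y_l` of weight `l`
  with `h l < p * ht a`; `wt hρ b y_l` has weight `jj b` for the twist, and `wt hρ b y_l = 0` unless `l = jj b`
  (decompose `y_l = ∑ wt hρ b' y_l`, `wt_indep`), where `h l = p * ht b`;
* `goodIn_of_good`: `goodIn_of_low` with `D.ht = hgt b`, `Dmt.hgt_nonneg` (`domX_eq`), `Ind_jj`, `mem_pin_Ind`;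
  `wt b (ρ g⁻¹ w - F g • v) = 0` for `ht a ≤ ht b`.
* `rational_of_ratOn`: a representation which is `RatOn` for the twist, with all weights in the image of `jj`, is
  rational: let `x ∈ V`, `F ∋ x` a finite-dimensional stable subspace with a basis. For a functional `ξ` the function
  `f g = ξ (ρ g x)` is in `G.A` by `glue`: for `g0 : Γ`,
  `ρ (g0 * om s z r) x = ρ g0 ρ (u s) ρ (t z) ρ (v r) x`; `ρ (v r) x = ∑ Q_i(r) w_i`, `w_i = ∑_a w_{i,a}` with
  `ρ (t z) w_{i,a} = ch a z • w_{i,a}` (weight `jj a`), `ρ (u s) w_{i,a} = ∑ Q'(s) w'`; so `f (g0 * om s z r)` is a sum of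
  products of polynomials in `s`, `r` and characters (`LR.sum`, `LR.mul`, ...). Then `ρ g x = ∑ ξ_i(ρ g x) e_i`.
* `Good.of_inj`: `φ` equivariant, injective on `V`, `W` rational: if `a ∈ W.map φ`, `a = φ a'`, and
  `φ (ρ g⁻¹ a' - x g • m) ∈ low`, then `ρ g⁻¹ a' - x g • m ∈ low` (`RatOn.exists_wt`, `low_comp`).
-/

set_option autoImplicit false

open MvPolynomial

namespace Pool.Agent.RG

open Pool.Agent.TRN

section

variable {k : Type*} [Field k] {G : Type*} [Group G] {T : Type*} [CommGroup T]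
  {X : Type*} [AddCommGroup X] {P : DM.PinData k G T X} {V V' : Type*} [AddCommGroup V]
  [Module k V] [AddCommGroup V'] [Module k V'] {ρ : Representation k G V}
  {ρ' : Representation k G V'}

theorem Good.of_inj (hP : P.Ax) {φ : V →ₗ[k] V'} (hφ : ∀ g x, φ (ρ g x) = ρ' g (φ x))
    (hinj : Function.Injective φ) {W : Submodule k V} (hW : P.RatOn ρ W)
    (h : P.Good ρ' (W.map φ)) : P.Good ρ W := by
  have hwt : ∀ l x, x ∈ P.wt ρ l → φ x ∈ P.wt ρ' l := by
    intro l x hx t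
    rw [← hφ, hx t, map_smul]
  intro n m hm hmn x hx
  have h1 : φ m ∈ P.hw ρ' n := ⟨hwt n m hmn.1, fun c => by rw [← hφ, hmn.2 c]⟩
  obtain ⟨a, ha, hag⟩ := h n (φ m) (Submodule.mem_map_of_mem hm) h1 x hx
  obtain ⟨a', ha', rfl⟩ := Submodule.mem_map.1 ha
  refine ⟨a', ha', fun g => ?_⟩
  have h2 : ρ g⁻¹ a' - x g • m ∈ W := W.sub_mem (hW.stable _ _ ha') (W.smul_mem _ hm)
  obtain ⟨F, y, hy, e⟩ := DM.PinData.RatOn.exists_wt hP hW h2
  have h3 := hag g
  rw [← hφ, ← map_smul, ← map_sub, e, map_sum] at h3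
  have h4 := DM.PinData.low_comp hP (F := F) (x := fun l => φ (y l))
    (fun l hl => hwt l _ (hy l hl).1) h3
  rw [e]
  refine Submodule.sum_mem _ fun l hl => ?_
  by_cases h5 : y l = 0
  · rw [h5]
    exact Submodule.zero_mem _
  · refine DM.PinData.wt_le_low (h4 l hl fun h6 => h5 (hinj ?_)) (hy l hl).1
    rw [map_zero]
    exact h6

end

variable {k : Type*} [Field k] {ι X Y : Type*} [AddCommGroup X] [AddCommGroup Y] [Finite ι]
  {P : RootDatum ι X Y} {b : P.Base} {Γ : Type*} [Group Γ] (G : RedGrp k P b Γ)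
  [IsAlgClosed k] [Module.Finite ℤ X] [Module.Free ℤ X] [P.IsReduced]
  (p : ℕ) [Fact p.Prime] [CharP k p]
  {V : Type*} [AddCommGroup V] [Module k V] {ρ : Representation k Γ V}

namespace RedGrp

/-- the twist of the data of a reductive group -/
noncomputable def tws : DM.PinData k Γ (Tor k X) (tw G.pin p) := twist G.pin_ax

variable {G} {p}

lemma mem_wt_jj {a : X} {x : V} : x ∈ (G.tws p).wt ρ (jj G.pin p a) ↔ G.pg.IsWt ρ a x := by
  constructor
  · intro h z
    have h1 := h z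
    have h2 : (G.tws p).ch (jj G.pin p a) z = G.pin.ch a z := ch_jj G.pin_ax a z
    rw [h2] at h1
    exact h1
  · intro h z
    have h2 : (G.tws p).ch (jj G.pin p a) z = G.pin.ch a z := ch_jj G.pin_ax a z
    rw [h2]
    exact h z

private lemma br_u (c : Fin (enN b) → k) : (G.tws p).u c = upr G.xp c := G.pin_u c

private lemma br_v (c : Fin (enN b) → k) : (G.tws p).v c = upr G.xm c := G.pin_v c

lemma isU_iff {x : V} : G.pg.IsU ρ x ↔ ∀ c, ρ ((G.tws p).u c) x = x := by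
  constructor
  · intro h c
    have h1 : (G.tws p).u c = upr G.xp c := br_u c
    rw [h1]
    exact h _ (G.upr_mem_UU c)
  · intro h u hu
    obtain ⟨s, rfl⟩ := G.mem_U hu
    have h1 : (G.tws p).u s = upr G.xp s := br_u s
    rw [← h1]
    exact h s

/-- the polynomial functions -/
private noncomputable def brR (k : Type*) [Field k] (τ : Type*) : Subalgebra k ((τ → k) → k) :=
  (MvPolynomial.aeval (R := k) (fun (j : τ) (v : τ → k) => v j)).range

private lemma br_aeval {τ : Type*} (Q : MvPolynomial τ k) (v : τ → k) :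
    (MvPolynomial.aeval (R := k) (fun (j : τ) (v : τ → k) => v j) Q) v = eval v Q := by
  induction Q using MvPolynomial.induction_on with
  | C a => simp
  | add p q hp hq => rw [map_add, Pi.add_apply, hp, hq, map_add]
  | mul_X p i hp => rw [map_mul, Pi.mul_apply, hp, map_mul, aeval_X, eval_X]

private lemma mem_brR {τ : Type*} {f : (τ → k) → k} :
    f ∈ brR k τ ↔ ∃ Q : MvPolynomial τ k, ∀ v, f v = eval v Q := by
  constructor
  · rintro ⟨Q, hQ⟩
    exact ⟨Q, fun v => by rw [← hQ]; exact br_aeval Q v⟩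
  · rintro ⟨Q, hQ⟩
    exact ⟨Q, by funext v; rw [hQ]; exact br_aeval Q v⟩

private lemma br_X {τ : Type*} (j : τ) : (fun v : τ → k => v j) ∈ brR k τ :=
  mem_brR.2 ⟨X j, fun v => by rw [eval_X]⟩

private lemma br_polU {f : Γ → k} (hf : f ∈ G.A) :
    ∃ Q : MvPolynomial (Fin (enN b)) k, ∀ c, f (upr G.xp c) = eval c Q := by
  have h3 : G.Rg (brR k (Fin (enN b))) (fun c : Fin (enN b) → k => upr G.xp c) :=
    Rg.upr (s := fun (j : Fin (enN b)) (z : Fin (enN b) → k) => z j)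
      fun j => Rg.x G (en b j : ι) (br_X j)
  exact mem_brR.1 (h3 _ hf)

private lemma br_polV {f : Γ → k} (hf : f ∈ G.A) :
    ∃ Q : MvPolynomial (Fin (enN b)) k, ∀ c, f (upr G.xm c) = eval c Q := by
  have h3 : G.Rg (brR k (Fin (enN b))) (fun c : Fin (enN b) → k => upr G.xm c) :=
    Rg.upr (s := fun (j : Fin (enN b)) (z : Fin (enN b) → k) => z j)
      fun j => Rg.x G _ (br_X j)
  exact mem_brR.1 (h3 _ hf)

theorem ratOn (hρ : G.pg.IsRational ρ) {W : Submodule k V} (hW : TRN.Stable ρ W) :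
    (G.tws p).RatOn ρ W := by
  constructor
  · exact hW
  · intro x hx
    obtain ⟨Y, h1, h2, h3, h4⟩ := PG.exists_finite hρ {x}
    refine ⟨Y, h3 x (Finset.mem_singleton_self x), h4 W hW fun v hv => ?_, h2, h1⟩
    rw [Finset.mem_singleton.1 hv]
    exact hx
  · intro x _
    obtain ⟨s, -, hs⟩ := PG.sum_wt hρ x
    rw [hs]
    refine Submodule.sum_mem _ fun a _ => ?_
    exact Submodule.mem_iSup_of_mem (jj G.pin p a) (mem_wt_jj.2 (PG.wt_isWt hρ a x))
  · intro x _
    obtain ⟨m, f, w, hf, e⟩ := hρ x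
    choose Q hQ using fun i => br_polU (hf i)
    refine ⟨m, Q, w, fun c => ?_⟩
    change Fin (enN b) → k at c
    have h1 : (G.tws p).u c = upr G.xp c := br_u c
    have h2 : ρ (upr G.xp c) x = ∑ i, f i (upr G.xp c) • w i := e _
    have h3 : ρ ((G.tws p).u c) x = ∑ i, eval c (Q i) • w i := by
      rw [h1, h2]
      exact Finset.sum_congr rfl fun i _ => by rw [hQ]
    exact h3
  · intro x _
    obtain ⟨m, f, w, hf, e⟩ := hρ x
    choose Q hQ using fun i => br_polV (hf i)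
    refine ⟨m, Q, w, fun c => ?_⟩
    change Fin (enN b) → k at c
    have h1 : (G.tws p).v c = upr G.xm c := br_v c
    have h2 : ρ (upr G.xm c) x = ∑ i, f i (upr G.xm c) • w i := e _
    have h3 : ρ ((G.tws p).v c) x = ∑ i, eval c (Q i) • w i := by
      rw [h1, h2]
      exact Finset.sum_congr rfl fun i _ => by rw [hQ]
    exact h3

private lemma br_h (a : X) : (G.tws p).h (jj G.pin p a) = p * hgt b a := by
  change hgt b (p • a) = _
  rw [map_nsmul, nsmul_eq_mul]

theorem low_wt (hP : (G.tws p).Ax) (hρ : G.pg.IsRational ρ) {a : X} {x : V}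
    (hx : x ∈ (G.tws p).low ρ ((G.tws p).h (jj G.pin p a))) {b' : X} (h : hgt b a ≤ hgt b b') :
    PG.wt hρ b' x = 0 := by
  by_contra hne
  have hji : Function.Injective (jj G.pin p) := jj_inj G.pin_ax
  obtain ⟨s, hs0, hs⟩ := PG.sum_wt hρ x
  have hb : b' ∈ s := by
    by_contra hb
    exact hne (hs0 b' hb)
  have h1 : ∑ l ∈ s.map ⟨jj G.pin p, hji⟩,
      Function.extend (jj G.pin p) (fun a' => PG.wt hρ a' x) 0 l = x := by
    rw [Finset.sum_map]
    conv_rhs => rw [hs]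
    refine Finset.sum_congr rfl fun a' _ => ?_
    exact hji.extend_apply _ _ a'
  have h2 := DM.PinData.low_comp (ρ := ρ) hP (c := (G.tws p).h (jj G.pin p a))
    (F := s.map ⟨jj G.pin p, hji⟩)
    (x := Function.extend (jj G.pin p) (fun a' => PG.wt hρ a' x) 0) (fun l hl => by
      obtain ⟨a', -, rfl⟩ := Finset.mem_map.1 hl
      have h3 : Function.extend (jj G.pin p) (fun a' => PG.wt hρ a' x) 0 (jj G.pin p a') =
        PG.wt hρ a' x := hji.extend_apply _ _ a'
      have h4 : PG.wt hρ a' x ∈ (G.tws p).wt ρ (jj G.pin p a') :=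
        mem_wt_jj.2 (PG.wt_isWt hρ a' x)
      rw [← h3] at h4
      exact h4) (by rw [h1]; exact hx) (jj G.pin p b') (Finset.mem_map_of_mem _ hb) (by
      have h3 : Function.extend (jj G.pin p) (fun a' => PG.wt hρ a' x) 0 (jj G.pin p b') =
        PG.wt hρ b' x := hji.extend_apply _ _ b'
      rw [h3]
      exact hne)
  rw [br_h, br_h] at h2
  have hp : (0 : ℤ) ≤ p := Int.natCast_nonneg p
  exact absurd (mul_le_mul_of_nonneg_left h hp) (not_le.2 h2)

theorem goodIn_of_good (hP : (G.tws p).Ax) (hρ : G.pg.IsRational ρ) {W : Submodule k V}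
    (hW : TRN.Stable ρ W) (h : (G.tws p).Good ρ W) : PG.GoodIn hρ W := by
  have : Infinite k := IsAlgClosed.instInfinite
  refine PG.goodIn_of_low hρ (fun a ha => ((domX_eq b).1 ha).hgt_nonneg) hW ?_
  intro a v hv hU hwt F hF
  have h1 : F ∈ (G.tws p).Ind (jj G.pin p a) := by
    have h2 : (G.tws p).Ind (jj G.pin p a) = G.pin.Ind a := Ind_jj G.pin_ax a
    rw [h2]
    exact G.mem_pin_Ind.2 hF
  obtain ⟨w, hw, hwg⟩ := h (jj G.pin p a) v hv ⟨mem_wt_jj.2 hwt, isU_iff.1 hU⟩ F h1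
  refine ⟨w, hw, fun g b' hb' => ?_⟩
  have h2 := low_wt hP hρ (hwg g) hb'
  rw [map_sub, map_smul, sub_eq_zero] at h2
  exact h2

private lemma br_LRwt (h : (G.tws p).RatOn ρ ⊤)
    (hw : ∀ l x, x ∈ (G.tws p).wt ρ l → x ≠ 0 → ∃ a, l = jj G.pin p a)
    (ξ : V →ₗ[k] k) (g : Γ) {l : tw G.pin p} {y : V} (hy : y ∈ (G.tws p).wt ρ l) :
    LR fun (v : Fin (enN b) ⊕ Fin (enN b) → k) z =>
      ξ (ρ g (ρ (upr G.xp fun j => v (Sum.inl j)) (ρ (G.t z) y))) := by
  by_cases h0 : y = 0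
  · refine LR.zero'.congr fun v z => ?_
    rw [h0, map_zero, map_zero, map_zero, map_zero]
  · obtain ⟨a, rfl⟩ := hw l y hy h0
    have h1 := mem_wt_jj.1 hy
    obtain ⟨m, Q, w, hQ⟩ := h.pu y trivial
    have h2 : LR (fun (v : Fin (enN b) ⊕ Fin (enN b) → k) (z : Tor k X) =>
        ∑ j, (ch a z : k) * eval v (rename Sum.inl (Q j)) * ξ (ρ g (w j))) :=
      LR.sum _ fun j _ => ((LR.char a).mul (LR.poly' _)).mul (LR.const _)
    refine h2.congr fun v z => ?_
    have h3 : ρ (G.t z) y = ((ch a z : kˣ) : k) • y := h1 z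
    have h4 : ρ (upr G.xp fun j => v (Sum.inl j)) y =
        ∑ j, eval (fun j => v (Sum.inl j)) (Q j) • w j := by
      have h5 := hQ fun j => v (Sum.inl j)
      have h6 : (G.tws p).u (fun j => v (Sum.inl j)) = upr G.xp fun j => v (Sum.inl j) := br_u _
      beta_reduce at h5
      rw [h6] at h5
      exact h5
    rw [h3, map_smul, h4, map_smul, map_smul, map_sum, map_sum, smul_eq_mul, Finset.mul_sum]
    refine Finset.sum_congr rfl fun j _ => ?_
    rw [map_smul, map_smul, smul_eq_mul, eval_rename, mul_assoc]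
    rfl

private lemma br_LRw (h : (G.tws p).RatOn ρ ⊤)
    (hw : ∀ l x, x ∈ (G.tws p).wt ρ l → x ≠ 0 → ∃ a, l = jj G.pin p a)
    (ξ : V →ₗ[k] k) (g : Γ) (y : V) :
    LR fun (v : Fin (enN b) ⊕ Fin (enN b) → k) z =>
      ξ (ρ g (ρ (upr G.xp fun j => v (Sum.inl j)) (ρ (G.t z) y))) := by
  obtain ⟨F, w, hF, e⟩ := DM.PinData.mem_iSup_wt (h.wts (x := y) trivial)
  refine (LR.sum F (f := fun l v z =>
    ξ (ρ g (ρ (upr G.xp fun j => v (Sum.inl j)) (ρ (G.t z) (w l)))))
    fun l hl => br_LRwt h hw ξ g (hF l hl)).congr fun v z => ?_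
  rw [e, map_sum, map_sum, map_sum, map_sum]

private lemma br_mem (h : (G.tws p).RatOn ρ ⊤)
    (hw : ∀ l x, x ∈ (G.tws p).wt ρ l → x ≠ 0 → ∃ a, l = jj G.pin p a)
    (ξ : V →ₗ[k] k) (x : V) : (fun g => ξ (ρ g x)) ∈ G.A := by
  refine G.glue _ fun g => ?_
  obtain ⟨m, Q, w, hQ⟩ := h.pv x trivial
  have h2 : LR (fun (v : Fin (enN b) ⊕ Fin (enN b) → k) (z : Tor k X) =>
      ∑ j, eval v (rename Sum.inr (Q j)) *
        ξ (ρ g (ρ (upr G.xp fun j => v (Sum.inl j)) (ρ (G.t z) (w j))))) :=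
    LR.sum _ fun j _ => (LR.poly' _).mul (br_LRw h hw ξ g (w j))
  refine h2.congr fun v z => ?_
  have h4 : ρ (upr G.xm fun j => v (Sum.inr j)) x =
      ∑ j, eval (fun j => v (Sum.inr j)) (Q j) • w j := by
    have h5 := hQ fun j => v (Sum.inr j)
    have h6 : (G.tws p).v (fun j => v (Sum.inr j)) = upr G.xm fun j => v (Sum.inr j) := br_v _
    beta_reduce at h5
    rw [h6] at h5
    exact h5
  rw [om, mul_apply', mul_apply', mul_apply', h4, map_sum, map_sum, map_sum, map_sum]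
  refine Finset.sum_congr rfl fun j _ => ?_
  rw [map_smul, map_smul, map_smul, map_smul, smul_eq_mul, eval_rename]
  rfl

theorem rational_of_ratOn (hP : (G.tws p).Ax) (h : (G.tws p).RatOn ρ ⊤)
    (hw : ∀ l x, x ∈ (G.tws p).wt ρ l → x ≠ 0 → ∃ a, l = jj G.pin p a) : G.pg.IsRational ρ := by
  intro x
  obtain ⟨F, hxF, -, hfin, hst⟩ := h.fin x trivial
  have B := Module.finBasis k F
  have hext : ∀ i, ∃ ξ : V →ₗ[k] k, ∀ y : F, ξ y = B.coord i y := by
    intro i
    obtain ⟨ξ, hξ⟩ := LinearMap.exists_extend (B.coord i)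
    exact ⟨ξ, fun y => DFunLike.congr_fun hξ y⟩
  choose ξ hξ using hext
  refine ⟨_, fun i g => ξ i (ρ g x), fun i => (B i : V), fun i => br_mem h hw _ _, fun g => ?_⟩
  have h1 := B.sum_repr ⟨ρ g x, hst g x hxF⟩
  have h2 := congrArg Subtype.val h1
  rw [Submodule.coe_sum] at h2
  refine h2.symm.trans (Finset.sum_congr rfl fun i _ => ?_)
  have h3 := hξ i ⟨ρ g x, hst g x hxF⟩
  rw [Submodule.coe_smul]
  congr 1
  exact h3.symm

end RedGrp

end Pool.Agent.RG
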