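import Pool.Agent.RDG.Uni
import Pool.Agent.RDG.TorG

/-!
# RG / CELL: the big cell

`om s z r = u(s) t(z) u⁻(r)`.

* `A_LR`: for `f ∈ A` the function `f (om s z r)` is regular on `k ^ (2N) × T`: the functions `LR` form
  a subalgebra (`LRalg`) of the functions on `(τ → k) × T`, and `om` is a regular map
  (`Rg.mul`, `Rg.upr`, `Rg.x`, and `t_reg` for `t`).
* `exists_vd`: take `d` from `G.cell` for the enumeration `en b` (`xm` is definitionally the map there).
  `d ∘ om` is regular and nowhere zero, so it is `c * ch a z` (`LR.unit`); `vd = c⁻¹ d`, `δ = - a`.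
  (`G.cell` is stated with `s z r`; use `Sum.elim`.)
* `om_inj`: if `om s z r = om s' z' r'`, the extension property (`vd_ext`) for `Q = X_j`, `a = 0` gives
  `s_j = s'_j`, `r_j = r'_j` (`vd ≠ 0` there), for `Q = 1` and arbitrary `a`: `ch a z = ch a z'`.
* `vd_ext'`: for every `LR` function `F` a power of `vd` times `F` extends to an element of `A`
  vanishing outside of the cell: `F` is a finite sum of functions `eval v Q * ch a z`; take a
  common power and multiply once more by `vd`.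
* `eq_zero`: `f ∈ A` with `f ∘ om = 0`: `f * vd = 0`, so `f = 0` (`G.dom`, `vd 1 = 1`).
* `poly_U`: `f_j ∈ A` with `f_j = vd ^ n * s_j` on the cell; `vd = 1` on `U`, so the coordinates of
  `F z ∈ U` are `f_j (F z) ∈ R`. Same for `V`.
* `mul_simple`: `xi_UI`: `upr s ∈ x_i(s_i) UI`, so `upr s * upr r ∈ x_i(s_i + r_i) UI` (`UI_norm` with
  `up`), and `upr q ∈ x_i(q_i) UI`; then `x_i(q_i - s_i - r_i) ∈ UI`, so `= upr s'` with `s'_i = 0`
  (`mem_UI`) and `om_inj` gives `q_i = s_i + r_i` (`x_i(c) = upr (Pi.single i c)`).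
* `dense`: if `vd (g * upr s) = 0` for all `s` then `vd (g * om s z r) = 0` for all `s, z, r`
  (`vd_right`), so the translate of `vd` vanishes (`eq_zero`); but its value at `g⁻¹` is `1`.
-/

set_option autoImplicit false

open MvPolynomial

namespace Pool.Agent.RG

/-- the algebra of the regular functions on `k ^ τ × T` -/
def LRalg (k : Type*) [Field k] (X : Type*) [AddCommGroup X] (τ : Type*) :
    Subalgebra k ((τ → k) × Tor k X → k) where
  carrier := {F | LR fun v z => F (v, z)}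
  mul_mem' h h' := h.mul h'
  add_mem' h h' := h.add h'
  algebraMap_mem' c := (LR.const c).congr fun _ _ => rfl

variable {k : Type*} [Field k] {ι X Y : Type*} [AddCommGroup X] [AddCommGroup Y] [Finite ι]
  {P : RootDatum ι X Y} {b : P.Base} {Γ : Type*} [Group Γ] (G : RedGrp k P b Γ)

namespace RedGrp

/-- the product map of the big cell -/
noncomputable def om (s : Fin (enN b) → k) (z : Tor k X) (r : Fin (enN b) → k) : Γ :=
  upr G.xp s * G.t z * upr G.xm r

private lemma upr_xp_zero : upr G.xp (0 : Fin (enN b) → k) = 1 := by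
  apply List.prod_eq_one
  intro y hy
  rw [List.mem_ofFn] at hy
  obtain ⟨j, rfl⟩ := hy
  exact G.x_zero _

private lemma upr_xm_zero : upr G.xm (0 : Fin (enN b) → k) = 1 := by
  apply List.prod_eq_one
  intro y hy
  rw [List.mem_ofFn] at hy
  obtain ⟨j, rfl⟩ := hy
  exact G.x_zero _

private lemma t_inv (z : Tor k X) : G.t z⁻¹ = (G.t z)⁻¹ := map_inv G.t z

private lemma om_s (s : Fin (enN b) → k) : G.om s 1 0 = upr G.xp s := by
  rw [om, upr_xm_zero, map_one, mul_one, mul_one]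

private lemma om_r (r : Fin (enN b) → k) : G.om 0 1 r = upr G.xm r := by
  rw [om, upr_xp_zero, map_one, mul_one, one_mul]

lemma om_one : G.om 0 1 0 = 1 := by
  rw [om_s, upr_xp_zero]

/-- right multiplication by the negative Borel subgroup -/
lemma om_right (s : Fin (enN b) → k) (z : Tor k X) (r : Fin (enN b) → k) (w : Tor k X) :
    G.om s z r * G.t w = G.om s (z * w) fun j => (ch (P.root (en b j : ι)) w : k) * r j := by
  have h1 := G.t_upr_xm w⁻¹ r
  rw [t_inv, inv_inv] at h1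
  have h2 : (fun j => (ch (-P.root (en b j : ι)) w⁻¹ : k) * r j) =
      fun j => (ch (P.root (en b j : ι)) w : k) * r j := by
    funext j
    rw [ch_neg, ch_inv', inv_inv]
  rw [h2] at h1
  rw [om, om, map_mul, ← h1]
  group

theorem A_LR {f : Γ → k} (hf : f ∈ G.A) :
    LR fun (v : Fin (enN b) ⊕ Fin (enN b) → k) z =>
      f (G.om (fun j => v (Sum.inl j)) z fun j => v (Sum.inr j)) := by
  have h1 : G.Rg (LRalg k X (Fin (enN b) ⊕ Fin (enN b))) (fun p =>
      G.om (fun j => p.1 (Sum.inl j)) p.2 fun j => p.1 (Sum.inr j)) := by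
    refine Rg.mul (Rg.mul (Rg.upr fun j => Rg.x G _ ?_) ?_) (Rg.upr fun j => Rg.x G _ ?_)
    · exact (LR.poly' (MvPolynomial.X (Sum.inl j))).congr fun v z => by rw [eval_X]
    · intro f hf
      obtain ⟨S, c, hc⟩ := G.t_reg f hf
      exact ⟨S, fun a => C (c a), fun v z => (hc z).trans (Finset.sum_congr rfl fun a _ => by
        rw [eval_C])⟩
    · exact (LR.poly' (MvPolynomial.X (Sum.inr j))).congr fun v z => by rw [eval_X]
  exact h1 f hf

variable [IsAlgClosed k] [Module.Finite ℤ X] [Module.Free ℤ X] [P.IsReduced]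

theorem exists_vd : ∃ (δ : X) (v : Γ → k), v ∈ G.A ∧ (∀ s z r, v (G.om s z r) = ((ch δ z)⁻¹ : kˣ)) ∧
    (∀ g, v g ≠ 0 ↔ ∃ s z r, g = G.om s z r) ∧
    ∀ (Q : MvPolynomial (Fin (enN b) ⊕ Fin (enN b)) k) (a : X), ∃ n, ∃ f ∈ G.A, ∀ s z r,
      f (G.om s z r) = v (G.om s z r) ^ n * (eval (Sum.elim s r) Q * (ch a z : k)) := by
  obtain ⟨d, hd, hd1, hd2⟩ := G.cell (enN b) (en b)
  have hd1' : ∀ g, d g ≠ 0 ↔ ∃ s z r, g = G.om s z r := hd1
  have hd2' : ∀ (Q : MvPolynomial (Fin (enN b) ⊕ Fin (enN b)) k) (a : X), ∃ n, ∃ f ∈ G.A, ∀ s z r,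
      f (G.om s z r) = d (G.om s z r) ^ n * (eval (Sum.elim s r) Q * (ch a z : k)) := hd2
  obtain ⟨c, a, hc, hca⟩ := LR.unit (G.A_LR hd) (fun v z => (hd1' _).2 ⟨_, _, _, rfl⟩)
  have hom : ∀ s z r, d (G.om s z r) = c * (ch a z : k) := by
    intro s z r
    have := hca (Sum.elim s r) z
    simpa using this
  refine ⟨-a, c⁻¹ • d, G.A.smul_mem hd _, fun s z r => ?_, fun g => ?_, fun Q a' => ?_⟩
  · rw [Pi.smul_apply, smul_eq_mul, hom, ← mul_assoc, inv_mul_cancel₀ hc, one_mul, ch_neg, inv_inv]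
  · rw [← hd1', Pi.smul_apply, smul_eq_mul, ne_eq, mul_eq_zero, not_or]
    exact ⟨fun h => h.2, fun h => ⟨inv_ne_zero hc, h⟩⟩
  · obtain ⟨n, f, hf, hf'⟩ := hd2' Q a'
    refine ⟨n, (c⁻¹) ^ n • f, G.A.smul_mem hf _, fun s z r => ?_⟩
    rw [Pi.smul_apply, Pi.smul_apply, smul_eq_mul, smul_eq_mul, hf', mul_pow]
    ring

/-- the weight of the function which defines the big cell -/
noncomputable def de : X := G.exists_vd.choose

/-- the function which defines the big cell -/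
noncomputable def vd : Γ → k := G.exists_vd.choose_spec.choose

lemma vd_mem : G.vd ∈ G.A := G.exists_vd.choose_spec.choose_spec.1

lemma vd_om (s : Fin (enN b) → k) (z : Tor k X) (r : Fin (enN b) → k) :
    G.vd (G.om s z r) = ((ch G.de z)⁻¹ : kˣ) := G.exists_vd.choose_spec.choose_spec.2.1 s z r

lemma vd_ne (g : Γ) : G.vd g ≠ 0 ↔ ∃ s z r, g = G.om s z r :=
  G.exists_vd.choose_spec.choose_spec.2.2.1 g

lemma vd_ext (Q : MvPolynomial (Fin (enN b) ⊕ Fin (enN b)) k) (a : X) : ∃ n, ∃ f ∈ G.A, ∀ s z r,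
    f (G.om s z r) = G.vd (G.om s z r) ^ n * (eval (Sum.elim s r) Q * (ch a z : k)) :=
  G.exists_vd.choose_spec.choose_spec.2.2.2 Q a

lemma vd_one : G.vd 1 = 1 := by
  rw [← G.om_one, vd_om, ch_one', inv_one, Units.val_one]

theorem om_inj {s z r s' z' r'} (h : G.om s z r = G.om s' z' r') : s = s' ∧ z = z' ∧ r = r' := by
  have key : ∀ (Q : MvPolynomial (Fin (enN b) ⊕ Fin (enN b)) k) (a : X),
      eval (Sum.elim s r) Q * (ch a z : k) = eval (Sum.elim s' r') Q * (ch a z' : k) := by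
    intro Q a
    obtain ⟨n, f, _, hf⟩ := G.vd_ext Q a
    have h1 := hf s z r
    have h2 := hf s' z' r'
    rw [h] at h1
    have h3 : G.vd (G.om s' z' r') ^ n ≠ 0 := by
      rw [vd_om]
      exact pow_ne_zero n (Units.ne_zero _)
    exact mul_left_cancel₀ h3 (h1.symm.trans h2)
  have key0 : ∀ Q : MvPolynomial (Fin (enN b) ⊕ Fin (enN b)) k,
      eval (Sum.elim s r) Q = eval (Sum.elim s' r') Q := by
    intro Q
    have h1 := key Q 0
    rwa [ch_zero, ch_zero, Units.val_one, mul_one, mul_one] at h1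
  refine ⟨?_, ?_, ?_⟩
  · funext j
    have := key0 (MvPolynomial.X (Sum.inl j))
    simpa using this
  · apply MonoidHom.ext
    intro a
    have h1 := key 1 a.toAdd
    rw [map_one, map_one, one_mul, one_mul] at h1
    exact Units.ext h1
  · funext j
    have := key0 (MvPolynomial.X (Sum.inr j))
    simpa using this

private lemma om_mul_VV (s : Fin (enN b) → k) (z : Tor k X) (r : Fin (enN b) → k) {u : Γ}
    (hu : u ∈ G.VV) : ∃ r', G.om s z r * u = G.om s z r' := by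
  obtain ⟨r', hr'⟩ := G.mem_V (G.VV.mul_mem (G.upr_mem_VV r) hu)
  refine ⟨r', ?_⟩
  rw [om, om, ← hr', mul_assoc]

/-- for `u ∈ U⁻` -/
lemma vd_right (g : Γ) {u : Γ} (hu : u ∈ G.VV) (z : Tor k X) :
    G.vd (g * (u * G.t z)) = ((ch G.de z)⁻¹ : kˣ) * G.vd g := by
  by_cases hg : G.vd g = 0
  · rw [hg, mul_zero]
    by_contra hne
    obtain ⟨s, z₁, r, e⟩ := (G.vd_ne _).1 hne
    have h1 : g = G.om s z₁ r * G.t z⁻¹ * u⁻¹ := by
      rw [← e, t_inv]
      group
    rw [om_right] at h1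
    obtain ⟨r', hr'⟩ := G.om_mul_VV s (z₁ * z⁻¹)
      (fun j => (ch (P.root (en b j : ι)) z⁻¹ : k) * r j) (G.VV.inv_mem hu)
    rw [hr'] at h1
    exact (G.vd_ne g).2 ⟨_, _, _, h1⟩ hg
  · obtain ⟨s, z₁, r, rfl⟩ := (G.vd_ne _).1 hg
    obtain ⟨r', hr'⟩ := G.om_mul_VV s z₁ r hu
    rw [← mul_assoc, hr', om_right, vd_om, vd_om, ch_mul', mul_inv, Units.val_mul, mul_comm]

theorem vd_ext' {F : (Fin (enN b) ⊕ Fin (enN b) → k) → Tor k X → k} (h : LR F) :
    ∃ n₀ : ℕ, ∀ n, n₀ ≤ n → ∃ f ∈ G.A,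
      (∀ s z r, f (G.om s z r) = G.vd (G.om s z r) ^ n * F (Sum.elim s r) z) ∧
      ∀ g, G.vd g = 0 → f g = 0 := by
  obtain ⟨S, Q, hQ⟩ := h
  choose m f hf hf' using fun a => G.vd_ext (Q a) a
  refine ⟨∑ a ∈ S, m a + 1, fun n hn => ?_⟩
  have hm : ∀ a ∈ S, m a + 1 ≤ n := by
    intro a ha
    have : m a ≤ ∑ a ∈ S, m a := Finset.single_le_sum (fun _ _ => Nat.zero_le _) ha
    omega
  refine ⟨∑ a ∈ S, G.vd ^ (n - m a) * f a, ?_, ?_, ?_⟩
  · exact sum_mem fun a _ => mul_mem (pow_mem G.vd_mem _) (hf a)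
  · intro s z r
    rw [hQ, Finset.mul_sum, Finset.sum_apply]
    refine Finset.sum_congr rfl fun a ha => ?_
    have h1 := hm a ha
    rw [Pi.mul_apply, Pi.pow_apply, hf', ← mul_assoc, ← pow_add]
    congr 2
    omega
  · intro g hg
    rw [Finset.sum_apply]
    refine Finset.sum_eq_zero fun a ha => ?_
    have h1 := hm a ha
    rw [Pi.mul_apply, Pi.pow_apply, hg, zero_pow (by omega), zero_mul]

theorem eq_zero {f : Γ → k} (hf : f ∈ G.A) (h : ∀ s z r, f (G.om s z r) = 0) : f = 0 := by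
  have h1 : f * G.vd = 0 := by
    funext g
    rw [Pi.mul_apply, Pi.zero_apply]
    by_cases hg : G.vd g = 0
    · rw [hg, mul_zero]
    · obtain ⟨s, z, r, rfl⟩ := (G.vd_ne _).1 hg
      rw [h, zero_mul]
  rcases G.dom f hf G.vd G.vd_mem h1 with h2 | h2
  · exact h2
  · exfalso
    have h3 := G.vd_one
    rw [h2] at h3
    exact zero_ne_one h3

theorem poly_U {Z : Type*} {R : Subalgebra k (Z → k)} {F : Z → Γ} (hF : G.Rg R F)
    (hU : ∀ z, F z ∈ G.UU) : ∃ m : Fin (enN b) → Z → k, (∀ j, m j ∈ R) ∧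
      ∀ z, F z = upr G.xp fun j => m j z := by
  choose n f hf hf' using fun j : Fin (enN b) => G.vd_ext (MvPolynomial.X (Sum.inl j)) 0
  refine ⟨fun j z => f j (F z), fun j => hF _ (hf j), fun z => ?_⟩
  obtain ⟨s, hs⟩ := G.mem_U (hU z)
  have h1 : (fun j => f j (F z)) = s := by
    funext j
    rw [hs, ← om_s, hf', vd_om, ch_one', inv_one, Units.val_one, one_pow, one_mul, ch_one',
      Units.val_one, mul_one, eval_X, Sum.elim_inl]
  rw [h1, hs]

theorem poly_V {Z : Type*} {R : Subalgebra k (Z → k)} {F : Z → Γ} (hF : G.Rg R F)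
    (hV : ∀ z, F z ∈ G.VV) : ∃ m : Fin (enN b) → Z → k, (∀ j, m j ∈ R) ∧
      ∀ z, F z = upr G.xm fun j => m j z := by
  choose n f hf hf' using fun j : Fin (enN b) => G.vd_ext (MvPolynomial.X (Sum.inr j)) 0
  refine ⟨fun j z => f j (F z), fun j => hF _ (hf j), fun z => ?_⟩
  obtain ⟨s, hs⟩ := G.mem_V (hV z)
  have h1 : (fun j => f j (F z)) = s := by
    funext j
    rw [hs, ← om_r, hf', vd_om, ch_one', inv_one, Units.val_one, one_pow, one_mul, ch_one',
      Units.val_one, mul_one, eval_X, Sum.elim_inr]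
  rw [h1, hs]

private lemma upr_single {N : ℕ} (x : Fin N → k → Γ) (h0 : ∀ j, x j 0 = 1) (i : Fin N) (c : k) :
    upr x (Pi.single i c) = x i c := by
  unfold upr
  induction N with
  | zero => exact i.elim0
  | succ n ih =>
    rw [List.ofFn_succ, List.prod_cons]
    refine Fin.cases ?_ (fun j => ?_) i
    · rw [Pi.single_eq_same]
      have h1 : (List.ofFn fun j : Fin n => x j.succ ((Pi.single 0 c : Fin (n + 1) → k) j.succ)).prod
          = 1 := by
        apply List.prod_eq_one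
        intro y hy
        rw [List.mem_ofFn] at hy
        obtain ⟨j, rfl⟩ := hy
        rw [Pi.single_eq_of_ne (Fin.succ_ne_zero j), h0]
      rw [h1, mul_one]
    · rw [Pi.single_eq_of_ne (Fin.succ_ne_zero j).symm, h0, one_mul]
      have h1 := ih (fun j => x j.succ) (fun j => h0 _) j
      rw [← h1]
      congr 1
      congr 1
      funext l
      congr 1
      by_cases hl : l = j
      · subst hl
        rw [Pi.single_eq_same, Pi.single_eq_same]
      · rw [Pi.single_eq_of_ne hl, Pi.single_eq_of_ne (fun hcon => hl (Fin.succ_injective _ hcon))]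

theorem mul_simple {i : Fin (enN b)} (hi : (en b i : ι) ∈ b.support) {s r q : Fin (enN b) → k}
    (h : upr G.xp s * upr G.xp r = upr G.xp q) : q i = s i + r i := by
  obtain ⟨u₁, hu₁, e₁⟩ := G.xi_UI hi s
  obtain ⟨u₂, hu₂, e₂⟩ := G.xi_UI hi r
  obtain ⟨u₃, hu₃, e₃⟩ := G.xi_UI hi q
  have hn := G.UI_norm hi hu₁ (up (-r i))
  rw [G.φ_up] at hn
  change G.xp i (-r i) * u₁ * (G.xp i (-r i))⁻¹ ∈ G.UI i at hn
  have hneg : ∀ c, G.xp i (-c) = (G.xp i c)⁻¹ := fun c => G.x_neg _ c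
  have h1 : G.xp i (q i - s i - r i) ∈ G.UI i := by
    have h2 : G.xp i (q i - s i - r i) =
        (G.xp i (-r i) * u₁ * (G.xp i (-r i))⁻¹) * u₂ * u₃⁻¹ := by
      have h3 : G.xp i (q i - s i - r i) = (G.xp i (r i))⁻¹ * (G.xp i (s i))⁻¹ * G.xp i (q i) := by
        rw [← hneg, ← hneg, ← xp_add, ← xp_add]
        congr 1
        ring
      rw [h3, hneg]
      rw [e₁, e₂, e₃] at h
      have h4 : G.xp i (q i) = G.xp i (s i) * u₁ * (G.xp i (r i) * u₂) * u₃⁻¹ := by
        rw [h]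
        group
      rw [h4]
      group
    rw [h2]
    exact (G.UI i).mul_mem ((G.UI i).mul_mem hn hu₂) ((G.UI i).inv_mem hu₃)
  obtain ⟨s', hs', e'⟩ := G.mem_UI hi h1
  rw [← upr_single G.xp (fun j => G.x_zero _) i, ← om_s, ← om_s] at e'
  have h5 := (G.om_inj e').1
  have h6 := congrFun h5 i
  rw [Pi.single_eq_same, hs'] at h6
  linear_combination h6

theorem mul_simple' {i : Fin (enN b)} (hi : (en b i : ι) ∈ b.support) {s r q : Fin (enN b) → k}
    (h : upr G.xm s * upr G.xm r = upr G.xm q) : q i = s i + r i := by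
  obtain ⟨u₁, hu₁, e₁⟩ := G.xi_VI hi s
  obtain ⟨u₂, hu₂, e₂⟩ := G.xi_VI hi r
  obtain ⟨u₃, hu₃, e₃⟩ := G.xi_VI hi q
  have hn := G.VI_norm hi hu₁ (lo (-r i))
  rw [G.φ_lo] at hn
  change G.xm i (-r i) * u₁ * (G.xm i (-r i))⁻¹ ∈ G.VI i at hn
  have hneg : ∀ c, G.xm i (-c) = (G.xm i c)⁻¹ := fun c => G.x_neg _ c
  have h1 : G.xm i (q i - s i - r i) ∈ G.VI i := by
    have h2 : G.xm i (q i - s i - r i) =
        (G.xm i (-r i) * u₁ * (G.xm i (-r i))⁻¹) * u₂ * u₃⁻¹ := by
      have h3 : G.xm i (q i - s i - r i) = (G.xm i (r i))⁻¹ * (G.xm i (s i))⁻¹ * G.xm i (q i) := by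
        rw [← hneg, ← hneg, ← xm_add, ← xm_add]
        congr 1
        ring
      rw [h3, hneg]
      rw [e₁, e₂, e₃] at h
      have h4 : G.xm i (q i) = G.xm i (s i) * u₁ * (G.xm i (r i) * u₂) * u₃⁻¹ := by
        rw [h]
        group
      rw [h4]
      group
    rw [h2]
    exact (G.VI i).mul_mem ((G.VI i).mul_mem hn hu₂) ((G.VI i).inv_mem hu₃)
  obtain ⟨s', hs', e'⟩ := G.mem_VI hi h1
  rw [← upr_single G.xm (fun j => G.x_zero _) i, ← om_r, ← om_r] at e'
  have h5 := (G.om_inj e').2.2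
  have h6 := congrFun h5 i
  rw [Pi.single_eq_same, hs'] at h6
  linear_combination h6

theorem dense (g : Γ) : ∃ s s' z r', g * upr G.xp s = G.om s' z r' := by
  by_contra hcon
  have h1 : ∀ s, G.vd (g * upr G.xp s) = 0 := by
    intro s
    by_contra hne
    obtain ⟨s', z, r', e⟩ := (G.vd_ne _).1 hne
    exact hcon ⟨s, s', z, r', e⟩
  have h2 : (fun y => G.vd (g * y)) = 0 := by
    refine G.eq_zero (G.trL G.vd_mem g) fun s z r => ?_
    have h3 : g * G.om s z r = (g * upr G.xp s) * ((G.t z * upr G.xm r * (G.t z)⁻¹) * G.t z) := by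
      rw [om]
      group
    have h4 : G.t z * upr G.xm r * (G.t z)⁻¹ ∈ G.VV := by
      rw [t_upr_xm]
      exact G.upr_mem_VV _
    show G.vd (g * G.om s z r) = 0
    rw [h3, G.vd_right _ h4, h1, mul_zero]
  have h5 := congrFun h2 g⁻¹
  simp only [mul_inv_cancel, Pi.zero_apply] at h5
  rw [vd_one] at h5
  exact one_ne_zero h5

/-- the group is generated by the torus and the root subgroups -/
theorem gen_all (K : Subgroup Γ) (ht : ∀ z, G.t z ∈ K) (hx : ∀ j s, G.xp j s ∈ K)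
    (hy : ∀ j s, G.xm j s ∈ K) : K = ⊤ := by
  rw [eq_top_iff]
  intro g _
  obtain ⟨s, s', z, r', e⟩ := G.dense g
  have h1 : g = G.om s' z r' * (upr G.xp s)⁻¹ := by
    rw [← e]
    group
  rw [h1, om]
  have h2 : ∀ s, upr G.xp s ∈ K := fun s => upr_mem _ _ _ fun j => hx j _
  have h3 : ∀ s, upr G.xm s ∈ K := fun s => upr_mem _ _ _ fun j => hy j _
  exact K.mul_mem (K.mul_mem (K.mul_mem (h2 _) (ht _)) (h3 _)) (K.inv_mem (h2 _))

end RedGrp

end Pool.Agent.RG
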