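import Pool.Agent.RDG.Fun

/-!
# RDG / CEN: highest weights which are orthogonal to all coroots; all dominant weights

* `det_rep`: `ρ` rational on `V`, finite dimensional. `g ↦ det (ρ g)` and its inverse are regular
  homomorphisms `Γ → kˣ`, trivial on all root subgroups (polynomial homomorphisms `k → kˣ`), equal to
  `ch δ z` on `t z` (`LR.unit`, or: with a basis of weight vectors of weights `a_1, ..., a_m`:
  `δ = ∑ a_j`). `Hw (-δ)`: the function `g ↦ det (ρ g)`, `Hw δ`: `g ↦ det (ρ g⁻¹)`.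
  `⟨δ, α_i^∨⟩ = 0`: the homomorphism `det ∘ ρ ∘ φ i : SL₂ → kˣ` is trivial (`sl_closure`), take `dg c`.
  With a basis of weight vectors: `δ - m • c = ∑ (a_j - c)`.
* `exists_rep`: `v ∈ A` the function of `Hw c`. It has weight `c` for the left translation
  `(g F) x = F (g⁻¹ x)` (`v (t z⁻¹ om s w r) = ch c z * v (om s w r)`, `t_upr_xp`, `eq_zero`). `V` = span of the
  left translates of `v`, finite dimensional by `comul`, rational. Let `V'` be the sum of the weight
  spaces of `V` with weights in `c + ZΦ`; it contains `v` and is stable under the torus and the root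
  subgroups (`exists_poly_x`, `exists_poly_y`), so under `Γ` (`gen_all`), so `V' = V`. A nonzero vector of
  weight `a` in `V = V'` has `a - c ∈ ZΦ` (independence of weight spaces, `wt_ne`).
* `exists_cen`: `⟨χ, α_i^∨⟩ = 0` for all simple `i`. `exists_Hw_add`: `Hw (n δ₀ + χ)`, and `Hw (n δ₀)`,
  `δ₀ = G.de`. Let `V₁, V₂` be the representations of `exists_rep` of dimensions `m₁, m₂ > 0` and
  `δ₁, δ₂` the weights of `det_rep`. `c = m₂ δ₁ - m₁ δ₂ - m₁ m₂ χ` is in `ZΦ` (`δ₁ - m₁ (n δ₀ + χ)` and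
  `δ₂ - m₂ n δ₀` are) and `⟨c, α_i^∨⟩ = 0`, so `c = 0` (`eq_zero_of_pr`), and
  `m₁ m₂ χ = m₂ δ₁ + m₁ (-δ₂)` satisfies `Hw`.
* `hw_of_dmt`: `ω_i` from `exists_fun` for the simple `i`, `o_i = ⟨ω_i, α_i^∨⟩ > 0`, `O = ∏ o_i`,
  `χ = O • l - ∑_i (O / o_i * ⟨l, α_i^∨⟩) • ω_i`; `exists_cen`: `Hw (N χ)`, so
  `(N O) • l = N χ + ∑_i (N * O / o_i * ⟨l, α_i^∨⟩) • ω_i` satisfies `Hw` (nonnegative coefficients), and
  `Hw.of_smul` gives `Hw l`.
-/

set_option autoImplicit false

open MvPolynomial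

namespace Pool.Agent.RG

open Pool.Agent.TRN

variable {k : Type*} [Field k] {ι X Y : Type*} [AddCommGroup X] [AddCommGroup Y] [Finite ι]
  {P : RootDatum ι X Y} {b : P.Base} {Γ : Type*} [Group Γ] (G : RedGrp k P b Γ)
  [IsAlgClosed k] [Module.Finite ℤ X] [Module.Free ℤ X] [P.IsReduced]

namespace RedGrp

/-- the determinant of a representation, as a homomorphism -/
private noncomputable def dt {V : Type*} [AddCommGroup V] [Module k V]
    (ρ : Representation k Γ V) : Γ →* k :=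
  (LinearMap.det : (V →ₗ[k] V) →* k).comp ρ

omit [Finite ι] [IsAlgClosed k] [Module.Finite ℤ X] [Module.Free ℤ X] [P.IsReduced] in
private lemma dt_mem_aux {V : Type*} [AddCommGroup V] [Module k V] [Module.Finite k V]
    (ρ : Representation k Γ V)
    (h : ∀ (v : V) (ξ : V →ₗ[k] k), (fun g => ξ (ρ g v)) ∈ G.A) : (fun g => dt ρ g) ∈ G.A := by
  classical
  have e := Module.finBasis k V
  have h1 : (fun g => dt ρ g) = ∑ σ : Equiv.Perm (Fin (Module.finrank k V)),
      (((Equiv.Perm.sign σ : ℤˣ) : ℤ) : k) • ∏ i, fun g => e.coord (σ i) (ρ g (e i)) := by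
    funext g
    have h2 : dt ρ g = (LinearMap.toMatrix e e (ρ g)).det := (LinearMap.det_toMatrix e (ρ g)).symm
    rw [h2, Matrix.det_apply', Finset.sum_apply]
    refine Finset.sum_congr rfl fun σ _ => ?_
    rw [Pi.smul_apply, smul_eq_mul, Finset.prod_apply]
    congr 1
    refine Finset.prod_congr rfl fun i _ => ?_
    rw [LinearMap.toMatrix_apply]
    rfl
  rw [h1]
  exact sum_mem fun σ _ => G.A.smul_mem (prod_mem fun i _ => h _ _) _

omit [Finite ι] [Module.Finite ℤ X] [Module.Free ℤ X] [P.IsReduced] in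
/-- a regular homomorphism into `kˣ` is trivial on the root subgroups -/
private lemma dt_x (d : Γ →* k) (hd : (fun g => d g) ∈ G.A) (i : ι) (s : k) : d (G.x i s) = 1 := by
  obtain ⟨Q, hQ⟩ := G.x_reg hd i
  beta_reduce at hQ
  have h1 : Q * Q.comp (-Polynomial.X) = 1 := by
    apply Polynomial.funext
    intro r
    rw [Polynomial.eval_mul, Polynomial.eval_comp, Polynomial.eval_neg, Polynomial.eval_X,
      ← hQ, ← hQ, ← map_mul, ← G.x_add, add_neg_cancel, x_zero, map_one, Polynomial.eval_one]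
  have h2 : IsUnit Q := IsUnit.of_mul_eq_one _ h1
  obtain ⟨c, _, hc⟩ := Polynomial.isUnit_iff.1 h2
  have h3 := hQ 0
  rw [x_zero, map_one, ← hc, Polynomial.eval_C] at h3
  rw [hQ, ← hc, Polynomial.eval_C, ← h3]

private lemma zpow_triv {m : ℤ} (h : ∀ c : kˣ, c ^ m = 1) : m = 0 := by
  apply ch_inj (k := k)
  intro z
  have h1 := ch_zsmul m (1 : ℤ) z
  rw [smul_eq_mul, mul_one] at h1
  rw [h1, h, ch_zero]

private lemma ch_sum' {κ : Type*} (s : Finset κ) (a : κ → X) (z : Tor k X) :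
    ch (∑ j ∈ s, a j) z = ∏ j ∈ s, ch (a j) z := by
  classical
  induction s using Finset.induction_on with
  | empty => rw [Finset.sum_empty, Finset.prod_empty, ch_zero]
  | insert j s hj ih => rw [Finset.sum_insert hj, Finset.prod_insert hj, ch_add, ih]

theorem det_rep {V : Type*} [AddCommGroup V] [Module k V] [Module.Finite k V]
    (ρ : Representation k Γ V) (hρ : G.pg.IsRational ρ) (c : X)
    (hc : ∀ a v, G.pg.IsWt ρ a v → v ≠ 0 → a - c ∈ AddSubgroup.closure (Set.range P.root)) :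
    ∃ δ : X, G.Hw δ ∧ G.Hw (-δ) ∧ (∀ i ∈ b.support, prY P i δ = 0) ∧
      δ - Module.finrank k V • c ∈ AddSubgroup.closure (Set.range P.root) := by
  classical
  -- a basis of weight vectors
  obtain ⟨S, hS⟩ : ∃ S : Set V, ∀ v, v ∈ S ↔ ∃ a, G.pg.IsWt ρ a v :=
    ⟨{v | ∃ a, G.pg.IsWt ρ a v}, fun v => Iff.rfl⟩
  have hspan : ⊤ ≤ Submodule.span k S := by
    intro v _
    obtain ⟨s, _, hs⟩ := PG.sum_wt hρ v
    rw [hs]
    refine Submodule.sum_mem _ fun a _ => Submodule.subset_span ?_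
    rw [hS]
    exact ⟨a, PG.wt_isWt hρ a v⟩
  have heS : ∀ j, ∃ a, G.pg.IsWt ρ a (Module.Basis.ofSpan hspan j) := fun j =>
    (hS _).1 (Module.Basis.ofSpan_subset hspan ⟨j, rfl⟩)
  have : Fintype ((linearIndepOn_empty k (id : V → V)).extend (Set.empty_subset S)) :=
    FiniteDimensional.fintypeBasisIndex (Module.Basis.ofSpan hspan)
  choose a ha using heS
  have hd := G.dt_mem_aux ρ fun v ξ => (hρ v).apply ξ
  have hdt : ∀ z, dt ρ (G.t z) = (ch (∑ j, a j) z : k) := by
    intro z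
    have h1 : dt ρ (G.t z) = (LinearMap.toMatrix (Module.Basis.ofSpan hspan)
        (Module.Basis.ofSpan hspan) (ρ (G.t z))).det := (LinearMap.det_toMatrix _ _).symm
    have h2 : LinearMap.toMatrix (Module.Basis.ofSpan hspan)
        (Module.Basis.ofSpan hspan) (ρ (G.t z)) = Matrix.diagonal fun j => (ch (a j) z : k) := by
      ext i j
      rw [LinearMap.toMatrix_apply]
      have h3 : ρ (G.t z) (Module.Basis.ofSpan hspan j) =
          (ch (a j) z : k) • Module.Basis.ofSpan hspan j := ha j z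
      rw [h3, map_smul, Module.Basis.repr_self, Finsupp.smul_apply, Finsupp.single_apply,
        Matrix.diagonal_apply, smul_eq_mul]
      by_cases hij : i = j
      · subst hij
        rw [if_pos rfl, if_pos rfl, mul_one]
      · rw [if_neg hij, if_neg (Ne.symm hij), mul_zero]
    rw [h1, h2, Matrix.det_diagonal, ch_sum', Units.coe_prod]
  have hupr : ∀ (N : ℕ) (x : Fin N → k → Γ) (_ : ∀ j s, dt ρ (x j s) = 1) (s : Fin N → k),
      dt ρ (upr x s) = 1 := by
    intro N x hx s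
    rw [upr, map_list_prod]
    apply List.prod_eq_one
    intro y hy
    rw [List.mem_map] at hy
    obtain ⟨g, hg, rfl⟩ := hy
    rw [List.mem_ofFn] at hg
    obtain ⟨j, rfl⟩ := hg
    exact hx _ _
  have hom : ∀ s z r, dt ρ (G.om s z r) = (ch (∑ j, a j) z : k) := by
    intro s z r
    rw [om, map_mul, map_mul, hupr _ G.xp (fun j s => G.dt_x _ hd _ s),
      hupr _ G.xm (fun j s => G.dt_x _ hd _ s), hdt, one_mul, mul_one]
  refine ⟨∑ j, a j, ?_, ?_, ?_, ?_⟩
  · refine ⟨fun g => dt ρ g⁻¹, G.inv _ hd, fun s z r => ?_⟩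
    have h1 : dt ρ (G.om s z r)⁻¹ * dt ρ (G.om s z r) = 1 := by
      rw [← map_mul, inv_mul_cancel, map_one]
    rw [hom] at h1
    rw [Units.val_inv_eq_inv_val]
    exact eq_inv_of_mul_eq_one_left h1
  · refine ⟨fun g => dt ρ g, hd, fun s z r => ?_⟩
    show dt ρ (G.om s z r) = _
    rw [hom, ch_neg, inv_inv]
  · intro i _
    refine zpow_triv (k := k) fun c => ?_
    have h1 : ∀ h : Matrix.SpecialLinearGroup (Fin 2) k, dt ρ (G.φ i h) = 1 := by
      intro h
      have h2 := sl_closure h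
      induction h2 using Subgroup.closure_induction with
      | mem x hx =>
        rcases hx with ⟨s, rfl⟩ | ⟨s, rfl⟩
        · rw [G.φ_up]
          exact G.dt_x _ hd _ s
        · rw [G.φ_lo]
          exact G.dt_x _ hd _ s
      | one => rw [map_one, map_one]
      | mul x y _ _ hx hy => rw [map_mul, map_mul, hx, hy, mul_one]
      | inv x _ hx =>
        have h3 : dt ρ (G.φ i x⁻¹) * dt ρ (G.φ i x) = 1 := by
          rw [← map_mul, ← map_mul, inv_mul_cancel, map_one, map_one]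
        rw [hx, mul_one] at h3
        exact h3
    obtain ⟨z, hz1, hz2⟩ := G.φ_dg i c
    have h2 := h1 (dg c)
    rw [hz1, hdt, hz2] at h2
    exact Units.ext h2
  · have h1 : Module.finrank k V • c = ∑ _j : ((linearIndepOn_empty k (id : V → V)).extend
        (Set.empty_subset S)), c := by
      rw [Finset.sum_const, Finset.card_univ,
        ← Module.finrank_eq_card_basis (Module.Basis.ofSpan hspan)]
    rw [h1, ← Finset.sum_sub_distrib]
    exact sum_mem fun j _ => hc _ _ (ha j) ((Module.Basis.ofSpan hspan).ne_zero j)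

/-- left translation of functions -/
private def lrg (k : Type*) [Field k] (Γ : Type*) [Group Γ] : Representation k Γ (Γ → k) where
  toFun g := LinearMap.funLeft k k fun x => g⁻¹ * x
  map_one' := by
    ext f x
    simp [LinearMap.funLeft_apply]
  map_mul' g h := by
    apply LinearMap.ext
    intro f
    funext x
    show f ((g * h)⁻¹ * x) = f (h⁻¹ * (g⁻¹ * x))
    rw [mul_inv_rev, mul_assoc]

private lemma lrg_apply (g : Γ) (f : Γ → k) (x : Γ) : lrg k Γ g f x = f (g⁻¹ * x) := rfl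

theorem exists_rep {c : X} (h : G.Hw c) : ∃ (V : Submodule k (Γ → k)) (ρ : Representation k Γ V),
    Module.Finite k V ∧ 0 < Module.finrank k V ∧ G.pg.IsRational ρ ∧
    ∀ a v, G.pg.IsWt ρ a v → v ≠ 0 → a - c ∈ AddSubgroup.closure (Set.range P.root) := by
  classical
  obtain ⟨v, hv, hv1⟩ := h
  obtain ⟨V, hV⟩ : ∃ V : Submodule k (Γ → k), V = Submodule.span k
    (Set.range fun g => lrg k Γ g v) := ⟨_, rfl⟩
  have hVst : Stable (lrg k Γ) V := by
    intro g f hf
    have h1 : V ≤ V.comap (lrg k Γ g) := by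
      conv_lhs => rw [hV]
      rw [Submodule.span_le]
      rintro _ ⟨h, rfl⟩
      show lrg k Γ g (lrg k Γ h v) ∈ V
      rw [← TRN.mul_apply', hV]
      exact Submodule.subset_span ⟨g * h, rfl⟩
    exact h1 hf
  have hvV : v ∈ V := by
    rw [hV]
    refine Submodule.subset_span ⟨1, ?_⟩
    show lrg k Γ 1 v = v
    rw [map_one]
    rfl
  have hVA : ∀ f ∈ V, f ∈ G.A := by
    intro f hf
    have h1 : V ≤ G.A.toSubmodule := by
      rw [hV, Submodule.span_le]
      rintro _ ⟨g, rfl⟩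
      exact G.trL hv g⁻¹
    exact h1 hf
  have hVf : Module.Finite k V := by
    obtain ⟨m, α, β, hα, hβ, e⟩ := G.comul v hv
    have h1 : V ≤ Submodule.span k (Set.range β) := by
      rw [hV, Submodule.span_le]
      rintro _ ⟨g, rfl⟩
      have h2 : lrg k Γ g v = ∑ i, α i g⁻¹ • β i := by
        funext x
        rw [lrg_apply, e, Finset.sum_apply]
        rfl
      show lrg k Γ g v ∈ _
      rw [h2]
      exact Submodule.sum_mem _ fun i _ => Submodule.smul_mem _ _ (Submodule.subset_span ⟨i, rfl⟩)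
    have h3 : FiniteDimensional k (Submodule.span k (Set.range β)) :=
      FiniteDimensional.span_of_finite k (Set.finite_range β)
    exact Submodule.finiteDimensional_of_le h1
  have hrat : G.pg.IsRational (sub (lrg k Γ) hVst) := by
    intro f
    have h1 : G.pg.IsReg (fun g => lrg k Γ g f.1) := by
      obtain ⟨m, α, β, hα, hβ, e⟩ := G.comul f.1 (hVA _ f.2)
      refine ⟨m, fun i g => α i g⁻¹, β, fun i => G.inv _ (hα i), fun g => ?_⟩
      funext x
      show lrg k Γ g f.1 x = _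
      rw [lrg_apply, e, Finset.sum_apply]
      rfl
    exact h1.sub _ fun g => rfl
  have hvwt : ∀ z, lrg k Γ (G.t z) v = (ch c z : k) • v := by
    intro z
    have h1 : (fun x => v ((G.t z)⁻¹ * x)) - (ch c z : k) • v = 0 := by
      refine G.eq_zero (sub_mem (G.trL hv _) (G.A.smul_mem hv _)) fun s w r => ?_
      have h2 := G.t_upr_xp z⁻¹ s
      have h3 : G.t z⁻¹ = (G.t z)⁻¹ := map_inv G.t z
      rw [h3, inv_inv] at h2
      have h4 : (G.t z)⁻¹ * G.om s w r =
          G.om (fun j => (ch (P.root (en b j : ι)) z⁻¹ : k) * s j) (z⁻¹ * w) r := by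
        rw [om, om, ← h2, map_mul, h3]
        group
      rw [Pi.sub_apply, Pi.smul_apply, h4, hv1, hv1, ch_mul', ch_inv', mul_inv, inv_inv,
        Units.val_mul, smul_eq_mul, sub_self]
    have h5 := sub_eq_zero.1 h1
    exact h5
  -- the part with weights in the coset
  obtain ⟨W, hW⟩ : ∃ W : Submodule k V, W = ⨆ (a : X)
    (_ : a - c ∈ AddSubgroup.closure (Set.range P.root)), PG.wsp G.pg (sub (lrg k Γ) hVst) a :=
    ⟨_, rfl⟩
  have hWle : ∀ a, a - c ∈ AddSubgroup.closure (Set.range P.root) →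
      ∀ w, G.pg.IsWt (sub (lrg k Γ) hVst) a w → w ∈ W := by
    intro a ha w hw
    rw [hW]
    exact Submodule.mem_iSup_of_mem a (Submodule.mem_iSup_of_mem ha hw)
  have hWst : ∀ g, (∀ a, a - c ∈ AddSubgroup.closure (Set.range P.root) →
      ∀ w, G.pg.IsWt (sub (lrg k Γ) hVst) a w → sub (lrg k Γ) hVst g w ∈ W) →
      ∀ w ∈ W, sub (lrg k Γ) hVst g w ∈ W := by
    intro g hg w hw
    have h1 : W ≤ W.comap (sub (lrg k Γ) hVst g) := by
      conv_lhs => rw [hW]
      exact iSup_le fun a => iSup_le fun ha w hw => hg a ha w hw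
    exact h1 hw
  have hroot : ∀ (a : X) (i : ι), a - c ∈ AddSubgroup.closure (Set.range P.root) → ∀ j : ℕ,
      a + j • P.root i - c ∈ AddSubgroup.closure (Set.range P.root) := by
    intro a i ha j
    have h1 : a + j • P.root i - c = (a - c) + j • P.root i := by abel
    have h2 : P.root i ∈ AddSubgroup.closure (Set.range P.root) :=
      AddSubgroup.subset_closure ⟨i, rfl⟩
    rw [h1]
    exact add_mem ha (nsmul_mem h2 j)
  have hroot' : ∀ (a : X) (i : ι), a - c ∈ AddSubgroup.closure (Set.range P.root) → ∀ j : ℕ,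
      a - j • P.root i - c ∈ AddSubgroup.closure (Set.range P.root) := by
    intro a i ha j
    have h1 : a - j • P.root i - c = (a - c) - j • P.root i := by abel
    have h2 : P.root i ∈ AddSubgroup.closure (Set.range P.root) :=
      AddSubgroup.subset_closure ⟨i, rfl⟩
    rw [h1]
    exact sub_mem ha (nsmul_mem h2 j)
  have hWt : ∀ z, ∀ w ∈ W, sub (lrg k Γ) hVst (G.t z) w ∈ W := by
    intro z
    refine hWst _ fun a ha w hw => ?_
    have h1 : sub (lrg k Γ) hVst (G.t z) w = (ch a z : k) • w := hw z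
    rw [h1]
    exact W.smul_mem _ (hWle a ha w hw)
  have hWx : ∀ j s, ∀ w ∈ W, sub (lrg k Γ) hVst (G.xp j s) w ∈ W := by
    intro j s
    refine hWst _ fun a ha w hw => ?_
    obtain ⟨d, u, h1, h2, _⟩ := PG.exists_poly_x (D := G.pg) hrat hw j
    have h3 : sub (lrg k Γ) hVst (G.xp j s) w = _ := h1 s
    rw [h3]
    exact Submodule.sum_mem _ fun m _ => W.smul_mem _ (hWle _ (hroot a _ ha m) _ (h2 m))
  have hWy : ∀ j s, ∀ w ∈ W, sub (lrg k Γ) hVst (G.xm j s) w ∈ W := by
    intro j s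
    refine hWst _ fun a ha w hw => ?_
    obtain ⟨d, u, h1, h2, _⟩ := PG.exists_poly_y (D := G.pg) hrat hw j
    have h3 : sub (lrg k Γ) hVst (G.xm j s) w = _ := h1 s
    rw [h3]
    exact Submodule.sum_mem _ fun m _ => W.smul_mem _ (hWle _ (hroot' a _ ha m) _ (h2 m))
  obtain ⟨K, hK⟩ : ∃ K : Subgroup Γ, ∀ g, g ∈ K ↔
      (∀ w ∈ W, sub (lrg k Γ) hVst g w ∈ W) ∧ ∀ w ∈ W, sub (lrg k Γ) hVst g⁻¹ w ∈ W := by
    refine ⟨{ carrier := {g | (∀ w ∈ W, sub (lrg k Γ) hVst g w ∈ W) ∧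
                ∀ w ∈ W, sub (lrg k Γ) hVst g⁻¹ w ∈ W}
              mul_mem' := ?_
              one_mem' := ?_
              inv_mem' := ?_ }, fun g => Iff.rfl⟩
    · rintro g h ⟨hg, hg'⟩ ⟨hh, hh'⟩
      refine ⟨fun w hw => ?_, fun w hw => ?_⟩
      · rw [TRN.mul_apply']
        exact hg _ (hh w hw)
      · rw [mul_inv_rev, TRN.mul_apply']
        exact hh' _ (hg' w hw)
    · refine ⟨fun w hw => ?_, fun w hw => ?_⟩
      · rw [map_one]
        exact hw
      · rw [inv_one, map_one]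
        exact hw
    · rintro g ⟨hg, hg'⟩
      refine ⟨hg', fun w hw => ?_⟩
      rw [inv_inv]
      exact hg w hw
  have hKtop : K = ⊤ := by
    refine G.gen_all K (fun z => ?_) (fun j s => ?_) fun j s => ?_
    · rw [hK]
      refine ⟨hWt z, ?_⟩
      have h1 : G.t z⁻¹ = (G.t z)⁻¹ := map_inv G.t z
      rw [← h1]
      exact hWt z⁻¹
    · rw [hK]
      refine ⟨hWx j s, ?_⟩
      have h1 : (G.xp j s)⁻¹ = G.xp j (-s) := (G.x_neg _ s).symm
      rw [h1]
      exact hWx j (-s)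
    · rw [hK]
      refine ⟨hWy j s, ?_⟩
      have h1 : (G.xm j s)⁻¹ = G.xm j (-s) := (G.x_neg _ s).symm
      rw [h1]
      exact hWy j (-s)
  have hWg : ∀ g, ∀ w ∈ W, sub (lrg k Γ) hVst g w ∈ W := by
    intro g
    have h1 : g ∈ K := by
      rw [hKtop]
      exact Subgroup.mem_top g
    exact ((hK g).1 h1).1
  have hvW : (⟨v, hvV⟩ : V) ∈ W := by
    refine hWle c ?_ _ fun z => ?_
    · rw [sub_self]
      exact zero_mem _
    · apply Subtype.ext
      exact hvwt z
  have hWtop : ∀ w : V, w ∈ W := by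
    intro w
    have h1 : V ≤ W.map V.subtype := by
      conv_lhs => rw [hV]
      rw [Submodule.span_le]
      rintro _ ⟨g, rfl⟩
      exact ⟨sub (lrg k Γ) hVst g ⟨v, hvV⟩, hWg g _ hvW, rfl⟩
    obtain ⟨w', hw', e⟩ := h1 w.2
    have h2 : w' = w := Subtype.ext e
    rwa [h2] at hw'
  refine ⟨V, sub (lrg k Γ) hVst, hVf, ?_, hrat, fun a w hw hw0 => ?_⟩
  · have : Nontrivial V := by
      refine ⟨⟨⟨v, hvV⟩, 0, fun hcon => ?_⟩⟩
      have h1 : v = 0 := congrArg Subtype.val hcon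
      have h2 := hv1 0 1 0
      rw [h1] at h2
      exact Units.ne_zero _ h2.symm
    exact Module.finrank_pos
  · by_contra hcon
    apply hw0
    have h1 : W ≤ LinearMap.ker (PG.wt hrat a) := by
      conv_lhs => rw [hW]
      refine iSup_le fun a' => iSup_le fun ha' u hu => ?_
      rw [LinearMap.mem_ker]
      refine PG.wt_ne hrat hu ?_
      rintro rfl
      exact hcon ha'
    have h2 := h1 (hWtop w)
    rw [LinearMap.mem_ker, PG.wt_self hrat hw] at h2
    exact h2

theorem exists_cen {χ : X} (h : ∀ i ∈ b.support, prY P i χ = 0) :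
    ∃ N : ℕ, 0 < N ∧ G.Hw (N • χ) := by
  obtain ⟨n, hn⟩ := G.exists_Hw_add χ
  have hn' : G.Hw (n • G.de) := G.Hw_de.smul n
  obtain ⟨V₁, ρ₁, hf₁, hm₁, hr₁, hw₁⟩ := G.exists_rep hn
  obtain ⟨V₂, ρ₂, hf₂, hm₂, hr₂, hw₂⟩ := G.exists_rep hn'
  obtain ⟨δ₁, a₁, b₁, c₁, d₁⟩ := G.det_rep ρ₁ hr₁ _ hw₁
  obtain ⟨δ₂, a₂, b₂, c₂, d₂⟩ := G.det_rep ρ₂ hr₂ _ hw₂
  obtain ⟨m₁, hm₁'⟩ : ∃ m, m = Module.finrank k V₁ := ⟨_, rfl⟩
  obtain ⟨m₂, hm₂'⟩ : ∃ m, m = Module.finrank k V₂ := ⟨_, rfl⟩
  rw [← hm₁'] at hm₁ d₁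
  rw [← hm₂'] at hm₂ d₂
  have h1 : m₂ • (δ₁ - m₁ • (n • G.de + χ)) - m₁ • (δ₂ - m₂ • (n • G.de)) =
      m₂ • δ₁ - m₁ • δ₂ - (m₁ * m₂) • χ := by
    have h2 : m₂ • m₁ • (n • G.de) = m₁ • m₂ • (n • G.de) := smul_comm _ _ _
    have h3 : m₂ • m₁ • χ = (m₁ * m₂) • χ := by
      rw [smul_smul, mul_comm]
    rw [smul_sub, smul_sub, smul_add, smul_add, h2, h3]
    abel
  have h4 : m₂ • δ₁ - m₁ • δ₂ - (m₁ * m₂) • χ = 0 := by
    refine eq_zero_of_pr b ?_ fun i hi => ?_
    · rw [← h1]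
      exact sub_mem (nsmul_mem d₁ _) (nsmul_mem d₂ _)
    · rw [map_sub, map_sub, map_nsmul, map_nsmul, map_nsmul, c₁ i hi, c₂ i hi, h i hi, smul_zero,
        smul_zero, smul_zero, sub_zero, sub_zero]
  refine ⟨m₁ * m₂, Nat.mul_pos hm₁ hm₂, ?_⟩
  have h5 : (m₁ * m₂) • χ = m₂ • δ₁ + m₁ • (-δ₂) := by
    rw [← sub_eq_zero.1 h4, smul_neg, sub_eq_add_neg]
  rw [h5]
  exact (a₁.smul m₂).add (b₂.smul m₁)

theorem hw_of_dmt {l : X} (h : Dmt b l) : G.Hw l := by
  classical
  have hex : ∀ i : ι, ∃ ω : X, i ∈ b.support → G.Hw ω ∧ 0 < prY P i ω ∧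
      ∀ j ∈ b.support, j ≠ i → prY P j ω = 0 := by
    intro i
    by_cases hi : i ∈ b.support
    · obtain ⟨ω, hω⟩ := G.exists_fun hi
      exact ⟨ω, fun _ => hω⟩
    · exact ⟨0, fun h => absurd h hi⟩
  choose ω hω using hex
  obtain ⟨o, ho⟩ : ∃ o : ι → ℤ, ∀ i, o i = prY P i (ω i) := ⟨_, fun _ => rfl⟩
  obtain ⟨C, hC⟩ : ∃ C : ι → ℤ, ∀ i, C i = (∏ j ∈ b.support.erase i, o j) * prY P i l :=
    ⟨_, fun _ => rfl⟩
  have ho0 : ∀ i ∈ b.support, 0 < o i := fun i hi => by
    rw [ho]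
    exact (hω i hi).2.1
  have hC0 : ∀ i ∈ b.support, 0 ≤ C i := fun i hi => by
    rw [hC]
    exact mul_nonneg (Finset.prod_nonneg fun j hj => (ho0 j (Finset.mem_of_mem_erase hj)).le)
      (h i hi)
  obtain ⟨O, hO⟩ : ∃ O : ℤ, O = ∏ j ∈ b.support, o j := ⟨_, rfl⟩
  have hO0 : 0 < O := by
    rw [hO]
    exact Finset.prod_pos ho0
  obtain ⟨N, hN, hN'⟩ := G.exists_cen (χ := O • l - ∑ i ∈ b.support, C i • ω i) (by
    intro i hi
    rw [map_sub, map_zsmul, map_sum, Finset.sum_eq_single_of_mem i hi]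
    · rw [map_zsmul, hC, ← ho, smul_eq_mul, smul_eq_mul, hO,
        ← Finset.mul_prod_erase _ _ hi]
      ring
    · intro j hj hji
      rw [map_zsmul, (hω j hj).2.2 i hi (Ne.symm hji), smul_zero])
  have hpos : ∀ (n : ℤ) (m : X), 0 ≤ n → G.Hw m → G.Hw (n • m) := by
    intro n m hn hm
    have h1 : n • m = n.toNat • m := by
      rw [← natCast_zsmul, Int.toNat_of_nonneg hn]
    rw [h1]
    exact hm.smul _
  have hsum : ∀ s : Finset ι, s ⊆ b.support → G.Hw (∑ i ∈ s, C i • ω i) := by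
    intro s
    induction s using Finset.induction_on with
    | empty =>
      intro _
      rw [Finset.sum_empty]
      exact Hw.zero
    | insert i s hi ih =>
      intro hs
      rw [Finset.sum_insert hi]
      have his : i ∈ b.support := hs (Finset.mem_insert_self i s)
      exact (hpos _ _ (hC0 i his) (hω i his).1).add
        (ih fun j hj => hs (Finset.mem_insert_of_mem hj))
  have hfin : G.Hw ((N * O.toNat) • l) := by
    have h1 : (N * O.toNat) • l = N • (O • l - ∑ i ∈ b.support, C i • ω i) +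
        N • ∑ i ∈ b.support, C i • ω i := by
      rw [← smul_add, sub_add_cancel, mul_smul]
      congr 1
      rw [← natCast_zsmul, Int.toNat_of_nonneg hO0.le]
    rw [h1]
    exact hN'.add ((hsum _ (Finset.Subset.refl _)).smul N)
  exact hfin.of_smul (Nat.mul_pos hN (by omega))

end RedGrp

end Pool.Agent.RG
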