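import Pool.Agent.RDG.Att

/-!
# RG / COM: the commutator formula

For roots `α_i ≠ ± α_j` there is a cocharacter `l` with `l(α_i) > 0`, `l(α_j) > 0`. The commutator
`x_i(s) x_j(r) x_i(s)⁻¹ x_j(r)⁻¹` lies in `Att l`, so in the coordinates of the big cell it is given by
polynomials in `s`, `r`, which are monomials because of the action of the torus.
-/

set_option autoImplicit false

open MvPolynomial

namespace Pool.Agent.RG

section poly

variable (k : Type*) [Field k] (τ : Type*)

/-- polynomial functions -/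
noncomputable def PA : Subalgebra k ((τ → k) → k) :=
  (MvPolynomial.aeval (fun (j : τ) (v : τ → k) => v j) : MvPolynomial τ k →ₐ[k] ((τ → k) → k)).range

variable {k τ}

lemma mem_PA {f : (τ → k) → k} : f ∈ PA k τ ↔ ∃ Q : MvPolynomial τ k, ∀ v, f v = eval v Q := by
  have key : ∀ Q : MvPolynomial τ k, (MvPolynomial.aeval (fun (j : τ) (v : τ → k) => v j) Q :
      (τ → k) → k) = fun v => eval v Q := by
    intro Q
    funext v
    induction Q using MvPolynomial.induction_on with
    | C a => simp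
    | add p q hp hq => rw [map_add, map_add, Pi.add_apply, hp, hq]
    | mul_X p n hp => rw [map_mul, map_mul, Pi.mul_apply, hp, aeval_X, eval_X]
  constructor
  · rintro ⟨Q, hQ⟩
    refine ⟨Q, fun v => ?_⟩
    rw [← hQ]
    exact congrFun (key Q) v
  · rintro ⟨Q, hQ⟩
    refine ⟨Q, ?_⟩
    funext v
    rw [hQ]
    exact congrFun (key Q) v

lemma poly_const [IsAlgClosed k] {Q : MvPolynomial τ k} (h : ∀ v, eval v Q ≠ 0) (v : τ → k) :
    eval v Q = eval 0 Q := by
  set p : Polynomial k := aeval (fun j => Polynomial.C (v j) * Polynomial.X) Q with hp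
  have hpe : ∀ t : k, p.eval t = eval (fun j => v j * t) Q := by
    intro t
    rw [hp, ← Polynomial.coe_evalRingHom, MvPolynomial.aeval_def,
      MvPolynomial.hom_eval₂, ← MvPolynomial.eval₂_id]
    congr 1
    · ext x
      simp
    · funext j
      simp
  have hdeg : p.degree = 0 := by
    by_contra hd
    obtain ⟨t, ht⟩ := IsAlgClosed.exists_root p hd
    rw [Polynomial.IsRoot.def, hpe] at ht
    exact h _ ht
  have h1 := hpe 1
  have h0 := hpe 0
  rw [Polynomial.eq_C_of_degree_eq_zero hdeg, Polynomial.eval_C] at h0 h1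
  simp only [mul_one] at h1
  simp only [mul_zero] at h0
  rw [← h1, h0]
  rfl

/-- weights of polynomials -/
lemma poly_weight {X : Type*} [AddCommGroup X] [Infinite k] [Module.Finite ℤ X] [Module.Free ℤ X]
    [Fintype τ] {w : τ → X} {a : X} {Q : MvPolynomial τ k}
    (h : ∀ (z : Tor k X) (v : τ → k), eval (fun i => (ch (w i) z : k) * v i) Q =
      (ch a z : k) * eval v Q) {m : τ →₀ ℕ} (hm : m ∈ Q.support) : ∑ i, m i • w i = a := by
  classical
  apply ch_inj (k := k)
  intro z
  have h1 : (∑ d ∈ Q.support, monomial d (coeff d Q * (ch (∑ i, d i • w i) z : k))) =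
      C (ch a z : k) * Q := by
    apply MvPolynomial.funext
    intro v
    rw [map_mul, eval_C, ← h, map_sum, eval_eq' (fun i => (ch (w i) z : k) * v i) Q]
    refine Finset.sum_congr rfl fun d _ => ?_
    rw [eval_monomial, mul_assoc]
    congr 1
    have h2 : (ch (∑ i, d i • w i) z : k) = ∏ i, (ch (w i) z : k) ^ d i := by
      have h4 : ch (∑ i, d i • w i) z = ∏ i, ch (w i) z ^ d i := by
        unfold ch
        rw [ofAdd_sum, map_prod]
        refine Finset.prod_congr rfl fun i _ => ?_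
        rw [ofAdd_nsmul, map_pow]
      rw [h4]
      push_cast
      rfl
    rw [h2, Finsupp.prod_fintype _ _ (by simp), ← Finset.prod_mul_distrib]
    refine Finset.prod_congr rfl fun i _ => ?_
    rw [mul_pow]
  have h5 := congrArg (coeff m) h1
  rw [coeff_sum, coeff_C_mul, Finset.sum_eq_single m] at h5
  · rw [coeff_monomial, if_pos rfl, mul_comm] at h5
    exact Units.ext (mul_right_cancel₀ (mem_support_iff.1 hm) h5)
  · intro d _ hd
    rw [coeff_monomial, if_neg hd]
  · intro hm'
    exact absurd hm hm'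

end poly

variable {k : Type*} [Field k] {ι X Y : Type*} [AddCommGroup X] [AddCommGroup Y]
  {P : RootDatum ι X Y} {b : P.Base} {Γ : Type*} [Group Γ] {G : RedGrp k P b Γ}

namespace RedGrp

/-- A family of elements of `Att l` depending regularly on a point of `k ^ τ` has polynomial
coordinates, of the given weights. -/
theorem IsCel.coords [IsAlgClosed k] [Module.Finite ℤ X] [Module.Free ℤ X] {N : ℕ}
    {e : Fin N ≃ {i // b.IsPos i}} {d : Γ → k} (h : G.IsCel e d) {τ : Type*} [Fintype τ]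
    {w : τ → X} {F : (τ → k) → Γ} (hF : G.Rg (PA k τ) F) {l : X →+ ℤ} (hl : ∀ v, F v ∈ G.Att l)
    (ht : ∀ z v, G.t z * F v * (G.t z)⁻¹ = F (fun i => (ch (w i) z : k) * v i)) :
    ∃ S R : Fin N → MvPolynomial τ k,
      (∀ v, F v = G.cel e (fun j => eval v (S j)) 1 (fun j => eval v (R j))) ∧
      (∀ j, S j ≠ 0 → 0 < l (P.root (e j))) ∧ (∀ j, R j ≠ 0 → l (P.root (e j)) < 0) ∧
      (∀ j, ∀ m ∈ (S j).support, ∑ i, m i • w i = P.root (e j)) ∧
      ∀ j, ∀ m ∈ (R j).support, ∑ i, m i • w i = -P.root (e j) := by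
  have : Infinite k := IsAlgClosed.instInfinite
  choose s r hsr hs hr using fun v => h.att (hl v)
  obtain ⟨D, hD⟩ := mem_PA.1 (hF d h.1)
  have hDne : ∀ v, eval v D ≠ 0 := by
    intro v
    rw [← hD]
    exact (h.2.1 _).2 ⟨s v, 1, r v, hsr v⟩
  have hDc : ∀ v, d (F v) = eval 0 D := fun v => (hD v).trans (poly_const hDne v)
  have key : ∀ Q : MvPolynomial (Fin N ⊕ Fin N) k, ∃ Q' : MvPolynomial τ k,
      ∀ v, eval v Q' = eval (Sum.elim (s v) (r v)) Q := by
    intro Q
    obtain ⟨n, f, hfA, hf⟩ := h.2.2 Q 0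
    obtain ⟨Q', hQ'⟩ := mem_PA.1 (hF f hfA)
    refine ⟨C ((eval 0 D ^ n)⁻¹) * Q', fun v => ?_⟩
    rw [map_mul, eval_C, ← hQ', hsr v, hf, ← hsr v, hDc, ch_zero, Units.val_one, mul_one,
      inv_mul_cancel_left₀ (pow_ne_zero n (hDne 0))]
  choose S hS using fun j => key (MvPolynomial.X (Sum.inl j))
  choose R hR using fun j => key (MvPolynomial.X (Sum.inr j))
  simp only [eval_X, Sum.elim_inl, Sum.elim_inr] at hS hR
  have hFv : ∀ v, F v = G.cel e (fun j => eval v (S j)) 1 (fun j => eval v (R j)) := by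
    intro v
    simp only [hS, hR]
    exact hsr v
  have hw : ∀ (z : Tor k X) (v : τ → k), (fun j => (ch (P.root (e j)) z : k) * eval v (S j)) =
      (fun j => eval (fun i => (ch (w i) z : k) * v i) (S j)) ∧
      (fun j => (ch (-P.root (e j)) z : k) * eval v (R j)) =
      (fun j => eval (fun i => (ch (w i) z : k) * v i) (R j)) := by
    intro z v
    have h1 := ht z v
    rw [hFv, t_cel, hFv] at h1
    exact ⟨(h.inj h1).1, (h.inj h1).2.2⟩
  refine ⟨S, R, hFv, ?_, ?_, ?_, ?_⟩
  · intro j hj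
    by_contra hcon
    apply hj
    apply MvPolynomial.funext
    intro v
    rw [map_zero, hS]
    by_contra hne
    exact hcon (hs v j hne)
  · intro j hj
    by_contra hcon
    apply hj
    apply MvPolynomial.funext
    intro v
    rw [map_zero, hR]
    by_contra hne
    exact hcon (hr v j hne)
  · intro j m hm
    exact poly_weight (fun z v => (congrFun (hw z v).1 j).symm) hm
  · intro j m hm
    exact poly_weight (fun z v => (congrFun (hw z v).2 j).symm) hm

/-- a cocharacter which is positive at two roots -/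
lemma exists_pos_pair [Finite ι] [P.IsReduced] {i j : ι} (h1 : P.root i ≠ P.root j)
    (h2 : P.root i ≠ -P.root j) : ∃ l : X →+ ℤ, 0 < l (P.root i) ∧ 0 < l (P.root j) := by
  have h3 := P.coxeterWeightIn_mem_set_of_isCrystallographic i j
  have h4 : P.coxeterWeightIn ℤ i j ≠ 4 := by
    have : Module.IsReflexive ℤ X := .of_isPerfPair P.toLinearMap
    exact P.coxeterWeightIn_ne_four ℤ (fun h => h1 (by rw [h])) h2
  have h5 : P.coxeterWeightIn ℤ i j = prY P j (P.root i) * prY P i (P.root j) := by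
    have h6 := P.algebraMap_coxeterWeightIn ℤ i j
    rw [show (algebraMap ℤ ℤ) (P.coxeterWeightIn ℤ i j) = P.coxeterWeightIn ℤ i j from rfl] at h6
    exact h6
  have h7 : prY P j (P.root i) * prY P i (P.root j) < 4 := by
    rw [← h5]
    simp only [Set.mem_insert_iff, Set.mem_singleton_iff] at h3
    omega
  refine ⟨(2 - prY P j (P.root i)) • prY P i + (2 - prY P i (P.root j)) • prY P j, ?_, ?_⟩
  · rw [AddMonoidHom.add_apply, AddMonoidHom.smul_apply, AddMonoidHom.smul_apply, prY_root_self,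
      smul_eq_mul, smul_eq_mul]
    nlinarith
  · rw [AddMonoidHom.add_apply, AddMonoidHom.smul_apply, AddMonoidHom.smul_apply, prY_root_self,
      smul_eq_mul, smul_eq_mul]
    nlinarith

omit [Field k] [AddCommGroup Y] [AddCommGroup X] [Group Γ] in
lemma list_prod_filter {α Δ : Type*} [Monoid Δ] (L : List α) (p : α → Bool) (f : α → Δ)
    (h : ∀ a ∈ L, p a = false → f a = 1) : ((L.filter p).map f).prod = (L.map f).prod := by
  induction L with
  | nil => rfl
  | cons a L ih =>
    have ih' := ih fun c hc => h c (List.mem_cons_of_mem _ hc)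
    cases hp : p a with
    | true => rw [List.filter_cons_of_pos hp, List.map_cons, List.prod_cons, ih', List.map_cons,
        List.prod_cons]
    | false => rw [List.filter_cons_of_neg (by rw [hp]; simp), ih', List.map_cons, List.prod_cons,
        h a List.mem_cons_self hp, one_mul]

omit [Field k] [AddCommGroup Y] [Group Γ] in
/-- a polynomial in two variables whose monomials have a given weight -/
lemma mono_of {K : Type*} [Field K] {α β γ : X} (hli : LinearIndependent ℤ ![α, β])
    {Q : MvPolynomial (Fin 2) K}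
    (hw : ∀ m ∈ Q.support, ∑ i, m i • (![α, β] : Fin 2 → X) i = γ)
    (h0 : ∀ v : Fin 2 → K, v 1 = 0 → eval v Q = 0) (h1 : ∀ v : Fin 2 → K, v 0 = 0 → eval v Q = 0) :
    ∃ (m n : ℕ) (c : K), (c ≠ 0 → 0 < m ∧ 0 < n ∧ γ = m • α + n • β) ∧
      ∀ v, eval v Q = c * v 0 ^ m * v 1 ^ n := by
  classical
  by_cases hQ : Q = 0
  · refine ⟨0, 0, 0, fun h => absurd rfl h, fun v => ?_⟩
    rw [hQ, map_zero, zero_mul, zero_mul]
  obtain ⟨m, hm⟩ := MvPolynomial.ne_zero_iff.1 hQ
  have hm' : m ∈ Q.support := mem_support_iff.2 hm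
  have huniq : ∀ m' ∈ Q.support, m' = m := by
    intro m' hm''
    have e1 := hw m hm'
    have e2 := hw m' hm''
    rw [Fin.sum_univ_two] at e1 e2
    simp only [Matrix.cons_val_zero, Matrix.cons_val_one] at e1 e2
    have e3 : ((m' 0 : ℤ) - m 0) • α + ((m' 1 : ℤ) - m 1) • β = 0 := by
      rw [sub_smul, sub_smul, natCast_zsmul, natCast_zsmul, natCast_zsmul, natCast_zsmul]
      have e4 : m' 0 • α - m 0 • α + (m' 1 • β - m 1 • β) =
        (m' 0 • α + m' 1 • β) - (m 0 • α + m 1 • β) := by abel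
      rw [e4, e1, e2, sub_self]
    obtain ⟨e5, e6⟩ := LinearIndependent.pair_iff.1 hli _ _ e3
    ext i
    fin_cases i
    · change m' 0 = m 0
      omega
    · change m' 1 = m 1
      omega
  have hQm : Q = monomial m (coeff m Q) := by
    ext m'
    rw [coeff_monomial]
    split_ifs with hc
    · rw [hc]
    · by_contra hne
      exact hc (huniq m' (mem_support_iff.2 hne)).symm
  have hev : ∀ v : Fin 2 → K, eval v Q = coeff m Q * v 0 ^ m 0 * v 1 ^ m 1 := by
    intro v
    conv_lhs => rw [hQm]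
    rw [eval_monomial, Finsupp.prod_fintype _ _ (by simp), Fin.prod_univ_two, mul_assoc]
  refine ⟨m 0, m 1, coeff m Q, fun _ => ⟨?_, ?_, ?_⟩, hev⟩
  · by_contra hcon
    have e1 := h1 ![0, 1] rfl
    rw [hev, Nat.eq_zero_of_not_pos hcon, pow_zero, mul_one,
      show (![0, 1] : Fin 2 → K) 1 = 1 from rfl, one_pow, mul_one] at e1
    exact hm e1
  · by_contra hcon
    have e1 := h0 ![1, 0] rfl
    rw [hev, Nat.eq_zero_of_not_pos hcon, pow_zero, mul_one,
      show (![1, 0] : Fin 2 → K) 0 = 1 from rfl, one_pow, mul_one] at e1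
    exact hm e1
  · have e1 := hw m hm'
    rw [Fin.sum_univ_two] at e1
    exact e1.symm

variable (G)

/-- Chevalley's commutator formula -/
theorem comm [IsAlgClosed k] [Finite ι] [Module.Finite ℤ X] [Module.Free ℤ X] [P.IsReduced]
    (i j : ι) (h1 : P.root i ≠ P.root j) (h2 : P.root i ≠ -P.root j) :
    ∃ l : List (ι × ℕ × ℕ × k),
    (∀ q ∈ l, 0 < q.2.1 ∧ 0 < q.2.2.1 ∧ P.root q.1 = q.2.1 • P.root i + q.2.2.1 • P.root j) ∧
    ∀ s r, G.x i s * G.x j r * (G.x i s)⁻¹ * (G.x j r)⁻¹ =
      (l.map fun q => G.x q.1 (q.2.2.2 * s ^ q.2.1 * r ^ q.2.2.1)).prod := by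
  classical
  obtain ⟨N, e, d, hc⟩ := G.exists_isCel
  obtain ⟨l, hli, hlj⟩ := exists_pos_pair h1 h2
  have hind : LinearIndependent ℤ ![P.root i, P.root j] := by
    by_contra hcon
    rcases RootPairing.IsReduced.eq_or_eq_neg i j hcon with h | h
    · exact h1 h
    · exact h2 h
  set F : (Fin 2 → k) → Γ := fun v => G.x i (v 0) * G.x j (v 1) * (G.x i (v 0))⁻¹ *
    (G.x j (v 1))⁻¹ with hFdef
  have hv : ∀ a : Fin 2, (fun v : Fin 2 → k => v a) ∈ PA k (Fin 2) := fun a =>
    mem_PA.2 ⟨MvPolynomial.X a, fun v => (eval_X _).symm⟩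
  have hF : G.Rg (PA k (Fin 2)) F :=
    Rg.mul (Rg.mul (Rg.mul (Rg.x G i (hv 0)) (Rg.x G j (hv 1))) (Rg.inv (Rg.x G i (hv 0))))
      (Rg.inv (Rg.x G j (hv 1)))
  have hl : ∀ v, F v ∈ G.Att l := fun v =>
    mul_mem (mul_mem (mul_mem (G.x_att hli _) (G.x_att hlj _)) (inv_mem (G.x_att hli _)))
      (inv_mem (G.x_att hlj _))
  have ht : ∀ z v, G.t z * F v * (G.t z)⁻¹ =
      F (fun a => (ch ((![P.root i, P.root j] : Fin 2 → X) a) z : k) * v a) := by
    intro z v
    simp only [hFdef]
    rw [show G.t z * (G.x i (v 0) * G.x j (v 1) * (G.x i (v 0))⁻¹ * (G.x j (v 1))⁻¹) *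
      (G.t z)⁻¹ = (G.t z * G.x i (v 0) * (G.t z)⁻¹) * (G.t z * G.x j (v 1) * (G.t z)⁻¹) *
      (G.t z * G.x i (v 0) * (G.t z)⁻¹)⁻¹ * (G.t z * G.x j (v 1) * (G.t z)⁻¹)⁻¹ by group,
      G.x_t, G.x_t]
    rfl
  obtain ⟨S, R, hSR, -, -, hS, hR⟩ := hc.coords hF hl ht
  have hz0 : ∀ v : Fin 2 → k, F v = 1 → (∀ q, eval v (S q) = 0) ∧ ∀ q, eval v (R q) = 0 := by
    intro v h
    rw [hSR, ← G.cel_one e] at h
    exact ⟨fun q => congrFun (hc.inj h).1 q, fun q => congrFun (hc.inj h).2.2 q⟩
  have hF1 : ∀ v : Fin 2 → k, v 1 = 0 → F v = 1 := by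
    intro v h
    simp only [hFdef]
    rw [h, G.x_zero]
    group
  have hF0 : ∀ v : Fin 2 → k, v 0 = 0 → F v = 1 := by
    intro v h
    simp only [hFdef]
    rw [h, G.x_zero]
    group
  choose mS nS cS hcS hSe using fun q => mono_of hind (hS q) (fun v h => (hz0 v (hF1 v h)).1 q)
    (fun v h => (hz0 v (hF0 v h)).1 q)
  choose mR nR cR hcR hRe using fun q => mono_of hind (hR q) (fun v h => (hz0 v (hF1 v h)).2 q)
    (fun v h => (hz0 v (hF0 v h)).2 q)
  set LS : List (ι × ℕ × ℕ × k) := List.ofFn fun q => ((e q : ι), mS q, nS q, cS q) with hLS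
  set LR' : List (ι × ℕ × ℕ × k) := List.ofFn fun q => (P.reflectionPerm (e q : ι) (e q : ι),
    mR q, nR q, cR q) with hLR
  refine ⟨(LS ++ LR').filter fun q => decide (q.2.2.2 ≠ 0), ?_, ?_⟩
  · intro q hq
    rw [List.mem_filter, List.mem_append] at hq
    obtain ⟨hq, hne⟩ := hq
    have hne' : q.2.2.2 ≠ 0 := of_decide_eq_true hne
    rcases hq with hq | hq
    · rw [hLS, List.mem_ofFn] at hq
      obtain ⟨a, rfl⟩ := hq
      exact hcS a hne'
    · rw [hLR, List.mem_ofFn] at hq
      obtain ⟨a, rfl⟩ := hq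
      obtain ⟨e1, e2, e3⟩ := hcR a hne'
      refine ⟨e1, e2, ?_⟩
      rw [root_neg]
      exact e3
  · intro s r
    rw [list_prod_filter, List.map_append, List.prod_append]
    · have h3 := hSR ![s, r]
      change G.x i s * G.x j r * (G.x i s)⁻¹ * (G.x j r)⁻¹ = _ at h3
      rw [h3, cel, map_one, mul_one]
      congr 1
      · rw [hLS, List.map_ofFn, upr]
        congr 2
        funext q
        simp only [Function.comp]
        rw [hSe]
        rfl
      · rw [hLR, List.map_ofFn, upr]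
        congr 2
        funext q
        simp only [Function.comp]
        rw [hRe, G.φ_lo]
        rfl
    · intro q _ hq
      have hq' : q.2.2.2 = 0 := by
        by_contra hne
        exact absurd (decide_eq_true hne) (by rw [hq]; simp)
      rw [hq', zero_mul, zero_mul, G.x_zero]

end RedGrp

end Pool.Agent.RG
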