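import Pool.Agent.RDG.Sys

/-!
# RG / SYS2: the Weyl group: dominant weights in the orbits, the longest element

`act P l a = s_{l_1} (s_{l_2} (... a))`.

* `exists_dom`: induction on the natural number `K - hgt a'` for `a' = act P l a` (`exists_bound`):
  if `a'` is not dominant, take `i` simple with `⟨a', α_i^∨⟩ < 0`; `s_i a' - a' = -⟨a', α_i^∨⟩ α_i`
  is in the closure and `hgt (s_i a') > hgt a'` (`hgt_refl`).
* `exists_w0`: among all lists `l` of simple roots choose one with the maximal number of positive
  roots `j` such that `act P l (root j)` is the negative of a positive root. If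
  `act P l (root i)` is a positive root for a simple `i`, then `l ++ [i]` has one more:
  `s_i` permutes the positive roots different from `i`, `act P (l ++ [i]) (root j) =
  act P l (root (s_i j))`, `act P (l ++ [i]) (root i) = - act P l (root i)`. So all simple roots,
  hence (`root_closure`, `act` is additive and maps roots to roots) all positive roots are mapped to
  negatives of positive roots. `σ` is defined by `act P l (root j) = - root (σ j)`, injective, so a
  permutation.
  `σ` preserves simple roots: if `en b (σ j)` is not simple it is a sum of a positive and a simple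
  root (`RootPairing.Base.IsPos.induction_on_add` or `exists_root_eq_sum...`), so, applying the
  inverse of `- act P l`, `root j` is a sum of two positive roots, which have height `≥ 1`, but a
  simple root has height `1`.
  The last claim: `⟨w a, w α_j^∨⟩ = ⟨a, α_j^∨⟩` and the coroot of `w (root j) = - root (σ j)` is
  `- coroot (σ j)` (coroots are determined by roots: `act` on coroots, `coroot'_reflection`).
* `act_pair`: induction on `l` with `RootPairing.coroot'_reflection`, `reflectionPerm`.
-/

set_option autoImplicit false

open MvPolynomial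

namespace Pool.Agent.RG

variable {ι X Y : Type*} [AddCommGroup X] [AddCommGroup Y] (P : RootDatum ι X Y)

/-- products of reflections -/
noncomputable def act (l : List ι) (a : X) : X := l.foldr (fun i c => P.reflection i c) a

lemma act_nil (a : X) : act P [] a = a := rfl

lemma act_cons (i : ι) (l : List ι) (a : X) : act P (i :: l) a = P.reflection i (act P l a) := rfl

lemma act_append (l l' : List ι) (a : X) : act P (l ++ l') a = act P l (act P l' a) := by
  unfold act
  rw [List.foldr_append]

lemma act_add (l : List ι) (a c : X) : act P l (a + c) = act P l a + act P l c := by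
  induction l with
  | nil => rfl
  | cons i l ih => rw [act_cons, act_cons, act_cons, ih, map_add]

lemma act_neg (l : List ι) (a : X) : act P l (-a) = -act P l a := by
  induction l with
  | nil => rfl
  | cons i l ih => rw [act_cons, act_cons, ih, map_neg]

lemma act_inj (l : List ι) {a c : X} (h : act P l a = act P l c) : a = c := by
  induction l with
  | nil => exact h
  | cons i l ih => exact ih ((P.reflection i).injective h)

/-- the action on the indices -/
def actI (l : List ι) (j : ι) : ι := l.foldr (fun i c => P.reflectionPerm i c) j

lemma actI_cons (i : ι) (l : List ι) (j : ι) :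
    actI P (i :: l) j = P.reflectionPerm i (actI P l j) := rfl

lemma actI_append (l l' : List ι) (j : ι) : actI P (l ++ l') j = actI P l (actI P l' j) := by
  unfold actI
  rw [List.foldr_append]

lemma act_root (l : List ι) (j : ι) : act P l (P.root j) = P.root (actI P l j) := by
  induction l with
  | nil => rfl
  | cons i l ih => rw [act_cons, ih, actI_cons, P.root_reflectionPerm]

lemma prY_neg (i : ι) (a : X) : prY P (P.reflectionPerm i i) a = -prY P i a := by
  have h : P.coroot (P.reflectionPerm i i) = -P.coroot i := by
    rw [P.coroot_reflectionPerm, P.coreflection_apply_self]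
  rw [prY_apply, prY_apply, h, map_neg]

lemma prY_refl (i j : ι) (a : X) : prY P (P.reflectionPerm i j) (P.reflection i a) = prY P j a := by
  rw [prY_apply, prY_apply, P.coroot_reflectionPerm, P.reflection_apply, P.coreflection_apply]
  simp only [map_sub, map_smul, LinearMap.sub_apply, LinearMap.smul_apply, smul_eq_mul,
    P.root_coroot_two]
  have h1 : (RootPairing.coroot' P i) a = P.toLinearMap a (P.coroot i) := rfl
  have h2 : (RootPairing.root' P i) (P.coroot j) = P.toLinearMap (P.root i) (P.coroot j) := rfl
  rw [h1, h2]
  ring

lemma act_pair (l : List ι) (j : ι) (a : X) : prY P (actI P l j) (act P l a) = prY P j a := by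
  induction l with
  | nil => rfl
  | cons i l ih => rw [act_cons, actI_cons, prY_refl, ih]

variable {P} (b : P.Base) [Finite ι] [P.IsReduced]

theorem exists_dom (a : X) : ∃ l : List ι, (∀ i ∈ l, i ∈ b.support) ∧ Dmt b (act P l a) ∧
    act P l a - a ∈ AddSubmonoid.closure (P.root '' (b.support : Set ι)) := by
  obtain ⟨K, hK⟩ := exists_bound b a
  have key : ∀ n : ℕ, ∀ l : List ι, (∀ i ∈ l, i ∈ b.support) →
      act P l a - a ∈ AddSubmonoid.closure (P.root '' (b.support : Set ι)) →
      K - hgt b (act P l a) ≤ n →
      ∃ l : List ι, (∀ i ∈ l, i ∈ b.support) ∧ Dmt b (act P l a) ∧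
        act P l a - a ∈ AddSubmonoid.closure (P.root '' (b.support : Set ι)) := by
    intro n
    induction n with
    | zero =>
      intro l hl hc hn
      refine ⟨l, hl, ?_, hc⟩
      intro i hi
      by_contra hneg
      have h1 := hK (i :: l)
      have h2 := hgt_refl b hi (act P l a)
      change hgt b (P.reflection i (act P l a)) ≤ K at h1
      push_cast at hn
      lia
    | succ n ih =>
      intro l hl hc hn
      by_cases hd : Dmt b (act P l a)
      · exact ⟨l, hl, hd, hc⟩
      · unfold Dmt at hd
        push Not at hd
        obtain ⟨i, hi, hneg⟩ := hd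
        have h2 := hgt_refl b hi (act P l a)
        refine ih (i :: l) ?_ ?_ ?_
        · intro j hj
          rcases List.mem_cons.1 hj with rfl | hj
          · exact hi
          · exact hl j hj
        · rw [act_cons, refl_eq]
          obtain ⟨m, hm⟩ := Int.eq_ofNat_of_zero_le (a := -prY P i (act P l a)) (by lia)
          have h3 : act P l a - prY P i (act P l a) • P.root i - a =
              (act P l a - a) + m • P.root i := by
            have h4 : (m : ℤ) • P.root i = m • P.root i := natCast_zsmul _ _
            rw [← h4, ← hm, neg_smul]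
            abel
          rw [h3]
          have h5 : P.root i ∈ AddSubmonoid.closure (P.root '' (b.support : Set ι)) :=
            AddSubmonoid.subset_closure (Set.mem_image_of_mem _ hi)
          exact AddSubmonoid.add_mem _ hc (AddSubmonoid.nsmul_mem _ h5 m)
        · rw [act_cons]
          push_cast at hn
          lia
  refine key (K - hgt b a).toNat [] (by simp) ?_ ?_
  · rw [act_nil, sub_self]
    exact AddSubmonoid.zero_mem _
  · rw [act_nil]
    exact Int.self_le_toNat _

omit [P.IsReduced] [Finite ι] in
lemma pos_neg (i : ι) : b.IsPos (P.reflectionPerm i i) ↔ ¬ b.IsPos i :=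
  RootPairing.Base.IsPos.neg_iff_not b i

omit [P.IsReduced] [Finite ι] in
lemma actI_neg (l : List ι) (i : ι) :
    actI P l (P.reflectionPerm i i) = P.reflectionPerm (actI P l i) (actI P l i) := by
  apply P.root.injective
  rw [← act_root, root_neg, act_neg, root_neg, act_root]

omit [P.IsReduced] [Finite ι] in
lemma actI_inj (l : List ι) {i j : ι} (h : actI P l i = actI P l j) : i = j := by
  apply P.root.injective
  apply act_inj P l
  rw [act_root, act_root, h]

/-- the longest element maps the positive roots to the negative roots -/
lemma exists_w0_aux : ∃ l : List ι, (∀ i ∈ l, i ∈ b.support) ∧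
    ∀ j, b.IsPos j → ¬ b.IsPos (actI P l j) := by
  classical
  have : Fintype ι := Fintype.ofFinite ι
  let A : List ι → Finset ι := fun l => Finset.univ.filter fun j => b.IsPos j ∧ ¬ b.IsPos (actI P l j)
  have hbd : ∀ l, (A l).card ≤ Fintype.card ι := fun l => Finset.card_le_univ _
  obtain ⟨l, hl, hmax⟩ : ∃ l : List ι, (∀ i ∈ l, i ∈ b.support) ∧
      ∀ l' : List ι, (∀ i ∈ l', i ∈ b.support) → (A l').card ≤ (A l).card := by
    by_contra hc
    push Not at hc
    have h1 : ∀ n : ℕ, ∃ l : List ι, (∀ i ∈ l, i ∈ b.support) ∧ n ≤ (A l).card := by
      intro n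
      induction n with
      | zero => exact ⟨[], by simp, Nat.zero_le _⟩
      | succ n ih =>
        obtain ⟨l, hl, hn⟩ := ih
        obtain ⟨l', hl', hn'⟩ := hc l hl
        exact ⟨l', hl', by lia⟩
    obtain ⟨l, -, h2⟩ := h1 (Fintype.card ι + 1)
    have h3 := hbd l
    lia
  refine ⟨l, hl, ?_⟩
  have hsimple : ∀ i ∈ b.support, ¬ b.IsPos (actI P l i) := by
    intro i hi hpos
    have h1 := hmax (l ++ [i]) (by
      intro j hj
      rcases List.mem_append.1 hj with hj | hj
      · exact hl j hj
      · rw [List.mem_singleton.1 hj]
        exact hi)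
    have hiA : i ∉ A l := by
      simp only [A, Finset.mem_filter, not_and, not_not]
      intro _ _
      exact hpos
    have hj : ∀ j, actI P (l ++ [i]) j = actI P l (P.reflectionPerm i j) := by
      intro j
      rw [actI_append]
      rfl
    have hi2 : i ∉ (A l).image (P.reflectionPerm i) := by
      intro hmem
      obtain ⟨j, hjA, hji⟩ := Finset.mem_image.1 hmem
      have h2 : j = P.reflectionPerm i i := by
        apply (P.reflectionPerm i).injective
        rw [RootPairing.reflectionPerm_self, hji]
      simp only [A, Finset.mem_filter] at hjA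
      have h3 := (pos_neg b i).1 (h2 ▸ hjA.2.1)
      exact h3 (RootPairing.Base.isPos_of_mem_support hi)
    have hsub : insert i ((A l).image (P.reflectionPerm i)) ⊆ A (l ++ [i]) := by
      intro j hjm
      rcases Finset.mem_insert.1 hjm with rfl | hjm
      · simp only [A, Finset.mem_filter]
        refine ⟨Finset.mem_univ _, RootPairing.Base.isPos_of_mem_support hi, ?_⟩
        rw [hj, actI_neg, pos_neg]
        exact fun h => h hpos
      · obtain ⟨m, hmA, rfl⟩ := Finset.mem_image.1 hjm
        have hmi : m ≠ i := fun h => hiA (h ▸ hmA)
        simp only [A, Finset.mem_filter] at hmA ⊢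
        refine ⟨Finset.mem_univ _, (refl_pos b hi hmA.2.1 hmi).1, ?_⟩
        rw [hj, RootPairing.reflectionPerm_self]
        exact hmA.2.2
    have h4 := Finset.card_le_card hsub
    rw [Finset.card_insert_of_notMem hi2, Finset.card_image_of_injective _
      (P.reflectionPerm i).injective] at h4
    lia
  intro j hj
  refine RootPairing.Base.IsPos.induction_on_add hj (p := fun j => ¬ b.IsPos (actI P l j))
    hsimple ?_
  intro i j k hk hi hj
  have h1 : P.root (actI P l k) = P.root (actI P l i) + P.root (actI P l j) := by
    rw [← act_root, ← act_root, ← act_root, hk, act_add]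
  have h2 := b.height_add h1
  have h3 := hsimple j hj
  rw [RootPairing.Base.isPos_iff] at hi h3 ⊢
  have h4 := b.height_ne_zero (actI P l i)
  lia

omit [P.IsReduced] in
/-- a positive root is simple or the sum of a positive and a simple root -/
lemma pos_split {i : ι} (hi : b.IsPos i) : b.IsPos i ∧ (i ∈ b.support ∨ ∃ k m, b.IsPos k ∧
    b.IsPos m ∧ P.root i = P.root k + P.root m) := by
  refine RootPairing.Base.IsPos.induction_on_add hi (p := fun i => b.IsPos i ∧
    (i ∈ b.support ∨ ∃ k m, b.IsPos k ∧ b.IsPos m ∧ P.root i = P.root k + P.root m)) ?_ ?_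
  · intro i hi
    exact ⟨RootPairing.Base.isPos_of_mem_support hi, Or.inl hi⟩
  · intro i j k hk hi hj
    have hj' := RootPairing.Base.isPos_of_mem_support hj
    exact ⟨hi.1.add hj' hk, Or.inr ⟨i, j, hi.1, hj', hk⟩⟩

theorem exists_w0 : ∃ (l : List ι) (σ : Equiv.Perm (Fin (enN b))), (∀ i ∈ l, i ∈ b.support) ∧
    (∀ j, act P l (P.root (en b j : ι)) = -P.root (en b (σ j) : ι)) ∧
    (∀ j, (en b j : ι) ∈ b.support → (en b (σ j) : ι) ∈ b.support) ∧
    ∀ j a, prY P (en b (σ j) : ι) (act P l a) = -prY P (en b j : ι) a := by
  obtain ⟨l, hl, hw⟩ := exists_w0_aux b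
  have hpos : ∀ j : Fin (enN b),
      b.IsPos (P.reflectionPerm (actI P l (en b j : ι)) (actI P l (en b j : ι))) := fun j =>
    (pos_neg b _).2 (hw _ (en b j).2)
  let s : Fin (enN b) → Fin (enN b) := fun j =>
    (en b).symm ⟨P.reflectionPerm (actI P l (en b j : ι)) (actI P l (en b j : ι)), hpos j⟩
  have hs : ∀ j, (en b (s j) : ι) =
      P.reflectionPerm (actI P l (en b j : ι)) (actI P l (en b j : ι)) := by
    intro j
    simp only [s, Equiv.apply_symm_apply]
  have hroot : ∀ j, act P l (P.root (en b j : ι)) = -P.root (en b (s j) : ι) := by
    intro j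
    rw [hs, root_neg, neg_neg, act_root]
  have hinj : Function.Injective s := by
    intro i j hij
    apply (en b).injective
    apply Subtype.ext
    apply P.root.injective
    apply act_inj P l
    rw [hroot, hroot, hij]
  have hbij := Finite.injective_iff_bijective.1 hinj
  refine ⟨l, Equiv.ofBijective s hbij, hl, hroot, ?_, ?_⟩
  · intro j hj
    change (en b (s j) : ι) ∈ b.support
    rcases (pos_split b (en b (s j)).2).2 with h | ⟨k, m, hk, hm, hkm⟩
    · exact h
    · exfalso
      obtain ⟨k', hk'⟩ := hbij.2 ((en b).symm ⟨k, hk⟩)
      obtain ⟨m', hm'⟩ := hbij.2 ((en b).symm ⟨m, hm⟩)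
      have h1 := hroot k'
      have h2 := hroot m'
      rw [hk', Equiv.apply_symm_apply] at h1
      rw [hm', Equiv.apply_symm_apply] at h2
      have h3 : P.root (en b j : ι) = P.root (en b k' : ι) + P.root (en b m' : ι) := by
        apply act_inj P l
        rw [act_add, hroot, h1, h2, hkm]
        abel
      have h4 := b.height_add h3
      rw [RootPairing.Base.height_one_of_mem_support hj] at h4
      have h5 := (b.isPos_iff).1 (en b k').2
      have h6 := (b.isPos_iff).1 (en b m').2
      lia
  · intro j a
    change prY P (en b (s j) : ι) (act P l a) = _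
    rw [hs, prY_neg, act_pair]

end Pool.Agent.RG
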