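import Pool.Agent.RDG.Cell
import Pool.Agent.RDG.Sys2

/-!
# RG / CONJ: the Weyl group permutes the root subgroups

* `homog`: if `m` is a polynomial in one variable with `ch a z * m s = m (ch c z * s)` for all `z`, `s`,
  and `m ≠ 0`, compare the coefficients of `s ^ n`: for every `n` with nonzero coefficient
  `ch a = ch (n • c)`, so `a = n • c` (`ch_inj`).
* `nn_conj`: for `j = ± i` (as roots): `nn_x`, `nn_x'` (then `reflectionPerm i j` is `∓ i`). Otherwise
  let first `j = en b q` be positive. `F s = nn i * xp q s * (nn i)⁻¹ ∈ UI` (`UI_norm` with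
  `g = wl`), a regular map (`R` = polynomial functions on `Z = k`), so `F s = upr xp (m_l s)` with
  polynomials `m_l` (`poly_U`). With `t_nn`: `t z * F s * (t z)⁻¹ = F (ch (s_i root q) z * s)`, and by
  `t_upr_xp` and `om_inj`: `ch (root l) z * m_l s = m_l (ch (s_i root q) z * s)`. `homog` and `nonprop`
  (`root l = n • root (s_i q)`, both positive: `refl_pos`): `m_l = 0` unless `root l = root (s_i q)`,
  and then `m_l s = c s` (`n = 1`). `c ≠ 0` because `F` is injective. For negative `j` the same in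
  `VI`, `poly_V`.
* `nnl_conj`: induction on the list.
-/

set_option autoImplicit false

open MvPolynomial

namespace Pool.Agent.RG

variable {k : Type*} [Field k] {ι X Y : Type*} [AddCommGroup X] [AddCommGroup Y] [Finite ι]
  {P : RootDatum ι X Y} {b : P.Base} {Γ : Type*} [Group Γ] (G : RedGrp k P b Γ)
  [IsAlgClosed k] [Module.Finite ℤ X] [Module.Free ℤ X] [P.IsReduced]

lemma homog {a c : X} {m : Polynomial k}
    (h : ∀ (z : Tor k X) s, (ch a z : k) * m.eval s = m.eval ((ch c z : k) * s)) (n : ℕ)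
    (hn : m.coeff n ≠ 0) : a = n • c := by
  apply ch_inj (k := k)
  intro z
  have h1 : Polynomial.C ((ch a z : kˣ) : k) * m =
      m.comp (Polynomial.C ((ch c z : kˣ) : k) * Polynomial.X) := by
    apply Polynomial.funext
    intro s
    rw [Polynomial.eval_mul, Polynomial.eval_C, Polynomial.eval_comp, Polynomial.eval_mul,
      Polynomial.eval_C, Polynomial.eval_X]
    exact h z s
  have h2 := congrArg (fun p => Polynomial.coeff p n) h1
  simp only [Polynomial.coeff_C_mul, Polynomial.comp_C_mul_X_coeff] at h2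
  rw [mul_comm] at h2
  have h3 := mul_left_cancel₀ hn h2
  rw [ch_nsmul]
  apply Units.ext
  rw [h3, Units.val_pow_eq_pow_val]

private lemma prod_ofFn_single {G : Type*} [Group G] : ∀ {n : ℕ} (f : Fin n → G) (i : Fin n),
    (∀ j, j ≠ i → f j = 1) → (List.ofFn f).prod = f i
  | 0, _, i, _ => i.elim0
  | n + 1, f, i, h => by
    rw [List.ofFn_succ, List.prod_cons]
    refine Fin.cases ?_ (fun i => ?_) i h
    · intro h
      have h1 : ∀ x ∈ List.ofFn (fun i : Fin n => f i.succ), x = 1 := by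
        intro x hx
        obtain ⟨j, rfl⟩ := (List.mem_ofFn' _ _).1 hx
        exact h _ (Fin.succ_ne_zero j)
      rw [List.prod_eq_one h1, mul_one]
    · intro h
      rw [h 0 (Fin.succ_ne_zero i).symm, one_mul]
      exact prod_ofFn_single (fun i => f i.succ) i fun j hj =>
        h _ fun h' => hj (Fin.succ_injective _ h')

private lemma upr_single' {K : Type*} [Zero K] {Γ : Type*} [Group Γ] {N : ℕ} (x : Fin N → K → Γ)
    (h0 : ∀ j, x j 0 = 1) (i : Fin N) (s : K) (v : Fin N → K) (hv : v i = s)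
    (hv' : ∀ j, j ≠ i → v j = 0) : upr x v = x i s := by
  unfold upr
  rw [prod_ofFn_single (fun j => x j (v j)) i, hv]
  intro j hj
  rw [hv' j hj, h0]

private lemma upr_zero' {K : Type*} [Zero K] {Γ : Type*} [Group Γ] {N : ℕ} (x : Fin N → K → Γ)
    (h0 : ∀ j, x j 0 = 1) : upr x 0 = 1 := by
  unfold upr
  apply List.prod_eq_one
  intro y hy
  obtain ⟨j, rfl⟩ := (List.mem_ofFn' _ _).1 hy
  exact h0 j

namespace RedGrp

/-- polynomial functions of one variable -/
private noncomputable def pol1 (k : Type*) [Field k] : Subalgebra k (k → k) :=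
  (Polynomial.aeval (R := k) (fun s : k => s)).range

private lemma mem_pol1 {f : k → k} : f ∈ pol1 k ↔ ∃ Q : Polynomial k, ∀ s, f s = Q.eval s := by
  have key : ∀ (Q : Polynomial k) (s : k),
      (Polynomial.aeval (R := k) (fun s : k => s) Q : k → k) s = Q.eval s := by
    intro Q s
    induction Q using Polynomial.induction_on' with
    | add p q hp hq => rw [map_add, Pi.add_apply, hp, hq, Polynomial.eval_add]
    | monomial n a =>
      rw [Polynomial.aeval_monomial, Polynomial.eval_monomial, Pi.mul_apply, Pi.pow_apply]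
      rfl
  constructor
  · rintro ⟨Q, rfl⟩
    exact ⟨Q, key Q⟩
  · rintro ⟨Q, hQ⟩
    exact ⟨Q, funext fun s => (key Q s).trans (hQ s).symm⟩

private lemma conj_aux (g : Γ) (y : Fin (enN b) → k → Γ) (w : Fin (enN b) → X) (r : X → X)
    (rT' : Tor k X → Tor k X) (hrT : ∀ a z, ch a (rT' z) = ch (r a) z)
    (hg : ∀ z, G.t z * g = g * G.t (rT' z))
    (h0 : ∀ j, y j 0 = 1) (hinj : ∀ s s', upr y s = upr y s' → s = s')
    (ht : ∀ z s, G.t z * upr y s * (G.t z)⁻¹ = upr y fun j => (ch (w j) z : k) * s j)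
    (q q' : Fin (enN b)) (hw : ∀ l (n : ℕ), w l = n • r (w q) → l = q' ∧ n = 1)
    (hF : ∃ m : Fin (enN b) → Polynomial k, ∀ s, g * y q s * g⁻¹ = upr y fun l => (m l).eval s) :
    ∃ c : kˣ, ∀ s : k, g * y q s * g⁻¹ = y q' (c * s) := by
  classical
  obtain ⟨m, hm⟩ := hF
  have hq : ∀ s : k, upr y (Pi.single q s) = y q s := fun s =>
    upr_single' y h0 q s _ (Pi.single_eq_same _ _) fun j hj => Pi.single_eq_of_ne hj _
  have hty : ∀ (z : Tor k X) (s : k), G.t z * y q s * (G.t z)⁻¹ = y q ((ch (w q) z : k) * s) := by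
    intro z s
    rw [← hq, ht, ← hq]
    congr 1
    funext j
    by_cases hj : j = q
    · subst hj
      rw [Pi.single_eq_same, Pi.single_eq_same]
    · rw [Pi.single_eq_of_ne hj, Pi.single_eq_of_ne hj, mul_zero]
  have h1 : ∀ (l : Fin (enN b)) (z : Tor k X) (s : k),
      (ch (w l) z : k) * (m l).eval s = (m l).eval ((ch (r (w q)) z : k) * s) := by
    intro l z s
    have h2 : upr y (fun l => (ch (w l) z : k) * (m l).eval s) =
        upr y (fun l => (m l).eval ((ch (r (w q)) z : k) * s)) := by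
      rw [← ht z (fun l => (m l).eval s), ← hm, ← hm]
      have h3 : G.t z * (g * y q s * g⁻¹) * (G.t z)⁻¹ =
          (G.t z * g) * y q s * (G.t z * g)⁻¹ := by group
      rw [h3, hg]
      have h4 : g * G.t (rT' z) * y q s * (g * G.t (rT' z))⁻¹ =
          g * (G.t (rT' z) * y q s * (G.t (rT' z))⁻¹) * g⁻¹ := by group
      rw [h4, hty, hrT]
    exact congrFun (hinj _ _ h2) l
  have h2 : ∀ l n, (m l).coeff n ≠ 0 → l = q' ∧ n = 1 := fun l n hn =>
    hw l n (homog (h1 l) n hn)
  have h3 : ∀ l, l ≠ q' → m l = 0 := by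
    intro l hl
    ext n
    rw [Polynomial.coeff_zero]
    by_contra hn
    exact hl (h2 l n hn).1
  have h4 : m q' = Polynomial.C ((m q').coeff 1) * Polynomial.X := by
    ext n
    rw [Polynomial.coeff_C_mul, Polynomial.coeff_X]
    split_ifs with hn
    · rw [← hn, mul_one]
    · rw [mul_zero]
      by_contra hne
      exact hn (h2 q' n hne).2.symm
  have h5 : ∀ s, g * y q s * g⁻¹ = y q' ((m q').coeff 1 * s) := by
    intro s
    rw [hm]
    apply upr_single' y h0
    · conv_lhs => rw [h4]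
      rw [Polynomial.eval_mul, Polynomial.eval_C, Polynomial.eval_X]
    · intro j hj
      rw [h3 j hj, Polynomial.eval_zero]
  have h6 : (m q').coeff 1 ≠ 0 := by
    intro hc
    have h7 := h5 1
    rw [hc, zero_mul, h0] at h7
    have h8 : y q 1 = 1 := by
      have h10 : g⁻¹ * (g * y q 1 * g⁻¹) * g = y q 1 := by group
      rw [← h10, h7]
      group
    have h9 : upr y (Pi.single q (1 : k)) = upr y (Pi.single q (0 : k)) := by
      rw [hq, hq, h8, h0]
    have h10 := congrFun (hinj _ _ h9) q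
    rw [Pi.single_eq_same, Pi.single_eq_same] at h10
    exact one_ne_zero h10
  exact ⟨Units.mk0 _ h6, h5⟩

theorem nn_conj {i : ι} (hi : i ∈ b.support) (j : ι) : ∃ c : kˣ, ∀ s : k,
    G.nn i * G.x j s * (G.nn i)⁻¹ = G.x (P.reflectionPerm i j) (c * s) := by
  classical
  by_cases h1 : j = i
  · subst h1
    refine ⟨-1, fun s => ?_⟩
    rw [nn_x]
    simp
  by_cases h2 : j = P.reflectionPerm i i
  · subst h2
    refine ⟨-1, fun s => ?_⟩
    rw [nn_x', RootPairing.reflectionPerm_self]
    simp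
  have hipos := RootPairing.Base.isPos_of_mem_support hi
  obtain ⟨i', hi'⟩ : ∃ i', (en b i' : ι) = i := ⟨(en b).symm ⟨i, hipos⟩, by
    rw [Equiv.apply_symm_apply]⟩
  have hi'' : (en b i' : ι) ∈ b.support := hi'.symm ▸ hi
  have hinjU : ∀ s s' : Fin (enN b) → k, upr G.xp s = upr G.xp s' → s = s' := by
    intro s s' h
    have h3 : G.om s 1 0 = G.om s' 1 0 := by
      unfold om
      rw [h]
    exact (G.om_inj h3).1
  have hinjV : ∀ s s' : Fin (enN b) → k, upr G.xm s = upr G.xm s' → s = s' := by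
    intro s s' h
    have h3 : G.om 0 1 s = G.om 0 1 s' := by
      unfold om
      rw [h]
    exact (G.om_inj h3).2.2
  have htf : ∀ (n : ℕ) (j : ι), P.root j = n • P.root j → n = 1 := by
    intro n j hn
    have h3 : ((n : ℤ) - 1) • P.root j = 0 := by
      rw [sub_smul, one_smul, natCast_zsmul, ← hn, sub_self]
    rcases smul_eq_zero.1 h3 with h4 | h4
    · lia
    · exact absurd h4 (P.ne_zero j)
  have hreg : ∀ j : ι, G.Rg (pol1 k) (fun s => G.nn i * G.x j s * (G.nn i)⁻¹) := by
    intro j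
    refine Rg.mul (Rg.mul (Rg.const _) ?_) (Rg.const _)
    exact Rg.x G j (s := fun s => s) (mem_pol1.2 ⟨Polynomial.X, fun s => by rw [Polynomial.eval_X]⟩)
  by_cases hpos : b.IsPos j
  · obtain ⟨hp', hne'⟩ := refl_pos b hi hpos h1
    obtain ⟨q, hq⟩ : ∃ q, (en b q : ι) = j := ⟨(en b).symm ⟨j, hpos⟩, by
      rw [Equiv.apply_symm_apply]⟩
    obtain ⟨q', hq'⟩ : ∃ q, (en b q : ι) = P.reflectionPerm i j := ⟨(en b).symm ⟨_, hp'⟩, by
      rw [Equiv.apply_symm_apply]⟩
    have hqi : q ≠ i' := fun h => h1 (by rw [← hq, ← hi', h])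
    have h3 : ∀ s, G.nn i * G.xp q s * (G.nn i)⁻¹ ∈ G.UU := by
      intro s
      have h4 : G.xp q s ∈ G.UI i' := Subgroup.subset_closure
        (Set.mem_iUnion.2 ⟨q, Set.mem_iUnion.2 ⟨hqi, Set.mem_range_self s⟩⟩)
      have h5 := G.UI_norm hi'' h4 (wl k)
      rw [hi'] at h5
      have h6 : G.UI i' ≤ G.UU := by
        apply Subgroup.closure_mono
        intro g hg
        obtain ⟨j, hj⟩ := Set.mem_iUnion.1 hg
        obtain ⟨_, hj⟩ := Set.mem_iUnion.1 hj
        exact Set.mem_iUnion.2 ⟨j, hj⟩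
      exact h6 h5
    obtain ⟨m, hm, hm'⟩ := G.poly_U (R := pol1 k)
      (F := fun s => G.nn i * G.xp q s * (G.nn i)⁻¹) (hreg _) h3
    choose Q hQ using fun l => mem_pol1.1 (hm l)
    have hw : ∀ l (n : ℕ), P.root (en b l : ι) = n • P.reflection i (P.root (en b q : ι)) →
        l = q' ∧ n = 1 := by
      intro l n hln
      simp only [hq] at hln
      rw [← P.root_reflectionPerm] at hln
      have h4 : (1 : ℕ) • P.root (en b l : ι) = n • P.root (P.reflectionPerm i j) := by
        rw [one_smul]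
        exact hln
      have h5 := nonprop b (en b l).2 hp' Nat.one_pos h4
      refine ⟨(en b).injective (Subtype.ext (by rw [h5, hq'])), ?_⟩
      rw [h5] at hln
      exact htf n _ hln
    obtain ⟨c, hc⟩ := conj_aux G (G.nn i) G.xp (fun l => P.root (en b l : ι))
      (fun a => P.reflection i a) (fun z => rT k P i z) (fun a z => ch_rT i a z)
      (G.t_nn i) (fun j => G.x_zero _) hinjU (G.t_upr_xp) q q' hw
      ⟨Q, fun s => by rw [hm' s]; congr 1; funext l; exact hQ l s⟩
    refine ⟨c, fun s => ?_⟩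
    have h4 := hc s
    unfold xp at h4
    rw [hq, hq'] at h4
    exact h4
  · have hneg : b.IsPos (P.reflectionPerm j j) := (pos_neg b j).2 hpos
    have h1' : P.reflectionPerm j j ≠ i := by
      intro h
      apply h2
      apply P.root.injective
      rw [root_neg, ← h, root_neg, neg_neg]
    obtain ⟨hp', hne'⟩ := refl_pos b hi hneg h1'
    obtain ⟨q, hq⟩ : ∃ q, (en b q : ι) = P.reflectionPerm j j := ⟨(en b).symm ⟨_, hneg⟩, by
      rw [Equiv.apply_symm_apply]⟩
    obtain ⟨q', hq'⟩ : ∃ q, (en b q : ι) = P.reflectionPerm i (P.reflectionPerm j j) :=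
      ⟨(en b).symm ⟨_, hp'⟩, by rw [Equiv.apply_symm_apply]⟩
    have hqi : q ≠ i' := fun h => h1' (by rw [← hq, ← hi', h])
    have hqj : P.reflectionPerm (en b q : ι) (en b q : ι) = j := by
      apply P.root.injective
      rw [root_neg, hq, root_neg, neg_neg]
    have hqj' : P.reflectionPerm (en b q' : ι) (en b q' : ι) = P.reflectionPerm i j := by
      apply P.root.injective
      rw [root_neg, hq', P.root_reflectionPerm, root_neg, map_neg, neg_neg, P.root_reflectionPerm]
    have h3 : ∀ s, G.nn i * G.xm q s * (G.nn i)⁻¹ ∈ G.VV := by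
      intro s
      have h4 : G.xm q s ∈ G.VI i' := Subgroup.subset_closure
        (Set.mem_iUnion.2 ⟨q, Set.mem_iUnion.2 ⟨hqi, Set.mem_range_self s⟩⟩)
      have h5 := G.VI_norm hi'' h4 (wl k)
      rw [hi'] at h5
      have h6 : G.VI i' ≤ G.VV := by
        apply Subgroup.closure_mono
        intro g hg
        obtain ⟨j, hj⟩ := Set.mem_iUnion.1 hg
        obtain ⟨_, hj⟩ := Set.mem_iUnion.1 hj
        exact Set.mem_iUnion.2 ⟨j, hj⟩
      exact h6 h5
    obtain ⟨m, hm, hm'⟩ := G.poly_V (R := pol1 k)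
      (F := fun s => G.nn i * G.xm q s * (G.nn i)⁻¹) (hreg _) h3
    choose Q hQ using fun l => mem_pol1.1 (hm l)
    have hw : ∀ l (n : ℕ), -P.root (en b l : ι) = n • P.reflection i (-P.root (en b q : ι)) →
        l = q' ∧ n = 1 := by
      intro l n hln
      simp only [hq, map_neg, smul_neg, neg_inj] at hln
      rw [← P.root_reflectionPerm] at hln
      have h4 : (1 : ℕ) • P.root (en b l : ι) =
          n • P.root (P.reflectionPerm i (P.reflectionPerm j j)) := by
        rw [one_smul]
        exact hln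
      have h5 := nonprop b (en b l).2 hp' Nat.one_pos h4
      refine ⟨(en b).injective (Subtype.ext (by rw [h5, hq'])), ?_⟩
      rw [h5] at hln
      exact htf n _ hln
    obtain ⟨c, hc⟩ := conj_aux G (G.nn i) G.xm (fun l => -P.root (en b l : ι))
      (fun a => P.reflection i a) (fun z => rT k P i z) (fun a z => ch_rT i a z)
      (G.t_nn i) (fun j => G.x_zero _) hinjV (G.t_upr_xm) q q' hw
      ⟨Q, fun s => by rw [hm' s]; congr 1; funext l; exact hQ l s⟩
    refine ⟨c, fun s => ?_⟩
    have h4 := hc s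
    unfold xm at h4
    rw [hqj, hqj'] at h4
    exact h4

theorem nnl_conj (l : List ι) (hl : ∀ i ∈ l, i ∈ b.support) (j : ι) : ∃ c : kˣ, ∀ s : k,
    G.nnl l * G.x j s * (G.nnl l)⁻¹ = G.x (actI P l j) (c * s) := by
  induction l with
  | nil =>
    refine ⟨1, fun s => ?_⟩
    have h1 : G.nnl [] = 1 := rfl
    rw [h1, one_mul, inv_one, mul_one, Units.val_one, one_mul]
    rfl
  | cons i l ih =>
    obtain ⟨c, hc⟩ := ih fun j hj => hl j (List.mem_cons_of_mem _ hj)
    obtain ⟨c', hc'⟩ := G.nn_conj (hl i List.mem_cons_self) (actI P l j)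
    refine ⟨c' * c, fun s => ?_⟩
    have h1 : G.nnl (i :: l) = G.nn i * G.nnl l := by
      unfold nnl
      rw [List.map_cons, List.prod_cons]
    have h2 : G.nn i * G.nnl l * G.x j s * (G.nn i * G.nnl l)⁻¹ =
        G.nn i * (G.nnl l * G.x j s * (G.nnl l)⁻¹) * (G.nn i)⁻¹ := by group
    rw [h1, h2, hc, hc', actI_cons, Units.val_mul, mul_assoc]

end RedGrp

end Pool.Agent.RG
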