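import Pool.Agent.RDG.PinA
import Pool.Agent.TRN.Wl
import Pool.Agent.DM.IndB

/-!
# RDG / NZA: further properties of the pinned group of a reductive group

* `gordan`: let `e : Fin n → X` generate `X` as a group. `M = (Fin n → ℕ) × (Fin n → ℕ) × (I → ℕ)`,
  `f (x, y, z) i = l i (∑ x_j e_j - ∑ y_j e_j)`, `g (x, y, z) i = z_i` as homomorphisms `M → (I → ℤ)`.
  `AddSubmonoid.fg_eqLocusM` (Mathlib, `GroupTheory/Finiteness`): the equaliser is finitely generated, and its image under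
  `(x, y, z) ↦ ∑ x_j e_j - ∑ y_j e_j` is the submonoid `{a | ∀ i, 0 ≤ l i a}`.
* `nz`: `U`, `Um`: `n0_xp`, `n0_xm` (`Subgroup.closure_induction`; `pg_U`, `pg_Um`). `w0`: `act_w0_sq`. `add`: `act_add`.
  `root`: `w0_root`. `dom`: `domX_eq`; for positive `i = en (w0s j)`: `prY i (- act a) = prY (en j) a ≥ 0`
  (`w0_pr`, `Dmt.pr_nonneg`). `ne`: `hw_of_dmt`, `Hw.right` (`v 1 = v (om 0 1 0) = 1`). `ht`:
  `Dmt.hgt_nonneg`. `fg`: `gordan` for the simple coroots.
* `fd`: `DM.PinData.Ind_fin` for `G.pin`, `pin_ax`, `mem_pin_Ind`.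
-/

set_option autoImplicit false

namespace Pool.Agent.RG

open Pool.Agent.TRN

theorem gordan {X : Type*} [AddCommGroup X] [Module.Finite ℤ X] {I : Type*} [Finite I]
    (l : I → X →+ ℤ) : ∃ s : Finset X, (∀ a ∈ s, ∀ i, 0 ≤ l i a) ∧
      ∀ a, (∀ i, 0 ≤ l i a) → a ∈ AddSubmonoid.closure (s : Set X) := by
  classical
  have : Fintype I := Fintype.ofFinite I
  obtain ⟨n, e, he⟩ := Module.Finite.exists_fin (R := ℤ) (M := X)
  let π : (Fin n ⊕ Fin n ⊕ I → ℕ) →+ X :=
    { toFun := fun v => ∑ j, v (Sum.inl j) • e j - ∑ j, v (Sum.inr (Sum.inl j)) • e j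
      map_zero' := by simp
      map_add' := fun v w => by
        simp only [Pi.add_apply, add_smul, Finset.sum_add_distrib]
        abel }
  let f : (Fin n ⊕ Fin n ⊕ I → ℕ) →+ (I → ℤ) :=
    { toFun := fun v i => l i (π v)
      map_zero' := by
        funext i
        rw [map_zero, map_zero]
        rfl
      map_add' := fun v w => by
        funext i
        rw [map_add, map_add]
        rfl }
  let g : (Fin n ⊕ Fin n ⊕ I → ℕ) →+ (I → ℤ) :=
    { toFun := fun v i => (v (Sum.inr (Sum.inr i)) : ℤ)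
      map_zero' := by
        funext i
        simp
      map_add' := fun v w => by
        funext i
        simp }
  have hS : (f.eqLocusM g).FG := AddSubmonoid.fg_eqLocusM f g
  obtain ⟨s, hs⟩ := hS.map π
  refine ⟨s, ?_, ?_⟩
  · intro a ha i
    have h1 : a ∈ (f.eqLocusM g).map π := by
      rw [← hs]
      exact AddSubmonoid.subset_closure ha
    obtain ⟨v, hv, rfl⟩ := h1
    have h2 : f v = g v := hv
    have h3 := congrFun h2 i
    have h4 : l i (π v) = (v (Sum.inr (Sum.inr i)) : ℤ) := h3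
    rw [h4]
    exact Int.natCast_nonneg _
  · intro a ha
    rw [hs]
    obtain ⟨c, hc⟩ : ∃ c : Fin n → ℤ, ∑ j, c j • e j = a := by
      have h1 : a ∈ Submodule.span ℤ (Set.range e) := by
        rw [he]
        exact Submodule.mem_top
      exact (Submodule.mem_span_range_iff_exists_fun ℤ).1 h1
    obtain ⟨v, hv⟩ : ∃ v : Fin n ⊕ Fin n ⊕ I → ℕ, v = Sum.elim (fun j => (c j).toNat)
      (Sum.elim (fun j => (-c j).toNat) fun i => (l i a).toNat) := ⟨_, rfl⟩
    have h1 : π v = a := by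
      show ∑ j, v (Sum.inl j) • e j - ∑ j, v (Sum.inr (Sum.inl j)) • e j = a
      rw [← hc, ← Finset.sum_sub_distrib]
      refine Finset.sum_congr rfl fun j _ => ?_
      rw [hv]
      simp only [Sum.elim_inl, Sum.elim_inr]
      rw [← natCast_zsmul, ← natCast_zsmul, ← sub_smul, Int.toNat_sub_toNat_neg]
    refine ⟨v, ?_, h1⟩
    show f v = g v
    funext i
    show l i (π v) = (v (Sum.inr (Sum.inr i)) : ℤ)
    rw [h1, hv]
    simp only [Sum.elim_inr]
    rw [Int.toNat_of_nonneg (ha i)]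

variable {k : Type*} [Field k] {ι X Y : Type*} [AddCommGroup X] [AddCommGroup Y] [Finite ι]
  {P : RootDatum ι X Y} {b : P.Base} {Γ : Type*} [Group Γ] (G : RedGrp k P b Γ)
  [IsAlgClosed k] [Module.Finite ℤ X] [Module.Free ℤ X] [P.IsReduced]

namespace RedGrp

omit [IsAlgClosed k] [Module.Finite ℤ X] [Module.Free ℤ X] in
private lemma nzA_closure {x y : Fin (enN b) → k → Γ} {n : Γ} (σ : Fin (enN b) → Fin (enN b))
    (h : ∀ j, ∃ c : kˣ, ∀ s, n * x j s * n⁻¹ = y (σ j) (c * s)) {u : Γ}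
    (hu : u ∈ Subgroup.closure (⋃ i, Set.range (x i))) :
    n * u * n⁻¹ ∈ Subgroup.closure (⋃ i, Set.range (y i)) := by
  induction hu using Subgroup.closure_induction with
  | mem u hu =>
    obtain ⟨i, s, rfl⟩ := Set.mem_iUnion.1 hu
    obtain ⟨c, hc⟩ := h i
    rw [hc]
    exact Subgroup.subset_closure (Set.mem_iUnion.2 ⟨σ i, _, rfl⟩)
  | one =>
    rw [mul_one, mul_inv_cancel]
    exact Subgroup.one_mem _
  | mul u v _ _ hu hv =>
    have h1 : n * (u * v) * n⁻¹ = (n * u * n⁻¹) * (n * v * n⁻¹) := by group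
    rw [h1]
    exact Subgroup.mul_mem _ hu hv
  | inv u _ hu =>
    have h1 : n * u⁻¹ * n⁻¹ = (n * u * n⁻¹)⁻¹ := by group
    rw [h1]
    exact Subgroup.inv_mem _ hu

theorem nz : Nz G.pg where
  U := fun u hu => nzA_closure (b := b) (w0s b) (fun j => G.n0_xp j) hu
  Um := fun u hu => nzA_closure (b := b) (w0s b) (fun j => G.n0_xm j) hu
  w0 := fun a => act_w0_sq b (w0l b) (w0l_mem b) (w0s b) (w0_root b) a
  add := fun a c => act_add P (w0l b) a c
  root := fun i => ⟨w0s b i, w0_root b i⟩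
  dom := by
    intro a ha
    have h1 : Dmt b a := (domX_eq b).1 ha
    refine (domX_eq b).2 ?_
    intro i hi
    obtain ⟨m, hm⟩ : ∃ m, (en b m : ι) = i :=
      ⟨(en b).symm ⟨i, RootPairing.Base.isPos_of_mem_support hi⟩, by
        rw [Equiv.apply_symm_apply]⟩
    obtain ⟨j, rfl⟩ := (w0s b).surjective m
    show 0 ≤ prY P i (-act P (w0l b) a)
    rw [← hm, map_neg, w0_pr, neg_neg]
    exact Dmt.pr_nonneg b h1 (en b j).2
  ne := by
    intro a ha
    obtain ⟨v, hv, hv'⟩ := G.hw_of_dmt ((domX_eq b).1 ha)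
    refine ⟨v, ⟨hv, fun g u hu z => Hw.right hv hv' g hu z⟩, ?_⟩
    intro h0
    have h1 := hv' 0 1 0
    rw [h0] at h1
    exact Units.ne_zero _ h1.symm
  ht := fun a ha => Dmt.hgt_nonneg b ((domX_eq b).1 ha)
  fg := by
    obtain ⟨s, hs, hs'⟩ := gordan (I := {i // i ∈ b.support}) (fun i => prY P (i : ι))
    refine ⟨s, fun a ha => (domX_eq b).2 fun i hi => hs a ha ⟨i, hi⟩, fun a ha => ?_⟩
    exact hs' a fun i => (domX_eq b).1 ha i i.2

theorem fd : G.pg.Fd := by
  intro a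
  have h1 : G.pin.Ind a = G.pg.Ind a := Submodule.ext fun f => G.mem_pin_Ind
  rw [← h1]
  exact DM.PinData.Ind_fin G.pin_ax a

end RedGrp

end Pool.Agent.RG
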