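import Pool.Agent.RDG.Mods
import Pool.Agent.RDG.NzA
import Pool.Agent.TRN.Ind

/-!
# RDG / CONV: the two versions of the definitions
-/

set_option autoImplicit false

namespace Pool.Agent.RG

universe u

namespace RedGrp

section

variable {k : Type*} [Field k] {ι X Y : Type*} [AddCommGroup X] [AddCommGroup Y] [Finite ι]
  {P : RootDatum ι X Y} {b : P.Base} {Γ : Type*} [Group Γ] (G : RedGrp k P b Γ)
  [IsAlgClosed k] [Module.Finite ℤ X] [Module.Free ℤ X] [P.IsReduced]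
  {V : Type*} [AddCommGroup V] [Module k V]

lemma Uneg_eq : G.Uneg = G.pg.Um := by
  rw [pg_Um]
  unfold Uneg VV
  congr 1
  ext g
  rw [Set.mem_iUnion]
  constructor
  · rintro ⟨i, s, hi, rfl⟩
    refine ⟨(en b).symm ⟨i, hi⟩, s, ?_⟩
    unfold xm
    rw [Equiv.apply_symm_apply, G.φ_lo]
  · rintro ⟨j, s, rfl⟩
    exact ⟨en b j, s, (en b j).2, (G.φ_lo _ _).symm⟩

lemma inNabla_iff (a : X) (F : Γ → k) : G.InNabla a F ↔ F ∈ G.pg.Ind a := by
  change (F ∈ G.A ∧ ∀ g, ∀ u ∈ G.Uneg, ∀ z, F (g * (u * G.t z)) = ((ch a z)⁻¹ : kˣ) * F g) ↔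
    (F ∈ G.A ∧ ∀ g, ∀ u ∈ G.pg.Um, ∀ z, F (g * (u * G.t z)) = ((ch a z)⁻¹ : kˣ) * F g)
  rw [Uneg_eq]

lemma isRational_iff (ρ : Representation k Γ V) : G.IsRational ρ ↔ G.pg.IsRational ρ := Iff.rfl

lemma isNabla_indRep (a : X) : G.IsNabla a (G.pg.indRep a) := by
  refine ⟨(G.pg.Ind a).subtype, Subtype.val_injective, fun F => ?_, fun g x h => rfl⟩
  rw [G.inNabla_iff]
  exact ⟨fun h => ⟨⟨F, h⟩, rfl⟩, by rintro ⟨x, rfl⟩; exact x.2⟩

/-- an induced module is isomorphic to the standard one -/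
lemma IsNabla.equiv {G : RedGrp k P b Γ} {a : X} {τ : Representation k Γ V} (h : G.IsNabla a τ) :
    ∃ e : V ≃ₗ[k] G.pg.Ind a, ∀ g x, e (τ g x) = G.pg.indRep a g (e x) := by
  obtain ⟨f, hf, hr, he⟩ := h
  have hmem : ∀ x, f x ∈ G.pg.Ind a := fun x => (G.inNabla_iff a _).1 ((hr (f x)).2 ⟨x, rfl⟩)
  let f' : V →ₗ[k] G.pg.Ind a := f.codRestrict (G.pg.Ind a) hmem
  have hf' : Function.Bijective f' := by
    constructor
    · intro x y hxy
      exact hf (congrArg Subtype.val hxy)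
    · intro F
      obtain ⟨x, hx⟩ := (hr F.1).1 ((G.inNabla_iff a _).2 F.2)
      exact ⟨x, Subtype.ext hx⟩
  refine ⟨LinearEquiv.ofBijective f' hf', fun g x => ?_⟩
  apply Subtype.ext
  funext h
  exact he g x h

lemma dominant_iff (a : X) : G.Dominant a ↔ G.pg.dom a = a := (domX_eq b).symm

lemma ind_bot {a : X} (h : ¬ G.Dominant a) (F : G.pg.Ind a) : F = 0 := by
  by_contra hne
  exact h ((G.dominant_iff a).2 (TRN.PG.ind_dom hne))

end

section

variable {k : Type*} [Field k] {Γ : Type*} [Group Γ] {V : Type*} [AddCommGroup V] [Module k V]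

lemma layer_congr {E E' : Type*} [AddCommGroup E] [Module k E] [AddCommGroup E'] [Module k E']
    {τ : Representation k Γ E} {τ' : Representation k Γ E'} (e : E ≃ₗ[k] E')
    (he : ∀ g x, e (τ g x) = τ' g (e x)) {ρ : Representation k Γ V} {N N' : Submodule k V}
    (h : IsLayer τ ρ N N') : IsLayer τ' ρ N N' := by
  obtain ⟨h1, f, h2, h3, h4⟩ := h
  refine ⟨h1, e.toLinearMap ∘ₗ f, e.surjective.comp h2, fun x => ?_, fun g x y hxy => ?_⟩
  · rw [← h3 x]
    change e (f x) = 0 ↔ f x = 0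
    exact e.map_eq_zero_iff
  · change e (f y) = τ' g (e (f x))
    rw [h4 g x y hxy, he]

lemma dualE {E E' : Type*} [AddCommGroup E] [Module k E] [AddCommGroup E'] [Module k E']
    {τ : Representation k Γ E} {τ' : Representation k Γ E'} (e : E ≃ₗ[k] E')
    (he : ∀ g x, e (τ g x) = τ' g (e x)) (g : Γ) (x : Module.Dual k E) :
    e.symm.dualMap (τ.dual g x) = τ'.dual g (e.symm.dualMap x) := by
  apply LinearMap.ext
  intro y
  change x (τ g⁻¹ (e.symm y)) = x (e.symm (τ' g⁻¹ y))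
  congr 1
  apply e.injective
  rw [he, e.apply_symm_apply, e.apply_symm_apply]

lemma eq_of_layer {E : Type*} [AddCommGroup E] [Module k E] {τ : Representation k Γ E}
    {ρ : Representation k Γ V} {N N' : Submodule k V} (h : TRN.IsLayer τ ρ N N')
    (h0 : ∀ x : E, x = 0) : N = N' := by
  obtain ⟨h1, f, -, h3, -⟩ := h
  exact le_antisymm h1 fun x hx => (h3 ⟨x, hx⟩).1 (h0 _)

end

section

variable {k : Type u} [Field k] {ι X Y : Type*} [AddCommGroup X] [AddCommGroup Y] [Finite ι]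
  {P : RootDatum ι X Y} {b : P.Base} {Γ : Type u} [Group Γ] (G : RedGrp k P b Γ)
  [IsAlgClosed k] [Module.Finite ℤ X] [Module.Free ℤ X] [P.IsReduced]
  {V : Type*} [AddCommGroup V] [Module k V]

theorem good_iff (ρ : Representation k Γ V) (Y : Submodule k V) :
    G.HasGoodFiltration ρ Y ↔ TRN.GoodFilt G.pg ρ Y := by
  constructor
  · rintro ⟨N, h0, h1, h2, h3⟩
    refine ⟨N, h0, h1, fun i => ?_, h3⟩
    rcases h2 i with h | ⟨a, E, _, _, τ, -, hτ, h⟩
    · exact Or.inl h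
    · obtain ⟨e, he⟩ := hτ.equiv
      exact Or.inr ⟨a, layer_congr e he h⟩
  · rintro ⟨N, h0, h1, h2, h3⟩
    refine ⟨N, h0, h1, fun i => ?_, h3⟩
    rcases h2 i with h | ⟨a, h⟩
    · exact Or.inl h
    · by_cases ha : G.Dominant a
      · exact Or.inr ⟨a, G.pg.Ind a, inferInstance, inferInstance, G.pg.indRep a, ha,
          G.isNabla_indRep a, h⟩
      · exact Or.inl (eq_of_layer h (G.ind_bot ha))

theorem weyl_of {ρ : Representation k Γ V} {Y : Submodule k V} (h : TRN.WeylFilt G.pg ρ Y) :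
    G.HasWeylFiltration ρ Y := by
  obtain ⟨N, h0, h1, h2, h3⟩ := h
  refine ⟨N, h0, h1, fun i => ?_, h3⟩
  rcases h2 i with h | ⟨a, h⟩
  · exact Or.inl h
  · by_cases ha : G.Dominant a
    · exact Or.inr ⟨a, G.pg.Ind a, inferInstance, inferInstance, G.pg.indRep a, ha,
        G.isNabla_indRep a, h⟩
    · refine Or.inl (eq_of_layer h fun x => ?_)
      apply LinearMap.ext
      intro F
      rw [G.ind_bot ha F, map_zero, map_zero]

theorem tilting_of {ρ : Representation k Γ V} (h : TRN.IsTilting G.pg ρ) : G.IsTilting ρ :=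
  ⟨h.finite, h.rational, (G.good_iff ρ ⊤).2 h.good, G.weyl_of h.weyl⟩

end

end RedGrp

end Pool.Agent.RG
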