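import Mathlib

/-!
# RG: connected reductive groups over an algebraically closed field

`AffGrp k Γ` is the structure of a connected affine algebraic group over an algebraically closed field
`k`, in the language of varieties: the group `Γ` of its points with the algebra of regular functions.

`RedGrp k P b Γ` is the structure of a connected reductive group over `k` with a maximal torus `T`
and a Borel subgroup containing it (Jantzen, Representations of algebraic groups, II.1.1 - II.1.9;
Springer, Linear algebraic groups, chapter 8):

* `Γ` is a connected affine algebraic group;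
* `P` is the (reduced) root datum of `Γ` with respect to `T`, `b` the base given by the Borel
  subgroup, `T = Hom(X, kˣ)`;
* for every root `i` a homomorphism `φ i : SL₂ → Γ`, such that `s ↦ φ i (up s)` is the root subgroup
  of `i`, `φ i (lo s) = φ (-i) (up s)`, and `c ↦ φ i (dg c)` is the coroot of `i` (choose `φ i` for
  the positive roots by Jantzen II.1.3, and let `φ (-i)` be `φ i` after the automorphism of `SL₂`
  given by the conjugation by the matrix `(0 1; 1 0)`, which exchanges `up` and `lo`);
* the big cell: for an enumeration of the positive roots, the product map `U × T × U⁻ → Γ` is an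
  isomorphism onto a principal open subset. (It is the set of the points at which the matrix
  coefficient of the highest weight vector of a module with a regular dominant highest weight, such as
  the sum of the positive roots, does not vanish.)

The positive roots `b.IsPos i` are the roots of the Borel subgroup `B⁺ = T U`; the modules `∇ (a)` are
induced from the opposite Borel subgroup `B = T U⁻`, with `a` dominant, as in Jantzen's book.
-/

set_option autoImplicit false

open MvPolynomial

namespace Pool.Agent.RG

universe u v w

section sl2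

variable {k : Type*} [Field k]

/-- upper triangular unipotent matrices in `SL₂` -/
def up (s : k) : Matrix.SpecialLinearGroup (Fin 2) k :=
  ⟨!![1, s; 0, 1], by simp⟩

/-- lower triangular unipotent matrices in `SL₂` -/
def lo (s : k) : Matrix.SpecialLinearGroup (Fin 2) k :=
  ⟨!![1, 0; s, 1], by simp⟩

/-- diagonal matrices in `SL₂` -/
def dg (c : kˣ) : Matrix.SpecialLinearGroup (Fin 2) k :=
  ⟨!![(c : k), 0; 0, ((c⁻¹ : kˣ) : k)], by simp⟩

end sl2

/-- The torus with the character group `X`. -/
abbrev Tor (k : Type*) [Field k] (X : Type*) [AddCommGroup X] : Type _ := Multiplicative X →* kˣ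

/-- The value of the character `a` at the point `z` of the torus. -/
def ch {k : Type*} [Field k] {X : Type*} [AddCommGroup X] (a : X) (z : Tor k X) : kˣ :=
  z (Multiplicative.ofAdd a)

/-- The product `x_1 (s_1) ... x_N (s_N)`. -/
def upr {k Γ : Type*} [Group Γ] {N : ℕ} (x : Fin N → k → Γ) (s : Fin N → k) : Γ :=
  (List.ofFn fun j => x j (s j)).prod

/-- Connected affine algebraic groups over an algebraically closed field `k`: the group `Γ` of the
points with the algebra `A` of the regular functions. -/
structure AffGrp (k : Type u) [Field k] (Γ : Type v) [Group Γ] where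
  /-- the regular functions -/
  A : Subalgebra k (Γ → k)
  fg : A.FG
  /-- the product is a morphism -/
  comul : ∀ f ∈ A, ∃ (m : ℕ) (a c : Fin m → Γ → k), (∀ i, a i ∈ A) ∧ (∀ i, c i ∈ A) ∧
    ∀ g h, f (g * h) = ∑ i, a i g * c i h
  /-- the inverse is a morphism -/
  inv : ∀ f ∈ A, (fun g => f g⁻¹) ∈ A
  /-- the points of the group are the maximal ideals of `A` -/
  pts : ∀ φ : A →ₐ[k] k, ∃! g : Γ, ∀ f : A, φ f = f.1 g
  /-- the group is connected -/
  dom : ∀ f ∈ A, ∀ f' ∈ A, f * f' = 0 → f = 0 ∨ f' = 0

/-- Connected reductive groups with the root datum `P` and the base `b`. -/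
structure RedGrp (k : Type u) [Field k] {ι X Y : Type*} [AddCommGroup X] [AddCommGroup Y]
    (P : RootDatum ι X Y) (b : P.Base) (Γ : Type v) [Group Γ] extends AffGrp k Γ where
  /-- the maximal torus -/
  t : Tor k X →* Γ
  t_reg : ∀ f ∈ A, ∃ (s : Finset X) (c : X → k), ∀ z, f (t z) = ∑ a ∈ s, c a * (ch a z : k)
  /-- the homomorphisms from `SL₂` -/
  φ : ι → Matrix.SpecialLinearGroup (Fin 2) k →* Γ
  φ_reg : ∀ f ∈ A, ∀ i, ∃ Q : MvPolynomial (Fin 2 × Fin 2) k,
    ∀ h, f (φ i h) = eval (fun p => h.1 p.1 p.2) Q
  φ_root : ∀ i z s, t z * φ i (up s) * (t z)⁻¹ = φ i (up ((ch (P.root i) z : k) * s))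
  φ_neg : ∀ i s, φ i (lo s) = φ (P.reflectionPerm i i) (up s)
  φ_dg : ∀ i c, ∃ z : Tor k X, φ i (dg c) = t z ∧ ∀ a, ch a z = c ^ P.toLinearMap a (P.coroot i)
  /-- the big cell: for an enumeration of the positive roots the product map is an isomorphism
  of `k ^ N × T × k ^ N` onto the open set of the points where the regular function `d` does not
  vanish -/
  bigCell : ∃ (N : ℕ) (e : Fin N ≃ {i // b.IsPos i}), ∃ d ∈ A,
    (∀ g, d g ≠ 0 ↔ ∃ s z r, g = upr (fun j c => φ (e j) (up c)) s * t z *
      upr (fun j c => φ (e j) (lo c)) r) ∧
    ∀ (Q : MvPolynomial (Fin N ⊕ Fin N) k) (a : X), ∃ n, ∃ f ∈ A, ∀ s z r,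
      f (upr (fun j c => φ (e j) (up c)) s * t z * upr (fun j c => φ (e j) (lo c)) r) =
      d (upr (fun j c => φ (e j) (up c)) s * t z * upr (fun j c => φ (e j) (lo c)) r) ^ n *
        (eval (Sum.elim s r) Q * (ch a z : k))

end Pool.Agent.RG
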