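import Pool.Agent.RDG.Defs

/-!
# RG / SYS: root data: enumeration of the positive roots, heights, dominant weights

`prY P i a = ⟨a, α_i^∨⟩`, `hgt b a = ∑_{j > 0} ⟨a, α_j^∨⟩`, `Dmt b a`: `a` is dominant.

* `exists_enum`: sort the finite type `{i // b.IsPos i}` by height (e.g. `Finset.sort` /
  `Tuple.sort`, or choose an equivalence with `Fin N` and compose with `Tuple.sort`).
* `refl_pos`: `RootPairing.Base.IsPos.reflectionPerm`; `P.reflectionPerm i j = i` would give
  `root j = - root i`.
* `hgt_refl`: `⟨s_i a, α_j^∨⟩ = ⟨a, s_i α_j^∨⟩ = ⟨a, α_{s_i j}^∨⟩` (`pairing` lemmas,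
  `RootPairing.coroot'_reflection`); `j ↦ s_i j` permutes the positive roots different from `i`
  (`refl_pos`, involutive) and `⟨s_i a, α_i^∨⟩ = - ⟨a, α_i^∨⟩`.
* `hgt_root`: `hgt_refl` for `a = root i`, `s_i (root i) = - root i`. `hgt_root_eq`: both sides are
  additive on integral combinations of simple roots (`height_eq_sum`, `exists_root_eq_sum_int`).
* `coroot_closure`: induction `RootPairing.Base.induction_reflect` for the statement
  `(IsPos i → coroot i ∈ cl) ∧ (¬ IsPos i → - coroot i ∈ cl)`. For the step with `j` simple and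
  `i ≠ ± j`, `i` positive: `coroot i` is not a multiple of `coroot j` (reduced; `coroot i` and
  `coroot j` are linearly independent: `P.flip` is reduced, or: `s_j i ≠ - i`), so it has a positive
  coefficient at some simple `coroot l`, `l ≠ j`; `coroot (s_j i) = coroot i - m coroot j` has the
  same coefficient at `l`, and `coroot_mem_or_neg_mem` with linear independence shows that it is in
  the closure. (Or: use `b.flip` and a comparison of `IsPos` for `b` and `b.flip` if Mathlib has it;
  or the invariant form: `⟨x, α_j^∨⟩ = 2 (x, α_j) / (α_j, α_j)`, `RootPairing.RootForm`.)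
* `two_rho`: as `hgt_refl`: `s_i (∑ root j) = ∑ root j - 2 root i`, so
  `⟨∑ root j, α_i^∨⟩ • root i = 2 • root i`.
* `eq_zero_of_pr`: `(c, c) = ∑_i ⟨c, α_i^∨⟩ ^ 2 = 0` for the canonical form, which is positive
  definite on the span of the roots (`RootPairing.RootForm`, `posRootForm`, ...); all coroots are
  integral combinations of the simple ones.
* `nonprop`: `P.IsReduced`; `X` is torsion free (perfect pairing).
-/

set_option autoImplicit false

open MvPolynomial

namespace Pool.Agent.RG

section enum

variable {ι X Y : Type*} [AddCommGroup X] [AddCommGroup Y] [Finite ι] {P : RootDatum ι X Y}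
  (b : P.Base)

lemma exists_enum : ∃ (N : ℕ) (e : Fin N ≃ {i // b.IsPos i}),
    ∀ i j, i ≤ j → b.height (e i : ι) ≤ b.height (e j : ι) := by
  classical
  obtain ⟨N, ⟨e⟩⟩ := Finite.exists_equiv_fin {i // b.IsPos i}
  let f : Fin N → ℤ := fun k => b.height (e.symm k : ι)
  refine ⟨N, (Tuple.sort f).trans e.symm, ?_⟩
  intro i j hij
  exact Tuple.monotone_sort f hij

/-- the number of positive roots -/
noncomputable def enN : ℕ := (exists_enum b).choose

/-- an enumeration of the positive roots with nondecreasing heights -/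
noncomputable def en : Fin (enN b) ≃ {i // b.IsPos i} := (exists_enum b).choose_spec.choose

lemma en_mono (i j : Fin (enN b)) (h : i ≤ j) : b.height (en b i : ι) ≤ b.height (en b j : ι) :=
  (exists_enum b).choose_spec.choose_spec i j h

end enum

section

variable {ι X Y : Type*} [AddCommGroup X] [AddCommGroup Y] (P : RootDatum ι X Y)

/-- the pairing with the coroot `i` -/
def prY (i : ι) : X →+ ℤ := (P.toLinearMap.flip (P.coroot i)).toAddMonoidHom

lemma prY_apply (i : ι) (a : X) : prY P i a = P.toLinearMap a (P.coroot i) := rfl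

lemma prY_root_self (i : ι) : prY P i (P.root i) = 2 := P.root_coroot_two i

lemma refl_eq (i : ι) (a : X) : P.reflection i a = a - prY P i a • P.root i := rfl

lemma root_neg (i : ι) : P.root (P.reflectionPerm i i) = -P.root i := by
  rw [P.root_reflectionPerm, P.reflection_apply_self]

private lemma sys_coroot_neg (i : ι) : P.coroot (P.reflectionPerm i i) = -P.coroot i := by
  rw [P.coroot_reflectionPerm, P.coreflection_apply_self]

private lemma sys_prY_neg (i : ι) (a : X) : prY P (P.reflectionPerm i i) a = -prY P i a := by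
  rw [prY_apply, prY_apply, sys_coroot_neg, map_neg]

private lemma sys_prY_refl (i j : ι) (a : X) :
    prY P j (P.reflection i a) = prY P (P.reflectionPerm i j) a :=
  P.coroot'_reflection a

private lemma sys_height_neg {P : RootDatum ι X Y} (b : P.Base) (i : ι) :
    b.height (P.reflectionPerm i i) = -b.height i := b.height_reflectionPerm_self i

variable {P} (b : P.Base)

/-- dominant weights -/
def Dmt (a : X) : Prop := ∀ i ∈ b.support, 0 ≤ prY P i a

variable [Finite ι]

/-- the sum of the pairings with the positive coroots -/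
noncomputable def hgt : X →+ ℤ := ∑ j, prY P (en b j : ι)

variable [P.IsReduced]

lemma refl_pos {i j : ι} (hi : i ∈ b.support) (hj : b.IsPos j) (hij : j ≠ i) :
    b.IsPos (P.reflectionPerm i j) ∧ P.reflectionPerm i j ≠ i := by
  refine ⟨hj.reflectionPerm hi hij, fun h => ?_⟩
  have h1 : j = P.reflectionPerm i i := by
    rw [← P.reflectionPerm_self i j, h]
  have h2 := hj
  rw [h1, RootPairing.Base.isPos_iff, sys_height_neg] at h2
  have h3 := RootPairing.Base.isPos_of_mem_support hi
  rw [RootPairing.Base.isPos_iff] at h3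
  omega

/-- the simple reflection permutes the positive roots different from the simple root -/
private lemma sys_sum {A : Type*} [AddCommGroup A] (F : ι → A) {i : ι} (hi : i ∈ b.support) :
    ∑ k, F (P.reflectionPerm i (en b k : ι)) =
      ∑ k, F (en b k : ι) - F i + F (P.reflectionPerm i i) := by
  classical
  set k₀ : Fin (enN b) := (en b).symm ⟨i, RootPairing.Base.isPos_of_mem_support hi⟩ with hk₀
  have hek : ((en b k₀ : {j // b.IsPos j}) : ι) = i := by
    rw [hk₀, Equiv.apply_symm_apply]
  have hne : ∀ k ∈ Finset.univ.erase k₀, ((en b k : {j // b.IsPos j}) : ι) ≠ i := by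
    intro k hk h
    apply (Finset.mem_erase.1 hk).1
    apply (en b).injective
    apply Subtype.ext
    rw [h, hek]
  have hmain : ∑ k ∈ Finset.univ.erase k₀, F (P.reflectionPerm i (en b k : ι)) =
      ∑ k ∈ Finset.univ.erase k₀, F (en b k : ι) := by
    have hmem : ∀ (k : Fin (enN b)) (hk : k ∈ Finset.univ.erase k₀),
        (en b).symm ⟨P.reflectionPerm i (en b k : ι), (refl_pos b hi (en b k).2 (hne k hk)).1⟩ ∈
          Finset.univ.erase k₀ := by
      intro k hk
      rw [Finset.mem_erase]
      refine ⟨fun h => ?_, Finset.mem_univ _⟩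
      apply (refl_pos b hi (en b k).2 (hne k hk)).2
      have h1 := congrArg (fun k => ((en b k : {j // b.IsPos j}) : ι)) h
      simp only [Equiv.apply_symm_apply] at h1
      rw [hek] at h1
      exact h1
    refine Finset.sum_bij' (fun k hk =>
        (en b).symm ⟨P.reflectionPerm i (en b k : ι), (refl_pos b hi (en b k).2 (hne k hk)).1⟩)
      (fun k hk =>
        (en b).symm ⟨P.reflectionPerm i (en b k : ι), (refl_pos b hi (en b k).2 (hne k hk)).1⟩)
      hmem hmem ?_ ?_ ?_
    · intro k hk
      apply (en b).injective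
      apply Subtype.ext
      simp only [Equiv.apply_symm_apply]
      exact P.reflectionPerm_self i _
    · intro k hk
      apply (en b).injective
      apply Subtype.ext
      simp only [Equiv.apply_symm_apply]
      exact P.reflectionPerm_self i _
    · intro k hk
      simp only [Equiv.apply_symm_apply]
  rw [← Finset.add_sum_erase _ _ (Finset.mem_univ k₀), hmain,
    ← Finset.add_sum_erase (a := k₀) (f := fun k => F (en b k : ι)) _ (Finset.mem_univ k₀), hek]
  abel

private lemma sys_hgt (a : X) : hgt b a = ∑ k, prY P (en b k : ι) a := by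
  unfold hgt
  rw [AddMonoidHom.finsetSum_apply]

lemma hgt_refl {i : ι} (hi : i ∈ b.support) (a : X) :
    hgt b (P.reflection i a) = hgt b a - 2 * prY P i a := by
  rw [sys_hgt, sys_hgt]
  simp only [sys_prY_refl]
  rw [sys_sum b (fun j => prY P j a) hi, sys_prY_neg]
  ring

lemma hgt_root {i : ι} (hi : i ∈ b.support) : hgt b (P.root i) = 2 := by
  have h := hgt_refl b hi (P.root i)
  rw [P.reflection_apply_self, map_neg, prY_root_self] at h
  omega

lemma hgt_root_eq (i : ι) : hgt b (P.root i) = 2 * b.height i := by
  obtain ⟨f, -, -, hf⟩ := b.exists_root_eq_sum_int i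
  rw [RootPairing.Base.height_eq_sum hf, hf, map_sum, Finset.mul_sum]
  refine Finset.sum_congr rfl fun j hj => ?_
  rw [map_zsmul, hgt_root b hj, smul_eq_mul, mul_comm]

private lemma sys_hgt_closure {x : X} (hx : x ∈ AddSubmonoid.closure (P.root '' (b.support : Set ι))) :
    0 ≤ hgt b x := by
  induction hx using AddSubmonoid.closure_induction with
  | mem x hx =>
    obtain ⟨i, hi, rfl⟩ := hx
    rw [hgt_root b hi]
    norm_num
  | zero => rw [map_zero]
  | add x y _ _ hx hy =>
    rw [map_add]
    exact add_nonneg hx hy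

lemma root_closure {j : ι} (hj : b.IsPos j) :
    P.root j ∈ AddSubmonoid.closure (P.root '' (b.support : Set ι)) := by
  rcases b.root_mem_or_neg_mem j with h | h
  · exact h
  · exfalso
    have h1 := sys_hgt_closure b h
    rw [map_neg, hgt_root_eq] at h1
    rw [RootPairing.Base.isPos_iff] at hj
    omega

omit [Finite ι] [P.IsReduced] in
private lemma sys_tf (P : RootDatum ι X Y) : Module.IsTorsionFree ℤ Y := by
  have : Module.IsReflexive ℤ Y := .of_isPerfPair P.flip.toLinearMap
  infer_instance

private lemma sys_red : RootPairing.IsReduced P.flip := by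
  have h1 : Module.IsTorsionFree ℤ Y := sys_tf P
  have h2 : Module.IsTorsionFree ℤ X := sys_tf P.flip
  infer_instance

/-- positivity of roots and coroots -/
private lemma sys_pos_flip (i : ι) : b.IsPos i ↔ b.flip.IsPos i := by
  have hred : RootPairing.IsReduced P.flip := sys_red
  have hneg : ∀ j, b.IsPos (P.reflectionPerm j j) ↔ ¬ b.IsPos j := fun j =>
    RootPairing.Base.IsPos.neg_iff_not b j
  have hneg' : ∀ j, b.flip.IsPos (P.reflectionPerm j j) ↔ ¬ b.flip.IsPos j := fun j =>
    RootPairing.Base.IsPos.neg_iff_not b.flip j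
  refine b.induction_reflect i (p := fun i => b.IsPos i ↔ b.flip.IsPos i) ?_ ?_ ?_
  · intro j hj
    rw [hneg, hneg', hj]
  · intro j hj
    exact ⟨fun _ => RootPairing.Base.isPos_of_mem_support (b := b.flip) hj,
      fun _ => RootPairing.Base.isPos_of_mem_support hj⟩
  · intro i j hi hj
    have hj1 : b.IsPos j := RootPairing.Base.isPos_of_mem_support hj
    have hj2 : b.flip.IsPos j := RootPairing.Base.isPos_of_mem_support (b := b.flip) hj
    by_cases hij : i = j
    · subst hij
      rw [hneg, hneg', hi]
    · by_cases hij' : P.reflectionPerm j i = j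
      · rw [hij']
        exact ⟨fun _ => hj2, fun _ => hj1⟩
      · have e1 : b.IsPos (P.reflectionPerm j i) ↔ b.IsPos i := by
          constructor
          · intro h
            have h2 := h.reflectionPerm hj hij'
            rwa [P.reflectionPerm_self] at h2
          · intro h
            exact h.reflectionPerm hj hij
        have e2 : b.flip.IsPos (P.reflectionPerm j i) ↔ b.flip.IsPos i := by
          constructor
          · intro h
            have h2 := RootPairing.Base.IsPos.reflectionPerm (b := b.flip) h hj hij'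
            have h3 : P.flip.reflectionPerm j (P.reflectionPerm j i) = i := P.reflectionPerm_self j i
            rwa [h3] at h2
          · intro h
            exact RootPairing.Base.IsPos.reflectionPerm (b := b.flip) h hj hij
        rw [e1, e2, hi]

lemma coroot_closure {j : ι} (hj : b.IsPos j) :
    P.coroot j ∈ AddSubmonoid.closure (P.coroot '' (b.support : Set ι)) := by
  have hred : RootPairing.IsReduced P.flip := sys_red
  have h1 : b.flip.IsPos j := (sys_pos_flip b j).1 hj
  exact root_closure b.flip h1

lemma Dmt.pr_nonneg {a : X} (h : Dmt b a) {j : ι} (hj : b.IsPos j) : 0 ≤ prY P j a := by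
  have h1 : ∀ y ∈ AddSubmonoid.closure (P.coroot '' (b.support : Set ι)),
      0 ≤ P.toLinearMap a y := by
    intro y hy
    induction hy using AddSubmonoid.closure_induction with
    | mem y hy =>
      obtain ⟨i, hi, rfl⟩ := hy
      exact h i hi
    | zero => rw [map_zero]
    | add x y _ _ hx hy =>
      rw [map_add]
      exact add_nonneg hx hy
  exact h1 _ (coroot_closure b hj)

lemma Dmt.hgt_nonneg {a : X} (h : Dmt b a) : 0 ≤ hgt b a := by
  rw [sys_hgt]
  exact Finset.sum_nonneg fun k _ => Dmt.pr_nonneg b h (en b k).2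

lemma two_rho {i : ι} (hi : i ∈ b.support) : prY P i (∑ j, P.root (en b j : ι)) = 2 := by
  have h1 := sys_sum b (fun j => P.root j) hi
  simp only [P.root_reflectionPerm] at h1
  rw [← map_sum, P.reflection_apply_self, refl_eq] at h1
  have h2 := congrArg (prY P i) h1
  rw [map_sub, map_add, map_sub, map_neg, map_zsmul, prY_root_self, smul_eq_mul] at h2
  omega

lemma nonprop {i j : ι} (hi : b.IsPos i) (hj : b.IsPos j) {m n : ℕ} (hm : 0 < m)
    (h : m • P.root i = n • P.root j) : i = j := by
  by_contra hij
  have h1 : P.root i ≠ -P.root j := by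
    intro h2
    have h3 := congrArg (hgt b) h2
    rw [map_neg, hgt_root_eq, hgt_root_eq] at h3
    rw [RootPairing.Base.isPos_iff] at hi hj
    omega
  have h2 := RootPairing.IsReduced.linearIndependent P hij h1
  rw [LinearIndependent.pair_iff] at h2
  have h3 := h2 (m : ℤ) (-(n : ℤ)) (by
    rw [neg_smul, natCast_zsmul, natCast_zsmul, h, add_neg_cancel])
  have h4 := h3.1
  omega

omit [P.IsReduced] in
private lemma sys_pr_all {c : X} (h : ∀ i ∈ b.support, prY P i c = 0) (j : ι) : prY P j c = 0 := by
  have h1 : P.coroot j ∈ Submodule.span ℤ (P.coroot '' (b.support : Set ι)) :=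
    b.coroot_mem_span_int j
  have h2 : ∀ y ∈ Submodule.span ℤ (P.coroot '' (b.support : Set ι)), P.toLinearMap c y = 0 := by
    intro y hy
    induction hy using Submodule.span_induction with
    | mem y hy =>
      obtain ⟨i, hi, rfl⟩ := hy
      exact h i hi
    | zero => rw [map_zero]
    | add x y _ _ hx hy => rw [map_add, hx, hy, add_zero]
    | smul r x _ hx => rw [map_zsmul, hx, smul_zero]
  exact h2 _ h1

/-- the Cartan matrix is nondegenerate -/
lemma eq_zero_of_pr {c : X} (hc : c ∈ AddSubgroup.closure (Set.range P.root))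
    (h : ∀ i ∈ b.support, prY P i c = 0) : c = 0 := by
  classical
  have := Fintype.ofFinite ι
  have hc' : c ∈ Submodule.span ℤ (Set.range P.root) := by
    rw [← Submodule.mem_toAddSubgroup, Submodule.span_int_eq_addSubgroupClosure]
    exact hc
  by_contra hne
  have hx : (⟨c, hc'⟩ : P.rootSpan ℤ) ≠ 0 := fun h => hne (congrArg Subtype.val h)
  obtain ⟨i, hi⟩ := P.exists_coroot_ne ℤ hx
  apply hi
  have h1 : (algebraMap ℤ ℤ) (P.coroot'In ℤ i ⟨c, hc'⟩) = P.coroot' i c :=
    P.algebraMap_coroot'In_apply ℤ i ⟨c, hc'⟩
  have h2 : P.coroot' i c = 0 := sys_pr_all b h i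
  rw [h2] at h1
  exact h1

/-- `K a = ∑_{all roots} |⟨a, α^∨⟩|` is invariant and bounds the height -/
lemma exists_bound (a : X) : ∃ K : ℤ, ∀ l : List ι,
    hgt b (l.foldr (fun i c => P.reflection i c) a) ≤ K := by
  classical
  have := Fintype.ofFinite ι
  refine ⟨∑ j, |prY P j a|, fun l => ?_⟩
  have h1 : ∑ j, |prY P j (l.foldr (fun i c => P.reflection i c) a)| = ∑ j, |prY P j a| := by
    induction l with
    | nil => rfl
    | cons i l ih =>
      rw [List.foldr_cons, ← ih]
      simp only [sys_prY_refl]
      exact Equiv.sum_comp (P.reflectionPerm i)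
        (fun j => |prY P j (l.foldr (fun i c => P.reflection i c) a)|)
  rw [← h1, sys_hgt]
  set c := l.foldr (fun i c => P.reflection i c) a
  have hinj : Function.Injective (fun k => ((en b k : {j // b.IsPos j}) : ι)) :=
    Subtype.val_injective.comp (en b).injective
  calc ∑ k, prY P (en b k : ι) c ≤ ∑ k, |prY P (en b k : ι) c| :=
        Finset.sum_le_sum fun k _ => le_abs_self _
    _ = ∑ j ∈ Finset.univ.image (fun k => ((en b k : {j // b.IsPos j}) : ι)), |prY P j c| := by
        rw [Finset.sum_image fun x _ y _ h => hinj h]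
    _ ≤ ∑ j, |prY P j c| :=
        Finset.sum_le_sum_of_subset_of_nonneg (Finset.subset_univ _) fun j _ _ => abs_nonneg _

/-- there is an integral functional which vanishes on all simple roots except `i` -/
lemma exists_functional {i : ι} (hi : i ∈ b.support) : ∃ l : X →+ ℤ,
    0 < l (P.root i) ∧ (∀ j ∈ b.support, j ≠ i → l (P.root j) = 0) ∧
    ∀ j, b.IsPos j → 0 ≤ l (P.root j) := by
  classical
  -- the Cartan matrix
  let C : Matrix b.support b.support ℤ := fun r s => prY P (s : ι) (P.root (r : ι))
  have hdet : C.det ≠ 0 := by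
    intro h0
    obtain ⟨n, hn, hn0⟩ := Matrix.exists_vecMul_eq_zero_iff.2 h0
    apply hn
    set c : X := ∑ r, n r • P.root (r : ι) with hc
    have hc0 : c = 0 := by
      apply eq_zero_of_pr b
      · rw [hc]
        apply AddSubgroup.sum_mem
        intro r _
        exact AddSubgroup.zsmul_mem _ (AddSubgroup.subset_closure (Set.mem_range_self (r : ι))) _
      · intro s hs
        have h1 := congrFun hn0 ⟨s, hs⟩
        rw [Matrix.vecMul, dotProduct, Pi.zero_apply] at h1
        rw [hc, map_sum, ← h1]
        refine Finset.sum_congr rfl fun r _ => ?_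
        rw [map_zsmul, smul_eq_mul]
    have hli := b.linearIndepOn_root
    have hli' : LinearIndependent ℤ (fun r : b.support => P.root (r : ι)) := hli
    rw [Fintype.linearIndependent_iff] at hli'
    funext r
    exact hli' n (by rw [← hc]; exact hc0) r
  let l₀ : X →+ ℤ := ∑ s : b.support, C.adjugate s ⟨i, hi⟩ • prY P (s : ι)
  have hl₀ : ∀ r : b.support, l₀ (P.root (r : ι)) = if r = (⟨i, hi⟩ : b.support) then C.det else 0 := by
    intro r
    have h1 := congrFun (congrFun (Matrix.mul_adjugate C) r) (⟨i, hi⟩ : b.support)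
    rw [Matrix.mul_apply, Matrix.smul_apply, Matrix.one_apply, smul_eq_mul, mul_ite, mul_one,
      mul_zero] at h1
    rw [← h1]
    simp only [l₀]
    rw [AddMonoidHom.finsetSum_apply]
    refine Finset.sum_congr rfl fun s _ => ?_
    rw [AddMonoidHom.smul_apply, smul_eq_mul, mul_comm]
  refine ⟨C.det.sign • l₀, ?_, ?_, ?_⟩
  · rw [AddMonoidHom.smul_apply, hl₀ ⟨i, hi⟩, if_pos rfl, smul_eq_mul, Int.sign_mul_self_eq_abs]
    exact abs_pos.2 hdet
  · intro j hj hji
    have h1 : (⟨j, hj⟩ : b.support) ≠ ⟨i, hi⟩ := fun h => hji (congrArg Subtype.val h)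
    rw [AddMonoidHom.smul_apply, hl₀ ⟨j, hj⟩, if_neg h1, smul_zero]
  · intro j hj
    suffices hsuf : ∀ x ∈ AddSubmonoid.closure (P.root '' (b.support : Set ι)),
        0 ≤ (C.det.sign • l₀) x from hsuf _ (root_closure b hj)
    intro x hx
    induction hx using AddSubmonoid.closure_induction with
    | mem x hx =>
      obtain ⟨r, hr, rfl⟩ := hx
      rw [AddMonoidHom.smul_apply, hl₀ ⟨r, hr⟩]
      split_ifs
      · rw [smul_eq_mul, Int.sign_mul_self_eq_abs]
        exact abs_nonneg _
      · rw [smul_zero]
    | zero => rw [map_zero]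
    | add x y _ _ hx hy =>
      rw [map_add]
      exact add_nonneg hx hy

end

end Pool.Agent.RG
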