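import Pool.Agent.RDG.Defs

/-!
# RG / XS: the root subgroups
-/

set_option autoImplicit false

open MvPolynomial

namespace Pool.Agent.RG

namespace RedGrp

variable {k : Type*} [Field k] {ι X Y : Type*} [AddCommGroup X] [AddCommGroup Y]
  {P : RootDatum ι X Y} {b : P.Base} {Γ : Type*} [Group Γ] (G : RedGrp k P b Γ)

/-- the root subgroups -/
def x (i : ι) (s : k) : Γ := G.φ i (up s)

lemma φ_up (i : ι) (s : k) : G.φ i (up s) = G.x i s := rfl

lemma φ_lo (i : ι) (s : k) : G.φ i (lo s) = G.x (P.reflectionPerm i i) s := G.φ_neg i s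

lemma x_t (i : ι) (z : Tor k X) (s : k) :
    G.t z * G.x i s * (G.t z)⁻¹ = G.x i ((ch (P.root i) z : k) * s) := G.φ_root i z s

lemma x_add (i : ι) (s r : k) : G.x i (s + r) = G.x i s * G.x i r := by
  have h : up (s + r) = up s * up r := by
    apply Matrix.SpecialLinearGroup.ext
    intro a c
    fin_cases a <;> fin_cases c <;> simp [up, Matrix.mul_apply, Fin.sum_univ_two, add_comm]
  rw [x, h, map_mul]
  rfl

end RedGrp

end Pool.Agent.RG
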