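import Pool.Agent.RDG.TorF
import Pool.Agent.RDG.Xs
import Pool.Agent.RDG.Sys

/-!
# RG / ELT: first properties of reductive groups

* `Rg R F`: the map `F : Z → Γ` is regular with respect to a subalgebra `R` of functions on `Z`.
  `Rg.mul` from `comul`, `Rg.inv` from `inv`.
* `sl_closure`: `SL₂(k)` is generated by the `up s` and `lo s`: `wl = up 1 * lo (-1) * up 1`,
  `dg c = up c * lo (-c⁻¹) * up c * wl⁻¹`; a matrix with lower left entry `g ≠ 0` is
  `up(a) * lo(g) * up(b)` (`a = (g₀₀ - 1) / g₁₀`, `b = (g₁₁ - 1) / g₁₀`), a matrix with `g₁₀ = 0` is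
  `dg * up`.
* `t_nn`: for `a = ch (root i) z` we have `t z * φ(h) * (t z)⁻¹ = φ(h')` for `h = up s`, `lo s` with
  `h' = up (a s)`, `lo (a⁻¹ s)` (`x_t`, `root_neg`). For `wl = up 1 * lo (-1) * up 1` this gives
  `t z * nn i * (t z)⁻¹ = φ (up a * lo (-a⁻¹) * up a) = φ (dg a * wl) = φ (dg a) * nn i`, and
  `nn i * φ (dg c) * (nn i)⁻¹ = φ (dg c⁻¹)`. With `φ (dg a) = t z'`, `ch c z' = a ^ ⟨c, α_i^∨⟩`
  (`φ_dg`): `t z * nn i = φ (dg a) * nn i * t z = nn i * t (z'⁻¹ * z)` and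
  `ch c (z'⁻¹ * z) = ch (s_i c) z = ch c (rT P i z)`.
* `t_nn` implies `t_nnl` for products by induction on the list.
-/

set_option autoImplicit false

open MvPolynomial

namespace Pool.Agent.RG

section sl

variable {k : Type*} [Field k]

/-- the Weyl element of `SL₂` -/
def wl (k : Type*) [Field k] : Matrix.SpecialLinearGroup (Fin 2) k :=
  ⟨!![0, 1; -1, 0], by simp⟩

private lemma sl_ext {g h : Matrix.SpecialLinearGroup (Fin 2) k} (h00 : g.1 0 0 = h.1 0 0)
    (h01 : g.1 0 1 = h.1 0 1) (h10 : g.1 1 0 = h.1 1 0) (h11 : g.1 1 1 = h.1 1 1) : g = h := by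
  apply Subtype.ext
  ext i j
  fin_cases i <;> fin_cases j
  · exact h00
  · exact h01
  · exact h10
  · exact h11

private lemma mul_coe (g h : Matrix.SpecialLinearGroup (Fin 2) k) : (g * h).1 = g.1 * h.1 := rfl

private lemma up_coe (s : k) : (up s).1 = !![1, s; 0, 1] := rfl
private lemma lo_coe (s : k) : (lo s).1 = !![1, 0; s, 1] := rfl
private lemma dg_coe (c : kˣ) : (dg c).1 = !![(c : k), 0; 0, ((c⁻¹ : kˣ) : k)] := rfl
private lemma wl_coe : (wl k).1 = !![0, 1; -1, 0] := rfl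

lemma wl_eq : wl k = up 1 * lo (-1) * up 1 := by
  apply sl_ext <;> simp [up_coe, lo_coe, wl_coe, Matrix.mul_apply, Fin.sum_univ_two]

private lemma dg_eq (c : kˣ) : dg c * wl k = up (c : k) * lo (-((c⁻¹ : kˣ) : k)) * up (c : k) := by
  apply sl_ext <;>
    simp [up_coe, lo_coe, dg_coe, wl_coe, Matrix.mul_apply, Fin.sum_univ_two]

private lemma dg_wl (c : kˣ) : dg c * wl k = wl k * dg c⁻¹ := by
  apply sl_ext <;> simp [dg_coe, wl_coe, Matrix.mul_apply, Fin.sum_univ_two]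

private lemma dg_inv (c : kˣ) : dg c⁻¹ = (dg c)⁻¹ := by
  rw [eq_inv_iff_mul_eq_one]
  apply sl_ext <;> simp [dg_coe, Matrix.mul_apply, Fin.sum_univ_two]

private lemma wl_up (s : k) : wl k * up s = lo (-s) * wl k := by
  apply sl_ext <;> simp [up_coe, lo_coe, wl_coe, Matrix.mul_apply, Fin.sum_univ_two]

private lemma wl_lo (s : k) : wl k * lo s = up (-s) * wl k := by
  apply sl_ext <;> simp [up_coe, lo_coe, wl_coe, Matrix.mul_apply, Fin.sum_univ_two]

lemma sl_closure (g : Matrix.SpecialLinearGroup (Fin 2) k) :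
    g ∈ Subgroup.closure (Set.range (up : k → _) ∪ Set.range (lo : k → _)) := by
  obtain ⟨K, hK⟩ : ∃ K : Subgroup (Matrix.SpecialLinearGroup (Fin 2) k),
    K = Subgroup.closure (Set.range (up : k → _) ∪ Set.range (lo : k → _)) := ⟨_, rfl⟩
  rw [← hK]
  have hup : ∀ s : k, up s ∈ K := fun s => by
    rw [hK]
    exact Subgroup.subset_closure (Or.inl ⟨s, rfl⟩)
  have hlo : ∀ s : k, lo s ∈ K := fun s => by
    rw [hK]
    exact Subgroup.subset_closure (Or.inr ⟨s, rfl⟩)
  have hwl : wl k ∈ K := by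
    rw [wl_eq]
    exact K.mul_mem (K.mul_mem (hup _) (hlo _)) (hup _)
  have hdg : ∀ c : kˣ, dg c ∈ K := by
    intro c
    have h1 : dg c = up (c : k) * lo (-((c⁻¹ : kˣ) : k)) * up (c : k) * (wl k)⁻¹ := by
      rw [← dg_eq]
      group
    rw [h1]
    exact K.mul_mem (K.mul_mem (K.mul_mem (hup _) (hlo _)) (hup _)) (K.inv_mem hwl)
  have hdet : g.1 0 0 * g.1 1 1 - g.1 0 1 * g.1 1 0 = 1 := by
    have h1 := g.2
    rw [Matrix.det_fin_two] at h1
    exact h1
  by_cases h10 : g.1 1 0 = 0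
  · have h1 : g.1 0 0 * g.1 1 1 = 1 := by
      rw [h10, mul_zero, sub_zero] at hdet
      exact hdet
    have h00 : g.1 0 0 ≠ 0 := left_ne_zero_of_mul_eq_one h1
    have h2 : g = dg (Units.mk0 (g.1 0 0) h00) * up ((g.1 0 0)⁻¹ * g.1 0 1) := by
      have h11 : g.1 1 1 = (g.1 0 0)⁻¹ := eq_inv_of_mul_eq_one_right h1
      apply sl_ext
      · simp [up_coe, dg_coe, Matrix.mul_apply, Fin.sum_univ_two]
      · simp [up_coe, dg_coe, Matrix.mul_apply, Fin.sum_univ_two, h00]
      · simp [up_coe, dg_coe, Matrix.mul_apply, Fin.sum_univ_two, h10]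
      · simp [up_coe, dg_coe, Matrix.mul_apply, Fin.sum_univ_two, h11]
    rw [h2]
    exact K.mul_mem (hdg _) (hup _)
  · have h2 : g = up ((g.1 0 0 - 1) / g.1 1 0) * lo (g.1 1 0) * up ((g.1 1 1 - 1) / g.1 1 0) := by
      apply sl_ext
      · simp [up_coe, lo_coe, Matrix.mul_apply, Fin.sum_univ_two, h10]
      · simp only [mul_coe, up_coe, lo_coe, Matrix.mul_apply, Fin.sum_univ_two, Matrix.of_apply,
          Matrix.cons_val', Matrix.cons_val_zero, Matrix.cons_val_one, Matrix.cons_val_fin_one]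
        field_simp
        linear_combination -hdet
      · simp [up_coe, lo_coe, Matrix.mul_apply, Fin.sum_univ_two]
      · simp only [mul_coe, up_coe, lo_coe, Matrix.mul_apply, Fin.sum_univ_two, Matrix.of_apply,
          Matrix.cons_val', Matrix.cons_val_zero, Matrix.cons_val_one, Matrix.cons_val_fin_one]
        field_simp
        ring
    rw [h2]
    exact K.mul_mem (K.mul_mem (hup _) (hlo _)) (hup _)

/-- `x(s) = x₋(1/s) n h(1/s) x₋(1/s)` -/
lemma up_eq (c : kˣ) : (up (c : k)) = lo ((c⁻¹ : kˣ) : k) * wl k * dg c⁻¹ *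
    lo ((c⁻¹ : kˣ) : k) := by
  apply sl_ext <;>
    simp [up_coe, lo_coe, dg_coe, wl_coe, Matrix.mul_apply, Fin.sum_univ_two]

private lemma wl_inv : (wl k)⁻¹ = ⟨!![0, -1; 1, 0], by simp⟩ := by
  rw [inv_eq_iff_mul_eq_one]
  apply sl_ext <;> simp [wl_coe, Matrix.mul_apply, Fin.sum_univ_two]

lemma lo_eq (c : kˣ) : (lo (c : k)) = up ((c⁻¹ : kˣ) : k) * (wl k)⁻¹ * dg c *
    up ((c⁻¹ : kˣ) : k) := by
  rw [wl_inv]
  apply sl_ext <;>
    simp [up_coe, lo_coe, dg_coe, Matrix.mul_apply, Fin.sum_univ_two]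

lemma up_add (s r : k) : up (s + r) = up s * up r := by
  apply sl_ext <;> simp [up_coe, Matrix.mul_apply, Fin.sum_univ_two, add_comm]

lemma lo_add (s r : k) : lo (s + r) = lo s * lo r := by
  apply sl_ext <;> simp [lo_coe, Matrix.mul_apply, Fin.sum_univ_two]

end sl

variable {k : Type*} [Field k] {ι X Y : Type*} [AddCommGroup X] [AddCommGroup Y]
  {P : RootDatum ι X Y} {b : P.Base} {Γ : Type*} [Group Γ] (G : RedGrp k P b Γ)

namespace RedGrp

/-- regular maps -/
def Rg {Z : Type*} (R : Subalgebra k (Z → k)) (F : Z → Γ) : Prop :=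
  ∀ f ∈ G.A, (fun z => f (F z)) ∈ R

variable {G}

lemma Rg.mul {Z : Type*} {R : Subalgebra k (Z → k)} {F F' : Z → Γ} (h : G.Rg R F)
    (h' : G.Rg R F') : G.Rg R (fun z => F z * F' z) := by
  intro f hf
  obtain ⟨m, a, c, ha, hc, e⟩ := G.comul f hf
  have h1 : (fun z => f (F z * F' z)) = ∑ i, (fun z => a i (F z)) * (fun z => c i (F' z)) := by
    funext z
    simp only [Finset.sum_apply, Pi.mul_apply]
    exact e _ _
  rw [h1]
  exact sum_mem fun i _ => mul_mem (h _ (ha i)) (h' _ (hc i))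

lemma Rg.inv {Z : Type*} {R : Subalgebra k (Z → k)} {F : Z → Γ} (h : G.Rg R F) :
    G.Rg R (fun z => (F z)⁻¹) := fun f hf => h _ (G.inv f hf)

lemma Rg.const {Z : Type*} {R : Subalgebra k (Z → k)} (g : Γ) : G.Rg R (fun _ => g) :=
  fun f _ => R.algebraMap_mem (f g)

lemma Rg.upr {Z : Type*} {R : Subalgebra k (Z → k)} {N : ℕ} {x : Fin N → k → Γ}
    {s : Fin N → Z → k} (h : ∀ j, G.Rg R (fun z => x j (s j z))) :
    G.Rg R (fun z => upr x fun j => s j z) := by
  induction N with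
  | zero =>
    have h1 : (fun z => Pool.Agent.RG.upr x fun j => s j z) = fun _ => (1 : Γ) := by
      funext z
      simp [Pool.Agent.RG.upr]
    rw [h1]
    exact Rg.const 1
  | succ n ih =>
    have h1 : (fun z => Pool.Agent.RG.upr x fun j => s j z) = fun z => x 0 (s 0 z) *
        Pool.Agent.RG.upr (fun j : Fin n => x j.succ) fun j => s j.succ z := by
      funext z
      simp [Pool.Agent.RG.upr, List.ofFn_succ]
    rw [h1]
    exact Rg.mul (h 0) (ih fun j => h j.succ)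

variable (G)

private lemma Rg.id' : G.Rg G.A (fun g => g) := fun _ hf => hf

lemma trL {f : Γ → k} (hf : f ∈ G.A) (h : Γ) : (fun g => f (h * g)) ∈ G.A :=
  Rg.mul (Rg.const h) (Rg.id' G) f hf

lemma trR {f : Γ → k} (hf : f ∈ G.A) (h : Γ) : (fun g => f (g * h)) ∈ G.A :=
  Rg.mul (Rg.id' G) (Rg.const h) f hf

lemma x_zero (i : ι) : G.x i 0 = 1 := by
  have h := G.x_add i 0 0
  rw [add_zero] at h
  exact left_eq_mul.1 h

lemma x_neg (i : ι) (s : k) : G.x i (-s) = (G.x i s)⁻¹ := by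
  rw [eq_inv_iff_mul_eq_one, ← G.x_add, neg_add_cancel, x_zero]

lemma x_reg {f : Γ → k} (hf : f ∈ G.A) (i : ι) : ∃ Q : Polynomial k, ∀ s, f (G.x i s) = Q.eval s := by
  obtain ⟨Q, hQ⟩ := G.φ_reg f hf i
  refine ⟨MvPolynomial.aeval (fun p : Fin 2 × Fin 2 =>
    (!![1, Polynomial.X; 0, 1] : Matrix (Fin 2) (Fin 2) (Polynomial k)) p.1 p.2) Q, fun s => ?_⟩
  rw [← G.φ_up, hQ]
  have h1 : ∀ R : MvPolynomial (Fin 2 × Fin 2) k,
      eval (fun p : Fin 2 × Fin 2 => (up s).1 p.1 p.2) R = Polynomial.eval s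
        (MvPolynomial.aeval (fun p : Fin 2 × Fin 2 =>
          (!![1, Polynomial.X; 0, 1] : Matrix (Fin 2) (Fin 2) (Polynomial k)) p.1 p.2) R) := by
    intro R
    induction R using MvPolynomial.induction_on with
    | C a => simp
    | add p q hp hq => simp [hp, hq]
    | mul_X p n hp =>
      rw [map_mul, map_mul, Polynomial.eval_mul, hp, eval_X, aeval_X]
      congr 1
      obtain ⟨i, j⟩ := n
      fin_cases i <;> fin_cases j <;> simp [up_coe]
  exact h1 Q

/-- substitution of a function in a root subgroup -/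
lemma Rg.x {Z : Type*} {R : Subalgebra k (Z → k)} (i : ι) {s : Z → k} (hs : s ∈ R) :
    G.Rg R (fun z => G.x i (s z)) := by
  intro f hf
  obtain ⟨Q, hQ⟩ := x_reg G hf i
  have h1 : (fun z => f (G.x i (s z))) = Polynomial.aeval s Q := by
    funext z
    rw [hQ, Polynomial.aeval_fn_apply, Polynomial.coe_aeval_eq_eval]
  rw [h1]
  have h2 := (Polynomial.aeval (⟨s, hs⟩ : R) Q).2
  rwa [Polynomial.aeval_subalgebra_coe] at h2

lemma Rg.φ {Z : Type*} {R : Subalgebra k (Z → k)} (i : ι)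
    {h : Z → Matrix.SpecialLinearGroup (Fin 2) k} (hs : ∀ p q, (fun z => (h z).1 p q) ∈ R) :
    G.Rg R (fun z => G.φ i (h z)) := by
  intro f hf
  obtain ⟨Q, hQ⟩ := G.φ_reg f hf i
  have h1 : ∀ Q : MvPolynomial (Fin 2 × Fin 2) k,
      (fun z => eval (fun p : Fin 2 × Fin 2 => (h z).1 p.1 p.2) Q) ∈ R := by
    intro Q
    induction Q using MvPolynomial.induction_on with
    | C a =>
      simp only [eval_C]
      exact R.algebraMap_mem a
    | add p q hp hq =>
      simp only [map_add]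
      exact add_mem hp hq
    | mul_X p n hp =>
      simp only [map_mul, eval_X]
      exact mul_mem hp (hs n.1 n.2)
  have h2 : (fun z => f (G.φ i (h z))) = fun z => eval (fun p : Fin 2 × Fin 2 => (h z).1 p.1 p.2) Q :=
    funext fun z => hQ _
  rw [h2]
  exact h1 Q

/-- the element of `Γ` representing the simple reflection -/
def nn (i : ι) : Γ := G.φ i (wl k)

lemma nn_x (i : ι) (s : k) : G.nn i * G.x i s * (G.nn i)⁻¹ = G.x (P.reflectionPerm i i) (-s) := by
  rw [nn, ← G.φ_up, ← G.φ_lo, ← map_mul, wl_up, map_mul, mul_assoc, mul_inv_cancel, mul_one]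

lemma nn_x' (i : ι) (s : k) : G.nn i * G.x (P.reflectionPerm i i) s * (G.nn i)⁻¹ = G.x i (-s) := by
  rw [nn, ← G.φ_lo, ← map_mul, wl_lo, map_mul, G.φ_up, mul_assoc, mul_inv_cancel, mul_one]

end RedGrp

section torus

/-- the reflection of the torus -/
noncomputable def rT (k : Type*) [Field k] {ι X Y : Type*} [AddCommGroup X] [AddCommGroup Y]
    (P : RootDatum ι X Y) (i : ι) : Tor k X ≃* Tor k X where
  toFun z := z.comp (AddMonoidHom.toMultiplicative (P.reflection i).toAddMonoidHom)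
  invFun z := z.comp (AddMonoidHom.toMultiplicative (P.reflection i).toAddMonoidHom)
  left_inv z := by
    apply MonoidHom.ext
    intro a
    change z (Multiplicative.ofAdd (P.reflection i (P.reflection i a.toAdd))) = z a
    rw [P.reflection_same]
    rfl
  right_inv z := by
    apply MonoidHom.ext
    intro a
    change z (Multiplicative.ofAdd (P.reflection i (P.reflection i a.toAdd))) = z a
    rw [P.reflection_same]
    rfl
  map_mul' z w := by
    apply MonoidHom.ext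
    intro a
    rfl

lemma ch_rT (i : ι) (a : X) (z : Tor k X) : ch a (rT k P i z) = ch (P.reflection i a) z := rfl

end torus

namespace RedGrp

theorem t_nn (i : ι) (z : Tor k X) : G.t z * G.nn i = G.nn i * G.t (rT k P i z) := by
  obtain ⟨a, ha⟩ : ∃ a : kˣ, a = ch (P.root i) z := ⟨_, rfl⟩
  have h1 : ∀ s, G.t z * G.φ i (up s) * (G.t z)⁻¹ = G.φ i (up ((a : k) * s)) := by
    intro s
    rw [G.φ_up, G.x_t, G.φ_up, ha]
  have h2 : ∀ s, G.t z * G.φ i (lo s) * (G.t z)⁻¹ = G.φ i (lo (((a⁻¹ : kˣ) : k) * s)) := by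
    intro s
    rw [G.φ_lo, G.x_t, G.φ_lo, root_neg, ch_neg, ha]
  obtain ⟨z', hz1, hz2⟩ := G.φ_dg i a
  have h3 : G.t z * G.nn i * (G.t z)⁻¹ = G.φ i (dg a * wl k) := by
    rw [dg_eq, nn, wl_eq, map_mul, map_mul, map_mul, map_mul]
    have e1 := h1 1
    have e2 := h2 (-1)
    rw [mul_one] at e1
    rw [mul_neg, mul_one] at e2
    rw [← e1, ← e2]
    group
  have h4 : G.t z * G.nn i = G.nn i * G.t (z'⁻¹ * z) := by
    rw [mul_inv_eq_iff_eq_mul, dg_wl, dg_inv, map_mul, map_inv, hz1] at h3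
    have h5 : G.t (z'⁻¹ * z) = (G.t z')⁻¹ * G.t z := by
      rw [map_mul]
      congr 1
      exact map_inv G.t z'
    rw [h3, h5, nn, mul_assoc]
  rw [h4]
  congr 2
  apply MonoidHom.ext
  intro c
  change ch c.toAdd (z'⁻¹ * z) = ch c.toAdd (rT k P i z)
  rw [ch_rT, refl_eq, sub_eq_add_neg, ch_add, ch_neg, ch_zsmul, ch_mul', ch_inv', hz2, ha, mul_comm]
  rfl

/-- the products of the elements `nn i` -/
def nnl (l : List ι) : Γ := (l.map G.nn).prod

theorem t_nnl (l : List ι) : ∃ s : Tor k X ≃* Tor k X, ∀ z, G.t z * G.nnl l = G.nnl l * G.t (s z) ∧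
    ∀ a, ch a (s z) = ch (l.foldr (fun i c => P.reflection i c) a) z := by
  induction l with
  | nil => exact ⟨MulEquiv.refl _, fun z => ⟨by simp [nnl], fun a => rfl⟩⟩
  | cons i l ih =>
    obtain ⟨s, hs⟩ := ih
    refine ⟨(rT k P i).trans s, fun z => ⟨?_, fun a => ?_⟩⟩
    · have e : G.nnl (i :: l) = G.nn i * G.nnl l := by
        simp [nnl]
      rw [e, ← mul_assoc, t_nn, mul_assoc, (hs (rT k P i z)).1, ← mul_assoc]
      rfl
    · rw [MulEquiv.trans_apply, (hs (rT k P i z)).2, ch_rT]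
      rfl

end RedGrp

end Pool.Agent.RG
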