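import Pool.Agent.RDG.Com

/-!
# RG / ENU: the big cell for all enumerations of the positive roots

The products of the positive root subgroups for two enumerations differ by a polynomial map, which is
triangular with respect to the heights, and so has a polynomial inverse.
-/

set_option autoImplicit false

open MvPolynomial

namespace Pool.Agent.RG

section tri

variable {k : Type*} [Field k] {τ τ' : Type*}

/-- the iteration -/
private noncomputable def itr (σ : τ' ≃ τ) (T : τ' → MvPolynomial τ k) : ℕ → τ → MvPolynomial τ' k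
  | 0, _ => 0
  | n + 1, j => X (σ.symm j) - bind₁ (itr σ T n) (T (σ.symm j))

private lemma bind_congr {T : MvPolynomial τ k} {f g : τ → MvPolynomial τ' k}
    (h : ∀ i, ∀ m ∈ T.support, m i ≠ 0 → f i = g i) : bind₁ f T = bind₁ g T := by
  have := MvPolynomial.hom_congr_vars (f₁ := (bind₁ f : MvPolynomial τ k →ₐ[k] MvPolynomial τ' k).toRingHom)
    (f₂ := (bind₁ g : MvPolynomial τ k →ₐ[k] MvPolynomial τ' k).toRingHom) (p₁ := T) (p₂ := T) (by
      ext x
      simp) (by
      intro i hi _
      rw [mem_vars_iff_mem_support] at hi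
      obtain ⟨m, hm, him⟩ := hi
      have h1 := h i m hm (Finsupp.mem_support_iff.1 him)
      simpa using h1) rfl
  simpa using this

private lemma eval_congr' {T : MvPolynomial τ k} {f g : τ → k}
    (h : ∀ i, ∀ m ∈ T.support, m i ≠ 0 → f i = g i) : eval f T = eval g T := by
  exact MvPolynomial.hom_congr_vars (f₁ := eval f) (f₂ := eval g) (p₁ := T) (p₂ := T) (by
      ext x
      simp) (by
      intro i hi _
      rw [mem_vars_iff_mem_support] at hi
      obtain ⟨m, hm, him⟩ := hi
      have h1 := h i m hm (Finsupp.mem_support_iff.1 him)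
      simpa using h1) rfl

private lemma eval_bind {T : MvPolynomial τ k} {f : τ → MvPolynomial τ' k} (u : τ' → k) :
    eval u (bind₁ f T) = eval (fun j => eval u (f j)) T := by
  rw [← aeval_eq_eval, ← aeval_eq_eval]
  change aeval u (bind₁ f T) = aeval _ T
  rw [aeval_bind₁]

variable [Fintype τ]

/-- triangular polynomial maps have polynomial inverses -/
theorem tri_inv (σ : τ' ≃ τ) (h : τ → ℕ) (h1 : ∀ j, 0 < h j) (T : τ' → MvPolynomial τ k)
    (hT : ∀ q, ∀ m ∈ (T q).support, ∀ j, m j ≠ 0 → h j < h (σ q)) :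
    ∃ I : τ → MvPolynomial τ' k,
      (∀ (u : τ' → k) (q : τ'), eval (fun j => eval u (I j)) (X (σ q) + T q) = u q) ∧
      ∀ (v : τ → k) (j : τ), eval (fun q => eval v (X (σ q) + T q)) (I j) = v j := by
  have hst : ∀ n j, h j ≤ n → itr σ T (n + 1) j = itr σ T n j := by
    intro n
    induction n with
    | zero =>
      intro j hj
      exact absurd (h1 j) (by omega)
    | succ n ih =>
      intro j hj
      rw [itr, itr]
      congr 1
      apply bind_congr
      intro i m hm hi
      have h2 := hT _ m hm i hi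
      rw [Equiv.apply_symm_apply] at h2
      exact ih i (by omega)
  obtain ⟨M, hM⟩ : ∃ M, ∀ j, h j ≤ M := ⟨∑ j, h j, fun j => Finset.single_le_sum
    (fun _ _ => Nat.zero_le _) (Finset.mem_univ j)⟩
  have hfix : ∀ j, itr σ T M j = X (σ.symm j) - bind₁ (itr σ T M) (T (σ.symm j)) := by
    intro j
    rw [← hst M j (hM j)]
    rfl
  refine ⟨itr σ T M, ?_, ?_⟩
  · intro u q
    rw [map_add, eval_X, hfix, map_sub, eval_X, Equiv.symm_apply_apply, eval_bind, sub_add_cancel]
  · intro v
    have key : ∀ n j, h j ≤ n → eval (fun q => eval v (X (σ q) + T q)) (itr σ T M j) = v j := by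
      intro n
      induction n with
      | zero =>
        intro j hj
        exact absurd (h1 j) (by omega)
      | succ n ih =>
        intro j hj
        rw [hfix, map_sub, eval_X, map_add, eval_X, Equiv.apply_symm_apply, eval_bind,
          eval_congr' (f := fun i => eval (fun q => eval v (X (σ q) + T q)) (itr σ T M i)) (g := v)]
        · ring
        · intro i m hm hi
          have h2 := hT _ m hm i hi
          rw [Equiv.apply_symm_apply] at h2
          exact ih i (by omega)
    exact fun j => key _ j le_rfl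

/-- weights and triangular maps -/
theorem tri_split {X : Type*} [AddCommGroup X] {w : τ → X} (hw : Function.Injective w)
    (l : X →+ ℤ) (hl : ∀ j, 0 < l (w j)) (q : τ) {S : MvPolynomial τ k}
    (hS : ∀ m ∈ S.support, ∑ i, m i • w i = w q)
    (h1 : ∀ v : τ → k, (∀ i, i ≠ q → v i = 0) → v q = 1 → eval v S = 1) :
    ∀ m ∈ (S - MvPolynomial.X q).support, ∀ j, m j ≠ 0 → (l (w j)).toNat < (l (w q)).toNat := by
  classical
  have hlS : ∀ m ∈ S.support, ∑ i, (m i : ℤ) * l (w i) = l (w q) := by
    intro m hm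
    rw [← hS m hm, map_sum]
    refine Finset.sum_congr rfl fun i _ => ?_
    rw [map_nsmul, nsmul_eq_mul]
  have hc : coeff (Finsupp.single q 1) S = 1 := by
    have h2 := h1 (Pi.single q 1) (fun i hi => Pi.single_eq_of_ne hi _) (Pi.single_eq_same _ _)
    rw [eval_eq', Finset.sum_eq_single (Finsupp.single q 1)] at h2
    · rw [Finset.prod_eq_one, mul_one] at h2
      · exact h2
      · intro i _
        by_cases hi : i = q
        · rw [hi, Pi.single_eq_same, one_pow]
        · rw [Finsupp.single_eq_of_ne hi, pow_zero]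
    · intro m hm hne
      by_cases h3 : ∃ i, i ≠ q ∧ m i ≠ 0
      · obtain ⟨i, hi, hmi⟩ := h3
        rw [Finset.prod_eq_zero (Finset.mem_univ i), mul_zero]
        rw [Pi.single_eq_of_ne hi, zero_pow hmi]
      · exfalso
        push Not at h3
        apply hne
        have h4 := hlS m hm
        rw [Finset.sum_eq_single q] at h4
        · have h5 : (m q : ℤ) = 1 := by
            have h6 := hl q
            nlinarith [h4]
          ext i
          by_cases hi : i = q
          · rw [hi, Finsupp.single_eq_same]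
            exact_mod_cast h5
          · rw [Finsupp.single_eq_of_ne hi, h3 i hi]
        · intro i _ hi
          rw [h3 i hi]
          simp
        · intro h
          exact absurd (Finset.mem_univ q) h
    · intro h
      rw [notMem_support_iff.1 h, zero_mul]
  intro m hm j hj
  have hmne : m ≠ Finsupp.single q 1 := by
    rintro rfl
    apply mem_support_iff.1 hm
    rw [coeff_sub, hc, coeff_X, if_pos rfl, sub_self]
  have hmS : m ∈ S.support := by
    rw [mem_support_iff]
    have h2 := mem_support_iff.1 hm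
    rw [coeff_sub, coeff_X, if_neg (fun h => hmne h.symm), sub_zero] at h2
    exact h2
  by_contra hcon
  have h2 := hlS m hmS
  rw [← Finset.add_sum_erase _ _ (Finset.mem_univ j)] at h2
  have h3 : ∀ i, 0 ≤ (m i : ℤ) * l (w i) := fun i => mul_nonneg (Nat.cast_nonneg _) (hl i).le
  have h4 : 0 ≤ ∑ i ∈ Finset.univ.erase j, (m i : ℤ) * l (w i) := Finset.sum_nonneg fun i _ => h3 i
  have h5 : l (w q) ≤ l (w j) := by
    have h6 := hl q
    have h7 := hl j
    omega
  have h6 : (1 : ℤ) ≤ m j := by
    have : 0 < m j := Nat.pos_of_ne_zero hj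
    exact_mod_cast this
  have h7 : (m j : ℤ) = 1 ∧ ∑ i ∈ Finset.univ.erase j, (m i : ℤ) * l (w i) = 0 := by
    have h8 := hl j
    constructor
    · nlinarith
    · nlinarith
  have h8 : ∀ i, i ≠ j → m i = 0 := by
    intro i hi
    have h9 := (Finset.sum_eq_zero_iff_of_nonneg fun i _ => h3 i).1 h7.2 i
      (Finset.mem_erase.2 ⟨hi, Finset.mem_univ i⟩)
    rcases mul_eq_zero.1 h9 with h10 | h10
    · exact_mod_cast h10
    · exact absurd h10 (hl i).ne'
  have h9 := hS m hmS
  rw [Finset.sum_eq_single j (fun i _ hi => by rw [h8 i hi, zero_smul])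
    (fun h => absurd (Finset.mem_univ j) h)] at h9
  have h10 : m j = 1 := by exact_mod_cast h7.1
  rw [h10, one_smul] at h9
  have h11 := hw h9
  apply hmne
  ext i
  by_cases hi : i = q
  · rw [hi, Finsupp.single_eq_same, ← h11, h10]
  · rw [Finsupp.single_eq_of_ne hi, h8 i (by rw [h11]; exact hi)]

end tri

variable {k : Type*} [Field k] {ι X Y : Type*} [AddCommGroup X] [AddCommGroup Y]
  {P : RootDatum ι X Y} {b : P.Base} {Γ : Type*} [Group Γ] {G : RedGrp k P b Γ}

namespace RedGrp

omit [Field k] in
private lemma upr_mem' {N : ℕ} (x : Fin N → k → Γ) (s : Fin N → k) (H : Subgroup Γ)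
    (h : ∀ j, x j (s j) ∈ H) : upr x s ∈ H := by
  apply Subgroup.list_prod_mem
  intro g hg
  rw [List.mem_ofFn] at hg
  obtain ⟨j, rfl⟩ := hg
  exact h j

private lemma list_prod_single {N : ℕ} (F : Fin N → Γ) (q : Fin N) (h : ∀ j, j ≠ q → F j = 1) :
    (List.ofFn F).prod = F q := by
  induction N with
  | zero => exact q.elim0
  | succ n ih =>
    rw [List.ofFn_succ, List.prod_cons]
    by_cases hq : q = 0
    · subst hq
      rw [List.prod_eq_one, mul_one]
      intro g hg
      rw [List.mem_ofFn] at hg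
      obtain ⟨j, rfl⟩ := hg
      exact h _ (Fin.succ_ne_zero j)
    · obtain ⟨q', rfl⟩ := Fin.exists_succ_eq_of_ne_zero hq
      rw [h 0 (Ne.symm hq), one_mul]
      exact ih (fun j => F j.succ) q' fun j hj => h _ fun e => hj (Fin.succ_injective _ e)

/-- comparison of the coordinates of two enumerations: positive part -/
private theorem enu_aux [IsAlgClosed k] [Finite ι] [Module.Finite ℤ X] [Module.Free ℤ X]
    [P.IsReduced] {N₀ : ℕ} {e₀ : Fin N₀ ≃ {i // b.IsPos i}} {d : Γ → k} (hc : G.IsCel e₀ d)
    {N : ℕ} (e : Fin N ≃ {i // b.IsPos i}) :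
    ∃ (S : Fin N₀ → MvPolynomial (Fin N) k) (I : Fin N → MvPolynomial (Fin N₀) k),
      (∀ v, upr (fun j => G.x (e j)) v = upr (fun j => G.x (e₀ j)) fun q => eval v (S q)) ∧
      (∀ u q, eval (fun j => eval u (I j)) (S q) = u q) ∧
      ∀ v j, eval (fun q => eval v (S q)) (I j) = v j := by
  classical
  have hpos : ∀ j, 0 < hgt b (P.root (e j)) := by
    intro j
    rw [hgt_root_eq]
    have := (RootPairing.Base.isPos_iff b).1 (e j).2
    omega
  have hpos₀ : ∀ j, 0 < hgt b (P.root (e₀ j)) := by
    intro j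
    rw [hgt_root_eq]
    have := (RootPairing.Base.isPos_iff b).1 (e₀ j).2
    omega
  set F : (Fin N → k) → Γ := fun v => upr (fun j => G.x (e j)) v with hFdef
  have hF : G.Rg (PA k (Fin N)) F := Rg.upr (s := fun j (v : Fin N → k) => v j) fun j =>
    Rg.x G _ (mem_PA.2 ⟨MvPolynomial.X j, fun v => (eval_X _).symm⟩)
  have hl : ∀ v, F v ∈ G.Att (hgt b) := fun v => upr_mem' _ _ _ fun j => G.x_att (hpos j) _
  have ht : ∀ (z : Tor k X) (v : Fin N → k), G.t z * F v * (G.t z)⁻¹ =
      F (fun j => (ch (P.root (e j)) z : k) * v j) := by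
    intro z v
    have h1 := conj_upr (G.t z) (fun j => G.x (e j)) v
    simp only [G.x_t] at h1
    exact h1
  obtain ⟨S, R, hSR, -, hR, hS, -⟩ := hc.coords hF hl ht
  have hR0 : ∀ j, R j = 0 := by
    intro j
    by_contra h
    exact absurd (hR j h) (not_lt.2 (hpos₀ j).le)
  have hFS : ∀ v, F v = upr (fun j => G.x (e₀ j)) fun q => eval v (S q) := by
    intro v
    rw [hSR, cel, map_one, mul_one]
    have h1 : (fun j => eval v (R j)) = 0 := by
      funext j
      rw [hR0, map_zero]
      rfl
    rw [h1, upr_zero, mul_one]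
    intro j
    rw [G.φ_lo, G.x_zero]
  set σ : Fin N₀ ≃ Fin N := e₀.trans e.symm with hσ
  have heσ : ∀ q, e (σ q) = e₀ q := fun q => e.apply_symm_apply _
  have hsp : ∀ q, ∀ m ∈ (S q - MvPolynomial.X (σ q)).support, ∀ j, m j ≠ 0 →
      (hgt b (P.root (e j))).toNat < (hgt b (P.root (e (σ q)))).toNat := by
    intro q
    apply tri_split (w := fun j => P.root (e j))
    · intro j j' h
      exact e.injective (Subtype.ext (P.root.injective h))
    · exact hpos
    · intro m hm
      rw [hS q m hm, heσ]
    · intro v hv h1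
      have h2 : F v = G.x (e (σ q)) 1 := by
        rw [← h1]
        exact list_prod_single (fun j => G.x (e j) (v j)) (σ q) fun j hj => by
          rw [hv j hj, G.x_zero]
      have h3 : F v = G.cel e₀ (Pi.single q 1) 1 0 := by
        rw [h2, heσ, cel, map_one, mul_one, upr_zero, mul_one]
        · have h4 := list_prod_single (fun j => G.x (e₀ j) ((Pi.single q 1 : Fin N₀ → k) j)) q
            (fun j hj => by rw [Pi.single_eq_of_ne hj, G.x_zero])
          rw [Pi.single_eq_same] at h4
          exact h4.symm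
        · intro j
          rw [G.φ_lo, G.x_zero]
      rw [hSR] at h3
      have h5 := congrFun (hc.inj h3).1 q
      rw [Pi.single_eq_same] at h5
      exact h5
  obtain ⟨I, hI1, hI2⟩ := tri_inv σ (fun j => (hgt b (P.root (e j))).toNat)
    (fun j => by have := hpos j; omega) (fun q => S q - MvPolynomial.X (σ q)) hsp
  refine ⟨S, I, hFS, ?_, ?_⟩
  · intro u q
    have h1 := hI1 u q
    rw [add_sub_cancel] at h1
    exact h1
  · intro v j
    have h1 := hI2 v j
    simp only [add_sub_cancel] at h1
    exact h1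

/-- comparison of the coordinates of two enumerations: negative part -/
private theorem enu_aux' [IsAlgClosed k] [Finite ι] [Module.Finite ℤ X] [Module.Free ℤ X]
    [P.IsReduced] {N₀ : ℕ} {e₀ : Fin N₀ ≃ {i // b.IsPos i}} {d : Γ → k} (hc : G.IsCel e₀ d)
    {N : ℕ} (e : Fin N ≃ {i // b.IsPos i}) :
    ∃ (S : Fin N₀ → MvPolynomial (Fin N) k) (I : Fin N → MvPolynomial (Fin N₀) k),
      (∀ v, upr (fun j c => G.φ (e j) (lo c)) v =
        upr (fun j c => G.φ (e₀ j) (lo c)) fun q => eval v (S q)) ∧
      (∀ u q, eval (fun j => eval u (I j)) (S q) = u q) ∧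
      ∀ v j, eval (fun q => eval v (S q)) (I j) = v j := by
  classical
  have hlo0 : ∀ i : ι, G.φ i (lo 0) = 1 := fun i => by rw [G.φ_lo, G.x_zero]
  have hneg : ∀ a : X, (-hgt b) a = -(hgt b a) := fun a => rfl
  have hpos : ∀ j, 0 < (-hgt b) (-P.root (e j)) := by
    intro j
    rw [hneg, map_neg, neg_neg, hgt_root_eq]
    have := (RootPairing.Base.isPos_iff b).1 (e j).2
    omega
  have hpos₀ : ∀ j, 0 < hgt b (P.root (e₀ j)) := by
    intro j
    rw [hgt_root_eq]
    have := (RootPairing.Base.isPos_iff b).1 (e₀ j).2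
    omega
  set F : (Fin N → k) → Γ := fun v => upr (fun j c => G.φ (e j) (lo c)) v with hFdef
  have hF : G.Rg (PA k (Fin N)) F := Rg.upr (x := fun j c => G.φ (e j) (lo c))
    (s := fun j (v : Fin N → k) => v j) fun j => by
      simp only [G.φ_lo]
      exact Rg.x G _ (mem_PA.2 ⟨MvPolynomial.X j, fun v => (eval_X _).symm⟩)
  have hl : ∀ v, F v ∈ G.Att (-hgt b) := fun v => upr_mem' _ _ _ fun j => by
    rw [G.φ_lo]
    exact G.x_att (by rw [root_neg]; exact hpos j) _
  have ht : ∀ (z : Tor k X) (v : Fin N → k), G.t z * F v * (G.t z)⁻¹ =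
      F (fun j => (ch (-P.root (e j)) z : k) * v j) := by
    intro z v
    have h1 := conj_upr (G.t z) (fun j c => G.φ (e j) (lo c)) v
    simp only [G.lo_t] at h1
    exact h1
  obtain ⟨R, S, hSR, hR, -, -, hS⟩ := hc.coords hF hl ht
  have hR0 : ∀ j, R j = 0 := by
    intro j
    by_contra h
    have h1 := hR j h
    rw [hneg] at h1
    have h2 := hpos₀ j
    omega
  have hFS : ∀ v, F v = upr (fun j c => G.φ (e₀ j) (lo c)) fun q => eval v (S q) := by
    intro v
    rw [hSR, cel, map_one, mul_one]
    have h1 : (fun j => eval v (R j)) = 0 := by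
      funext j
      rw [hR0, map_zero]
      rfl
    rw [h1, upr_zero, one_mul]
    intro j
    rw [G.x_zero]
  set σ : Fin N₀ ≃ Fin N := e₀.trans e.symm with hσ
  have heσ : ∀ q, e (σ q) = e₀ q := fun q => e.apply_symm_apply _
  have hsp : ∀ q, ∀ m ∈ (S q - MvPolynomial.X (σ q)).support, ∀ j, m j ≠ 0 →
      ((-hgt b) (-P.root (e j))).toNat < ((-hgt b) (-P.root (e (σ q)))).toNat := by
    intro q
    apply tri_split (w := fun j => -P.root (e j))
    · intro j j' h
      exact e.injective (Subtype.ext (P.root.injective (neg_injective h)))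
    · exact hpos
    · intro m hm
      rw [hS q m hm, heσ]
    · intro v hv h1
      have h2 : F v = G.φ (e (σ q)) (lo 1) := by
        rw [← h1]
        exact list_prod_single (fun j => G.φ (e j) (lo (v j))) (σ q) fun j hj => by
          rw [hv j hj, hlo0]
      have h3 : F v = G.cel e₀ 0 1 (Pi.single q 1) := by
        rw [h2, heσ, cel, map_one, mul_one, upr_zero, one_mul]
        · have h4 := list_prod_single
            (fun j => G.φ (e₀ j) (lo ((Pi.single q 1 : Fin N₀ → k) j))) q
            (fun j hj => by rw [Pi.single_eq_of_ne hj, hlo0])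
          rw [Pi.single_eq_same] at h4
          exact h4.symm
        · intro j
          rw [G.x_zero]
      rw [hSR] at h3
      have h5 := congrFun (hc.inj h3).2.2 q
      rw [Pi.single_eq_same] at h5
      exact h5
  obtain ⟨I, hI1, hI2⟩ := tri_inv σ (fun j => ((-hgt b) (-P.root (e j))).toNat)
    (fun j => by have := hpos j; omega) (fun q => S q - MvPolynomial.X (σ q)) hsp
  refine ⟨S, I, hFS, ?_, ?_⟩
  · intro u q
    have h1 := hI1 u q
    rw [add_sub_cancel] at h1
    exact h1
  · intro v j
    have h1 := hI2 v j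
    simp only [add_sub_cancel] at h1
    exact h1

/-- the big cell for all enumerations -/
theorem IsCel.enu [IsAlgClosed k] [Finite ι] [Module.Finite ℤ X] [Module.Free ℤ X]
    [P.IsReduced] {N₀ : ℕ} {e₀ : Fin N₀ ≃ {i // b.IsPos i}} {d : Γ → k} (hc : G.IsCel e₀ d)
    {N : ℕ} (e : Fin N ≃ {i // b.IsPos i}) : G.IsCel e d := by
  obtain ⟨S, I, hS, hI1, hI2⟩ := enu_aux hc e
  obtain ⟨R, J, hR, hJ1, hJ2⟩ := enu_aux' hc e
  have hcel : ∀ s z r, G.cel e s z r =
      G.cel e₀ (fun q => eval s (S q)) z (fun q => eval r (R q)) := by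
    intro s z r
    rw [cel, cel, hS, hR]
  refine ⟨hc.1, fun g => ?_, fun Q a => ?_⟩
  · rw [hc.2.1]
    constructor
    · rintro ⟨s, z, r, rfl⟩
      refine ⟨fun j => eval s (I j), z, fun j => eval r (J j), ?_⟩
      rw [hcel]
      congr 1
      · funext q
        rw [hI1]
      · funext q
        rw [hJ1]
    · rintro ⟨s, z, r, rfl⟩
      exact ⟨_, z, _, hcel s z r⟩
  · obtain ⟨n, f, hfA, hf⟩ := hc.2.2 (bind₁ (Sum.elim (fun j => rename Sum.inl (I j))
      (fun j => rename Sum.inr (J j))) Q) a
    refine ⟨n, f, hfA, fun s z r => ?_⟩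
    rw [hcel, hf, eval_bind]
    congr 3
    have h1 : (fun j => eval (Sum.elim (fun q => eval s (S q)) fun q => eval r (R q))
        (Sum.elim (fun j => rename Sum.inl (I j)) (fun j => rename Sum.inr (J j)) j)) =
        Sum.elim s r := by
      funext j
      rcases j with j | j
      · rw [Sum.elim_inl, Sum.elim_inl, eval_rename]
        exact hI2 s j
      · rw [Sum.elim_inr, Sum.elim_inr, eval_rename]
        exact hJ2 r j
    rw [h1]

variable (G)

/-- the big cell -/
theorem cell [IsAlgClosed k] [Finite ι] [Module.Finite ℤ X] [Module.Free ℤ X]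
    [P.IsReduced] (N : ℕ) (e : Fin N ≃ {i // b.IsPos i}) : ∃ d ∈ G.A,
    (∀ g, d g ≠ 0 ↔ ∃ s z r, g = upr (fun j => G.x (e j)) s * G.t z *
      upr (fun j => G.x (P.reflectionPerm (e j) (e j))) r) ∧
    ∀ (Q : MvPolynomial (Fin N ⊕ Fin N) k) (a : X), ∃ n, ∃ f ∈ G.A, ∀ s z r,
      f (upr (fun j => G.x (e j)) s * G.t z * upr (fun j => G.x (P.reflectionPerm (e j) (e j))) r) =
      d (upr (fun j => G.x (e j)) s * G.t z *
        upr (fun j => G.x (P.reflectionPerm (e j) (e j))) r) ^ n *
        (eval (Sum.elim s r) Q * (ch a z : k)) := by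
  obtain ⟨N₀, e₀, d, hc⟩ := G.exists_isCel
  have h := hc.enu e
  have h1 : (fun (j : Fin N) (c : k) => G.φ (e j) (lo c)) =
      fun j => G.x (P.reflectionPerm (e j) (e j)) := by
    funext j c
    exact G.φ_lo _ _
  refine ⟨d, h.1, ?_, ?_⟩
  · have h2 := h.2.1
    simp only [cel, h1] at h2
    exact h2
  · have h2 := h.2.2
    simp only [cel, h1] at h2
    exact h2

end RedGrp

end Pool.Agent.RG
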