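import Pool.Agent.RDG.Gen
import Pool.Agent.TRN.Defs

/-!
# RDG / PIN: the pinned group `PG` of a reductive group

* `domX a`: `a` if `a` is dominant, otherwise `act P l a` for a list `l` from `exists_dom`.
* `dom_fin'`: `b'` dominant, `a - b'` in the closure of the positive roots: `a - b' = ∑ n_i α_i` over
  the simple roots (`root_closure`), `2 ∑ n_i = hgt a - hgt b' ≤ hgt a` (`hgt_root`,
  `Dmt.hgt_nonneg`), so there are finitely many possibilities.
* `weyl'`: `t_nnl` for the list of `exists_dom`, or the empty list.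
* `cell'`: `eq_zero` (`upr_mem_UU`, `upr_mem_VV`).
* `n0`: `nnl l` for the list `l` of `exists_w0` (`w0l`, `w0s` are the list and the permutation).
  `n0_xp`: `nnl_conj`; `actI P l (en b j)` is the index of `- root (en (σ j))`: `act_root`, and roots
  are injective (`P.root` is an embedding); `reflectionPerm i i` is the index of `- root i`
  (`root_neg`). `n0_x'`: the elements `n0⁻¹ u n0` for `u` in the group generated by the `xp`:
  `Subgroup.closure_induction`, from `n0_xm` (`σ` is surjective).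
-/

set_option autoImplicit false

open MvPolynomial

namespace Pool.Agent.RG

variable {k : Type*} [Field k] {ι X Y : Type*} [AddCommGroup X] [AddCommGroup Y] [Finite ι]
  {P : RootDatum ι X Y} (b : P.Base) {Γ : Type*} [Group Γ]
  [P.IsReduced]

section roots

open Classical in
/-- the dominant weight in the orbit of `a` -/
noncomputable def domX (a : X) : X := if Dmt b a then a else act P (exists_dom b a).choose a

lemma domX_dmt (a : X) : Dmt b (domX b a) := by
  unfold domX
  split_ifs with h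
  · exact h
  · exact (exists_dom b a).choose_spec.2.1

lemma domX_eq {a : X} : domX b a = a ↔ Dmt b a := by
  constructor
  · intro h
    rw [← h]
    exact domX_dmt b a
  · intro h
    unfold domX
    rw [if_pos h]

omit [P.IsReduced] in
lemma closure_support_le : AddSubmonoid.closure (P.root '' (b.support : Set ι)) ≤
    AddSubmonoid.closure (Set.range fun j => P.root (en b j : ι)) := by
  apply AddSubmonoid.closure_mono
  rintro _ ⟨i, hi, rfl⟩
  refine ⟨(en b).symm ⟨i, RootPairing.Base.isPos_of_mem_support hi⟩, ?_⟩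
  simp only [Equiv.apply_symm_apply]

lemma le_domX (a : X) : domX b a - a ∈
    AddSubmonoid.closure (Set.range fun j => P.root (en b j : ι)) := by
  unfold domX
  split_ifs with h
  · rw [sub_self]
    exact AddSubmonoid.zero_mem _
  · exact closure_support_le b (exists_dom b a).choose_spec.2.2

private lemma repr_range {N : ℕ} (f : Fin N → X) {x : X}
    (hx : x ∈ AddSubmonoid.closure (Set.range f)) : ∃ n : Fin N → ℕ, x = ∑ j, n j • f j := by
  classical
  induction hx using AddSubmonoid.closure_induction with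
  | mem x hx =>
    obtain ⟨j, rfl⟩ := hx
    refine ⟨Pi.single j 1, ?_⟩
    rw [Finset.sum_eq_single j]
    · rw [Pi.single_eq_same, one_smul]
    · intro i _ hi
      rw [Pi.single_eq_of_ne hi, zero_smul]
    · intro h
      exact absurd (Finset.mem_univ j) h
  | zero => exact ⟨0, by simp⟩
  | add x y _ _ hx hy =>
    obtain ⟨n, rfl⟩ := hx
    obtain ⟨m, rfl⟩ := hy
    refine ⟨n + m, ?_⟩
    rw [← Finset.sum_add_distrib]
    exact Finset.sum_congr rfl fun j _ => by rw [Pi.add_apply, add_smul]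

private lemma hgt_en_pos (i : Fin (enN b)) : 0 < hgt b (P.root (en b i : ι)) := by
  rw [hgt_root_eq]
  have h := (b.isPos_iff).1 (en b i).2
  lia

private lemma hgt_repr (n : Fin (enN b) → ℕ) (j : Fin (enN b)) :
    (n j : ℤ) ≤ hgt b (∑ j, n j • P.root (en b j : ι)) := by
  rw [map_sum]
  have h1 : ∀ i ∈ Finset.univ, 0 ≤ hgt b (n i • P.root (en b i : ι)) := by
    intro i _
    rw [map_nsmul]
    exact nsmul_nonneg (hgt_en_pos b i).le _
  have h2 := Finset.single_le_sum h1 (Finset.mem_univ j)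
  refine le_trans ?_ h2
  rw [map_nsmul, nsmul_eq_mul]
  have h3 := hgt_en_pos b j
  have h4 : (0 : ℤ) ≤ n j := Int.natCast_nonneg _
  nlinarith

lemma domX_fin [Module.Free ℤ X] (a : X) : {c | domX b c = c ∧ a - c ∈
    AddSubmonoid.closure (Set.range fun j => P.root (en b j : ι))}.Finite := by
  have hfin : (Set.range fun n : Fin (enN b) → Fin ((hgt b a).toNat + 1) =>
      a - ∑ j, (n j : ℕ) • P.root (en b j : ι)).Finite := Set.finite_range _
  refine hfin.subset ?_
  rintro c ⟨hc, hac⟩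
  obtain ⟨n, hn⟩ := repr_range _ hac
  have hd : 0 ≤ hgt b c := Dmt.hgt_nonneg b ((domX_eq b).1 hc)
  have hle : ∀ j, n j < (hgt b a).toNat + 1 := by
    intro j
    have h1 := hgt_repr b n j
    rw [← hn, map_sub] at h1
    have h2 : (n j : ℤ) ≤ hgt b a := by lia
    have h3 := Int.toNat_le_toNat h2
    rw [Int.toNat_natCast] at h3
    lia
  refine ⟨fun j => ⟨n j, hle j⟩, ?_⟩
  show a - ∑ j, n j • P.root (en b j : ι) = c
  rw [← hn]
  abel

lemma domX_zero [Module.Free ℤ X] (c : X) (h : domX b c = c) (h' : 0 - c ∈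
    AddSubmonoid.closure (Set.range fun j => P.root (en b j : ι))) : c = 0 := by
  obtain ⟨n, hn⟩ := repr_range _ h'
  have hd : 0 ≤ hgt b c := Dmt.hgt_nonneg b ((domX_eq b).1 h)
  have h0 : ∀ j, n j = 0 := by
    intro j
    have h1 := hgt_repr b n j
    rw [← hn, map_sub, map_zero] at h1
    lia
  have h2 : 0 - c = 0 := by
    rw [hn]
    exact Finset.sum_eq_zero fun j _ => by rw [h0, zero_smul]
  rw [zero_sub, neg_eq_zero] at h2
  exact h2

lemma exists_list (a : X) : ∃ l : List ι, (∀ i ∈ l, i ∈ b.support) ∧ domX b a = act P l a := by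
  unfold domX
  split_ifs with h
  · exact ⟨[], by simp, rfl⟩
  · exact ⟨_, (exists_dom b a).choose_spec.1, rfl⟩

/-- the list of simple reflections of the longest element of the Weyl group -/
noncomputable def w0l : List ι := (exists_w0 b).choose

/-- the permutation of the positive roots given by minus the longest element -/
noncomputable def w0s : Equiv.Perm (Fin (enN b)) := (exists_w0 b).choose_spec.choose

lemma w0l_mem : ∀ i ∈ w0l b, i ∈ b.support := (exists_w0 b).choose_spec.choose_spec.1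

lemma w0_root (j : Fin (enN b)) : act P (w0l b) (P.root (en b j : ι)) =
    -P.root (en b (w0s b j) : ι) := (exists_w0 b).choose_spec.choose_spec.2.1 j

lemma w0_simple (j : Fin (enN b)) (h : (en b j : ι) ∈ b.support) :
    (en b (w0s b j) : ι) ∈ b.support := (exists_w0 b).choose_spec.choose_spec.2.2.1 j h

lemma w0_pr (j : Fin (enN b)) (a : X) : prY P (en b (w0s b j) : ι) (act P (w0l b) a) =
    -prY P (en b j : ι) a := (exists_w0 b).choose_spec.choose_spec.2.2.2 j a

lemma w0_hgt (a : X) : hgt b (act P (w0l b) a) = -hgt b a := by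
  have h1 : ∀ c : X, hgt b c = ∑ j, prY P (en b j : ι) c := by
    intro c
    rw [hgt, AddMonoidHom.finsetSum_apply]
  rw [h1, h1, ← Equiv.sum_comp (w0s b), ← Finset.sum_neg_distrib]
  exact Finset.sum_congr rfl fun j _ => w0_pr b j a

end roots

variable {b} (G : RedGrp k P b Γ) [IsAlgClosed k] [Module.Finite ℤ X] [Module.Free ℤ X]

namespace RedGrp

lemma pg_chi_inj : Function.Injective (chHom k : X → (Tor k X →* kˣ)) := by
  intro a c h
  exact ch_inj fun z => DFunLike.congr_fun h z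

lemma pg_x_reg {f : Γ → k} (hf : f ∈ G.A) (i : Fin (enN b)) :
    ∃ Q : Polynomial k, ∀ c, f (G.xp i c) = Q.eval c := G.x_reg hf _

lemma pg_y_reg {f : Γ → k} (hf : f ∈ G.A) (i : Fin (enN b)) :
    ∃ Q : Polynomial k, ∀ c, f (G.xm i c) = Q.eval c := G.x_reg hf _

lemma hgt_pos (i : Fin (enN b)) : 0 < hgt b (P.root (en b i : ι)) := hgt_en_pos b i

lemma pg_weyl (a : X) : ∃ (n : Γ) (s : Tor k X ≃* Tor k X), ∀ z, G.t z * n = n * G.t (s z) ∧
    chHom k a (s z) = chHom k (domX b a) z := by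
  obtain ⟨l, hl, hla⟩ := exists_list b a
  obtain ⟨s, hs⟩ := G.t_nnl l
  refine ⟨G.nnl l, s, fun z => ⟨(hs z).1, ?_⟩⟩
  rw [hla]
  exact (hs z).2 a

lemma pg_cell (f : Γ → k) (hf : f ∈ G.A) (h : ∀ u ∈ Subgroup.closure (⋃ i, Set.range (G.xp i)),
    ∀ z, ∀ v ∈ Subgroup.closure (⋃ i, Set.range (G.xm i)), f (u * G.t z * v) = 0) : f = 0 :=
  G.eq_zero hf fun s z r => h _ (G.upr_mem_UU s) z _ (G.upr_mem_VV r)

/-- the longest element of the Weyl group -/
noncomputable def n0 : Γ := G.nnl (w0l b)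

lemma n0_xp (j : Fin (enN b)) : ∃ c : kˣ, ∀ s, G.n0 * G.xp j s * G.n0⁻¹ =
    G.xm (w0s b j) (c * s) := by
  obtain ⟨c, hc⟩ := G.nnl_conj (w0l b) (w0l_mem b) (en b j)
  have h1 : actI P (w0l b) (en b j : ι) =
      P.reflectionPerm (en b (w0s b j) : ι) (en b (w0s b j) : ι) := by
    apply P.root.injective
    rw [← act_root, w0_root, root_neg]
  rw [h1] at hc
  exact ⟨c, hc⟩

lemma n0_xm (j : Fin (enN b)) : ∃ c : kˣ, ∀ s, G.n0 * G.xm j s * G.n0⁻¹ =
    G.xp (w0s b j) (c * s) := by
  obtain ⟨c, hc⟩ := G.nnl_conj (w0l b) (w0l_mem b)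
    (P.reflectionPerm (en b j : ι) (en b j : ι))
  have h1 : actI P (w0l b) (P.reflectionPerm (en b j : ι) (en b j : ι)) =
      (en b (w0s b j) : ι) := by
    apply P.root.injective
    rw [← act_root, root_neg, act_neg, w0_root, neg_neg]
  rw [h1] at hc
  exact ⟨c, hc⟩

lemma pg_n0_x (i : Fin (enN b)) (c : k) :
    G.n0⁻¹ * G.xp i c * G.n0 ∈ Subgroup.closure (⋃ i, Set.range (G.xm i)) := by
  obtain ⟨j, rfl⟩ := (w0s b).surjective i
  obtain ⟨d, hd⟩ := G.n0_xm j
  have h1 := hd (((d⁻¹ : kˣ) : k) * c)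
  rw [← mul_assoc (d : k), ← Units.val_mul, mul_inv_cancel, Units.val_one, one_mul] at h1
  rw [← h1]
  have h2 : G.n0⁻¹ * (G.n0 * G.xm j (((d⁻¹ : kˣ) : k) * c) * G.n0⁻¹) * G.n0 =
      G.xm j (((d⁻¹ : kˣ) : k) * c) := by group
  rw [h2]
  exact Subgroup.subset_closure (Set.mem_iUnion.2 ⟨j, _, rfl⟩)

lemma pg_n0_y (i : Fin (enN b)) (c : k) :
    G.n0⁻¹ * G.xm i c * G.n0 ∈ Subgroup.closure (⋃ i, Set.range (G.xp i)) := by
  obtain ⟨j, rfl⟩ := (w0s b).surjective i
  obtain ⟨d, hd⟩ := G.n0_xp j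
  have h1 := hd (((d⁻¹ : kˣ) : k) * c)
  rw [← mul_assoc (d : k), ← Units.val_mul, mul_inv_cancel, Units.val_one, one_mul] at h1
  rw [← h1]
  have h2 : G.n0⁻¹ * (G.n0 * G.xp j (((d⁻¹ : kˣ) : k) * c) * G.n0⁻¹) * G.n0 =
      G.xp j (((d⁻¹ : kˣ) : k) * c) := by group
  rw [h2]
  exact Subgroup.subset_closure (Set.mem_iUnion.2 ⟨j, _, rfl⟩)

lemma pg_n0_t : ∃ s : Tor k X ≃* Tor k X, ∀ z, G.t z * G.n0 = G.n0 * G.t (s z) ∧
    ∀ a, chHom k a (s z) = chHom k (act P (w0l b) a) z := G.t_nnl (w0l b)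

/-- the pinned group of a reductive group -/
noncomputable def pg : TRN.PG k Γ (Tor k X) X where
  A := G.A
  comul := G.comul
  inv := G.inv
  t := G.t
  chi := chHom k
  chi_add a c z := ch_add a c z
  chi_inj := pg_chi_inj
  t_reg := G.t_reg
  R := Fin (enN b)
  root j := P.root (en b j : ι)
  x := G.xp
  y := G.xm
  x_zero i := G.x_zero _
  y_zero i := G.x_zero _
  x_reg _ hf i := G.pg_x_reg hf i
  y_reg _ hf i := G.pg_y_reg hf i
  x_t i z c := G.t_xp i z c
  y_t i z c := G.t_xm i z c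
  ht := hgt b
  ht_pos := hgt_pos
  dom := domX b
  dom_dom a := (domX_eq b).2 (domX_dmt b a)
  le_dom := le_domX b
  dom_fin := domX_fin b
  dom_zero := domX_zero b
  weyl := G.pg_weyl
  cell := G.pg_cell
  n0 := G.n0
  n0_x := G.pg_n0_x
  n0_y := G.pg_n0_y
  w0 := act P (w0l b)
  n0_t := G.pg_n0_t

lemma pg_U : G.pg.U = G.UU := rfl

lemma pg_Um : G.pg.Um = G.VV := rfl

end RedGrp

end Pool.Agent.RG
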