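import Pool.Agent.RDG.Nrm
import Pool.Agent.RDG.Pin
import Pool.Agent.TRN.Root

/-!
# RDG / FUN: highest weights in the direction of the fundamental weights

* `deg_eq`: let `f ∈ A` with `f (g * (u * t z)) = (ch l z)⁻¹ * f g` for `u ∈ VV`. For `i` simple and
  `s ≠ 0` (`up_eq`): `x_i(s) = x_{-i}(s⁻¹) * nn i * φ (dg s⁻¹) * x_{-i}(s⁻¹)`, so (`φ_dg`, and
  `u * t z = t z * u'`) `f (g * x_i(s)) = s ^ ⟨l, α_i^∨⟩ * f (g * x_{-i}(s⁻¹) * nn i)
  = s ^ ⟨l, α_i^∨⟩ * f (g * nn i * x_i(-s⁻¹))` (`nn_x'`). Both `f (g * x_i(s))` and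
  `f (g * nn i * x_i(s))` are polynomials in `s` (`trL`, `x_reg`). So if `⟨l, α_i^∨⟩ = 0` the polynomial
  `f (g * x_i(s))` is constant, and if `⟨l, α_i^∨⟩ < 0` it is zero (`k` infinite).
* `Hw.dmt`: the last remark (`v 1 = 1`).
* `det_weight`. Let `W = Wge ρ l n` (`ρ` on `V` finite dimensional). `V` is the direct sum of the weight
  spaces (`wt`, `sum_wt`), so `V = W ⊕ W'`, `W'` the sum of the weight spaces of weights `a` with
  `l a < n`; `pr : V → W` the projection. `W` is stable under `T` and `xp j s`, `W'` under `T` and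
  `xm j s` (`exists_poly_x`, `exists_poly_y`: weights `a ± m root j`). Let
  `F g = det (pr ∘ ρ g⁻¹ |_W : W → W)`, a regular function (matrix entries in a basis of `W` are in `A`,
  `IsReg.apply`, `D.inv`). For `u` in `VV` or in the torus `pr ∘ ρ u = pr ∘ ρ u ∘ pr`, so
  `F (g u) = det (pr ρ u⁻¹|_W) F g` (and `F (u g) = F g * det (ρ u⁻¹|_W)` for `u ∈ UU`). For a root
  subgroup `det (pr ρ (x s)|_W)` is a polynomial function of `s` and a homomorphism `k → kˣ`, so it
  has no zero and is constant `1`. For the torus `z ↦ det (ρ (t z)|_W)` is a regular function without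
  zeros on `T`, so it is `c * ch ω z` (`LR.unit`), `c = 1` (`z = 1`). So `F (om s z r) = (ch ω z)⁻¹`:
  `Hw ω`.
  If `l (root i) = 0`, `i` simple, then `W` and `W'` are stable under `φ (en b i) (SL₂)`
  (`sl_closure`), `h ↦ det (ρ (φ h)|_W)` is a homomorphism `SL₂ → kˣ`, trivial on `up s`, `lo s`, so
  trivial; for `h = dg c`: `c ^ ⟨ω, α_i^∨⟩ = 1` for all `c ∈ kˣ`, so `⟨ω, α_i^∨⟩ = 0`.
  If `⟨ω, α_i^∨⟩ = 0` then `F (g * xp i s) = F g` (`deg_eq`) and `F (g * xm i s) = F g`, so
  `F (φ (en b i) h) = F 1 = 1` for all `h ∈ SL₂` (`sl_closure`). For `h = wl`: `pr ρ (nn i)⁻¹ |_W` is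
  invertible. `ρ (nn i)⁻¹` maps weight vectors to weight vectors (`t_nn`), so for a weight vector
  `v ∈ W`, `v ≠ 0`, the vector `ρ (nn i)⁻¹ v` is not in `W'`, i.e. it is in `W`. So `W` is stable under
  `ρ (nn i)⁻¹`, hence under `ρ (nn i)` (finite dimensional) and under
  `xm i s = nn i * xp i (-s) * (nn i)⁻¹` (`nn_x`).
* `exists_fun`. There is a finite-dimensional rational representation `V` on which some `xm i s` acts
  nontrivially: `xm i 1 ≠ 1` (`om_inj`), so there is `f ∈ A` with `f (xm i (-1)) ≠ f 1` (`G.pts`); take the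
  span `V` of the left translates of `f` (`comul`), `(g F) x = F (g⁻¹ x)`. Let `l` be the functional of
  `exists_functional`. For all `n` let `ω_n` be the weight of `det_weight`. If `⟨ω_n, α_i^∨⟩ = 0` for all
  `n` then all `Wge ρ l n` are stable under `xm i s`; for `v` of weight `a`, `n = l a`:
  `ρ (xm i s) v = ∑ s ^ m w_m` with `w_m` of weight `a - m root i` (`exists_poly_y`), and
  `l (a - m root i) < n` for `m ≥ 1`, so `w_m = 0` for `m ≥ 1` and `ρ (xm i s) v = v`. So `xm i s`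
  acts trivially on `V`, contradiction. Take `ω = ω_n` with `⟨ω_n, α_i^∨⟩ ≠ 0`, `> 0` by `Hw.dmt`.
-/

set_option autoImplicit false

open MvPolynomial

namespace Pool.Agent.RG

open Pool.Agent.TRN

variable {k : Type*} [Field k] {ι X Y : Type*} [AddCommGroup X] [AddCommGroup Y] [Finite ι]
  {P : RootDatum ι X Y} {b : P.Base} {Γ : Type*} [Group Γ] (G : RedGrp k P b Γ)
  [IsAlgClosed k] [Module.Finite ℤ X] [Module.Free ℤ X] [P.IsReduced]

namespace RedGrp

omit [Finite ι] [IsAlgClosed k] [Module.Finite ℤ X] [Module.Free ℤ X] [P.IsReduced] in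
/-- the polynomial lemma -/
private lemma poly_inv [Infinite k] {p q : Polynomial k} {n : ℕ}
    (h : ∀ s : k, s ≠ 0 → p.eval s * s ^ n = q.eval (-s⁻¹)) :
    p.natDegree = 0 ∧ (0 < n → p = 0) := by
  set m := q.natDegree with hm
  let R : Polynomial k := ∑ j ∈ Finset.range (m + 1),
    Polynomial.C (q.coeff j * (-1) ^ j) * Polynomial.X ^ (m - j)
  have hR : R.natDegree ≤ m := by
    refine Polynomial.natDegree_sum_le_of_forall_le _ _ fun j _ => ?_
    exact (Polynomial.natDegree_C_mul_X_pow_le _ _).trans (Nat.sub_le m j)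
  have e1 : p * Polynomial.X ^ (n + m) = R := by
    have h1 : Polynomial.X * (p * Polynomial.X ^ (n + m) - R) = 0 := by
      apply Polynomial.funext
      intro s
      rw [Polynomial.eval_mul, Polynomial.eval_X, Polynomial.eval_sub, Polynomial.eval_mul,
        Polynomial.eval_pow, Polynomial.eval_X, Polynomial.eval_zero]
      by_cases hs : s = 0
      · rw [hs, zero_mul]
      · have h2 : R.eval s = q.eval (-s⁻¹) * s ^ m := by
          rw [Polynomial.eval_eq_sum_range (p := q), ← hm, Finset.sum_mul,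
            Polynomial.eval_finsetSum]
          refine Finset.sum_congr rfl fun j hj => ?_
          have hj' : j ≤ m := Nat.lt_succ_iff.1 (Finset.mem_range.1 hj)
          rw [Polynomial.eval_mul, Polynomial.eval_C, Polynomial.eval_pow, Polynomial.eval_X,
            neg_pow s⁻¹ j, inv_pow]
          have h3 : s ^ m = s ^ (m - j) * s ^ j := by rw [← pow_add, Nat.sub_add_cancel hj']
          rw [h3]
          field_simp
        rw [h2, ← h s hs, pow_add]
        ring
    rcases mul_eq_zero.1 h1 with h2 | h2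
    · exact absurd h2 Polynomial.X_ne_zero
    · exact sub_eq_zero.1 h2
  by_cases hp : p = 0
  · rw [hp]
    exact ⟨Polynomial.natDegree_zero, fun _ => rfl⟩
  · have h2 : (p * Polynomial.X ^ (n + m)).natDegree = p.natDegree + (n + m) :=
      Polynomial.natDegree_mul_X_pow _ hp
    rw [e1] at h2
    refine ⟨by omega, fun hn => ?_⟩
    omega

theorem deg_eq {f : Γ → k} (hf : f ∈ G.A) {l : X}
    (h : ∀ g, ∀ u ∈ G.VV, ∀ z, f (g * (u * G.t z)) = ((ch l z)⁻¹ : kˣ) * f g)
    {i : Fin (enN b)} (hi : (en b i : ι) ∈ b.support) (g : Γ) (s : k) (hs : s ≠ 0) :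
    f (g * G.xp i s) = s ^ (prY P (en b i : ι) l) * f (g * G.nn (en b i) * G.xp i (-s⁻¹)) := by
  set j : ι := (en b i : ι) with hj
  obtain ⟨c, rfl⟩ : ∃ c : kˣ, (c : k) = s := ⟨Units.mk0 s hs, rfl⟩
  obtain ⟨z, hz, hz'⟩ := G.φ_dg j c⁻¹
  have e1 : G.xp i (c : k) = G.xm i ((c⁻¹ : kˣ) : k) * G.nn j * G.t z *
      G.xm i ((c⁻¹ : kˣ) : k) := by
    have h1 := congrArg (G.φ j) (up_eq c)
    rw [map_mul, map_mul, map_mul, G.φ_up, G.φ_lo, hz] at h1
    exact h1
  have e2 : G.nn j * G.xp i (-((c⁻¹ : kˣ) : k)) = G.xm i ((c⁻¹ : kˣ) : k) * G.nn j := by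
    have h1 := G.nn_x j (-((c⁻¹ : kˣ) : k))
    rw [neg_neg] at h1
    rw [xm, ← h1, inv_mul_cancel_right]
    rfl
  have e3 : G.t z * G.xm i ((c⁻¹ : kˣ) : k) =
      G.xm i ((ch (-P.root (en b i : ι)) z : k) * ((c⁻¹ : kˣ) : k)) * G.t z := by
    rw [← G.t_xm, inv_mul_cancel_right]
  have hV : ∀ r : k, G.xm i r ∈ G.VV := fun r =>
    Subgroup.subset_closure (Set.mem_iUnion.2 ⟨i, r, rfl⟩)
  have e4 : ((ch l z)⁻¹ : kˣ) = c ^ (prY P j l) := by
    rw [hz' l, prY_apply, inv_zpow, inv_inv]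
  rw [← Units.val_inv_eq_inv_val, mul_assoc g, e2, e1, mul_assoc (G.xm i _ * G.nn j), e3,
    ← mul_assoc g, h _ _ (hV _), e4, Units.val_zpow_eq_zpow_val]

private lemma pq {f : Γ → k} (hf : f ∈ G.A) (i : Fin (enN b)) (g : Γ) :
    ∃ p q : Polynomial k, (∀ s, f (g * G.xp i s) = p.eval s) ∧
      ∀ s, f (g * G.nn (en b i) * G.xp i s) = q.eval s := by
  obtain ⟨p, hp⟩ := G.pg_x_reg (G.trL hf g) i
  obtain ⟨q, hq⟩ := G.pg_x_reg (G.trL hf (g * G.nn (en b i))) i
  exact ⟨p, q, hp, hq⟩

theorem const_of_zero {f : Γ → k} (hf : f ∈ G.A) {l : X}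
    (h : ∀ g, ∀ u ∈ G.VV, ∀ z, f (g * (u * G.t z)) = ((ch l z)⁻¹ : kˣ) * f g)
    {i : Fin (enN b)} (hi : (en b i : ι) ∈ b.support) (h0 : prY P (en b i : ι) l = 0) (g : Γ)
    (s : k) : f (g * G.xp i s) = f g := by
  obtain ⟨p, q, hp, hq⟩ := G.pq hf i g
  have h1 : ∀ s : k, s ≠ 0 → p.eval s * s ^ 0 = q.eval (-s⁻¹) := by
    intro s hs
    rw [pow_zero, mul_one, ← hp, G.deg_eq hf h hi g s hs, h0, zpow_zero, one_mul, hq]
  have h2 := (poly_inv h1).1
  rw [hp, Polynomial.eq_C_of_natDegree_eq_zero h2, Polynomial.eval_C]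
  have h3 := hp 0
  rw [Polynomial.eq_C_of_natDegree_eq_zero h2, Polynomial.eval_C] at h3
  rw [← h3, xp, G.x_zero, mul_one]

omit [IsAlgClosed k] [Module.Finite ℤ X] [Module.Free ℤ X] [P.IsReduced] in
private lemma en_ex {i : ι} (hi : i ∈ b.support) : ∃ j : Fin (enN b), (en b j : ι) = i :=
  ⟨(en b).symm ⟨i, RootPairing.Base.isPos_of_mem_support hi⟩, by
    rw [Equiv.apply_symm_apply]⟩

theorem Hw.dmt {G : RedGrp k P b Γ} {l : X} (h : G.Hw l) : Dmt b l := by
  obtain ⟨v, hv, e⟩ := h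
  intro i' hi'
  obtain ⟨i, rfl⟩ := en_ex hi'
  by_contra hneg
  rw [not_le] at hneg
  obtain ⟨n, hn⟩ : ∃ n : ℕ, prY P (en b i : ι) l = -(n : ℤ) := ⟨(-prY P (en b i : ι) l).toNat, by
    rw [Int.toNat_of_nonneg (by omega), neg_neg]⟩
  obtain ⟨p, q, hp, hq⟩ := G.pq hv i 1
  have h1 : ∀ s : k, s ≠ 0 → p.eval s * s ^ n = q.eval (-s⁻¹) := by
    intro s hs
    rw [← hp, G.deg_eq hv (fun g u hu z => Hw.right hv e g hu z) hi' 1 s hs, hn, zpow_neg,
      zpow_natCast, hq]
    field_simp
  have h2 := (poly_inv h1).2 (by omega)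
  have h3 := hp 0
  rw [h2, Polynomial.eval_zero, xp, G.x_zero, mul_one] at h3
  have h4 := e 0 1 0
  rw [om_one, h3, ch_one', inv_one, Units.val_one] at h4
  exact zero_ne_one h4

/-- the sum of the weight spaces of the weights `a` with `l a ≥ n` -/
noncomputable def Wge {V : Type*} [AddCommGroup V] [Module k V] (ρ : Representation k Γ V) (l : X →+ ℤ) (n : ℤ) :
    Submodule k V := ⨆ (a : X) (_ : n ≤ l a), PG.wsp G.pg ρ a


section comp

variable {V : Type*} [AddCommGroup V] [Module k V] {ρ : Representation k Γ V}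

/-- the compression -/
private def cmp (p x : Module.End k V) : Module.End k V := p * x * p + (1 - p)

omit [IsAlgClosed k] in
private lemma cmp_one {p : Module.End k V} (hp : p * p = p) : cmp p 1 = 1 := by
  rw [cmp, mul_one, hp]
  abel

omit [IsAlgClosed k] in
private lemma cmp_mul {p x y : Module.End k V} (hp : p * p = p)
    (h : p * (x * y) * p = p * x * p * y * p) : cmp p (x * y) = cmp p x * cmp p y := by
  unfold cmp
  rw [h]
  have e1 : (1 - p) * (p * y * p) = 0 := by
    rw [sub_mul, one_mul, ← mul_assoc, ← mul_assoc, hp, sub_self]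
  have e2 : p * x * p * (1 - p) = 0 := by
    rw [mul_sub, mul_one, mul_assoc (p * x), hp, sub_self]
  have e3 : (1 - p) * (1 - p) = 1 - p := by
    rw [mul_sub, mul_one, sub_mul, one_mul, hp, sub_self, sub_zero]
  have e4 : p * x * p * (p * y * p) = p * x * p * y * p := by
    rw [← mul_assoc (p * x * p), ← mul_assoc (p * x * p), mul_assoc (p * x), hp]
  rw [mul_add, add_mul, add_mul, e1, e2, e3, e4, add_zero, zero_add]

omit [IsAlgClosed k] in
private lemma cmp_mul_left {p x y : Module.End k V} (hp : p * p = p)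
    (h : p * x * p = p * x) : cmp p (x * y) = cmp p x * cmp p y := by
  apply cmp_mul hp
  rw [h, ← mul_assoc]

omit [IsAlgClosed k] in
private lemma cmp_mul_right {p x y : Module.End k V} (hp : p * p = p)
    (h : p * y * p = y * p) : cmp p (x * y) = cmp p x * cmp p y := by
  apply cmp_mul hp
  rw [mul_assoc, mul_assoc x, ← h]
  simp only [mul_assoc]

variable {G} (hρ : G.pg.IsRational ρ)

include hρ in
/-- linear maps which agree on the weight vectors -/
private lemma ext_wt {W : Type*} [AddCommGroup W] [Module k W] {x y : V →ₗ[k] W}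
    (h : ∀ a v, G.pg.IsWt ρ a v → x v = y v) : x = y := by
  ext v
  obtain ⟨s, -, hs⟩ := PG.sum_wt hρ v
  rw [hs, map_sum, map_sum]
  exact Finset.sum_congr rfl fun a _ => h a _ (PG.wt_isWt hρ a v)

/-- the projection -/
private def IsPr (ρ : Representation k Γ V) (l : X →+ ℤ) (n : ℤ) (p : Module.End k V) : Prop :=
  (∀ a v, G.pg.IsWt ρ a v → n ≤ l a → p v = v) ∧ ∀ a v, G.pg.IsWt ρ a v → l a < n → p v = 0

include hρ in
private lemma exists_pr [Module.Finite k V] (l : X →+ ℤ) (n : ℤ) :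
    ∃ p : Module.End k V, IsPr (G := G) ρ l n p := by
  classical
  obtain ⟨S, hS⟩ : ∃ S : Finset X, ∀ a ∉ S, PG.wt hρ a = 0 := by
    let B := Module.finBasis k V
    choose s hs _ using fun i => PG.sum_wt hρ (B i)
    refine ⟨Finset.univ.biUnion s, fun a ha => ?_⟩
    refine B.ext fun i => ?_
    rw [LinearMap.zero_apply]
    refine hs i a fun hi => ha ?_
    exact Finset.mem_biUnion.2 ⟨i, Finset.mem_univ i, hi⟩
  refine ⟨∑ a ∈ S.filter (fun a => n ≤ l a), PG.wt hρ a, ?_, ?_⟩
  · intro a v hv ha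
    rw [LinearMap.sum_apply]
    by_cases haS : a ∈ S
    · rw [Finset.sum_eq_single_of_mem a (Finset.mem_filter.2 ⟨haS, ha⟩), PG.wt_self hρ hv]
      intro c _ hca
      exact PG.wt_ne hρ hv hca.symm
    · have h1 : v = 0 := by
        rw [← PG.wt_self hρ hv, hS a haS, LinearMap.zero_apply]
      rw [h1]
      exact Finset.sum_eq_zero fun c _ => map_zero _
  · intro a v hv ha
    rw [LinearMap.sum_apply]
    refine Finset.sum_eq_zero fun c hc => PG.wt_ne hρ hv ?_
    rintro rfl
    exact absurd (Finset.mem_filter.1 hc).2 (not_le.2 ha)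

variable {l : X →+ ℤ} {n : ℤ} {p : Module.End k V}

include hρ in
private lemma IsPr.idem (hp : IsPr (G := G) ρ l n p) : p * p = p := by
  refine ext_wt hρ fun a v hv => ?_
  rw [Module.End.mul_apply]
  rcases le_or_gt n (l a) with h | h
  · rw [hp.1 a v hv h, hp.1 a v hv h]
  · rw [hp.2 a v hv h, map_zero]

include hρ in
private lemma IsPr.low (hp : IsPr (G := G) ρ l n p) {x : Module.End k V}
    (h : ∀ a v, G.pg.IsWt ρ a v → l a < n → p (x v) = 0) : p * x * p = p * x := by
  refine ext_wt hρ fun a v hv => ?_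
  rw [Module.End.mul_apply, Module.End.mul_apply, Module.End.mul_apply]
  rcases le_or_gt n (l a) with h' | h'
  · rw [hp.1 a v hv h']
  · rw [hp.2 a v hv h', map_zero, map_zero, h a v hv h']

include hρ in
private lemma IsPr.rai (hp : IsPr (G := G) ρ l n p) {x : Module.End k V}
    (h : ∀ a v, G.pg.IsWt ρ a v → n ≤ l a → p (x v) = x v) : p * x * p = x * p := by
  refine ext_wt hρ fun a v hv => ?_
  rw [Module.End.mul_apply, Module.End.mul_apply, Module.End.mul_apply]
  rcases le_or_gt n (l a) with h' | h'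
  · rw [hp.1 a v hv h', h a v hv h']
  · rw [hp.2 a v hv h', map_zero, map_zero]

include hρ in
private lemma IsPr.xp_rai (hp : IsPr (G := G) ρ l n p) {j : Fin (enN b)}
    (hl : 0 ≤ l (P.root (en b j : ι))) (s : k) :
    p * ρ (G.xp j s) * p = ρ (G.xp j s) * p := by
  refine hp.rai hρ fun a v hv ha => ?_
  obtain ⟨d, w, h1, h2, h3⟩ := PG.exists_poly_x hρ hv j
  have h1' : ρ (G.xp j s) v = ∑ m ∈ Finset.range (d + 1), s ^ m • w m := h1 s
  rw [h1', map_sum]
  refine Finset.sum_congr rfl fun m _ => ?_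
  rw [map_smul]
  congr 1
  refine hp.1 _ _ (h2 m) ?_
  rw [map_add, map_nsmul]
  have := nsmul_nonneg hl m
  change 0 ≤ m • l (G.pg.root j) at this
  omega

include hρ in
private lemma IsPr.xm_low (hp : IsPr (G := G) ρ l n p) {j : Fin (enN b)}
    (hl : 0 ≤ l (P.root (en b j : ι))) (s : k) :
    p * ρ (G.xm j s) * p = p * ρ (G.xm j s) := by
  refine hp.low hρ fun a v hv ha => ?_
  obtain ⟨d, w, h1, h2, h3⟩ := PG.exists_poly_y hρ hv j
  have h1' : ρ (G.xm j s) v = ∑ m ∈ Finset.range (d + 1), s ^ m • w m := h1 s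
  rw [h1', map_sum]
  refine Finset.sum_eq_zero fun m _ => ?_
  rw [map_smul, hp.2 _ _ (h2 m), smul_zero]
  rw [map_sub, map_nsmul]
  have := nsmul_nonneg hl m
  change 0 ≤ m • l (G.pg.root j) at this
  omega

include hρ in
private lemma IsPr.xp_low (hp : IsPr (G := G) ρ l n p) {j : Fin (enN b)}
    (hl : l (P.root (en b j : ι)) = 0) (s : k) :
    p * ρ (G.xp j s) * p = p * ρ (G.xp j s) := by
  refine hp.low hρ fun a v hv ha => ?_
  obtain ⟨d, w, h1, h2, h3⟩ := PG.exists_poly_x hρ hv j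
  have h1' : ρ (G.xp j s) v = ∑ m ∈ Finset.range (d + 1), s ^ m • w m := h1 s
  rw [h1', map_sum]
  refine Finset.sum_eq_zero fun m _ => ?_
  rw [map_smul, hp.2 _ _ (h2 m), smul_zero]
  have h4 : l (G.pg.root j) = 0 := hl
  rw [map_add, map_nsmul, h4, smul_zero, add_zero]
  exact ha

include hρ in
private lemma IsPr.t_rai (hp : IsPr (G := G) ρ l n p) (z : Tor k X) :
    p * ρ (G.t z) * p = ρ (G.t z) * p := by
  refine hp.rai hρ fun a v hv ha => ?_
  have h1 : ρ (G.t z) v = (G.pg.chi a z : k) • v := hv z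
  rw [h1, map_smul, hp.1 a v hv ha]

include hρ in
private lemma det_reg [Module.Finite k V] (p : Module.End k V) :
    (fun g => LinearMap.det (cmp p (ρ g⁻¹))) ∈ G.A := by
  classical
  let B := Module.finBasis k V
  have h1 : ∀ i j, (fun g => B.coord i (cmp p (ρ g⁻¹) (B j))) ∈ G.A := by
    intro i j
    have h2 : (fun g => (B.coord i).comp p (ρ g⁻¹ (p (B j)))) ∈ G.A :=
      PG.IsReg.apply (D := G.pg) (PG.IsReg.comp_inv (hρ (p (B j)))) ((B.coord i).comp p)
    have h3 : (fun g : Γ => B.coord i (cmp p (ρ g⁻¹) (B j))) =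
        (fun g => (B.coord i).comp p (ρ g⁻¹ (p (B j)))) +
        algebraMap k (Γ → k) (B.coord i ((1 - p) (B j))) := by
      funext g
      rw [Pi.add_apply, cmp, LinearMap.add_apply, map_add]
      rfl
    rw [h3]
    exact add_mem h2 (G.A.algebraMap_mem _)
  have h2 : (fun g => LinearMap.det (cmp p (ρ g⁻¹))) =
      ∑ σ : Equiv.Perm (Fin (Module.finrank k V)), (Equiv.Perm.sign σ) •
        ∏ i, fun g => B.coord (σ i) (cmp p (ρ g⁻¹) (B i)) := by
    funext g
    rw [← LinearMap.det_toMatrix B, Matrix.det_apply, Finset.sum_apply]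
    refine Finset.sum_congr rfl fun σ _ => ?_
    rw [Pi.smul_apply, Finset.prod_apply]
    congr 1
    refine Finset.prod_congr rfl fun i _ => ?_
    rw [LinearMap.toMatrix_apply]
    rfl
  rw [h2]
  refine sum_mem fun σ _ => ?_
  rw [Units.smul_def]
  exact zsmul_mem (prod_mem fun i _ => h1 _ _) _

end comp


private lemma poly_hom {q : Polynomial k} (h0 : q.eval 0 = 1)
    (h : ∀ s r, q.eval (s + r) = q.eval s * q.eval r) (s : k) : q.eval s = 1 := by
  have h1 : q * q.comp (-Polynomial.X) = 1 := by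
    apply Polynomial.funext
    intro s
    rw [Polynomial.eval_mul, Polynomial.eval_comp, Polynomial.eval_neg, Polynomial.eval_X, ← h,
      add_neg_cancel, h0, Polynomial.eval_one]
  have h2 : IsUnit q := IsUnit.of_mul_eq_one _ h1
  have h3 := Polynomial.natDegree_eq_zero_of_isUnit h2
  rw [Polynomial.eq_C_of_natDegree_eq_zero h3, Polynomial.eval_C] at h0 ⊢
  exact h0

variable {G} in
private lemma nn_wt {V : Type*} [AddCommGroup V] [Module k V] {ρ : Representation k Γ V}
    (i : ι) {a : X} {v : V} (h : G.pg.IsWt ρ a v) :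
    G.pg.IsWt ρ (P.reflection i a) (ρ (G.nn i) v) := by
  intro z
  change ρ (G.t z) (ρ (G.nn i) v) = ((ch (P.reflection i a) z : kˣ) : k) • ρ (G.nn i) v
  rw [← mul_apply', t_nn, mul_apply']
  have h1 : ρ (G.t (rT k P i z)) v = ((ch a (rT k P i z) : kˣ) : k) • v := h _
  rw [h1, map_smul, ch_rT]

variable {G} in
private lemma nn_wt' {V : Type*} [AddCommGroup V] [Module k V] {ρ : Representation k Γ V}
    (i : ι) {a : X} {v : V} (h : G.pg.IsWt ρ a v) :
    G.pg.IsWt ρ (P.reflection i a) (ρ (G.nn i)⁻¹ v) := by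
  intro z
  change ρ (G.t z) (ρ (G.nn i)⁻¹ v) = ((ch (P.reflection i a) z : kˣ) : k) • ρ (G.nn i)⁻¹ v
  obtain ⟨w, rfl⟩ := (rT k P i).surjective z
  have h0 : G.t (rT k P i w) * (G.nn i)⁻¹ = (G.nn i)⁻¹ * G.t w := by
    rw [eq_inv_mul_iff_mul_eq, ← mul_assoc, ← t_nn, mul_inv_cancel_right]
  rw [← mul_apply', h0, mul_apply']
  have h1 : ρ (G.t w) v = ((ch a w : kˣ) : k) • v := h _
  rw [h1, map_smul, ch_rT, P.reflection_same]

theorem det_weight {V : Type*} [AddCommGroup V] [Module k V] [Module.Finite k V]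
    (ρ : Representation k Γ V) (hρ : G.pg.IsRational ρ) (l : X →+ ℤ)
    (hl : ∀ j : Fin (enN b), 0 ≤ l (P.root (en b j : ι))) (n : ℤ) : ∃ ω : X, G.Hw ω ∧
      (∀ i : Fin (enN b), (en b i : ι) ∈ b.support → l (P.root (en b i : ι)) = 0 →
        prY P (en b i : ι) ω = 0) ∧
      ∀ i : Fin (enN b), (en b i : ι) ∈ b.support → prY P (en b i : ι) ω = 0 →
        ∀ s, ∀ v ∈ G.Wge ρ l n, ρ (G.xm i s) v ∈ G.Wge ρ l n := by
  obtain ⟨p, hp⟩ := exists_pr hρ l n
  have hpp := hp.idem hρ
  set F : Γ → k := fun g => LinearMap.det (cmp p (ρ g⁻¹)) with hF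
  have hFA : F ∈ G.A := det_reg hρ p
  have F1 : F 1 = 1 := by
    rw [hF]
    beta_reduce
    rw [inv_one, map_one, cmp_one hpp, map_one]
  -- multiplicativity
  have hR : ∀ g u, p * ρ u⁻¹ * p = p * ρ u⁻¹ → F (g * u) = F g * F u := by
    intro g u h
    rw [hF]
    beta_reduce
    rw [mul_inv_rev, map_mul ρ, cmp_mul_left hpp h, map_mul, mul_comm]
  have hL : ∀ g u, p * ρ u⁻¹ * p = ρ u⁻¹ * p → F (u * g) = F u * F g := by
    intro g u h
    rw [hF]
    beta_reduce
    rw [mul_inv_rev, map_mul ρ, cmp_mul_right hpp h, map_mul, mul_comm]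
  have xpi : ∀ j s, (G.xp j s)⁻¹ = G.xp j (-s) := fun j s => (G.x_neg _ s).symm
  have xmi : ∀ j s, (G.xm j s)⁻¹ = G.xm j (-s) := fun j s => (G.x_neg _ s).symm
  have hxpL : ∀ j s g, F (G.xp j s * g) = F (G.xp j s) * F g := by
    intro j s g
    refine hL _ _ ?_
    rw [xpi]
    exact hp.xp_rai hρ (hl j) _
  have hxmR : ∀ j s g, F (g * G.xm j s) = F g * F (G.xm j s) := by
    intro j s g
    refine hR _ _ ?_
    rw [xmi]
    exact hp.xm_low hρ (hl j) _
  have hxp1 : ∀ j s, F (G.xp j s) = 1 := by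
    intro j s
    obtain ⟨q, hq⟩ := G.pg_x_reg hFA j
    rw [hq]
    refine poly_hom ?_ (fun s r => ?_) s
    · rw [← hq, xp, G.x_zero, F1]
    · rw [← hq, ← hq, ← hq, xp_add, hxpL]
  have hxm1 : ∀ j s, F (G.xm j s) = 1 := by
    intro j s
    obtain ⟨q, hq⟩ := G.pg_y_reg hFA j
    rw [hq]
    refine poly_hom ?_ (fun s r => ?_) s
    · rw [← hq, xm, G.x_zero, F1]
    · rw [← hq, ← hq, ← hq, xm_add, hxmR]
  have hU : ∀ u ∈ G.UU, ∀ g, F (u * g) = F g := by
    intro u hu
    induction hu using Subgroup.closure_induction with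
    | mem y hy =>
      obtain ⟨j, s, rfl⟩ := Set.mem_iUnion.1 hy
      intro g
      rw [hxpL, hxp1, one_mul]
    | one => intro g; rw [one_mul]
    | mul x y _ _ hx hy => intro g; rw [mul_assoc, hx, hy]
    | inv x _ hx => intro g; rw [← hx (x⁻¹ * g), mul_inv_cancel_left]
  have hV : ∀ u ∈ G.VV, ∀ g, F (g * u) = F g := by
    intro u hu
    induction hu using Subgroup.closure_induction with
    | mem y hy =>
      obtain ⟨j, s, rfl⟩ := Set.mem_iUnion.1 hy
      intro g
      rw [hxmR, hxm1, mul_one]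
    | one => intro g; rw [mul_one]
    | mul x y _ _ hx hy => intro g; rw [← mul_assoc, hy, hx]
    | inv x _ hx => intro g; rw [← hx (g * x⁻¹), inv_mul_cancel_right]
  have hTL : ∀ z g, F (G.t z * g) = F (G.t z) * F g := by
    intro z g
    refine hL _ _ ?_
    rw [← map_inv]
    exact hp.t_rai hρ _
  -- the weight
  obtain ⟨ω, hω⟩ : ∃ ω : X, ∀ z, F (G.t z) = ((ch ω z)⁻¹ : kˣ) := by
    obtain ⟨s, c, hs⟩ := G.t_reg F hFA
    have h1 : LR (fun (_ : Fin 0 → k) (z : Tor k X) => F (G.t z)) :=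
      ⟨s, fun a => C (c a), fun v z => by
        show F (G.t z) = _
        rw [hs]
        exact Finset.sum_congr rfl fun a _ => by rw [eval_C]⟩
    obtain ⟨c', a, -, h2⟩ := h1.unit (fun v z h0 => by
      have h3 := hTL z (G.t z⁻¹)
      have h4 : G.t z * G.t z⁻¹ = 1 := by
        rw [← map_mul, show z * z⁻¹ = 1 from mul_inv_cancel z, map_one]
      rw [h4, F1, h0, zero_mul] at h3
      exact one_ne_zero h3)
    have h3 := h2 0 1
    rw [map_one, F1, ch_one', Units.val_one, mul_one] at h3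
    refine ⟨-a, fun z => ?_⟩
    rw [h2 0 z, ← h3, one_mul, ch_neg, inv_inv]
  have hHw : ∀ s z r, F (G.om s z r) = ((ch ω z)⁻¹ : kˣ) := by
    intro s z r
    rw [om, mul_assoc, hU _ (G.upr_mem_UU s), hV _ (G.upr_mem_VV r), hω]
  -- right invariance under `SL₂`
  have hSL : ∀ i : Fin (enN b), (∀ s g, F (g * G.xp i s) = F g) →
      ∀ h g, F (g * G.φ (en b i : ι) h) = F g := by
    intro i hi h
    induction sl_closure h using Subgroup.closure_induction with
    | mem y hy =>
      intro g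
      rcases hy with ⟨s, rfl⟩ | ⟨s, rfl⟩
      · rw [G.φ_up]
        exact hi s g
      · rw [G.φ_lo]
        exact hV _ (Subgroup.subset_closure (Set.mem_iUnion.2 ⟨i, s, rfl⟩)) g
    | one => intro g; rw [map_one, mul_one]
    | mul x y _ _ hx hy => intro g; rw [map_mul, ← mul_assoc, hy, hx]
    | inv x _ hx => intro g; rw [← hx (g * G.φ _ x⁻¹), map_inv, inv_mul_cancel_right]
  refine ⟨ω, ⟨F, hFA, hHw⟩, ?_, ?_⟩
  · intro i hi hli
    have h1 := hSL i (fun s g => by
      rw [hR _ _ (by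
        rw [xpi]
        exact hp.xp_low hρ hli _), hxp1, mul_one])
    have h2 : ∀ c : kˣ, c ^ (prY P (en b i : ι) ω) = 1 := by
      intro c
      obtain ⟨z, hz, hz'⟩ := G.φ_dg (en b i : ι) c
      have h3 := h1 (dg c) 1
      rw [hz, one_mul, hω, F1, Units.val_eq_one, hz' ω, inv_eq_one] at h3
      exact h3
    by_contra hne
    have h3 : ∀ m : ℕ, 0 < m → ¬ ∀ c : kˣ, c ^ m = 1 := by
      intro m hm h
      have h4 : (Polynomial.X ^ (m + 1) - Polynomial.X : Polynomial k) = 0 := by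
        apply Polynomial.funext
        intro s
        rw [Polynomial.eval_sub, Polynomial.eval_pow, Polynomial.eval_X, Polynomial.eval_zero]
        by_cases hs : s = 0
        · rw [hs, zero_pow (Nat.succ_ne_zero m), sub_zero]
        · have h5 := congrArg Units.val (h (Units.mk0 s hs))
          rw [Units.val_pow_eq_pow_val, Units.val_mk0, Units.val_one] at h5
          rw [pow_succ, h5, one_mul, sub_self]
      have h5 := congrArg (fun q => Polynomial.coeff q (m + 1)) h4
      beta_reduce at h5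
      rw [Polynomial.coeff_sub, Polynomial.coeff_X_pow, if_pos rfl, Polynomial.coeff_X,
        if_neg (by omega), sub_zero, Polynomial.coeff_zero] at h5
      exact one_ne_zero h5
    refine h3 (prY P (en b i : ι) ω).natAbs (by omega) fun c => ?_
    rcases Int.natAbs_eq (prY P (en b i : ι) ω) with h4 | h4
    · have h5 := h2 c
      rw [h4, zpow_natCast] at h5
      exact h5
    · have h5 := h2 c
      rw [h4, zpow_neg, zpow_natCast, inv_eq_one] at h5
      exact h5
  · intro i hi hωi s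
    have hrig : ∀ g, ∀ u ∈ G.VV, ∀ z, F (g * (u * G.t z)) = ((ch ω z)⁻¹ : kˣ) * F g :=
      fun g u hu z => Hw.right hFA hHw g hu z
    have h1 := hSL i (fun s g => G.const_of_zero hFA hrig hi hωi g s) (wl k) 1
    rw [one_mul, F1] at h1
    have h1' : LinearMap.det (cmp p (ρ (G.nn (en b i : ι))⁻¹)) = 1 := h1
    have h2 : Function.Injective (cmp p (ρ (G.nn (en b i : ι))⁻¹)) := by
      have h3 : IsUnit (LinearMap.det (cmp p (ρ (G.nn (en b i : ι))⁻¹))) := by
        rw [h1']
        exact isUnit_one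
      have h4 := (LinearMap.isUnit_iff_isUnit_det _).2 h3
      exact ((Module.End.isUnit_iff _).1 h4).1
    have h3 : ∀ a v, G.pg.IsWt ρ a v → n ≤ l a → v ≠ 0 → n ≤ l (P.reflection (en b i : ι) a) := by
      intro a v hv ha hv0
      by_contra hcon
      rw [not_le] at hcon
      apply hv0
      apply h2
      rw [map_zero]
      show (p * ρ (G.nn (en b i : ι))⁻¹ * p + (1 - p)) v = 0
      rw [LinearMap.add_apply, LinearMap.sub_apply, Module.End.mul_apply, Module.End.mul_apply,
        Module.End.one_apply, hp.1 a v hv ha, sub_self, add_zero]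
      exact hp.2 _ _ (nn_wt' _ hv) hcon
    have hmem : ∀ a v, G.pg.IsWt ρ a v → n ≤ l a → v ∈ G.Wge ρ l n := by
      intro a v hv ha
      exact Submodule.mem_iSup_of_mem a (Submodule.mem_iSup_of_mem ha hv)
    have hind : ∀ x : Module.End k V, (∀ a v, G.pg.IsWt ρ a v → n ≤ l a → x v ∈ G.Wge ρ l n) →
        ∀ v ∈ G.Wge ρ l n, x v ∈ G.Wge ρ l n := by
      intro x hx
      have h4 : G.Wge ρ l n ≤ (G.Wge ρ l n).comap x :=
        iSup_le fun a => iSup_le fun ha v hv => hx a v hv ha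
      exact fun v hv => h4 hv
    have hn : ∀ v ∈ G.Wge ρ l n, ρ (G.nn (en b i : ι)) v ∈ G.Wge ρ l n := by
      refine hind _ fun a v hv ha => ?_
      by_cases hv0 : v = 0
      · rw [hv0, map_zero]
        exact zero_mem _
      · exact hmem _ _ (nn_wt _ hv) (h3 a v hv ha hv0)
    have hn' : ∀ v ∈ G.Wge ρ l n, ρ (G.nn (en b i : ι))⁻¹ v ∈ G.Wge ρ l n := by
      refine hind _ fun a v hv ha => ?_
      by_cases hv0 : v = 0
      · rw [hv0, map_zero]
        exact zero_mem _
      · exact hmem _ _ (nn_wt' _ hv) (h3 a v hv ha hv0)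
    have hx : ∀ r, ∀ v ∈ G.Wge ρ l n, ρ (G.xp i r) v ∈ G.Wge ρ l n := by
      intro r
      refine hind _ fun a v hv ha => ?_
      obtain ⟨d, w, h4, h5, h6⟩ := PG.exists_poly_x hρ hv i
      have h4' : ρ (G.xp i r) v = ∑ m ∈ Finset.range (d + 1), r ^ m • w m := h4 r
      rw [h4']
      refine Submodule.sum_mem _ fun m _ => Submodule.smul_mem _ _ ?_
      refine hmem _ _ (h5 m) ?_
      rw [map_add, map_nsmul]
      have := nsmul_nonneg (hl i) m
      change 0 ≤ m • l (G.pg.root i) at this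
      omega
    intro v hv
    have e1 : G.xm i s = G.nn (en b i : ι) * G.xp i (-s) * (G.nn (en b i : ι))⁻¹ := by
      have := G.nn_x (en b i : ι) (-s)
      rw [neg_neg] at this
      exact this.symm
    rw [e1, mul_apply', mul_apply']
    exact hn _ (hx _ _ (hn' _ hv))


omit [Finite ι] [IsAlgClosed k] [Module.Finite ℤ X] [Module.Free ℤ X] [P.IsReduced] in
private lemma upr_single {N : ℕ} (x : Fin N → k → Γ) (h0 : ∀ j, x j 0 = 1) (i : Fin N) (c : k) :
    upr x (Pi.single i c) = x i c := by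
  unfold upr
  induction N with
  | zero => exact i.elim0
  | succ n ih =>
    rw [List.ofFn_succ, List.prod_cons]
    refine Fin.cases ?_ (fun j => ?_) i
    · rw [Pi.single_eq_same]
      have h1 : (List.ofFn fun j : Fin n => x j.succ ((Pi.single 0 c : Fin (n + 1) → k) j.succ)).prod
          = 1 := by
        apply List.prod_eq_one
        intro y hy
        rw [List.mem_ofFn] at hy
        obtain ⟨j, rfl⟩ := hy
        rw [Pi.single_eq_of_ne (Fin.succ_ne_zero j), h0]
      rw [h1, mul_one]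
    · rw [Pi.single_eq_of_ne (Fin.succ_ne_zero j).symm, h0, one_mul]
      have h1 := ih (fun j => x j.succ) (fun j => h0 _) j
      rw [← h1]
      congr 1
      congr 1
      funext l
      congr 1
      by_cases hl : l = j
      · subst hl
        rw [Pi.single_eq_same, Pi.single_eq_same]
      · rw [Pi.single_eq_of_ne hl, Pi.single_eq_of_ne (fun hcon => hl (Fin.succ_injective _ hcon))]

variable {G} in
private lemma Wge_wt {V : Type*} [AddCommGroup V] [Module k V] {ρ : Representation k Γ V}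
    (hρ : G.pg.IsRational ρ) {l : X →+ ℤ} {n : ℤ} {v : V} (hv : v ∈ G.Wge ρ l n) {c : X}
    (hc : l c < n) : PG.wt hρ c v = 0 := by
  have h : G.Wge ρ l n ≤ LinearMap.ker (PG.wt hρ c) :=
    iSup_le fun a => iSup_le fun ha v hv => by
      rw [LinearMap.mem_ker]
      refine PG.wt_ne hρ hv ?_
      rintro rfl
      omega
  exact h hv

/-- the representation on the regular functions -/
private def regRep : Representation k Γ (Subalgebra.toSubmodule G.A) where
  toFun h :=
    { toFun := fun F => ⟨fun g => F.1 (h⁻¹ * g), G.trL F.2 h⁻¹⟩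
      map_add' := fun _ _ => rfl
      map_smul' := fun _ _ => rfl }
  map_one' := by
    apply LinearMap.ext
    intro F
    apply Subtype.ext
    funext g
    change F.1 (1⁻¹ * g) = F.1 g
    rw [inv_one, one_mul]
  map_mul' h h' := by
    apply LinearMap.ext
    intro F
    apply Subtype.ext
    funext g
    change F.1 ((h * h')⁻¹ * g) = F.1 (h'⁻¹ * (h⁻¹ * g))
    rw [mul_inv_rev, mul_assoc]

private lemma regRep_rat : G.pg.IsRational G.regRep := by
  rintro ⟨f, hf⟩
  obtain ⟨m, a, c, ha, hc, h⟩ := G.comul f hf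
  refine ⟨m, fun i g => a i g⁻¹, fun i => ⟨c i, hc i⟩, fun i => G.inv _ (ha i), fun g => ?_⟩
  apply Subtype.ext
  funext x
  change f (g⁻¹ * x) = _
  rw [h, AddSubmonoidClass.coe_finsetSum, Finset.sum_apply]
  rfl

private lemma triv_of_not {V : Type*} [AddCommGroup V] [Module k V] [Module.Finite k V]
    (σ : Representation k Γ V) (hσ : G.pg.IsRational σ) {i : Fin (enN b)}
    (hi : (en b i : ι) ∈ b.support) (hcon : ¬ ∃ ω : X, G.Hw ω ∧ 0 < prY P (en b i : ι) ω ∧
      ∀ j ∈ b.support, j ≠ (en b i : ι) → prY P j ω = 0) (s : k) (hs : s ≠ 0) :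
    σ (G.xm i s) = LinearMap.id := by
  obtain ⟨l, hl1, hl2, hl3⟩ := exists_functional b hi
  have key : ∀ n s, ∀ v ∈ G.Wge σ l n, σ (G.xm i s) v ∈ G.Wge σ l n := by
    intro n
    obtain ⟨ω, h1, h2, h3⟩ := G.det_weight σ hσ l (fun j => hl3 _ (en b j).2) n
    refine h3 i hi ?_
    by_contra h0
    apply hcon
    refine ⟨ω, h1, lt_of_le_of_ne (h1.dmt _ hi) (Ne.symm h0), ?_⟩
    intro j hj hji
    obtain ⟨j, rfl⟩ := en_ex hj
    exact h2 j hj (hl2 _ hj hji)
  refine ext_wt hσ fun a v hv => ?_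
  obtain ⟨d, w, h1, h2, h3⟩ := PG.exists_poly_y hσ hv i
  have h1' : σ (G.xm i s) v = ∑ m ∈ Finset.range (d + 1), s ^ m • w m := h1 s
  have h4 := key (l a) s v
    (Submodule.mem_iSup_of_mem a (Submodule.mem_iSup_of_mem le_rfl hv))
  have hli : 0 < l (G.pg.root i) := hl1
  rw [LinearMap.id_apply, h1', Finset.sum_range_succ', pow_zero, one_smul, h3,
    Finset.sum_eq_zero, zero_add]
  intro m hm
  have hm' : m + 1 ∈ Finset.range (d + 1) :=
    Finset.mem_range.2 (Nat.succ_lt_succ (Finset.mem_range.1 hm))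
  have h5 : l (a - (m + 1) • G.pg.root i) < l a := by
    rw [map_sub, map_nsmul]
    have : 0 < (m + 1) • l (G.pg.root i) := nsmul_pos hli (Nat.succ_ne_zero m)
    omega
  have h6 := Wge_wt hσ h4 h5
  rw [h1', map_sum, Finset.sum_eq_single_of_mem (m + 1) hm', map_smul,
    PG.wt_self hσ (h2 (m + 1))] at h6
  · exact h6
  · intro m' _ hne'
    rw [map_smul, PG.wt_ne hσ (h2 m'), smul_zero]
    intro h7
    have h8 := congrArg l h7
    rw [map_sub, map_sub, map_nsmul, map_nsmul] at h8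
    have h9 : m' • l (G.pg.root i) = (m + 1) • l (G.pg.root i) := by linarith
    rw [nsmul_eq_mul, nsmul_eq_mul] at h9
    have h10 := mul_right_cancel₀ hli.ne' h9
    exact hne' (by exact_mod_cast h10)

theorem exists_fun {i : ι} (hi : i ∈ b.support) : ∃ ω : X, G.Hw ω ∧ 0 < prY P i ω ∧
    ∀ j ∈ b.support, j ≠ i → prY P j ω = 0 := by
  classical
  obtain ⟨i, rfl⟩ := en_ex hi
  obtain ⟨f, hf, hne⟩ : ∃ f ∈ G.A, f (G.xm i 1) ≠ f 1 := by
    by_contra hcon
    push Not at hcon
    let φ : G.A →ₐ[k] k := (Pi.evalAlgHom k (fun _ : Γ => k) 1).comp G.A.val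
    obtain ⟨g, hg, huniq⟩ := G.pts φ
    have h1 : G.xm i 1 = g := huniq _ (fun f => (hcon f.1 f.2).symm)
    have h2 : (1 : Γ) = g := huniq _ (fun f => rfl)
    have h3 : G.om 0 1 (Pi.single i 1) = G.om 0 1 0 := by
      rw [om_one, h2, ← h1, om, map_one, mul_one]
      have h4 : upr G.xp (0 : Fin (enN b) → k) = 1 := by
        apply List.prod_eq_one
        intro y hy
        rw [List.mem_ofFn] at hy
        obtain ⟨j, rfl⟩ := hy
        exact G.x_zero _
      rw [h4, one_mul]
      exact upr_single G.xm (fun j => G.x_zero _) i 1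
    have h4 := congrFun (G.om_inj h3).2.2 i
    rw [Pi.single_eq_same, Pi.zero_apply] at h4
    exact one_ne_zero h4
  have hρ := G.regRep_rat
  let f' : Subalgebra.toSubmodule G.A := ⟨f, hf⟩
  let Z := Submodule.span k (Set.range fun g => G.regRep g f')
  have hZ : Stable G.regRep Z := by
    intro g v hv
    have h1 : Z ≤ Z.comap (G.regRep g) := by
      refine Submodule.span_le.2 ?_
      rintro _ ⟨h, rfl⟩
      show G.regRep g (G.regRep h f') ∈ Z
      rw [← mul_apply']
      exact Submodule.subset_span ⟨g * h, rfl⟩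
    exact h1 hv
  haveI hfin : Module.Finite k Z := (hρ f').finite_span
  have hσ := PG.isRational_sub hρ hZ
  by_contra hcon
  have key2 := G.triv_of_not _ hσ hi hcon (-1) (neg_ne_zero.2 one_ne_zero)
  have h1 : f' ∈ Z := Submodule.subset_span ⟨1, by beta_reduce; rw [map_one]; rfl⟩
  have h2 := congrArg Subtype.val (DFunLike.congr_fun key2 ⟨f', h1⟩)
  rw [sub_coe] at h2
  have h3 := congrFun (congrArg Subtype.val h2) 1
  change f ((G.xm i (-1))⁻¹ * 1) = f 1 at h3
  have h4 : (G.xm i (-1))⁻¹ = G.xm i 1 := by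
    have := G.x_neg (P.reflectionPerm (en b i : ι) (en b i : ι)) (-1)
    rw [neg_neg] at this
    exact this.symm
  rw [mul_one, h4] at h3
  exact hne h3

end RedGrp

end Pool.Agent.RG
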