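import Pool.Agent.RDG.GLUni

/-!
# RDG / GLCELL: the big cell of `GL_n`; `GL_n` is a `RedGrp`

`d g = ∏_m mnr g m`, in `glA`. `om s z r = upr .. s * glt z * upr .. r`.
* `d g ≠ 0` iff `g` is in the cell: `mnr_mul` (`upr_utri`, `upr_ltri`; `glt z` is diagonal with units), conversely `exists_udl` over `k`,
  `gl_coord`, `gl_coord'`, and for `t : Fin n → kˣ` there is `z` with `glt z = diagonal t` (`z a = ∏ t_i ^ (a i)`).
  The roots `reflectionPerm (e j) (e j)` are `(b, a)` for `e j = (a, b)`; positivity is `a < b` (`glb_isPos`).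
* functions: let `R` be the subalgebra of the functions `F` on `{g // d g ≠ 0}` such that `F g = f g / d g ^ m` for some `m` and `f ∈ glA`.
  It contains the restrictions of `glA` and `1/d`; so the matrix `M` of the entries (over `R`) has unit minors (`d` is a multiple of
  each minor). `exists_udl` over `R` gives `u, v, t` with entries in `R`; evaluating at a point `g = om s z r`
  and `udl_unique` show that they are the entries of `upr .. s`, `upr .. r` and `ch (Pi.single i 1) z`. So with `gl_coord`, `gl_coord'` the functions `s_j`, `r_j`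
  and `ch a z` (products of powers of the `t i`, units of `R`) are in `R`, and so is `eval (Sum.elim s r) Q * ch a z`
  (`MvPolynomial.induction_on`).
* `glG`: all fields; `cell` with `gl_cell`.
-/

set_option autoImplicit false

namespace Pool.Agent.RG

open MvPolynomial

variable {n : ℕ} {k : Type*} [Field k]

/-- the fractions with powers of `d` as denominators -/
def locA {G : Type*} (A : Subalgebra k (G → k)) (d : G → k) (hd : d ∈ A) :
    Subalgebra k ({g // d g ≠ 0} → k) where
  carrier := {F | ∃ m : ℕ, ∃ f ∈ A, ∀ g, F g * d g.1 ^ m = f g.1}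
  mul_mem' := by
    rintro F F' ⟨m, f, hf, h⟩ ⟨m', f', hf', h'⟩
    refine ⟨m + m', f * f', A.mul_mem hf hf', fun g => ?_⟩
    rw [Pi.mul_apply, Pi.mul_apply, ← h, ← h']
    ring
  add_mem' := by
    rintro F F' ⟨m, f, hf, h⟩ ⟨m', f', hf', h'⟩
    refine ⟨m + m', f * d ^ m' + f' * d ^ m, A.add_mem (A.mul_mem hf (A.pow_mem hd _))
      (A.mul_mem hf' (A.pow_mem hd _)), fun g => ?_⟩
    rw [Pi.add_apply, Pi.add_apply, Pi.mul_apply, Pi.mul_apply, Pi.pow_apply, Pi.pow_apply,
      ← h, ← h']
    ring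
  algebraMap_mem' := fun a => ⟨0, algebraMap k (G → k) a, A.algebraMap_mem a, fun g => by simp⟩

/-- evaluation at a point -/
def evA {G : Type*} (A : Subalgebra k (G → k)) (d : G → k) (hd : d ∈ A) (g : {g // d g ≠ 0}) :
    locA A d hd →ₐ[k] k :=
  (Pi.evalAlgHom k (fun _ : {g // d g ≠ 0} => k) g).comp (locA A d hd).val

lemma evA_apply {G : Type*} (A : Subalgebra k (G → k)) (d : G → k) (hd : d ∈ A)
    (g : {g // d g ≠ 0}) (F : locA A d hd) : evA A d hd g F = F.1 g := rfl

lemma mnr_map {R S : Type*} [CommRing R] [CommRing S] (φ : R →+* S)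
    (M : Matrix (Fin n) (Fin n) R) (m : Fin n) : mnr (M.map φ) m = φ (mnr M m) := by
  unfold mnr
  rw [RingHom.map_det]
  rfl

lemma gl_entry (i j : Fin n) : (fun g : GL (Fin n) k => g.1 i j) ∈ glA n k :=
  Algebra.subset_adjoin (Or.inl ⟨(i, j), rfl⟩)

lemma gl_mnr (m : Fin n) : (fun g : GL (Fin n) k => mnr g.1 m) ∈ glA n k := by
  have h : (fun g : GL (Fin n) k => mnr g.1 m) =
      ∑ σ : Equiv.Perm {i : Fin n // m ≤ i}, (Equiv.Perm.sign σ : ℤ) •
        ∏ i : {i : Fin n // m ≤ i}, (fun g : GL (Fin n) k => g.1 (σ i : Fin n) (i : Fin n)) := by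
    funext g
    unfold mnr
    rw [Matrix.det_apply, Finset.sum_apply]
    refine Finset.sum_congr rfl fun σ _ => ?_
    rw [Pi.smul_apply, Finset.prod_apply]
    rfl
  rw [h]
  exact Subalgebra.sum_mem _ fun σ _ => Subalgebra.zsmul_mem _
    (Subalgebra.prod_mem _ fun i _ => gl_entry _ _) _

/-- the point of the torus with given coordinates -/
def torP (t : Fin n → kˣ) : Tor k (Fin n → ℤ) where
  toFun a := ∏ i, t i ^ (Multiplicative.toAdd a i)
  map_one' := by simp
  map_mul' a b := by
    rw [← Finset.prod_mul_distrib]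
    refine Finset.prod_congr rfl fun i _ => ?_
    rw [toAdd_mul, Pi.add_apply, zpow_add]

lemma ch_torP (t : Fin n → kˣ) (i : Fin n) : ch (Pi.single i 1) (torP t) = t i := by
  change ∏ j, t j ^ ((Pi.single i 1 : Fin n → ℤ) j) = t i
  rw [Finset.prod_eq_single i]
  · simp
  · intro j _ hj
    rw [Pi.single_eq_of_ne hj, zpow_zero]
  · intro h
    exact absurd (Finset.mem_univ i) h

lemma ch_eq_prod (z : Tor k (Fin n → ℤ)) (a : Fin n → ℤ) :
    ch a z = ∏ i, ch (Pi.single i 1) z ^ a i := by
  have h : Multiplicative.ofAdd a = ∏ i, (Multiplicative.ofAdd (Pi.single i 1 : Fin n → ℤ)) ^ a i := by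
    have h1 : a = ∑ i, a i • (Pi.single i 1 : Fin n → ℤ) := by
      funext j
      rw [Finset.sum_apply, Finset.sum_eq_single j]
      · simp
      · intro i _ hi
        rw [Pi.smul_apply, Pi.single_eq_of_ne hi.symm, smul_zero]
      · intro h
        exact absurd (Finset.mem_univ j) h
    conv_lhs => rw [h1]
    rw [ofAdd_sum]
    exact Finset.prod_congr rfl fun i _ => ofAdd_zsmul _ _
  unfold ch
  rw [h, map_prod]
  exact Finset.prod_congr rfl fun i _ => map_zpow _ _ _

lemma glt_val (z : Tor k (Fin n → ℤ)) :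
    (glt z).1 = Matrix.diagonal fun i => ((ch (Pi.single i 1) z : kˣ) : k) := rfl

/-- the opposite index -/
def sw (p : GLI n) : GLI n := ⟨(p.1.2, p.1.1), p.2.symm⟩

lemma refl_sw (p : GLI n) : (glP n).reflectionPerm p p = sw p := by
  apply Subtype.ext
  apply Prod.ext
  · exact Equiv.swap_apply_left _ _
  · exact Equiv.swap_apply_right _ _

theorem gl_cell (N : ℕ) (e : Fin N ≃ {i // (glb n).IsPos i}) : ∃ d ∈ glA n k,
    (∀ g, d g ≠ 0 ↔ ∃ s z r, g = upr (fun j => glx (e j).1) s * glt z *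
      upr (fun j => glx ((glP n).reflectionPerm (e j) (e j))) r) ∧
    ∀ (Q : MvPolynomial (Fin N ⊕ Fin N) k) (a : Fin n → ℤ), ∃ m, ∃ f ∈ glA n k, ∀ s z r,
      f (upr (fun j => glx (e j).1) s * glt z *
        upr (fun j => glx ((glP n).reflectionPerm (e j) (e j))) r) =
      d (upr (fun j => glx (e j).1) s * glt z *
        upr (fun j => glx ((glP n).reflectionPerm (e j) (e j))) r) ^ m *
          (eval (Sum.elim s r) Q * (ch a z : k)) := by
  have hy : (fun j => glx (k := k) ((glP n).reflectionPerm (e j) (e j))) =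
      fun j => glx (sw (e j).1) := by
    funext j
    rw [refl_sw]
  rw [hy]
  -- the coordinates on the unipotent subgroups
  have hpos : ∀ j, ((e j).1.1.1 : Fin n) < (e j).1.1.2 := fun j => (glb_isPos _).1 (e j).2
  have hinj : Function.Injective fun j => (e j).1 := fun i j h =>
    e.injective (Subtype.ext h)
  obtain ⟨mu, hmu1, hmu2⟩ := gl_coord (k := k) (c := fun j => (e j).1) hinj hpos (by
    intro p hp
    refine ⟨e.symm ⟨p, (glb_isPos p).2 hp⟩, ?_⟩
    rw [Equiv.apply_symm_apply])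
  have hinj' : Function.Injective fun j => sw (e j).1 := by
    intro i j h
    apply hinj
    change (e i).1 = (e j).1
    have h1 : (sw (e i).1).1 = (sw (e j).1).1 := congrArg Subtype.val h
    apply Subtype.ext
    exact Prod.ext (congrArg Prod.snd h1) (congrArg Prod.fst h1)
  obtain ⟨mv, hmv1, hmv2⟩ := gl_coord' (k := k) (c := fun j => sw (e j).1) hinj' hpos (by
    intro p hp
    refine ⟨e.symm ⟨sw p, (glb_isPos _).2 hp⟩, ?_⟩
    rw [Equiv.apply_symm_apply]
    rfl)
  have hut : ∀ s : Fin N → k, UTri (upr (fun j => glx (e j).1) s).1 := fun s =>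
    upr_utri (c := fun j => (e j).1) hpos s
  have hlt : ∀ r : Fin N → k, LTri (upr (fun j => glx (sw (e j).1)) r).1 := fun r =>
    upr_ltri (c := fun j => sw (e j).1) hpos r
  have hval : ∀ (s : Fin N → k) (z : Tor k (Fin n → ℤ)) (r : Fin N → k),
      (upr (fun j => glx (e j).1) s * glt z * upr (fun j => glx (sw (e j).1)) r).1 =
      (upr (fun j => glx (e j).1) s).1 *
        Matrix.diagonal (fun i => ((ch (Pi.single i 1) z : kˣ) : k)) *
        (upr (fun j => glx (sw (e j).1)) r).1 := fun s z r => rfl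
  -- the function `d`
  set d : GL (Fin n) k → k := fun g => ∏ m, mnr g.1 m with hd
  have hdA : d ∈ glA n k := by
    have h : d = ∏ m, fun g : GL (Fin n) k => mnr g.1 m := by
      funext g
      rw [Finset.prod_apply]
    rw [h]
    exact Subalgebra.prod_mem _ fun m _ => gl_mnr m
  have hcell : ∀ g, d g ≠ 0 ↔ ∃ s z r, g = upr (fun j => glx (e j).1) s * glt z *
      upr (fun j => glx (sw (e j).1)) r := by
    intro g
    constructor
    · intro hg
      have h1 : ∀ m, IsUnit (mnr g.1 m) := fun m =>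
        isUnit_iff_ne_zero.2 (Finset.prod_ne_zero_iff.1 hg m (Finset.mem_univ m))
      obtain ⟨u, v, t, hu, hv, hM⟩ := exists_udl g.1 h1
      refine ⟨fun j => eval (fun q => u q.1 q.2) (mu j), torP t,
        fun j => eval (fun q => v q.1 q.2) (mv j), Units.ext ?_⟩
      rw [hval, ← hmu2 u hu, ← hmv2 v hv]
      simp only [ch_torP]
      exact hM
    · rintro ⟨s, z, r, rfl⟩
      refine Finset.prod_ne_zero_iff.2 fun m _ => ?_
      rw [hval, mnr_mul (hut s) (hlt r)]
      exact Finset.prod_ne_zero_iff.2 fun i _ => Units.ne_zero _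
  refine ⟨d, hdA, hcell, fun Q a => ?_⟩
  -- the decomposition over the algebra of functions on the cell
  let R := locA (glA n k) d hdA
  let M : Matrix (Fin n) (Fin n) R := fun i j =>
    ⟨fun g => g.1.1 i j, 0, _, gl_entry i j, fun g => by rw [pow_zero, mul_one]⟩
  have hM : ∀ g : {g // d g ≠ 0}, M.map (evA (glA n k) d hdA g) = g.1.1 := fun g => rfl
  have hmn : ∀ m, IsUnit (mnr M m) := by
    intro m
    have hm : ∀ g : {g // d g ≠ 0}, (mnr M m).1 g = mnr g.1.1 m := by
      intro g
      rw [← evA_apply, ← hM g]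
      exact (mnr_map (evA (glA n k) d hdA g).toRingHom M m).symm
    have hne : ∀ g : {g // d g ≠ 0}, mnr g.1.1 m ≠ 0 := fun g =>
      Finset.prod_ne_zero_iff.1 g.2 m (Finset.mem_univ m)
    have hF : (fun g : {g // d g ≠ 0} => (mnr g.1.1 m)⁻¹) ∈ locA (glA n k) d hdA := by
      refine ⟨1, ∏ m' ∈ Finset.univ.erase m, fun g : GL (Fin n) k => mnr g.1 m',
        Subalgebra.prod_mem _ fun m' _ => gl_mnr m', fun g => ?_⟩
      rw [Finset.prod_apply, pow_one]
      change (mnr g.1.1 m)⁻¹ * ∏ m, mnr g.1.1 m = _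
      rw [← Finset.mul_prod_erase _ _ (Finset.mem_univ m), ← mul_assoc,
        inv_mul_cancel₀ (hne g), one_mul]
    refine IsUnit.of_mul_eq_one (⟨_, hF⟩ : R) (Subtype.ext (funext fun g => ?_))
    change (mnr M m).1 g * (mnr g.1.1 m)⁻¹ = 1
    rw [hm g, mul_inv_cancel₀ (hne g)]
  obtain ⟨u, v, t, hu, hv, hMd⟩ := exists_udl M hmn
  -- evaluation
  have hev : ∀ (s : Fin N → k) (z : Tor k (Fin n → ℤ)) (r : Fin N → k) (g : {g // d g ≠ 0}),
      g.1 = upr (fun j => glx (e j).1) s * glt z * upr (fun j => glx (sw (e j).1)) r →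
      u.map (evA (glA n k) d hdA g) = (upr (fun j => glx (e j).1) s).1 ∧
      (fun i => Units.map (evA (glA n k) d hdA g : R →* k) (t i)) =
        (fun i => ch (Pi.single i 1) z) ∧
      v.map (evA (glA n k) d hdA g) = (upr (fun j => glx (sw (e j).1)) r).1 := by
    intro s z r g hg
    refine udl_unique ?_ ?_ (hut s) (hlt r) ?_
    · refine ⟨fun i => ?_, fun i j hij => ?_⟩
      · rw [Matrix.map_apply, hu.1, map_one]
      · rw [Matrix.map_apply, hu.2 i j hij, map_zero]
    · refine ⟨fun i => ?_, fun i j hij => ?_⟩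
      · rw [Matrix.map_apply, hv.1, map_one]
      · rw [Matrix.map_apply, hv.2 i j hij, map_zero]
    · rw [← hval, ← hg, ← hM g, hMd, Matrix.map_mul, Matrix.map_mul, Matrix.diagonal_map (map_zero _)]
      rfl
  let S : Fin N → R := fun j => aeval (fun q : Fin n × Fin n => u q.1 q.2) (mu j)
  let T : Fin N → R := fun j => aeval (fun q : Fin n × Fin n => v q.1 q.2) (mv j)
  let C : Rˣ := ∏ i, t i ^ a i
  obtain ⟨m, f, hf, hfm⟩ := (aeval (Sum.elim S T) Q * (C : R)).2
  refine ⟨m, f, hf, fun s z r => ?_⟩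
  have hne : d (upr (fun j => glx (e j).1) s * glt z * upr (fun j => glx (sw (e j).1)) r) ≠ 0 :=
    (hcell _).2 ⟨s, z, r, rfl⟩
  have h1 := hfm ⟨_, hne⟩
  obtain ⟨e1, e2, e3⟩ := hev s z r ⟨_, hne⟩ rfl
  set ev := evA (glA n k) d hdA ⟨_, hne⟩ with hevd
  have hS : ∀ j, ev (S j) = s j := by
    intro j
    rw [hmu1 s j, ← e1]
    change ev (aeval _ (mu j)) = _
    rw [← AlgHom.comp_apply, comp_aeval, aeval_eq_eval]
    rfl
  have hT : ∀ j, ev (T j) = r j := by
    intro j
    rw [hmv1 r j, ← e3]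
    change ev (aeval _ (mv j)) = _
    rw [← AlgHom.comp_apply, comp_aeval, aeval_eq_eval]
    rfl
  have hC : ev (C : R) = ((ch a z : kˣ) : k) := by
    have h2 : Units.map (ev : R →* k) C = ch a z := by
      rw [ch_eq_prod z a, map_prod]
      refine Finset.prod_congr rfl fun i _ => ?_
      rw [map_zpow, ← congrFun e2 i]
    rw [← h2]
    rfl
  have h3 : ev (aeval (Sum.elim S T) Q * (C : R)) = eval (Sum.elim s r) Q * ((ch a z : kˣ) : k) := by
    have h4 : (fun i => ev (Sum.elim S T i)) = Sum.elim s r := by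
      funext x
      rcases x with j | j
      · exact hS j
      · exact hT j
    rw [map_mul, hC, ← AlgHom.comp_apply, comp_aeval, aeval_eq_eval, h4]
  rw [← h1, ← h3, mul_comm]
  rfl

/-- `GL_n` as a connected reductive group -/
noncomputable def glG (n : ℕ) (k : Type*) [Field k] [Infinite k] :
    RedGrp k (glP n) (glb n) (GL (Fin n) k) where
  A := glA n k
  fg := gl_fg
  comul := gl_comul
  inv := gl_inv
  pts := gl_pts
  dom := gl_dom
  t := glt
  t_reg := gl_t_reg
  φ := glφ
  φ_reg := gl_φ_reg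
  φ_root := gl_x_t
  φ_neg := gl_φ_lo
  φ_dg := gl_φ_dg
  bigCell := by
    obtain ⟨N, ⟨e⟩⟩ := Finite.exists_equiv_fin {i // (glb n).IsPos i}
    obtain ⟨d, hd, h1, h2⟩ := gl_cell (n := n) (k := k) N e.symm
    have h3 : (fun (j : Fin N) (c : k) => glφ ((e.symm j : {i // (glb n).IsPos i}) : GLI n) (lo c)) =
        fun j => glx ((glP n).reflectionPerm (e.symm j) (e.symm j)) := by
      funext j c
      exact gl_φ_lo _ _
    refine ⟨N, e.symm, d, hd, ?_, ?_⟩
    · rw [h3]
      exact h1
    · rw [h3]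
      exact h2

end Pool.Agent.RG
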