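import Pool.Agent.RDG.GLRoot

/-!
# RDG / GLGRP: `GL_n` is a `RedGrp`

`glA n k`: the algebra generated by the matrix entries and the inverse of the determinant. Facts on `glA`:
`Algebra.adjoin_induction`.

* `gl_comul`: closed under sums and products (products of expansions: index set `Fin (m * m')` or via
  `Fintype.equivFin`); entries: `(g h)_{ij} = ∑ g_{il} h_{lj}`; `det (g h)⁻¹ = det g ⁻¹ * det h ⁻¹`.
* `gl_inv`: `(g⁻¹)_{ij} = det g ⁻¹ * adjugate` (a polynomial in the entries), `det (g⁻¹)⁻¹ = det g`.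
* `gl_pts`: for `φ : glA →ₐ k` let `g_{ij} = φ (x_{ij})`; `φ (det) = det g` and `φ (det) φ (det⁻¹) = 1`, so `g` is invertible, and `φ` and the
  evaluation at `g` agree on the generators. Uniqueness: entries.
* `gl_dom`: every `f ∈ glA` is `det^(-m) P` with a polynomial `P` in the entries (`MvPolynomial (Fin n × Fin n) k`). If `f f' = 0` then the
  polynomial `P P' Det` vanishes on all matrices, so it is `0` (`MvPolynomial.funext`, `k` infinite), `Det ≠ 0`, so `P = 0` or `P' = 0`.
* `gl_t_reg`: entries and `det⁻¹` restricted to the torus are characters or `0`; products of characters are characters.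
* `glM_mul`, `glM_one`: entrywise. `gl_x_add`: `up (s + r) = up s * up r`. `gl_x_t`, `gl_φ_lo`, `gl_φ_dg`: entrywise
  (`z a = c ^ (a i - a j)`).
* `gl_φ_reg`: entries are polynomials (linear), `det (glM p h) = 1` (`= det h`; or: `glφ` of `up`, `lo` have determinant `1` and these
  generate `SL₂`).
* `gl_comm`: `x_ij(s) x_kl(r) x_ij(-s) x_kl(-r)` is `x_il(s r)` if `j = k`, `x_kj(-s r)` if `l = i`, otherwise `1`
  (`E_ij E_kl = δ_jk E_il`).
* `gl_cell`: see `GLCell.lean`.
-/

set_option autoImplicit false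

namespace Pool.Agent.RG

open MvPolynomial

variable {n : ℕ} {k : Type*} [Field k]

/-- the regular functions on `GL_n` -/
def glA (n : ℕ) (k : Type*) [Field k] : Subalgebra k (GL (Fin n) k → k) :=
  Algebra.adjoin k (Set.range (fun (p : Fin n × Fin n) (g : GL (Fin n) k) => g.1 p.1 p.2) ∪
    {fun g => (g.1.det)⁻¹})

/-- the matrix with the entries of `h` in the rows and columns `p.1`, `p.2` -/
def glM (p : GLI n) (h : Matrix.SpecialLinearGroup (Fin 2) k) : Matrix (Fin n) (Fin n) k :=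
  fun a b =>
    if a = p.1.1 ∧ b = p.1.1 then h.1 0 0 else
    if a = p.1.1 ∧ b = p.1.2 then h.1 0 1 else
    if a = p.1.2 ∧ b = p.1.1 then h.1 1 0 else
    if a = p.1.2 ∧ b = p.1.2 then h.1 1 1 else
    if a = b then 1 else 0

private lemma glM_row1 (p : GLI n) (h : Matrix.SpecialLinearGroup (Fin 2) k) (c : Fin n) :
    glM p h p.1.1 c = if c = p.1.1 then h.1 0 0 else if c = p.1.2 then h.1 0 1 else 0 := by
  unfold glM
  by_cases h1 : c = p.1.1
  · rw [if_pos ⟨rfl, h1⟩, if_pos h1]
  · rw [if_neg fun hh => h1 hh.2, if_neg h1]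
    by_cases h2 : c = p.1.2
    · rw [if_pos ⟨rfl, h2⟩, if_pos h2]
    · rw [if_neg fun hh => h2 hh.2, if_neg fun hh => p.2 hh.1, if_neg fun hh => p.2 hh.1,
        if_neg fun hh => h1 hh.symm, if_neg h2]

private lemma glM_row2 (p : GLI n) (h : Matrix.SpecialLinearGroup (Fin 2) k) (c : Fin n) :
    glM p h p.1.2 c = if c = p.1.1 then h.1 1 0 else if c = p.1.2 then h.1 1 1 else 0 := by
  unfold glM
  rw [if_neg fun hh => p.2 hh.1.symm, if_neg fun hh => p.2 hh.1.symm]
  by_cases h1 : c = p.1.1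
  · rw [if_pos ⟨rfl, h1⟩, if_pos h1]
  · rw [if_neg fun hh => h1 hh.2, if_neg h1]
    by_cases h2 : c = p.1.2
    · rw [if_pos ⟨rfl, h2⟩, if_pos h2]
    · rw [if_neg fun hh => h2 hh.2, if_neg fun hh => h2 hh.symm, if_neg h2]

private lemma glM_row3 (p : GLI n) (h : Matrix.SpecialLinearGroup (Fin 2) k) {a : Fin n}
    (h1 : a ≠ p.1.1) (h2 : a ≠ p.1.2) (c : Fin n) : glM p h a c = if a = c then 1 else 0 := by
  unfold glM
  rw [if_neg fun hh => h1 hh.1, if_neg fun hh => h1 hh.1, if_neg fun hh => h2 hh.1,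
    if_neg fun hh => h2 hh.1]

private lemma gl_sum2 (p : GLI n) (x y : k) (F : Fin n → k) :
    ∑ c, (if c = p.1.1 then x else if c = p.1.2 then y else 0) * F c =
      x * F p.1.1 + y * F p.1.2 := by
  have h1 : ∀ c, (if c = p.1.1 then x else if c = p.1.2 then y else 0) * F c =
      (if c = p.1.1 then x * F c else 0) + (if c = p.1.2 then y * F c else 0) := by
    intro c
    by_cases h1 : c = p.1.1
    · rw [if_pos h1, if_pos h1, if_neg fun hh => p.2 (h1.symm.trans hh), add_zero]
    · rw [if_neg h1, if_neg h1, zero_add]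
      by_cases h2 : c = p.1.2
      · rw [if_pos h2, if_pos h2]
      · rw [if_neg h2, if_neg h2, zero_mul]
  rw [Finset.sum_congr rfl fun c _ => h1 c, Finset.sum_add_distrib, Finset.sum_ite_eq',
    Finset.sum_ite_eq', if_pos (Finset.mem_univ _), if_pos (Finset.mem_univ _)]

lemma glM_one (p : GLI n) : glM p (1 : Matrix.SpecialLinearGroup (Fin 2) k) = 1 := by
  ext a c
  by_cases h1 : a = p.1.1
  · rw [h1, glM_row1, Matrix.one_apply]
    by_cases h2 : c = p.1.1
    · rw [if_pos h2, if_pos h2.symm]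
      rfl
    · rw [if_neg h2, if_neg (fun hh : p.1.1 = c => h2 hh.symm)]
      split_ifs <;> rfl
  · by_cases h2 : a = p.1.2
    · rw [h2, glM_row2, Matrix.one_apply]
      by_cases h3 : c = p.1.1
      · rw [if_pos h3, if_neg fun hh => p.2 (h3.symm.trans hh.symm)]
        rfl
      · rw [if_neg h3]
        by_cases h4 : c = p.1.2
        · rw [if_pos h4, if_pos h4.symm]
          rfl
        · rw [if_neg h4, if_neg fun hh => h4 hh.symm]
    · rw [glM_row3 p _ h1 h2, Matrix.one_apply]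

lemma glM_mul (p : GLI n) (h h' : Matrix.SpecialLinearGroup (Fin 2) k) :
    glM p (h * h') = glM p h * glM p h' := by
  have e : ∀ i j, (h * h').1 i j = h.1 i 0 * h'.1 0 j + h.1 i 1 * h'.1 1 j := by
    intro i j
    change (h.1 * h'.1) i j = _
    rw [Matrix.mul_apply, Fin.sum_univ_two]
  ext a c
  rw [Matrix.mul_apply]
  by_cases h1 : a = p.1.1
  · rw [h1, glM_row1]
    simp only [glM_row1 p h]
    rw [gl_sum2, glM_row1, glM_row2, e, e]
    split_ifs
    · ring
    · ring
    · ring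
  · by_cases h2 : a = p.1.2
    · rw [h2, glM_row2]
      simp only [glM_row2 p h]
      rw [gl_sum2, glM_row1, glM_row2, e, e]
      split_ifs
      · ring
      · ring
      · ring
    · rw [glM_row3 p _ h1 h2]
      simp only [glM_row3 p h h1 h2]
      simp only [ite_mul, one_mul, zero_mul, Finset.sum_ite_eq, Finset.mem_univ, if_true]
      rw [glM_row3 p h' h1 h2]

/-- the embeddings of `SL₂` -/
def glφ (p : GLI n) : Matrix.SpecialLinearGroup (Fin 2) k →* GL (Fin n) k :=
  MonoidHom.toHomUnits ⟨⟨glM p, glM_one p⟩, glM_mul p⟩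

/-- the diagonal torus -/
def glt : Tor k (Fin n → ℤ) →* GL (Fin n) k :=
  MonoidHom.toHomUnits ⟨⟨fun z => Matrix.diagonal fun i => (ch (Pi.single i 1) z : k), by
    change (Matrix.diagonal fun _ => ((1 : kˣ) : k)) = 1
    simp⟩, fun z w => by
    rw [Matrix.diagonal_mul_diagonal]
    rfl⟩

/-- the root subgroups: transvections -/
def glx (p : GLI n) (s : k) : GL (Fin n) k := glφ p (up s)

lemma glx_eq (p : GLI n) (s : k) : (glx p s).1 = 1 + Matrix.single p.1.1 p.1.2 s := by
  change glM p (up s) = _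
  ext a c
  rw [Matrix.add_apply, Matrix.one_apply, Matrix.single_apply]
  by_cases h1 : a = p.1.1
  · rw [h1, glM_row1]
    by_cases h2 : c = p.1.1
    · rw [if_pos h2, if_pos h2.symm, if_neg fun hh => p.2 (h2.symm.trans hh.2.symm), add_zero]
      rfl
    · rw [if_neg h2, if_neg (fun hh : p.1.1 = c => h2 hh.symm), zero_add]
      by_cases h3 : c = p.1.2
      · rw [if_pos h3, if_pos ⟨rfl, h3.symm⟩]
        rfl
      · rw [if_neg h3, if_neg fun hh => h3 hh.2.symm]
  · rw [if_neg (fun hh : p.1.1 = a ∧ p.1.2 = c => h1 hh.1.symm), add_zero]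
    by_cases h2 : a = p.1.2
    · rw [h2, glM_row2]
      by_cases h3 : c = p.1.1
      · rw [if_pos h3, if_neg fun hh => p.2 (h3.symm.trans hh.symm)]
        rfl
      · rw [if_neg h3]
        by_cases h4 : c = p.1.2
        · rw [if_pos h4, if_pos h4.symm]
          rfl
        · rw [if_neg h4, if_neg fun hh => h4 hh.symm]
    · rw [glM_row3 p _ h1 h2]

private lemma glA_ent (p : Fin n × Fin n) : (fun g : GL (Fin n) k => g.1 p.1 p.2) ∈ glA n k :=
  Algebra.subset_adjoin (Or.inl ⟨p, rfl⟩)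

private lemma glA_dinv : (fun g : GL (Fin n) k => (g.1.det)⁻¹) ∈ glA n k :=
  Algebra.subset_adjoin (Or.inr rfl)

private lemma glA_const (c : k) : (fun _ : GL (Fin n) k => c) ∈ glA n k :=
  (glA n k).algebraMap_mem c

private lemma glA_det_of {m : ℕ} (M : GL (Fin n) k → Matrix (Fin m) (Fin m) k)
    (hM : ∀ i j, (fun g => M g i j) ∈ glA n k) : (fun g => (M g).det) ∈ glA n k := by
  have h1 : (fun g => (M g).det) = ∑ σ : Equiv.Perm (Fin m),
      (fun _ : GL (Fin n) k => ((Equiv.Perm.sign σ : ℤ) : k)) * ∏ i, (fun g => M g (σ i) i) := by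
    funext g
    rw [Matrix.det_apply', Finset.sum_apply]
    refine Finset.sum_congr rfl fun σ _ => ?_
    rw [Pi.mul_apply, Finset.prod_apply]
  rw [h1]
  exact Subalgebra.sum_mem _ fun σ _ => Subalgebra.mul_mem _ (glA_const _)
    (Subalgebra.prod_mem _ fun i _ => hM _ _)

private lemma glA_det : (fun g : GL (Fin n) k => g.1.det) ∈ glA n k :=
  glA_det_of (fun g => g.1) fun i j => glA_ent (i, j)

private lemma gl_det_ne (g : GL (Fin n) k) : g.1.det ≠ 0 := by
  have h := g.isUnit
  rw [Matrix.isUnit_iff_isUnit_det] at h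
  exact h.ne_zero

/-- induction on regular functions -/
private lemma gl_ind {P : (GL (Fin n) k → k) → Prop} (h1 : ∀ p : Fin n × Fin n, P fun g => g.1 p.1 p.2)
    (h2 : P fun g => (g.1.det)⁻¹) (h3 : ∀ c : k, P fun _ => c)
    (h4 : ∀ f f', P f → P f' → P (f + f')) (h5 : ∀ f f', P f → P f' → P (f * f')) :
    ∀ f ∈ glA n k, P f := by
  intro f hf
  refine Algebra.adjoin_induction (p := fun f _ => P f) ?_ ?_ ?_ ?_ hf
  · rintro x (⟨p, rfl⟩ | hx)
    · exact h1 p
    · rw [Set.mem_singleton_iff] at hx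
      rw [hx]
      exact h2
  · intro r
    exact h3 r
  · intro x y _ _ hx hy
    exact h4 x y hx hy
  · intro x y _ _ hx hy
    exact h5 x y hx hy

lemma gl_fg : (glA n k).FG := by
  have hfin : (Set.range (fun (p : Fin n × Fin n) (g : GL (Fin n) k) => g.1 p.1 p.2) ∪
      {fun g => (g.1.det)⁻¹}).Finite := (Set.finite_range _).union (Set.finite_singleton _)
  obtain ⟨s, hs⟩ := hfin.exists_finset_coe
  unfold glA
  rw [← hs]
  exact Subalgebra.fg_adjoin_finset s

lemma gl_comul : ∀ f ∈ glA n k, ∃ (m : ℕ) (a c : Fin m → GL (Fin n) k → k), (∀ i, a i ∈ glA n k) ∧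
    (∀ i, c i ∈ glA n k) ∧ ∀ g h, f (g * h) = ∑ i, a i g * c i h := by
  have key : ∀ f ∈ glA n k, ∃ (I : Type) (_ : Fintype I) (a c : I → GL (Fin n) k → k),
      (∀ i, a i ∈ glA n k) ∧ (∀ i, c i ∈ glA n k) ∧ ∀ g h, f (g * h) = ∑ i, a i g * c i h := by
    refine gl_ind ?_ ?_ ?_ ?_ ?_
    · intro p
      refine ⟨Fin n, inferInstance, fun l g => g.1 p.1 l, fun l g => g.1 l p.2,
        fun l => glA_ent (p.1, l), fun l => glA_ent (l, p.2), fun g h => ?_⟩
      change (g.1 * h.1) p.1 p.2 = _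
      rw [Matrix.mul_apply]
    · refine ⟨Unit, inferInstance, fun _ g => (g.1.det)⁻¹, fun _ g => (g.1.det)⁻¹,
        fun _ => glA_dinv, fun _ => glA_dinv, fun g h => ?_⟩
      change ((g.1 * h.1).det)⁻¹ = _
      rw [Matrix.det_mul, mul_inv]
      simp
    · intro c
      refine ⟨Unit, inferInstance, fun _ _ => c, fun _ _ => 1,
        fun _ => glA_const _, fun _ => glA_const _, fun g h => ?_⟩
      simp
    · rintro f f' ⟨I, hI, a, c, ha, hc, hf⟩ ⟨I', hI', a', c', ha', hc', hf'⟩
      refine ⟨I ⊕ I', inferInstance, Sum.elim a a', Sum.elim c c', ?_, ?_, fun g h => ?_⟩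
      · rintro (i | i)
        · exact ha i
        · exact ha' i
      · rintro (i | i)
        · exact hc i
        · exact hc' i
      · rw [Pi.add_apply, hf, hf', Fintype.sum_sum_type]
        rfl
    · rintro f f' ⟨I, hI, a, c, ha, hc, hf⟩ ⟨I', hI', a', c', ha', hc', hf'⟩
      refine ⟨I × I', inferInstance, fun q => a q.1 * a' q.2, fun q => c q.1 * c' q.2,
        fun q => mul_mem (ha _) (ha' _), fun q => mul_mem (hc _) (hc' _), fun g h => ?_⟩
      rw [Pi.mul_apply, hf, hf', Fintype.sum_prod_type, Finset.sum_mul_sum]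
      refine Finset.sum_congr rfl fun i _ => Finset.sum_congr rfl fun j _ => ?_
      simp only [Pi.mul_apply]
      ring
  intro f hf
  obtain ⟨I, hI, a, c, ha, hc, h⟩ := key f hf
  refine ⟨Fintype.card I, fun i => a ((Fintype.equivFin I).symm i),
    fun i => c ((Fintype.equivFin I).symm i), fun i => ha _, fun i => hc _, fun g g' => ?_⟩
  rw [h]
  exact (Equiv.sum_comp (Fintype.equivFin I).symm fun i => a i g * c i g').symm

lemma gl_inv : ∀ f ∈ glA n k, (fun g => f g⁻¹) ∈ glA n k := by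
  refine gl_ind ?_ ?_ ?_ ?_ ?_
  · intro p
    have h1 : (fun g : GL (Fin n) k => (g⁻¹).1 p.1 p.2) =
        (fun g => (g.1.det)⁻¹) * fun g => g.1.adjugate p.1 p.2 := by
      funext g
      rw [Pi.mul_apply, Matrix.coe_units_inv, Matrix.inv_def, Matrix.smul_apply, smul_eq_mul,
        Ring.inverse_eq_inv']
    rw [h1]
    refine mul_mem glA_dinv ?_
    simp only [Matrix.adjugate_apply]
    refine glA_det_of _ fun i j => ?_
    by_cases h : i = p.2
    · simp only [h, Matrix.updateRow_self]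
      exact glA_const _
    · simp only [Matrix.updateRow_ne h]
      exact glA_ent (i, j)
  · have h1 : (fun g : GL (Fin n) k => ((g⁻¹).1.det)⁻¹) = fun g => g.1.det := by
      funext g
      rw [Matrix.coe_units_inv, Matrix.det_nonsing_inv, Ring.inverse_eq_inv', inv_inv]
    rw [h1]
    exact glA_det
  · intro c
    exact glA_const c
  · intro f f' h h'
    exact add_mem h h'
  · intro f f' h h'
    exact mul_mem h h'

/-- evaluation at a point -/
private def glev (g : GL (Fin n) k) : glA n k →ₐ[k] k :=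
  (Pi.evalAlgHom k (fun _ : GL (Fin n) k => k) g).comp (glA n k).val

private lemma glev_apply (g : GL (Fin n) k) (f : glA n k) : glev g f = f.1 g := rfl

lemma gl_pts : ∀ φ : glA n k →ₐ[k] k, ∃! g : GL (Fin n) k, ∀ f : glA n k, φ f = f.1 g := by
  intro φ
  obtain ⟨X, hX⟩ : ∃ X : Matrix (Fin n) (Fin n) (glA n k),
      X = Matrix.of fun i j => ⟨fun g => g.1 i j, glA_ent (i, j)⟩ := ⟨_, rfl⟩
  have hev : ∀ g : GL (Fin n) k, (glev g).mapMatrix X = g.1 := by
    intro g
    ext i j
    rw [hX]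
    rfl
  have hD : X.det = ⟨fun g => g.1.det, glA_det⟩ := by
    refine Subtype.ext (funext fun g => ?_)
    have h1 := AlgHom.map_det (glev g) X
    rw [hev] at h1
    exact h1
  have hprod : X.det * ⟨fun g => (g.1.det)⁻¹, glA_dinv⟩ = (1 : glA n k) := by
    rw [hD]
    refine Subtype.ext (funext fun g => ?_)
    exact mul_inv_cancel₀ (gl_det_ne g)
  have hφD : (φ.mapMatrix X).det * φ ⟨fun g => (g.1.det)⁻¹, glA_dinv⟩ = 1 := by
    rw [← AlgHom.map_det, ← map_mul, hprod, map_one]
  have hne : (φ.mapMatrix X).det ≠ 0 := left_ne_zero_of_mul (by rw [hφD]; exact one_ne_zero)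
  obtain ⟨g, hg⟩ : ∃ g : GL (Fin n) k, g.1 = φ.mapMatrix X :=
    ⟨Matrix.GeneralLinearGroup.mkOfDetNeZero _ hne, rfl⟩
  refine ⟨g, ?_, ?_⟩
  · have h1 : φ = glev g := by
      refine AlgHom.adjoin_ext ?_
      rintro x (⟨p, rfl⟩ | hx)
      · have h2 : φ (X p.1 p.2) = g.1 p.1 p.2 := by
          rw [hg]
          rfl
        rw [hX] at h2
        exact h2
      · rw [Set.mem_singleton_iff] at hx
        subst hx
        have h2 : g.1.det * φ ⟨fun g => (g.1.det)⁻¹, glA_dinv⟩ = 1 := by
          rw [hg]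
          exact hφD
        exact (eq_inv_of_mul_eq_one_right h2)
    intro f
    rw [h1]
    rfl
  · intro g' hg'
    refine Units.ext (Matrix.ext fun i j => ?_)
    have h1 := hg' (X i j)
    have h2 : φ (X i j) = g.1 i j := by
      rw [hg]
      rfl
    rw [← h2, h1, hX]
    rfl

private lemma gl_poly : ∀ f ∈ glA n k, ∃ (m : ℕ) (P : MvPolynomial (Fin n × Fin n) k),
    ∀ g, f g * g.1.det ^ m = eval (fun q => g.1 q.1 q.2) P := by
  have hdet : ∀ M : Matrix (Fin n) (Fin n) k,
      eval (fun q => M q.1 q.2) (Matrix.mvPolynomialX (Fin n) (Fin n) k).det = M.det := by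
    intro M
    rw [RingHom.map_det]
    congr 1
    ext i j
    simp
  refine gl_ind ?_ ?_ ?_ ?_ ?_
  · intro p
    refine ⟨0, X p, fun g => ?_⟩
    rw [pow_zero, mul_one, eval_X]
  · refine ⟨1, 1, fun g => ?_⟩
    rw [pow_one, inv_mul_cancel₀ (gl_det_ne g), map_one]
  · intro c
    refine ⟨0, C c, fun g => ?_⟩
    rw [pow_zero, mul_one, eval_C]
  · rintro f f' ⟨m, P, h⟩ ⟨m', P', h'⟩
    refine ⟨m + m', P * (Matrix.mvPolynomialX (Fin n) (Fin n) k).det ^ m' +
      P' * (Matrix.mvPolynomialX (Fin n) (Fin n) k).det ^ m, fun g => ?_⟩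
    rw [map_add, map_mul, map_mul, map_pow, map_pow, hdet, ← h, ← h', Pi.add_apply]
    ring
  · rintro f f' ⟨m, P, h⟩ ⟨m', P', h'⟩
    refine ⟨m + m', P * P', fun g => ?_⟩
    rw [map_mul, ← h, ← h', Pi.mul_apply]
    ring

lemma gl_dom [Infinite k] : ∀ f ∈ glA n k, ∀ f' ∈ glA n k, f * f' = 0 → f = 0 ∨ f' = 0 := by
  intro f hf f' hf' h
  obtain ⟨m, P, hP⟩ := gl_poly f hf
  obtain ⟨m', P', hP'⟩ := gl_poly f' hf'
  have hdet : ∀ M : Matrix (Fin n) (Fin n) k,
      eval (fun q => M q.1 q.2) (Matrix.mvPolynomialX (Fin n) (Fin n) k).det = M.det := by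
    intro M
    rw [RingHom.map_det]
    congr 1
    ext i j
    simp
  have h1 : P * P' * (Matrix.mvPolynomialX (Fin n) (Fin n) k).det = 0 := by
    refine MvPolynomial.funext fun x => ?_
    obtain ⟨M, hM⟩ : ∃ M : Matrix (Fin n) (Fin n) k, (fun q : Fin n × Fin n => M q.1 q.2) = x :=
      ⟨Matrix.of fun i j => x (i, j), rfl⟩
    rw [← hM, map_mul, hdet, map_zero]
    by_cases hd : M.det = 0
    · rw [hd, mul_zero]
    · obtain ⟨g, hg⟩ : ∃ g : GL (Fin n) k, g.1 = M :=
        ⟨Matrix.GeneralLinearGroup.mkOfDetNeZero _ hd, rfl⟩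
      rw [map_mul, ← hg, ← hP, ← hP']
      have h2 : f g * f' g = 0 := congrFun h g
      have h3 : f g * g.1.det ^ m * (f' g * g.1.det ^ m') * g.1.det =
          (f g * f' g) * (g.1.det ^ m * g.1.det ^ m' * g.1.det) := by ring
      rw [h3, h2, zero_mul]
  have h2 : (Matrix.mvPolynomialX (Fin n) (Fin n) k).det ≠ 0 := by
    intro h0
    have h3 := hdet 1
    rw [h0, map_zero, Matrix.det_one] at h3
    exact zero_ne_one h3
  have hz : ∀ (f : GL (Fin n) k → k) (m : ℕ), (∀ g, f g * g.1.det ^ m = 0) → f = 0 := by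
    intro f m hf
    funext g
    exact (mul_eq_zero.1 (hf g)).resolve_right (pow_ne_zero _ (gl_det_ne g))
  rcases mul_eq_zero.1 ((mul_eq_zero.1 h1).resolve_right h2) with h3 | h3
  · left
    refine hz f m fun g => ?_
    rw [hP, h3, map_zero]
  · right
    refine hz f' m' fun g => ?_
    rw [hP', h3, map_zero]

private lemma ch_add (a b : Fin n → ℤ) (z : Tor k (Fin n → ℤ)) :
    ch (a + b) z = ch a z * ch b z := by
  unfold ch
  rw [ofAdd_add, map_mul]

/-- the evaluation of characters as a monoid homomorphism to the field -/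
private def glc (z : Tor k (Fin n → ℤ)) : Multiplicative (Fin n → ℤ) →* k :=
  (Units.coeHom k).comp z

private lemma glt_apply (z : Tor k (Fin n → ℤ)) (i j : Fin n) :
    (glt z).1 i j = if i = j then (ch (Pi.single i 1) z : k) else 0 := by
  change Matrix.diagonal (fun i => (ch (Pi.single i 1) z : k)) i j = _
  rw [Matrix.diagonal_apply]

private lemma glt_det (z : Tor k (Fin n → ℤ)) :
    (glt z).1.det = ((ch (fun _ => 1) z : kˣ) : k) := by
  change (Matrix.diagonal fun i => (ch (Pi.single i 1) z : k)).det = _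
  rw [Matrix.det_diagonal, ← Units.coe_prod]
  congr 1
  unfold ch
  rw [← map_prod]
  congr 1
  have h1 : (fun _ : Fin n => (1 : ℤ)) = ∑ i, Pi.single i 1 := by
    funext j
    rw [Finset.sum_apply, Finset.sum_eq_single j]
    · rw [Pi.single_eq_same]
    · intro i _ hij
      rw [Pi.single_eq_of_ne hij.symm]
    · intro h
      exact absurd (Finset.mem_univ j) h
  rw [h1]
  exact (ofAdd_sum _ _).symm

lemma gl_t_reg : ∀ f ∈ glA n k, ∃ (s : Finset (Fin n → ℤ)) (c : (Fin n → ℤ) → k),
    ∀ z, f (glt z) = ∑ a ∈ s, c a * (ch a z : k) := by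
  have key : ∀ f ∈ glA n k, ∃ F : AddMonoidAlgebra k (Fin n → ℤ),
      ∀ z : Tor k (Fin n → ℤ), f (glt z) = AddMonoidAlgebra.lift k k (Fin n → ℤ) (glc z) F := by
    refine gl_ind ?_ ?_ ?_ ?_ ?_
    · intro p
      by_cases h : p.1 = p.2
      · refine ⟨AddMonoidAlgebra.single (Pi.single p.1 1) 1, fun z => ?_⟩
        change (glt z).1 p.1 p.2 = _
        rw [glt_apply, if_pos h, AddMonoidAlgebra.lift_single, one_smul]
        rfl
      · refine ⟨0, fun z => ?_⟩
        change (glt z).1 p.1 p.2 = _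
        rw [glt_apply, if_neg h, map_zero]
    · refine ⟨AddMonoidAlgebra.single (-fun _ => 1) 1, fun z => ?_⟩
      change ((glt z).1.det)⁻¹ = _
      rw [glt_det, AddMonoidAlgebra.lift_single, one_smul]
      change _ = ((z (Multiplicative.ofAdd (-fun _ => 1)) : kˣ) : k)
      rw [ofAdd_neg, map_inv, Units.val_inv_eq_inv_val]
      rfl
    · intro c
      refine ⟨algebraMap k _ c, fun z => ?_⟩
      rw [AlgHom.commutes]
      rfl
    · rintro f f' ⟨F, hF⟩ ⟨F', hF'⟩
      refine ⟨F + F', fun z => ?_⟩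
      rw [map_add, Pi.add_apply, hF, hF']
    · rintro f f' ⟨F, hF⟩ ⟨F', hF'⟩
      refine ⟨F * F', fun z => ?_⟩
      rw [map_mul, Pi.mul_apply, hF, hF']
  intro f hf
  obtain ⟨F, hF⟩ := key f hf
  refine ⟨F.coeff.support, F.coeff, fun z => ?_⟩
  rw [hF, AddMonoidAlgebra.lift_apply]
  rfl

lemma gl_x_add (p : GLI n) (s r : k) : glx p (s + r) = glx p s * glx p r := by
  refine Units.ext ?_
  change (glx p (s + r)).1 = (glx p s).1 * (glx p r).1
  rw [glx_eq, glx_eq, glx_eq, add_mul, mul_add, mul_add, one_mul, one_mul, mul_one,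
    Matrix.single_mul_single_of_ne _ _ _ _ p.2.symm, Matrix.single_add, add_zero]
  abel

private lemma gl_x_neg (p : GLI n) (s : k) : (glx p s)⁻¹ = glx p (-s) := by
  rw [inv_eq_iff_mul_eq_one, ← gl_x_add, add_neg_cancel]
  refine Units.ext ?_
  rw [glx_eq, Matrix.single_zero, add_zero]
  rfl

lemma gl_x_t (p : GLI n) (z : Tor k (Fin n → ℤ)) (s : k) :
    glt z * glx p s * (glt z)⁻¹ = glx p ((ch ((glP n).root p) z : k) * s) := by
  rw [mul_inv_eq_iff_eq_mul]
  refine Units.ext ?_
  change (glt z).1 * (glx p s).1 = (glx p _).1 * (glt z).1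
  rw [glx_eq, glx_eq, mul_add, add_mul, mul_one, one_mul]
  congr 1
  have hd : (glt z).1 = Matrix.diagonal fun i => (ch (Pi.single i 1) z : k) := rfl
  have hr : ch (Pi.single p.1.1 1) z = ch ((glP n).root p) z * ch (Pi.single p.1.2 1) z := by
    rw [← ch_add]
    congr 1
    change _ = glr p + _
    unfold glr
    rw [sub_add_cancel]
  rw [hd]
  ext a c
  rw [Matrix.diagonal_mul, Matrix.mul_diagonal, Matrix.single_apply, Matrix.single_apply]
  by_cases h : p.1.1 = a ∧ p.1.2 = c
  · rw [if_pos h, if_pos h, ← h.1, ← h.2, hr, Units.val_mul]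
    ring
  · rw [if_neg h, if_neg h, mul_zero, zero_mul]

private lemma glφ_up (p : GLI n) (s : k) : (glφ p (up s)).1.det = 1 := by
  change (glx p s).1.det = 1
  rw [glx_eq]
  exact Matrix.det_transvection_of_ne p.1.1 p.1.2 p.2 s

private lemma glperm_self (p : GLI n) :
    (glP n).reflectionPerm p p = ⟨(p.1.2, p.1.1), fun h => p.2 h.symm⟩ := by
  refine Subtype.ext (Prod.ext ?_ ?_)
  · exact Equiv.swap_apply_left _ _
  · exact Equiv.swap_apply_right _ _

private lemma gl_lo_aux (p : GLI n) (s : k) :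
    glφ p (lo s) = glx ((glP n).reflectionPerm p p) s := by
  rw [glperm_self]
  refine Units.ext ?_
  rw [glx_eq]
  change glM p (lo s) = _
  ext a c
  rw [Matrix.add_apply, Matrix.one_apply, Matrix.single_apply]
  simp only
  by_cases h1 : a = p.1.1
  · rw [h1, glM_row1, if_neg (fun hh : p.1.2 = p.1.1 ∧ p.1.1 = c => p.2 hh.1.symm), add_zero]
    by_cases h2 : c = p.1.1
    · rw [if_pos h2, if_pos h2.symm]
      rfl
    · rw [if_neg h2, if_neg (fun hh : p.1.1 = c => h2 hh.symm)]
      split_ifs <;> rfl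
  · by_cases h2 : a = p.1.2
    · rw [h2, glM_row2]
      by_cases h3 : c = p.1.1
      · rw [if_pos h3, if_neg (fun hh : p.1.2 = c => p.2 (h3.symm.trans hh.symm)),
          if_pos ⟨rfl, h3.symm⟩, zero_add]
        rfl
      · rw [if_neg h3, if_neg (fun hh : p.1.2 = p.1.2 ∧ p.1.1 = c => h3 hh.2.symm), add_zero]
        by_cases h4 : c = p.1.2
        · rw [if_pos h4, if_pos h4.symm]
          rfl
        · rw [if_neg h4, if_neg (fun hh : p.1.2 = c => h4 hh.symm)]
    · rw [glM_row3 p _ h1 h2, if_neg (fun hh : p.1.2 = a ∧ p.1.1 = c => h2 hh.1.symm), add_zero]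

private lemma glpair_pi (i : Fin n) (v : Fin n → ℤ) : glpair n (Pi.single i 1) v = v i := by
  rw [glpair_apply, Finset.sum_eq_single i]
  · rw [Pi.single_eq_same, one_mul]
  · intro j _ hj
    rw [Pi.single_eq_of_ne hj, zero_mul]
  · intro h
    exact absurd (Finset.mem_univ i) h

private lemma glr_at (p : GLI n) (i : Fin n) :
    glr p i = (if i = p.1.1 then 1 else 0) - (if i = p.1.2 then 1 else 0) := by
  unfold glr
  rw [Pi.sub_apply, Pi.single_apply, Pi.single_apply]

private lemma gl_dg_aux (p : GLI n) (c : kˣ) : ∃ z : Tor k (Fin n → ℤ), glφ p (dg c) = glt z ∧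
    ∀ a, ch a z = c ^ glpair n a (glr p) := by
  obtain ⟨z, hz⟩ : ∃ z : Tor k (Fin n → ℤ), ∀ a, ch a z = c ^ glpair n a (glr p) := by
    refine ⟨⟨⟨fun a => c ^ glpair n (Multiplicative.toAdd a) (glr p), ?_⟩, ?_⟩, fun a => rfl⟩
    · change c ^ glpair n (0 : Fin n → ℤ) (glr p) = 1
      rw [map_zero, LinearMap.zero_apply, zpow_zero]
    · intro a b
      change c ^ glpair n (Multiplicative.toAdd a + Multiplicative.toAdd b) (glr p) = _
      rw [map_add, LinearMap.add_apply, zpow_add]
  refine ⟨z, ?_, hz⟩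
  refine Units.ext (Matrix.ext fun a e => ?_)
  rw [glt_apply, hz, glpair_pi, glr_at]
  change glM p (dg c) a e = _
  by_cases h1 : a = p.1.1
  · rw [h1, glM_row1]
    by_cases h2 : e = p.1.1
    · rw [if_pos h2, if_pos h2.symm, if_pos rfl, if_neg p.2, sub_zero, zpow_one]
      rfl
    · rw [if_neg h2, if_neg (fun hh : p.1.1 = e => h2 hh.symm)]
      split_ifs <;> rfl
  · by_cases h2 : a = p.1.2
    · rw [h2, glM_row2]
      by_cases h3 : e = p.1.1
      · rw [if_pos h3, if_neg (fun hh : p.1.2 = e => p.2 (h3.symm.trans hh.symm))]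
        rfl
      · rw [if_neg h3]
        by_cases h4 : e = p.1.2
        · rw [if_pos h4, if_pos h4.symm, if_neg p.2.symm, if_pos rfl, zero_sub, zpow_neg_one]
          rfl
        · rw [if_neg h4, if_neg (fun hh : p.1.2 = e => h4 hh.symm)]
    · rw [glM_row3 p _ h1 h2, if_neg h1, if_neg h2, sub_zero, zpow_zero]
      rfl

private lemma glφ_det (p : GLI n) (h : Matrix.SpecialLinearGroup (Fin 2) k) :
    (glφ p h).1.det = 1 := by
  have hmul : ∀ h h' : Matrix.SpecialLinearGroup (Fin 2) k,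
      (glφ p (h * h')).1.det = (glφ p h).1.det * (glφ p h').1.det := by
    intro h h'
    rw [map_mul]
    change ((glφ p h).1 * (glφ p h').1).det = _
    rw [Matrix.det_mul]
  have hlo : ∀ s : k, (glφ p (lo s)).1.det = 1 := by
    intro s
    rw [gl_lo_aux]
    exact glφ_up _ s
  have hdg : ∀ c : kˣ, (glφ p (dg c)).1.det = 1 := by
    intro c
    obtain ⟨z, h1, h2⟩ := gl_dg_aux p c
    rw [h1, glt_det, h2]
    have h3 : glpair n (fun _ => 1) (glr p) = 0 := by
      rw [glpair_apply]
      simp only [one_mul, glr_at, Finset.sum_sub_distrib, Finset.sum_ite_eq', Finset.mem_univ,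
        if_true, sub_self]
    rw [h3, zpow_zero]
    rfl
  have hgen : ∀ h : Matrix.SpecialLinearGroup (Fin 2) k, h.1 0 0 ≠ 0 → (glφ p h).1.det = 1 := by
    intro h h0
    have hd := h.2
    rw [Matrix.det_fin_two] at hd
    have e : h = lo (h.1 1 0 / h.1 0 0) * dg (Units.mk0 _ h0) * up (h.1 0 1 / h.1 0 0) := by
      refine Subtype.ext (Matrix.ext fun i j => ?_)
      change h.1 i j = ((!![1, 0; h.1 1 0 / h.1 0 0, 1] *
        !![h.1 0 0, 0; 0, (((Units.mk0 _ h0)⁻¹ : kˣ) : k)]) * !![1, h.1 0 1 / h.1 0 0; 0, 1] :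
          Matrix (Fin 2) (Fin 2) k) i j
      rw [Units.val_inv_eq_inv_val, Units.val_mk0]
      fin_cases i <;> fin_cases j
      · simp [Matrix.mul_apply, Fin.sum_univ_two]
      · simp [Matrix.mul_apply, Fin.sum_univ_two]
        field_simp
      · simp [Matrix.mul_apply, Fin.sum_univ_two]
        field_simp
      · simp [Matrix.mul_apply, Fin.sum_univ_two]
        field_simp
        linear_combination hd
    rw [e, hmul, hmul, hlo, hdg, glφ_up, one_mul, one_mul]
  by_cases h0 : h.1 0 0 = 0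
  · have h1 : (h * lo 1).1 0 0 ≠ 0 := by
      change ((h.1 * !![1, 0; 1, 1] : Matrix (Fin 2) (Fin 2) k) 0 0 : k) ≠ 0
      rw [Matrix.mul_apply, Fin.sum_univ_two, h0]
      have hd := h.2
      rw [Matrix.det_fin_two, h0] at hd
      simp only [Matrix.of_apply, Matrix.cons_val', Matrix.cons_val_zero, Matrix.cons_val_one,
        mul_one, zero_add]
      intro h2
      simp [h2] at hd
    have h2 := hgen _ h1
    rw [hmul, hlo, mul_one] at h2
    exact h2
  · exact hgen h h0

lemma gl_φ_reg : ∀ f ∈ glA n k, ∀ p : GLI n, ∃ Q : MvPolynomial (Fin 2 × Fin 2) k,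
    ∀ h, f (glφ p h) = eval (fun q => h.1 q.1 q.2) Q := by
  have key : ∀ f ∈ glA n k, ∀ p : GLI n, ∃ Q : MvPolynomial (Fin 2 × Fin 2) k,
      ∀ h : Matrix.SpecialLinearGroup (Fin 2) k, f (glφ p h) = eval (fun q => h.1 q.1 q.2) Q := by
    refine gl_ind ?_ ?_ ?_ ?_ ?_
    · intro q p
      refine ⟨if q.1 = p.1.1 ∧ q.2 = p.1.1 then X (0, 0) else
        if q.1 = p.1.1 ∧ q.2 = p.1.2 then X (0, 1) else
        if q.1 = p.1.2 ∧ q.2 = p.1.1 then X (1, 0) else
        if q.1 = p.1.2 ∧ q.2 = p.1.2 then X (1, 1) else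
        if q.1 = q.2 then 1 else 0, fun h => ?_⟩
      change glM p h q.1 q.2 = _
      unfold glM
      split_ifs <;> simp
    · intro p
      refine ⟨1, fun h => ?_⟩
      change ((glφ p h).1.det)⁻¹ = _
      rw [glφ_det, inv_one, map_one]
    · intro c p
      refine ⟨C c, fun h => ?_⟩
      rw [eval_C]
    · intro f f' hf hf' p
      obtain ⟨Q, hQ⟩ := hf p
      obtain ⟨Q', hQ'⟩ := hf' p
      refine ⟨Q + Q', fun h => ?_⟩
      rw [map_add, Pi.add_apply, hQ, hQ']
    · intro f f' hf hf' p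
      obtain ⟨Q, hQ⟩ := hf p
      obtain ⟨Q', hQ'⟩ := hf' p
      refine ⟨Q * Q', fun h => ?_⟩
      rw [map_mul, Pi.mul_apply, hQ, hQ']
  exact key

lemma gl_φ_lo (p : GLI n) (s : k) : glφ p (lo s) = glx ((glP n).reflectionPerm p p) s :=
  gl_lo_aux p s

lemma gl_φ_dg (p : GLI n) (c : kˣ) : ∃ z : Tor k (Fin n → ℤ), glφ p (dg c) = glt z ∧
    ∀ a, ch a z = c ^ (glP n).toLinearMap a ((glP n).coroot p) :=
  gl_dg_aux p c

lemma gl_comm (i j : GLI n) (h : (glP n).root i ≠ (glP n).root j)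
    (h' : (glP n).root i ≠ -(glP n).root j) : ∃ l : List (GLI n × ℕ × ℕ × k),
    (∀ q ∈ l, 0 < q.2.1 ∧ 0 < q.2.2.1 ∧
      (glP n).root q.1 = q.2.1 • (glP n).root i + q.2.2.1 • (glP n).root j) ∧
    ∀ s r, glx i s * glx j r * (glx i s)⁻¹ * (glx j r)⁻¹ =
      (l.map fun q => glx q.1 (q.2.2.2 * s ^ q.2.1 * r ^ q.2.2.1)).prod := by
  change glr i ≠ glr j at h
  change glr i ≠ -glr j at h'
  have hcomm : ∀ (s r : k) (X : GL (Fin n) k),
      (1 + Matrix.single i.1.1 i.1.2 s) * (1 + Matrix.single j.1.1 j.1.2 r) =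
      X.1 * (1 + Matrix.single j.1.1 j.1.2 r) * (1 + Matrix.single i.1.1 i.1.2 s) →
      glx i s * glx j r * (glx i s)⁻¹ * (glx j r)⁻¹ = X := by
    intro s r X hX
    rw [mul_inv_eq_iff_eq_mul, mul_inv_eq_iff_eq_mul]
    refine Units.ext ?_
    change (glx i s).1 * (glx j r).1 = X.1 * (glx j r).1 * (glx i s).1
    rw [glx_eq, glx_eq]
    exact hX
  by_cases e1 : i.1.2 = j.1.1
  · have hne : i.1.1 ≠ j.1.2 := by
      intro e2
      apply h'
      unfold glr
      rw [e1, e2, neg_sub]
    refine ⟨[(⟨(i.1.1, j.1.2), hne⟩, 1, 1, 1)], ?_, fun s r => ?_⟩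
    · intro q hq
      rw [List.mem_singleton] at hq
      subst hq
      refine ⟨Nat.one_pos, Nat.one_pos, ?_⟩
      change glr _ = 1 • glr i + 1 • glr j
      rw [one_smul, one_smul]
      unfold glr
      simp only
      rw [e1]
      abel
    · rw [List.map_singleton, List.prod_singleton]
      refine hcomm s r _ ?_
      rw [glx_eq]
      simp only [pow_one, one_mul]
      have z1 : ∀ x y : k, Matrix.single i.1.1 i.1.2 x * Matrix.single j.1.1 j.1.2 y =
          Matrix.single i.1.1 j.1.2 (x * y) := by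
        intro x y
        rw [e1, Matrix.single_mul_single_same]
      have z2 : ∀ x y : k, Matrix.single j.1.1 j.1.2 x * Matrix.single i.1.1 i.1.2 y = 0 :=
        fun x y => Matrix.single_mul_single_of_ne _ _ _ _ hne.symm _
      have z3 : ∀ x y : k, Matrix.single i.1.1 j.1.2 x * Matrix.single j.1.1 j.1.2 y = 0 :=
        fun x y => Matrix.single_mul_single_of_ne _ _ _ _ j.2.symm _
      have z4 : ∀ x y : k, Matrix.single i.1.1 j.1.2 x * Matrix.single i.1.1 i.1.2 y = 0 :=
        fun x y => Matrix.single_mul_single_of_ne _ _ _ _ hne.symm _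
      simp only [add_mul, mul_add, one_mul, mul_one, z1, z2, z3, z4, add_zero]
      abel
  · by_cases e2 : i.1.1 = j.1.2
    · refine ⟨[(⟨(j.1.1, i.1.2), fun hh => e1 hh.symm⟩, 1, 1, -1)], ?_, fun s r => ?_⟩
      · intro q hq
        rw [List.mem_singleton] at hq
        subst hq
        refine ⟨Nat.one_pos, Nat.one_pos, ?_⟩
        change glr _ = 1 • glr i + 1 • glr j
        rw [one_smul, one_smul]
        unfold glr
        simp only
        rw [e2]
        abel
      · rw [List.map_singleton, List.prod_singleton]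
        refine hcomm s r _ ?_
        rw [glx_eq]
        simp only [pow_one, neg_one_mul]
        have z1 : ∀ x y : k, Matrix.single i.1.1 i.1.2 x * Matrix.single j.1.1 j.1.2 y = 0 :=
          fun x y => Matrix.single_mul_single_of_ne _ _ _ _ e1 _
        have z2 : ∀ x y : k, Matrix.single j.1.1 j.1.2 x * Matrix.single i.1.1 i.1.2 y =
            Matrix.single j.1.1 i.1.2 (x * y) := by
          intro x y
          rw [e2, Matrix.single_mul_single_same]
        have z3 : ∀ x y : k, Matrix.single j.1.1 i.1.2 x * Matrix.single j.1.1 j.1.2 y = 0 :=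
          fun x y => Matrix.single_mul_single_of_ne _ _ _ _ e1 _
        have z4 : ∀ x y : k, Matrix.single j.1.1 i.1.2 x * Matrix.single i.1.1 i.1.2 y = 0 :=
          fun x y => Matrix.single_mul_single_of_ne _ _ _ _ i.2.symm _
        have z5 : Matrix.single j.1.1 i.1.2 (-s * r) = -(Matrix.single j.1.1 i.1.2 (r * s)) := by
          have e3 : -s * r = -(r * s) := by ring
          rw [e3, Matrix.single_neg]
        simp only [add_mul, mul_add, one_mul, mul_one, z1, z2, z3, z4, add_zero]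
        rw [z5]
        abel
    · refine ⟨[], by simp, fun s r => ?_⟩
      rw [List.map_nil, List.prod_nil]
      refine hcomm s r _ ?_
      have z1 : ∀ x y : k, Matrix.single i.1.1 i.1.2 x * Matrix.single j.1.1 j.1.2 y = 0 :=
        fun x y => Matrix.single_mul_single_of_ne _ _ _ _ e1 _
      have z2 : ∀ x y : k, Matrix.single j.1.1 j.1.2 x * Matrix.single i.1.1 i.1.2 y = 0 :=
        fun x y => Matrix.single_mul_single_of_ne _ _ _ _ (fun hh => e2 hh.symm) _
      change _ = (1 : Matrix (Fin n) (Fin n) k) * _ * _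
      simp only [add_mul, mul_add, one_mul, mul_one, z1, z2, add_zero]
      abel

end Pool.Agent.RG
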