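import Pool.Agent.RDG.Defs

/-!
# RDG / GLROOT: the root datum of `GL_n`

`X = Y = ℤ^n` with the standard pairing, roots and coroots `e_i - e_j` (`i ≠ j`), base `e_i - e_{i+1}`.

* `glP_refl`: `e_p - ⟨e_p, e_q⟩ e_q` is `e_{s p}` with the transposition `s` of the two indices of `q`
  (`fin_cases`-free: evaluate at a coordinate and split on equalities of indices).
* perfect pairing: `ℤ^n → Dual ℤ^n` is bijective (`Pi.basisFun`, or `LinearMap.IsPerfPair` from an explicit inverse).
* base: `e_i - e_{i+1}`, linearly independent (if `∑ c_i (e_i - e_{i+1}) = 0`, look at the coordinates `0, 1, ...`, or use the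
  functional `a ↦ ∑_{j ≤ i} a j`, whose value at `e_j - e_{j+1}` is `1` for `j = i` and `0` otherwise); for
  `i < j`, `e_i - e_j` is the sum of the `e_l - e_{l+1}`, `i ≤ l < j` (induction on `j - i`).
* `glb_isPos`: `IsPos i` iff `0 < height i`; `height` is additive on sums of roots and `1` on the support (`isPos_of_mem_support`, `IsPos.add`,
  or: `root i ∈ closure (root '' support)` iff `IsPos i`).
-/

set_option autoImplicit false

namespace Pool.Agent.RG

/-- the indices of the roots of `GL_n` -/
abbrev GLI (n : ℕ) : Type := {p : Fin n × Fin n // p.1 ≠ p.2}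

variable {n : ℕ}

/-- the root `e_i - e_j` -/
def glr (p : GLI n) : Fin n → ℤ := Pi.single p.1.1 1 - Pi.single p.1.2 1

private lemma glr_apply (p : GLI n) (i : Fin n) :
    glr p i = (if i = p.1.1 then 1 else 0) - (if i = p.1.2 then 1 else 0) := by
  unfold glr
  rw [Pi.sub_apply, Pi.single_apply, Pi.single_apply]

private lemma glr_fst (p : GLI n) : glr p p.1.1 = 1 := by
  rw [glr_apply, if_pos rfl, if_neg p.2, sub_zero]

private lemma glr_snd (p : GLI n) : glr p p.1.2 = -1 := by
  rw [glr_apply, if_pos rfl, if_neg fun h => p.2 h.symm, zero_sub]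

private lemma glr_eq_one {p : GLI n} {i : Fin n} (h : glr p i = 1) : i = p.1.1 := by
  rw [glr_apply] at h
  by_contra h1
  rw [if_neg h1] at h
  split_ifs at h <;> norm_num at h

private lemma glr_eq_neg {p : GLI n} {i : Fin n} (h : glr p i = -1) : i = p.1.2 := by
  rw [glr_apply] at h
  by_contra h1
  rw [if_neg h1] at h
  split_ifs at h <;> norm_num at h

lemma glr_inj : Function.Injective (glr (n := n)) := by
  intro p q h
  refine Subtype.ext (Prod.ext ?_ ?_)
  · refine glr_eq_one ?_
    rw [← h, glr_fst]
  · refine glr_eq_neg ?_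
    rw [← h, glr_snd]

/-- the reflection in a root permutes the roots -/
def glperm (q : GLI n) : GLI n ≃ GLI n :=
  (Equiv.prodCongr (Equiv.swap q.1.1 q.1.2) (Equiv.swap q.1.1 q.1.2)).subtypeEquiv fun _ =>
    (Equiv.swap q.1.1 q.1.2).injective.ne_iff.symm

/-- the standard pairing of `ℤ^n` -/
def glpair (n : ℕ) : (Fin n → ℤ) →ₗ[ℤ] (Fin n → ℤ) →ₗ[ℤ] ℤ :=
  LinearMap.mk₂ ℤ (fun a c => ∑ i, a i * c i)
    (fun a a' c => by simp [add_mul, Finset.sum_add_distrib])
    (fun m a c => by simp [mul_assoc, Finset.mul_sum])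
    (fun a c c' => by simp [mul_add, Finset.sum_add_distrib])
    (fun m a c => by simp [mul_left_comm, Finset.mul_sum])

lemma glpair_apply (a c : Fin n → ℤ) : glpair n a c = ∑ i, a i * c i := rfl

private lemma glpair_single (a : Fin n → ℤ) (i : Fin n) : glpair n a (Pi.single i 1) = a i := by
  rw [glpair_apply, Finset.sum_eq_single i]
  · rw [Pi.single_eq_same, mul_one]
  · intro j _ hj
    rw [Pi.single_eq_of_ne hj, mul_zero]
  · intro h
    exact absurd (Finset.mem_univ i) h

private lemma glpair_glr (a : Fin n → ℤ) (q : GLI n) : glpair n a (glr q) = a q.1.1 - a q.1.2 := by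
  unfold glr
  rw [map_sub, glpair_single, glpair_single]

lemma glpair_perf : (glpair n).IsPerfPair := by
  refine LinearMap.IsPerfPair.of_bijective (glpair n) ⟨?_, ?_⟩
  · intro a a' h
    funext i
    rw [← glpair_single a i, ← glpair_single a' i, h]
  · intro φ
    refine ⟨fun i => φ (Pi.single i 1), ?_⟩
    refine LinearMap.pi_ext' fun i => LinearMap.ext_ring ?_
    simp only [LinearMap.comp_apply, LinearMap.coe_single]
    rw [glpair_single]

lemma glP_two (p : GLI n) : glpair n (glr p) (glr p) = 2 := by
  rw [glpair_glr, glr_fst, glr_snd]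
  norm_num

private lemma glr_swap (q p : GLI n) (i : Fin n) :
    glr (glperm q p) i = glr p (Equiv.swap q.1.1 q.1.2 i) := by
  rw [glr_apply, glr_apply]
  have h1 : (glperm q p).1.1 = Equiv.swap q.1.1 q.1.2 p.1.1 := rfl
  have h2 : (glperm q p).1.2 = Equiv.swap q.1.1 q.1.2 p.1.2 := rfl
  have h3 : ∀ j : Fin n, i = Equiv.swap q.1.1 q.1.2 j ↔ Equiv.swap q.1.1 q.1.2 i = j := by
    intro j
    rw [← Equiv.symm_apply_eq, Equiv.symm_swap]
  rw [h1, h2]
  simp only [h3]

lemma glP_refl (q p : GLI n) : glr p - glpair n (glr p) (glr q) • glr q = glr (glperm q p) := by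
  funext i
  rw [glr_swap, glpair_glr, Pi.sub_apply, Pi.smul_apply, smul_eq_mul]
  by_cases h1 : i = q.1.1
  · rw [h1, glr_fst, Equiv.swap_apply_left]
    ring
  · by_cases h2 : i = q.1.2
    · rw [h2, glr_snd, Equiv.swap_apply_right]
      ring
    · rw [Equiv.swap_apply_of_ne_of_ne h1 h2, glr_apply q i, if_neg h1, if_neg h2]
      ring

/-- the root datum of `GL_n` -/
noncomputable def glP (n : ℕ) : RootDatum (GLI n) (Fin n → ℤ) (Fin n → ℤ) where
  toLinearMap := glpair n
  isPerfPair_toLinearMap := glpair_perf
  root := ⟨glr, glr_inj⟩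
  coroot := ⟨glr, glr_inj⟩
  root_coroot_two := glP_two
  reflectionPerm := glperm
  reflectionPerm_root q p := glP_refl q p
  reflectionPerm_coroot q p := by
    have h := glP_refl q p
    have h2 : glpair n (glr q) (glr p) = glpair n (glr p) (glr q) := by
      rw [glpair_apply, glpair_apply]
      exact Finset.sum_congr rfl fun i _ => mul_comm _ _
    change glr p - glpair n (glr q) (glr p) • glr q = glr (glperm q p)
    rw [h2]
    exact h

private lemma glP_root (p : GLI n) : (glP n).root p = glr p := rfl

/-- the opposite root -/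
private def glop (p : GLI n) : GLI n := ⟨(p.1.2, p.1.1), fun h => p.2 h.symm⟩

private lemma glr_op (p : GLI n) : glr (glop p) = -glr p := by
  unfold glr glop
  rw [neg_sub]

instance : (glP n).IsReduced := by
  refine ⟨fun p q h => ?_⟩
  rw [glP_root, glP_root] at h ⊢
  rw [LinearIndependent.pair_iff] at h
  push Not at h
  obtain ⟨s, t, hst, hne⟩ := h
  have hv : ∀ i, s * glr p i + t * glr q i = 0 := by
    intro i
    have := congrFun hst i
    rw [Pi.add_apply, Pi.smul_apply, Pi.smul_apply, smul_eq_mul, smul_eq_mul] at this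
    exact this
  have h1 := hv p.1.1
  have h2 := hv p.1.2
  have h3 := hv q.1.1
  have h4 := hv q.1.2
  rw [glr_fst] at h1 h3
  rw [glr_snd] at h2 h4
  by_cases hs : s = 0
  · exfalso
    rw [hs, zero_mul, zero_add, mul_one] at h3
    exact hne hs h3
  by_cases ha : p.1.1 = q.1.1
  · left
    by_cases hb : p.1.2 = q.1.2
    · have : p = q := Subtype.ext (Prod.ext ha hb)
      rw [this]
    · exfalso
      have h5 : glr q p.1.2 = 0 := by
        rw [glr_apply, if_neg hb, if_neg fun h => p.2 (ha.trans h.symm)]
        norm_num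
      rw [h5] at h2
      apply hs
      linarith
  · by_cases hb : p.1.1 = q.1.2
    · right
      by_cases hc : p.1.2 = q.1.1
      · have : p = glop q := Subtype.ext (Prod.ext hb hc)
        rw [this, glr_op]
      · exfalso
        have h5 : glr q p.1.2 = 0 := by
          rw [glr_apply, if_neg hc, if_neg fun h => p.2 (hb.trans h.symm)]
          norm_num
        rw [h5] at h2
        apply hs
        linarith
    · exfalso
      have h5 : glr q p.1.1 = 0 := by
        rw [glr_apply, if_neg ha, if_neg hb]
        norm_num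
      rw [h5] at h1
      apply hs
      linarith

/-- the simple roots of `GL_n` -/
noncomputable def glS (n : ℕ) : Finset (GLI n) :=
  Finset.univ.filter fun p => (p.1.1 : ℕ) + 1 = p.1.2

private lemma mem_glS {p : GLI n} : p ∈ glS n ↔ (p.1.1 : ℕ) + 1 = p.1.2 := by
  unfold glS
  rw [Finset.mem_filter]
  simp

/-- partial sums -/
private def glf (i : Fin n) : (Fin n → ℤ) →ₗ[ℤ] ℤ where
  toFun a := ∑ j, if j ≤ i then a j else 0
  map_add' a c := by
    rw [← Finset.sum_add_distrib]
    refine Finset.sum_congr rfl fun j _ => ?_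
    split_ifs <;> simp
  map_smul' m a := by
    rw [RingHom.id_apply, smul_eq_mul, Finset.mul_sum]
    refine Finset.sum_congr rfl fun j _ => ?_
    split_ifs <;> simp

private lemma glf_glr (i : Fin n) (q : GLI n) :
    glf i (glr q) = (if q.1.1 ≤ i then 1 else 0) - (if q.1.2 ≤ i then 1 else 0) := by
  have h1 : ∀ k : Fin n, glf i (Pi.single k 1) = if k ≤ i then 1 else 0 := by
    intro k
    change (∑ j, if j ≤ i then (Pi.single k (1 : ℤ) : Fin n → ℤ) j else 0) = _
    rw [Finset.sum_eq_single k]
    · rw [Pi.single_eq_same]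
    · intro j _ hj
      rw [Pi.single_eq_of_ne hj]
      split_ifs <;> rfl
    · intro h
      exact absurd (Finset.mem_univ k) h
  unfold glr
  rw [map_sub, h1, h1]

private lemma glf_simple {p q : GLI n} (hp : p ∈ glS n) (hq : q ∈ glS n) :
    glf p.1.1 (glr q) = if q = p then 1 else 0 := by
  rw [mem_glS] at hp hq
  rw [glf_glr]
  by_cases h : q = p
  · subst h
    rw [if_pos le_rfl, if_pos rfl, if_neg]
    · norm_num
    · intro h
      rw [Fin.le_def] at h
      omega
  · rw [if_neg h]
    have h1 : (q.1.1 : ℕ) ≠ p.1.1 := by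
      intro h1
      apply h
      refine Subtype.ext (Prod.ext (Fin.ext h1) (Fin.ext ?_))
      omega
    by_cases h2 : (q.1.1 : ℕ) < p.1.1
    · rw [if_pos, if_pos]
      · norm_num
      · rw [Fin.le_def]
        omega
      · rw [Fin.le_def]
        omega
    · rw [if_neg, if_neg]
      · norm_num
      · rw [Fin.le_def]
        omega
      · rw [Fin.le_def]
        omega

lemma glS_indep : LinearIndepOn ℤ (glr (n := n)) (glS n : Set (GLI n)) := by
  rw [linearIndepOn_finset_iff]
  intro g hg p hp
  have h1 : glf p.1.1 (∑ q ∈ glS n, g q • glr q) = g p := by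
    rw [map_sum, Finset.sum_eq_single p]
    · rw [map_smul, glf_simple hp hp, if_pos rfl, smul_eq_mul, mul_one]
    · intro q hq hqp
      rw [map_smul, glf_simple hp hq, if_neg hqp, smul_zero]
    · intro h
      exact absurd hp h
  rw [← h1, hg, map_zero]

private lemma glS_lt (j : ℕ) : ∀ p : GLI n, (p.1.2 : ℕ) = j → p.1.1 < p.1.2 →
    glr p ∈ AddSubmonoid.closure (glr '' (glS n : Set (GLI n))) := by
  induction j with
  | zero =>
    intro p h1 h2
    rw [Fin.lt_def] at h2
    omega
  | succ j ih =>
    intro p h1 h2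
    rw [Fin.lt_def] at h2
    by_cases h3 : (p.1.1 : ℕ) = j
    · refine AddSubmonoid.subset_closure ⟨p, ?_, rfl⟩
      have : p ∈ glS n := mem_glS.2 (by omega)
      exact this
    · have hj : j < n := by
        have := p.1.2.2
        omega
      have hne1 : p.1.1 ≠ ⟨j, hj⟩ := fun h => h3 (by rw [h])
      have hne2 : (⟨j, hj⟩ : Fin n) ≠ p.1.2 := fun h => by
        have := congrArg Fin.val h
        simp only at this
        omega
      have e : glr p = glr (⟨(p.1.1, ⟨j, hj⟩), hne1⟩ : GLI n) +
          glr (⟨(⟨j, hj⟩, p.1.2), hne2⟩ : GLI n) := by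
        unfold glr
        simp only
        abel
      rw [e]
      refine add_mem (ih _ rfl ?_) (AddSubmonoid.subset_closure ⟨_, ?_, rfl⟩)
      · rw [Fin.lt_def]
        simp only
        omega
      · have : (⟨(⟨j, hj⟩, p.1.2), hne2⟩ : GLI n) ∈ glS n := mem_glS.2 (by
          simp only
          omega)
        exact this

lemma glS_mem (p : GLI n) : glr p ∈ AddSubmonoid.closure (glr '' (glS n : Set (GLI n))) ∨
    -glr p ∈ AddSubmonoid.closure (glr '' (glS n : Set (GLI n))) := by
  rcases lt_or_gt_of_ne p.2 with h | h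
  · exact Or.inl (glS_lt _ p rfl h)
  · right
    rw [← glr_op]
    exact glS_lt _ (glop p) rfl h

/-- the base of the root datum of `GL_n` -/
noncomputable def glb (n : ℕ) : (glP n).Base where
  support := glS n
  linearIndepOn_root := glS_indep
  linearIndepOn_coroot := glS_indep
  root_mem_or_neg_mem := glS_mem
  coroot_mem_or_neg_mem := glS_mem

private lemma glb_pos_lt (j : ℕ) : ∀ p : GLI n, (p.1.2 : ℕ) = j → p.1.1 < p.1.2 → (glb n).IsPos p := by
  induction j with
  | zero =>
    intro p h1 h2
    rw [Fin.lt_def] at h2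
    omega
  | succ j ih =>
    intro p h1 h2
    rw [Fin.lt_def] at h2
    by_cases h3 : (p.1.1 : ℕ) = j
    · have : p ∈ (glb n).support := mem_glS.2 (by omega)
      exact RootPairing.Base.isPos_of_mem_support this
    · have hj : j < n := by
        have := p.1.2.2
        omega
      have hne1 : p.1.1 ≠ ⟨j, hj⟩ := fun h => h3 (by rw [h])
      have hne2 : (⟨j, hj⟩ : Fin n) ≠ p.1.2 := fun h => by
        have := congrArg Fin.val h
        simp only at this
        omega
      have e : glr p = glr (⟨(p.1.1, ⟨j, hj⟩), hne1⟩ : GLI n) +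
          glr (⟨(⟨j, hj⟩, p.1.2), hne2⟩ : GLI n) := by
        unfold glr
        simp only
        abel
      have h4 : (⟨(⟨j, hj⟩, p.1.2), hne2⟩ : GLI n) ∈ (glb n).support := mem_glS.2 (by
        simp only
        omega)
      refine RootPairing.Base.IsPos.add (ih _ rfl ?_)
        (RootPairing.Base.isPos_of_mem_support h4) e
      rw [Fin.lt_def]
      simp only
      omega

private lemma glb_height_op (p : GLI n) : (glb n).height (glop p) = -(glb n).height p := by
  obtain ⟨f, -, -, hf⟩ := (glb n).exists_root_eq_sum_int p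
  have hg : (glP n).root (glop p) = ∑ j ∈ (glb n).support, (-f) j • (glP n).root j := by
    have h1 : (glP n).root (glop p) = -(glP n).root p := glr_op p
    rw [h1, hf, ← Finset.sum_neg_distrib]
    refine Finset.sum_congr rfl fun j _ => ?_
    rw [Pi.neg_apply, neg_smul]
  rw [RootPairing.Base.height_eq_sum hf, RootPairing.Base.height_eq_sum hg,
    ← Finset.sum_neg_distrib]
  rfl

lemma glb_isPos (p : GLI n) : (glb n).IsPos p ↔ p.1.1 < p.1.2 := by
  constructor
  · intro h
    rcases lt_or_gt_of_ne p.2 with h1 | h1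
    · exact h1
    · exfalso
      have h2 := glb_pos_lt _ (glop p) rfl h1
      rw [RootPairing.Base.isPos_iff] at h h2
      rw [glb_height_op] at h2
      linarith
  · exact glb_pos_lt _ p rfl

end Pool.Agent.RG
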