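import Mathlib

/-!
# RDG / GLUDL: the decomposition `M = u t v` over a commutative ring

`u` upper unitriangular, `t` diagonal, `v` lower unitriangular; it exists if all lower right principal minors are units.

* `mnr_mul`: for `i, j ≥ m`: `(u * t * v) i j` only involves indices `≥ m` of the middle sums (`u i k = 0` for `k < i`), so
  the block of a product is the product of the blocks; the blocks of `u`, `v` are triangular with ones on the diagonal
  (`Matrix.det_of_upperTriangular`, `Matrix.det_of_lowerTriangular`).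
* `exists_udl`: induction on `n`; for `n + 1` let `c = M last last` (a unit: `mnr M last`), `M' i j = M i j - M i last * c⁻¹ * M last j` for
  `i, j < last` (Schur complement). `mnr M m = c * mnr M' m` (column operations: `Matrix.det_fromBlocks₂₂`,
  or: `M = u₁ * (M' ⊕ c) * v₁` with `u₁` the unitriangular matrix with last column `M i last * c⁻¹`, `v₁` with last row
  `c⁻¹ * M last j`, and multiplicativity of the lower right blocks as in `mnr_mul`). Then
  `u = u₁ * (u' ⊕ 1)` etc.
* `udl_unique`: `u⁻¹ u' = t v v'⁻¹ t'⁻¹` is upper unitriangular and lower triangular, so it is `1`; etc. (Or by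
  descending induction from the last row and column.)
-/

set_option autoImplicit false

namespace Pool.Agent.RG

variable {n : ℕ} {R : Type*} [CommRing R]

/-- the lower right principal minor with the rows and columns `≥ m` -/
def mnr (M : Matrix (Fin n) (Fin n) R) (m : Fin n) : R :=
  (M.submatrix (fun i : {i : Fin n // m ≤ i} => (i : Fin n))
    (fun i : {i : Fin n // m ≤ i} => (i : Fin n))).det

/-- upper unitriangular matrices -/
def UTri (u : Matrix (Fin n) (Fin n) R) : Prop := (∀ i, u i i = 1) ∧ ∀ i j, j < i → u i j = 0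

/-- lower unitriangular matrices -/
def LTri (v : Matrix (Fin n) (Fin n) R) : Prop := (∀ i, v i i = 1) ∧ ∀ i j, i < j → v i j = 0

private lemma gl_block (m : Fin n) (u t v : Matrix (Fin n) (Fin n) R) (hu : UTri u) (hv : LTri v)
    (ht : ∀ i j, i ≠ j → t i j = 0) :
    (u * t * v).submatrix (fun i : {i : Fin n // m ≤ i} => (i : Fin n))
      (fun i : {i : Fin n // m ≤ i} => (i : Fin n)) =
    u.submatrix (fun i : {i : Fin n // m ≤ i} => (i : Fin n))
        (fun i : {i : Fin n // m ≤ i} => (i : Fin n)) *
      Matrix.diagonal (fun i : {i : Fin n // m ≤ i} => t i i) *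
      v.submatrix (fun i : {i : Fin n // m ≤ i} => (i : Fin n))
        (fun i : {i : Fin n // m ≤ i} => (i : Fin n)) := by
  have ht' : t = Matrix.diagonal fun i => t i i := by
    ext i j
    by_cases h : i = j
    · subst h
      rw [Matrix.diagonal_apply_eq]
    · rw [Matrix.diagonal_apply_ne _ h, ht i j h]
  ext i j
  rw [Matrix.submatrix_apply, Matrix.mul_apply, Matrix.mul_apply]
  conv_lhs => rw [ht']
  simp only [Matrix.mul_diagonal, Matrix.submatrix_apply]
  rw [← Finset.sum_subtype (Finset.univ.filter (m ≤ ·)) (by simp)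
    (fun k : Fin n => u i k * t k k * v k j)]
  refine (Finset.sum_subset (Finset.filter_subset _ _) fun k _ hk => ?_).symm
  have hk' : k < m := by
    rw [Finset.mem_filter, not_and] at hk
    exact not_le.1 (hk (Finset.mem_univ k))
  rw [hu.2 i k (lt_of_lt_of_le hk' i.2), zero_mul, zero_mul]

theorem mnr_mul {u v : Matrix (Fin n) (Fin n) R} (hu : UTri u) (hv : LTri v) (t : Fin n → R)
    (m : Fin n) : mnr (u * Matrix.diagonal t * v) m = ∏ i ∈ Finset.Ici m, t i := by
  unfold mnr
  rw [gl_block m u (Matrix.diagonal t) v hu hv fun i j h => Matrix.diagonal_apply_ne _ h,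
    Matrix.det_mul, Matrix.det_mul, Matrix.det_diagonal,
    Matrix.det_of_upperTriangular (M := u.submatrix (fun i : {i : Fin n // m ≤ i} => (i : Fin n))
      (fun i : {i : Fin n // m ≤ i} => (i : Fin n))) fun i j h => hu.2 _ _ h,
    Matrix.det_of_lowerTriangular (v.submatrix (fun i : {i : Fin n // m ≤ i} => (i : Fin n))
      (fun i : {i : Fin n // m ≤ i} => (i : Fin n))) fun i j h => hv.2 _ _ h]
  simp only [Matrix.submatrix_apply, hu.1, hv.1, Finset.prod_const_one, one_mul, mul_one,
    Matrix.diagonal_apply_eq]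
  rw [← Finset.prod_subtype (Finset.Ici m) (by simp) t]

/-- the matrix with last column `p`, last row `q` and corner `c` -/
private def glx (A : Matrix (Fin n) (Fin n) R) (p q : Fin n → R) (c : R) :
    Matrix (Fin (n + 1)) (Fin (n + 1)) R := fun i j =>
  Fin.lastCases (motive := fun _ => R) (Fin.lastCases (motive := fun _ => R) c q j)
    (fun i' => Fin.lastCases (motive := fun _ => R) (p i') (A i') j) i

private lemma glx_cc (A : Matrix (Fin n) (Fin n) R) (p q : Fin n → R) (c : R) (i j : Fin n) :
    glx A p q c i.castSucc j.castSucc = A i j := by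
  unfold glx
  rw [Fin.lastCases_castSucc, Fin.lastCases_castSucc]

private lemma glx_cl (A : Matrix (Fin n) (Fin n) R) (p q : Fin n → R) (c : R) (i : Fin n) :
    glx A p q c i.castSucc (Fin.last n) = p i := by
  unfold glx
  rw [Fin.lastCases_castSucc, Fin.lastCases_last]

private lemma glx_lc (A : Matrix (Fin n) (Fin n) R) (p q : Fin n → R) (c : R) (j : Fin n) :
    glx A p q c (Fin.last n) j.castSucc = q j := by
  unfold glx
  rw [Fin.lastCases_last, Fin.lastCases_castSucc]

private lemma glx_ll (A : Matrix (Fin n) (Fin n) R) (p q : Fin n → R) (c : R) :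
    glx A p q c (Fin.last n) (Fin.last n) = c := by
  unfold glx
  rw [Fin.lastCases_last, Fin.lastCases_last]

private lemma gl_u {A : Matrix (Fin n) (Fin n) R} (hA : UTri A) (p : Fin n → R) :
    UTri (glx A p 0 1) := by
  constructor
  · intro i
    induction i using Fin.lastCases with
    | last => exact glx_ll _ _ _ _
    | cast i => rw [glx_cc, hA.1]
  · intro i j hij
    induction i using Fin.lastCases with
    | last =>
      induction j using Fin.lastCases with
      | last => exact absurd hij (lt_irrefl _)
      | cast j => rw [glx_lc]; rfl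
    | cast i =>
      induction j using Fin.lastCases with
      | last => exact absurd hij (not_lt.2 (Fin.le_last _))
      | cast j => rw [glx_cc, hA.2 i j (Fin.castSucc_lt_castSucc_iff.1 hij)]

private lemma gl_l {A : Matrix (Fin n) (Fin n) R} (hA : LTri A) (q : Fin n → R) :
    LTri (glx A 0 q 1) := by
  constructor
  · intro i
    induction i using Fin.lastCases with
    | last => exact glx_ll _ _ _ _
    | cast i => rw [glx_cc, hA.1]
  · intro i j hij
    induction j using Fin.lastCases with
    | last =>
      induction i using Fin.lastCases with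
      | last => exact absurd hij (lt_irrefl _)
      | cast i => rw [glx_cl]; rfl
    | cast j =>
      induction i using Fin.lastCases with
      | last => exact absurd hij (not_lt.2 (Fin.le_last _))
      | cast i => rw [glx_cc, hA.2 i j (Fin.castSucc_lt_castSucc_iff.1 hij)]

private lemma gl_last (M : Matrix (Fin (n + 1)) (Fin (n + 1)) R) :
    mnr M (Fin.last n) = M (Fin.last n) (Fin.last n) := by
  unfold mnr
  have : Unique {i : Fin (n + 1) // Fin.last n ≤ i} :=
    { default := ⟨Fin.last n, le_rfl⟩
      uniq := fun i => Subtype.ext (Fin.last_le_iff.1 i.2) }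
  rw [Matrix.det_unique, Matrix.submatrix_apply]
  have h : ∀ i : {i : Fin (n + 1) // Fin.last n ≤ i}, (i : Fin (n + 1)) = Fin.last n :=
    fun i => Fin.last_le_iff.1 i.2
  exact congrArg₂ M (h _) (h _)

private lemma gl_schur (M : Matrix (Fin (n + 1)) (Fin (n + 1)) R) (c : Rˣ)
    (hc : (c : R) = M (Fin.last n) (Fin.last n)) (m : Fin n) :
    mnr M m.castSucc = c * mnr (fun i j : Fin n => M i.castSucc j.castSucc -
      M i.castSucc (Fin.last n) * (c⁻¹ : Rˣ) * M (Fin.last n) j.castSucc) m := by
  let f : {i : Fin n // m ≤ i} ⊕ Unit → {i : Fin (n + 1) // m.castSucc ≤ i} :=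
    Sum.elim (fun i => ⟨i.1.castSucc, Fin.castSucc_le_castSucc_iff.2 i.2⟩)
      (fun _ => ⟨Fin.last n, Fin.le_last _⟩)
  have hf : Function.Bijective f := by
    constructor
    · rintro (i | i) (j | j) h
      · have h1 := congrArg Subtype.val h
        exact congrArg Sum.inl (Subtype.ext (Fin.castSucc_injective n h1))
      · have h1 := congrArg Subtype.val h
        exact absurd h1 (Fin.castSucc_lt_last _).ne
      · have h1 := congrArg Subtype.val h
        exact absurd h1.symm (Fin.castSucc_lt_last _).ne
      · rfl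
    · rintro ⟨i, hi⟩
      induction i using Fin.lastCases with
      | last => exact ⟨Sum.inr (), rfl⟩
      | cast i => exact ⟨Sum.inl ⟨i, Fin.castSucc_le_castSucc_iff.1 hi⟩, rfl⟩
  unfold mnr
  rw [← Matrix.det_submatrix_equiv_self (Equiv.ofBijective f hf)]
  let D : Matrix Unit Unit R := fun _ _ => c
  let : Invertible D :=
    { invOf := fun _ _ => ((c⁻¹ : Rˣ) : R)
      invOf_mul_self := by
        ext i j
        simp [D, Matrix.mul_apply]
      mul_invOf_self := by
        ext i j
        simp [D, Matrix.mul_apply] }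
  have h1 : (M.submatrix (fun i : {i : Fin (n + 1) // m.castSucc ≤ i} => (i : Fin (n + 1)))
      (fun i : {i : Fin (n + 1) // m.castSucc ≤ i} => (i : Fin (n + 1)))).submatrix
      (Equiv.ofBijective f hf) (Equiv.ofBijective f hf) =
      Matrix.fromBlocks (fun i j : {i : Fin n // m ≤ i} => M i.1.castSucc j.1.castSucc)
        (fun i _ => M i.1.castSucc (Fin.last n)) (fun _ j => M (Fin.last n) j.1.castSucc) D := by
    ext i j
    rcases i with i | i <;> rcases j with j | j
    · rfl
    · rfl
    · rfl
    · exact hc.symm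
  rw [h1, Matrix.det_fromBlocks₂₂, Matrix.det_unique]
  congr 2
  ext i j
  rw [Matrix.sub_apply, Matrix.mul_apply, Fintype.sum_unique, Matrix.mul_apply,
    Fintype.sum_unique]
  rfl

theorem exists_udl (M : Matrix (Fin n) (Fin n) R) (h : ∀ m, IsUnit (mnr M m)) :
    ∃ (u v : Matrix (Fin n) (Fin n) R) (t : Fin n → Rˣ), UTri u ∧ LTri v ∧
      M = u * Matrix.diagonal (fun i => (t i : R)) * v := by
  induction n with
  | zero =>
    exact ⟨0, 0, fun i => i.elim0, ⟨fun i => i.elim0, fun i => i.elim0⟩,
      ⟨fun i => i.elim0, fun i => i.elim0⟩, by ext i; exact i.elim0⟩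
  | succ n ih =>
    obtain ⟨c, hc⟩ := h (Fin.last n)
    rw [gl_last] at hc
    obtain ⟨u, v, t, hu, hv, e⟩ := ih (fun i j : Fin n => M i.castSucc j.castSucc -
      M i.castSucc (Fin.last n) * (c⁻¹ : Rˣ) * M (Fin.last n) j.castSucc) (fun m => by
        have h1 := h m.castSucc
        rw [gl_schur M c hc m] at h1
        exact isUnit_of_mul_isUnit_right h1)
    refine ⟨glx u (fun i => M i.castSucc (Fin.last n) * (c⁻¹ : Rˣ)) 0 1,
      glx v 0 (fun j => (c⁻¹ : Rˣ) * M (Fin.last n) j.castSucc) 1,
      fun i => Fin.lastCases (motive := fun _ => Rˣ) c t i, gl_u hu _, gl_l hv _, ?_⟩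
    have hcc : ((c⁻¹ : Rˣ) : R) * c = 1 := c.inv_mul
    ext i j
    rw [Matrix.mul_apply, Fin.sum_univ_castSucc]
    simp only [Matrix.mul_diagonal, Fin.lastCases_castSucc, Fin.lastCases_last]
    induction i using Fin.lastCases with
    | last =>
      induction j using Fin.lastCases with
      | last => simp [glx_ll, glx_lc, glx_cl, hc]
      | cast j =>
        simp only [glx_ll, glx_lc, glx_cc, Pi.zero_apply, zero_mul, Finset.sum_const_zero, zero_add]
        rw [one_mul, ← mul_assoc, mul_comm (c : R), hcc, one_mul]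
    | cast i =>
      induction j using Fin.lastCases with
      | last =>
        simp only [glx_ll, glx_cl, glx_cc, Pi.zero_apply, mul_zero, Finset.sum_const_zero,
          zero_add]
        rw [mul_one, mul_assoc, hcc, mul_one]
      | cast j =>
        simp only [glx_cl, glx_lc, glx_cc]
        have e1 := congrFun (congrFun e i) j
        rw [Matrix.mul_apply] at e1
        simp only [Matrix.mul_diagonal] at e1
        rw [← e1]
        linear_combination (-(M i.castSucc (Fin.last n)) * ((c⁻¹ : Rˣ) : R) *
          M (Fin.last n) j.castSucc) * hcc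

private lemma UTri.mul' {u u' : Matrix (Fin n) (Fin n) R} (hu : UTri u) (hu' : UTri u') :
    UTri (u * u') := by
  constructor
  · intro i
    rw [Matrix.mul_apply, Finset.sum_eq_single i]
    · rw [hu.1, hu'.1, mul_one]
    · intro k _ hk
      rcases lt_or_gt_of_ne hk with h | h
      · rw [hu.2 i k h, zero_mul]
      · rw [hu'.2 k i h, mul_zero]
    · intro h
      exact absurd (Finset.mem_univ i) h
  · intro i j hij
    rw [Matrix.mul_apply]
    refine Finset.sum_eq_zero fun k _ => ?_
    rcases lt_or_ge k i with h | h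
    · rw [hu.2 i k h, zero_mul]
    · rw [hu'.2 k j (lt_of_lt_of_le hij h), mul_zero]

private lemma UTri.exists_inv {u : Matrix (Fin n) (Fin n) R} (hu : UTri u) :
    ∃ w, UTri w ∧ w * u = 1 ∧ u * w = 1 := by
  have hbt : u.BlockTriangular id := fun i j h => hu.2 _ _ h
  have hdet : u.det = 1 := by
    rw [Matrix.det_of_upperTriangular hbt]
    exact Finset.prod_eq_one fun i _ => hu.1 i
  let : Invertible u := u.invertibleOfIsUnitDet (by rw [hdet]; exact isUnit_one)
  have h1 : u⁻¹.BlockTriangular id := Matrix.blockTriangular_inv_of_blockTriangular hbt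
  have h2 : u⁻¹ * u = 1 := Matrix.inv_mul_of_invertible u
  refine ⟨u⁻¹, ⟨fun i => ?_, fun i j h => h1 h⟩, h2, Matrix.mul_inv_of_invertible u⟩
  have h3 := congrFun (congrFun h2 i) i
  rw [Matrix.mul_apply, Finset.sum_eq_single i, hu.1, mul_one, Matrix.one_apply_eq] at h3
  · exact h3
  · intro k _ hk
    rcases lt_or_gt_of_ne hk with h | h
    · rw [h1 h, zero_mul]
    · rw [hu.2 k i h, mul_zero]
  · intro h
    exact absurd (Finset.mem_univ i) h

private lemma LTri.tr {v : Matrix (Fin n) (Fin n) R} (hv : LTri v) : UTri v.transpose :=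
  ⟨fun i => hv.1 i, fun i j h => hv.2 j i h⟩

private lemma UTri.tr {v : Matrix (Fin n) (Fin n) R} (hv : UTri v) : LTri v.transpose :=
  ⟨fun i => hv.1 i, fun i j h => hv.2 j i h⟩

private lemma LTri.exists_inv {v : Matrix (Fin n) (Fin n) R} (hv : LTri v) :
    ∃ w, LTri w ∧ w * v = 1 ∧ v * w = 1 := by
  obtain ⟨w, hw, h1, h2⟩ := hv.tr.exists_inv
  refine ⟨w.transpose, hw.tr, ?_, ?_⟩
  · apply Matrix.transpose_injective
    rw [Matrix.transpose_mul, Matrix.transpose_transpose, h2, Matrix.transpose_one]
  · apply Matrix.transpose_injective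
    rw [Matrix.transpose_mul, Matrix.transpose_transpose, h1, Matrix.transpose_one]

private lemma LTri.mul' {u u' : Matrix (Fin n) (Fin n) R} (hu : LTri u) (hu' : LTri u') :
    LTri (u * u') := by
  have h := (hu'.tr.mul' hu.tr).tr
  rw [Matrix.transpose_mul, Matrix.transpose_transpose, Matrix.transpose_transpose] at h
  exact h

private lemma gl_cmp {w x : Matrix (Fin n) (Fin n) R} (hw : UTri w) (hx : LTri x)
    {t t' : Fin n → Rˣ} (h : w * Matrix.diagonal (fun i => (t i : R)) =
      Matrix.diagonal (fun i => (t' i : R)) * x) : w = 1 ∧ t = t' ∧ x = 1 := by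
  have h1 : ∀ i j, w i j * (t j : R) = (t' i : R) * x i j := by
    intro i j
    have h2 := congrFun (congrFun h i) j
    rw [Matrix.mul_diagonal, Matrix.diagonal_mul] at h2
    exact h2
  refine ⟨?_, ?_, ?_⟩
  · ext i j
    rcases lt_trichotomy i j with h2 | h2 | h2
    · rw [Matrix.one_apply_ne h2.ne]
      have h3 := h1 i j
      rw [hx.2 i j h2, mul_zero] at h3
      exact (t j).mul_left_eq_zero.1 h3
    · subst h2
      rw [Matrix.one_apply_eq, hw.1]
    · rw [Matrix.one_apply_ne h2.ne', hw.2 i j h2]
  · funext i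
    have h3 := h1 i i
    rw [hw.1, hx.1, one_mul, mul_one] at h3
    exact Units.ext h3
  · ext i j
    rcases lt_trichotomy i j with h2 | h2 | h2
    · rw [Matrix.one_apply_ne h2.ne, hx.2 i j h2]
    · subst h2
      rw [Matrix.one_apply_eq, hx.1]
    · rw [Matrix.one_apply_ne h2.ne']
      have h3 := h1 i j
      rw [hw.2 i j h2, zero_mul] at h3
      exact (t' i).mul_right_eq_zero.1 h3.symm

theorem udl_unique {u v u' v' : Matrix (Fin n) (Fin n) R} (hu : UTri u) (hv : LTri v)
    (hu' : UTri u') (hv' : LTri v') {t t' : Fin n → Rˣ}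
    (h : u * Matrix.diagonal (fun i => (t i : R)) * v =
      u' * Matrix.diagonal (fun i => (t' i : R)) * v') : u = u' ∧ t = t' ∧ v = v' := by
  obtain ⟨w, hw, hw1, hw2⟩ := hu'.exists_inv
  obtain ⟨x, hx, hx1, hx2⟩ := hv.exists_inv
  have h1 : (w * u) * Matrix.diagonal (fun i => (t i : R)) =
      Matrix.diagonal (fun i => (t' i : R)) * (v' * x) := by
    calc (w * u) * Matrix.diagonal (fun i => (t i : R))
        = w * (u * Matrix.diagonal (fun i => (t i : R)) * v) * x := by
          simp only [mul_assoc, hx2, mul_one]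
      _ = w * (u' * Matrix.diagonal (fun i => (t' i : R)) * v') * x := by rw [h]
      _ = (w * u') * (Matrix.diagonal (fun i => (t' i : R)) * (v' * x)) := by
          simp only [mul_assoc]
      _ = _ := by rw [hw1, one_mul]
  obtain ⟨h2, h3, h4⟩ := gl_cmp (hw.mul' hu) (hv'.mul' hx) h1
  refine ⟨?_, h3, ?_⟩
  · calc u = (u' * w) * u := by rw [hw2, one_mul]
      _ = u' := by rw [mul_assoc, h2, mul_one]
  · calc v = (v' * x) * v := by rw [h4, one_mul]
      _ = v' := by rw [mul_assoc, hx1, mul_one]

end Pool.Agent.RG
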