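import Pool.Agent.RDG.GLGrp
import Pool.Agent.RDG.GLUdl

/-!
# RDG / GLUNI: coordinates on the unitriangular matrices for every order of the roots

Let `N` and `c : Fin N → GLI n` be an injective map with image `{(a, b) | a < b}`. The entry `(a, b)`, `a < b`, of
`∏_j (1 + s_j E_(c j))` is `s_j + P` for `c j = (a, b)`, where `P` is a polynomial in the `s_l` with
`c l = (a', b')`, `b' - a' < b - a` (expand the product, induction on the number of factors; the matrix entries
`(a, b)` of a partial product are polynomials in the `s_l` with `b' - a' ≤ b - a`, linear in the `s_l` with `b' - a' = b - a`). So by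
induction on `b - a`: `s_j` is a polynomial `m_j` in the entries, and for every unitriangular `u` the solution `s` of these equations
satisfies `upr s = u` (compare entries).

* `gl_coord`: `upr_glx_val`: the value of `upr` is the product of the matrices `1 + s_j E`.
* `gl_coord'`: the lower triangular case, by transposition (`(1 + s E_ab)ᵀ = 1 + s E_ba`; the transposed product is the product in
  the reversed order `c ∘ Fin.rev`).
-/

set_option autoImplicit false

namespace Pool.Agent.RG

open MvPolynomial

variable {n : ℕ} {k : Type*} [Field k]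

section uni_aux

variable {A B : Type*} [CommRing A] [CommRing B] {N : ℕ}

/-- the product of the transvections of a list of indices -/
def glpm (c : Fin N → GLI n) (s : Fin N → A) (L : List (Fin N)) : Matrix (Fin n) (Fin n) A :=
  (L.map fun j => 1 + Matrix.single (c j).1.1 (c j).1.2 (s j)).prod

lemma glpm_map (f : A →+* B) (c : Fin N → GLI n) (s : Fin N → A) (L : List (Fin N)) :
    (glpm c s L).map f = glpm c (fun j => f (s j)) L := by
  have h := map_list_prod f.mapMatrix
    (L.map fun j => (1 + Matrix.single (c j).1.1 (c j).1.2 (s j) : Matrix (Fin n) (Fin n) A))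
  change f.mapMatrix (glpm c s L) = _
  unfold glpm
  rw [h, List.map_map]
  congr 1
  refine List.map_congr_left fun j _ => ?_
  change f.mapMatrix (1 + Matrix.single (c j).1.1 (c j).1.2 (s j)) = _
  rw [map_add, map_one]
  congr 1
  ext a b
  simp only [RingHom.mapMatrix_apply, Matrix.map_apply, Matrix.single, Matrix.of_apply]
  split_ifs
  · rfl
  · exact map_zero f

lemma glpm_cons_apply (c : Fin N → GLI n) (s : Fin N → A) (l : Fin N) (L : List (Fin N))
    (a b : Fin n) : glpm c s (l :: L) a b = glpm c s L a b +
      if a = (c l).1.1 then s l * glpm c s L (c l).1.2 b else 0 := by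
  have h : glpm c s (l :: L) =
      (1 + Matrix.single (c l).1.1 (c l).1.2 (s l)) * glpm c s L := by
    unfold glpm
    rw [List.map_cons, List.prod_cons]
  rw [h, add_mul, one_mul, Matrix.add_apply]
  congr 1
  split_ifs with h1
  · subst h1
    rw [Matrix.single_mul_apply_same]
  · rw [Matrix.single_mul_apply_of_ne]
    exact h1

/-- unitriangular matrices with respect to the order given by `h` -/
def UH (h : Fin n → ℤ) (u : Matrix (Fin n) (Fin n) A) : Prop :=
  (∀ i, u i i = 1) ∧ ∀ i j, h j < h i → u i j = 0

lemma glpm_UH {h : Fin n → ℤ} {c : Fin N → GLI n} (hup : ∀ j, h (c j).1.1 < h (c j).1.2)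
    (s : Fin N → A) (L : List (Fin N)) : UH h (glpm c s L) := by
  induction L with
  | nil =>
    refine ⟨fun i => ?_, fun i j hij => ?_⟩
    · simp [glpm]
    · have : i ≠ j := by
        rintro rfl
        exact lt_irrefl _ hij
      simp [glpm, this]
  | cons l L ih =>
    refine ⟨fun i => ?_, fun i j hij => ?_⟩
    · rw [glpm_cons_apply, ih.1]
      split_ifs with h1
      · subst h1
        rw [ih.2 _ _ (hup l), mul_zero, add_zero]
      · rw [add_zero]
    · rw [glpm_cons_apply, ih.2 _ _ hij]
      split_ifs with h1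
      · subst h1
        rw [ih.2 _ _ (hij.trans (hup l)), mul_zero, add_zero]
      · rw [add_zero]

/-- the linear part of an entry -/
noncomputable def glq (k : Type*) [Field k] (c : Fin N → GLI n) (L : List (Fin N)) (a b : Fin n) :
    MvPolynomial (Fin N) k :=
  (L.map fun j => if (c j).1 = (a, b) then (X j : MvPolynomial (Fin N) k) else 0).sum

lemma glq_mem {h : Fin n → ℤ} {c : Fin N → GLI n} (L : List (Fin N)) (a b : Fin n) {d : ℤ}
    (hd : h b - h a < d) :
    glq k c L a b ∈ supported k {l : Fin N | h (c l).1.2 - h (c l).1.1 < d} := by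
  induction L with
  | nil =>
    have : glq k c [] a b = 0 := rfl
    rw [this]
    exact Subalgebra.zero_mem _
  | cons l L ih =>
    have : glq k c (l :: L) a b =
        (if (c l).1 = (a, b) then (X l : MvPolynomial (Fin N) k) else 0) + glq k c L a b := rfl
    rw [this]
    refine Subalgebra.add_mem _ ?_ ih
    split_ifs with h1
    · rw [X_mem_supported]
      change h (c l).1.2 - h (c l).1.1 < d
      rw [h1]
      exact hd
    · exact Subalgebra.zero_mem _

lemma glpm_sub {h : Fin n → ℤ} (hinj : Function.Injective h) {c : Fin N → GLI n}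
    (hup : ∀ j, h (c j).1.1 < h (c j).1.2) (L : List (Fin N)) (a b : Fin n) (hab : h a < h b) :
    glpm c (X : Fin N → MvPolynomial (Fin N) k) L a b - glq k c L a b ∈
      supported k {l : Fin N | h (c l).1.2 - h (c l).1.1 < h b - h a} := by
  induction L generalizing a b with
  | nil =>
    have hne : a ≠ b := by
      rintro rfl
      exact lt_irrefl _ hab
    have : glpm c (X : Fin N → MvPolynomial (Fin N) k) [] a b - glq k c [] a b = 0 := by
      simp [glpm, glq, hne]
    rw [this]
    exact Subalgebra.zero_mem _
  | cons l L ih =>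
    have e1 : glq k c (l :: L) a b =
        (if (c l).1 = (a, b) then (X l : MvPolynomial (Fin N) k) else 0) + glq k c L a b := rfl
    rw [glpm_cons_apply, e1]
    have e2 : glpm c (X : Fin N → MvPolynomial (Fin N) k) L a b +
        (if a = (c l).1.1 then X l * glpm c X L (c l).1.2 b else 0) -
        ((if (c l).1 = (a, b) then (X l : MvPolynomial (Fin N) k) else 0) + glq k c L a b) =
        (glpm c X L a b - glq k c L a b) +
        ((if a = (c l).1.1 then X l * glpm c X L (c l).1.2 b else 0) -
          (if (c l).1 = (a, b) then (X l : MvPolynomial (Fin N) k) else 0)) := by ring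
    rw [e2]
    refine Subalgebra.add_mem _ (ih a b hab) ?_
    by_cases h1 : a = (c l).1.1
    · rw [if_pos h1]
      rcases lt_trichotomy (h (c l).1.2) (h b) with h2 | h2 | h2
      · have h3 : ¬ (c l).1 = (a, b) := by
          intro h4
          rw [h4] at h2
          exact lt_irrefl _ h2
        rw [if_neg h3, sub_zero]
        have h5 := hup l
        refine Subalgebra.mul_mem _ ?_ ?_
        · rw [X_mem_supported]
          change h (c l).1.2 - h (c l).1.1 < h b - h a
          rw [h1]
          omega
        · have h6 := ih (c l).1.2 b h2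
          have h7 : glpm c (X : Fin N → MvPolynomial (Fin N) k) L (c l).1.2 b =
              (glpm c X L (c l).1.2 b - glq k c L (c l).1.2 b) + glq k c L (c l).1.2 b := by ring
          rw [h7]
          have h8 : h b - h (c l).1.2 < h b - h a := by
            rw [h1]
            omega
          refine Subalgebra.add_mem _ ?_ (glq_mem L _ _ h8)
          refine supported_mono (R := k) ?_ h6
          intro x hx
          exact lt_trans (show h (c x).1.2 - h (c x).1.1 < h b - h (c l).1.2 from hx) h8
      · have h3 : (c l).1.2 = b := hinj h2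
        have h4 : (c l).1 = (a, b) := by
          rw [h1, ← h3]
        rw [if_pos h4, h3, (glpm_UH hup _ L).1 b, mul_one, sub_self]
        exact Subalgebra.zero_mem _
      · have h3 : ¬ (c l).1 = (a, b) := by
          intro h4
          rw [h4] at h2
          exact lt_irrefl _ h2
        rw [if_neg h3, (glpm_UH hup _ L).2 _ _ h2, mul_zero, sub_zero]
        exact Subalgebra.zero_mem _
    · have h3 : ¬ (c l).1 = (a, b) := by
        intro h4
        exact h1 (by rw [h4])
      rw [if_neg h1, if_neg h3, sub_zero]
      exact Subalgebra.zero_mem _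

lemma gl_aeval_congr [Algebra k B] {S : Set (Fin N)} {p : MvPolynomial (Fin N) k}
    (hp : p ∈ supported k S) {m m' : Fin N → B} (h : ∀ l ∈ S, m l = m' l) :
    aeval m p = aeval m' p := by
  have h1 := (mem_supported (R := k)).1 hp
  have h2 : eval₂Hom (algebraMap k B) m p = eval₂Hom (algebraMap k B) m' p :=
    eval₂Hom_congr' rfl (fun i hi _ => h i (h1 hi)) rfl
  exact h2

lemma gl_tri_uniq [Algebra k B] (g : Fin N → ℕ) (R : Fin N → MvPolynomial (Fin N) k)
    (hR : ∀ j, R j ∈ supported k {l | g l < g j}) {m m' : Fin N → B}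
    (h : ∀ j, m j + aeval m (R j) = m' j + aeval m' (R j)) : m = m' := by
  have key : ∀ t : ℕ, ∀ j, g j < t → m j = m' j := by
    intro t
    induction t with
    | zero =>
      intro j hj
      exact absurd hj (Nat.not_lt_zero _)
    | succ t ih =>
      intro j hj
      have h1 : aeval m (R j) = aeval m' (R j) :=
        gl_aeval_congr (hR j) fun l hl => ih l (by
          have : g l < g j := hl
          omega)
      have h2 := h j
      rw [h1] at h2
      exact add_right_cancel h2
  funext j
  exact key (g j + 1) j (Nat.lt_succ_self _)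

lemma gl_tri_ex [Algebra k B] (g : Fin N → ℕ) (R : Fin N → MvPolynomial (Fin N) k)
    (hR : ∀ j, R j ∈ supported k {l | g l < g j}) (y : Fin N → B) :
    ∃ m : Fin N → B, ∀ j, m j + aeval m (R j) = y j := by
  let Φ : (Fin N → B) → (Fin N → B) := fun m j => y j - aeval m (R j)
  have key : ∀ t : ℕ, ∀ j, g j < t → Φ^[t + 1] 0 j = Φ^[t] 0 j := by
    intro t
    induction t with
    | zero =>
      intro j hj
      exact absurd hj (Nat.not_lt_zero _)
    | succ t ih =>
      intro j hj
      have e1 : Φ^[t + 1 + 1] 0 j = y j - aeval (Φ^[t + 1] 0) (R j) := by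
        rw [Function.iterate_succ_apply' (n := t + 1)]
      have e2 : Φ^[t + 1] 0 j = y j - aeval (Φ^[t] 0) (R j) := by
        rw [Function.iterate_succ_apply']
      rw [e1, e2]
      congr 1
      exact gl_aeval_congr (hR j) fun l hl => ih l (by
        have : g l < g j := hl
        omega)
  let D := (Finset.univ.sup g) + 1
  refine ⟨Φ^[D] 0, fun j => ?_⟩
  have h1 := key D j (Nat.lt_succ_of_le (Finset.le_sup (Finset.mem_univ j)))
  rw [Function.iterate_succ_apply'] at h1
  have h2 : Φ (Φ^[D] 0) j = y j - aeval (Φ^[D] 0) (R j) := rfl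
  rw [h2] at h1
  rw [← h1]
  ring

lemma upr_glpm (c : Fin N → GLI n) (s : Fin N → k) :
    (upr (fun j => glx (c j)) s).1 = glpm c s (List.finRange N) := by
  unfold upr glpm
  have h := map_list_prod (Units.coeHom (Matrix (Fin n) (Fin n) k))
    (List.ofFn fun j => glx (c j) (s j))
  change Units.coeHom (Matrix (Fin n) (Fin n) k) (List.ofFn fun j => glx (c j) (s j)).prod = _
  rw [h, List.ofFn_eq_map, List.map_map]
  congr 1
  refine List.map_congr_left fun j _ => ?_
  exact glx_eq (c j) (s j)

lemma gl_coord_h {h : Fin n → ℤ} (hinj : Function.Injective h) {c : Fin N → GLI n}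
    (hc : Function.Injective c) (hup : ∀ j, h (c j).1.1 < h (c j).1.2)
    (h' : ∀ p : GLI n, h p.1.1 < h p.1.2 → ∃ j, c j = p) :
    ∃ m : Fin N → MvPolynomial (Fin n × Fin n) k,
      (∀ (s : Fin N → k) j, s j =
        eval (fun q => (upr (fun j => glx (c j)) s).1 q.1 q.2) (m j)) ∧
      ∀ u : Matrix (Fin n) (Fin n) k, UH h u →
        u = (upr (fun j => glx (c j)) fun j => eval (fun q => u q.1 q.2) (m j)).1 := by
  let g : Fin N → ℕ := fun j => (h (c j).1.2 - h (c j).1.1).toNat
  let R : Fin N → MvPolynomial (Fin N) k := fun j =>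
    glpm c (X : Fin N → MvPolynomial (Fin N) k) (List.finRange N) (c j).1.1 (c j).1.2 - X j
  have hq : ∀ j, glq k c (List.finRange N) (c j).1.1 (c j).1.2 = X j := by
    intro j
    unfold glq
    rw [← Fin.sum_univ_def, Finset.sum_eq_single j]
    · rw [if_pos rfl]
    · intro l _ hl
      rw [if_neg]
      intro h1
      exact hl (hc (Subtype.ext h1))
    · intro h1
      exact absurd (Finset.mem_univ j) h1
  have hR : ∀ j, R j ∈ supported k {l | g l < g j} := by
    intro j
    have h1 := glpm_sub (k := k) hinj hup (List.finRange N) (c j).1.1 (c j).1.2 (hup j)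
    rw [hq] at h1
    refine supported_mono (R := k) ?_ h1
    intro l hl
    have h2 : h (c l).1.2 - h (c l).1.1 < h (c j).1.2 - h (c j).1.1 := hl
    have h3 := hup l
    change (h (c l).1.2 - h (c l).1.1).toNat < (h (c j).1.2 - h (c j).1.1).toNat
    omega
  -- the entries of the product
  have hent : ∀ (s : Fin N → k) j, glpm c s (List.finRange N) (c j).1.1 (c j).1.2 =
      s j + aeval s (R j) := by
    intro s j
    have h1 := glpm_map (aeval s : MvPolynomial (Fin N) k →ₐ[k] k).toRingHom c
      (X : Fin N → MvPolynomial (Fin N) k) (List.finRange N)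
    have h2 : (fun j => (aeval s : MvPolynomial (Fin N) k →ₐ[k] k).toRingHom (X j)) = s := by
      funext l
      exact aeval_X s l
    rw [h2] at h1
    rw [← h1]
    change aeval s (glpm c X (List.finRange N) (c j).1.1 (c j).1.2) = _
    have h3 : glpm c (X : Fin N → MvPolynomial (Fin N) k) (List.finRange N)
        (c j).1.1 (c j).1.2 = X j + R j := by
      change _ = X j + (glpm c X (List.finRange N) (c j).1.1 (c j).1.2 - X j)
      ring
    rw [h3, map_add, aeval_X]
  obtain ⟨m, hm⟩ := gl_tri_ex (B := MvPolynomial (Fin n × Fin n) k) g R hR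
    (fun j => X ((c j).1.1, (c j).1.2))
  have hmev : ∀ (u : Matrix (Fin n) (Fin n) k) j,
      eval (fun q => u q.1 q.2) (m j) +
        aeval (fun l => eval (fun q => u q.1 q.2) (m l)) (R j) = u (c j).1.1 (c j).1.2 := by
    intro u j
    have h1 := congrArg (aeval (fun q : Fin n × Fin n => u q.1 q.2) :
      MvPolynomial (Fin n × Fin n) k →ₐ[k] k) (hm j)
    rw [map_add, aeval_X] at h1
    have h2 : aeval (fun q : Fin n × Fin n => u q.1 q.2) (aeval m (R j)) =
        aeval (fun l => eval (fun q => u q.1 q.2) (m l)) (R j) := by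
      have h3 := MvPolynomial.comp_aeval_apply m
        (aeval (fun q : Fin n × Fin n => u q.1 q.2) : MvPolynomial (Fin n × Fin n) k →ₐ[k] k)
        (R j)
      rw [h3]
      rfl
    rw [h2] at h1
    exact h1
  refine ⟨m, fun s j => ?_, fun u hu => ?_⟩
  · have h1 := hmev (upr (fun j => glx (c j)) s).1
    have h2 : s = fun l => eval (fun q => (upr (fun j => glx (c j)) s).1 q.1 q.2) (m l) := by
      refine gl_tri_uniq g R hR fun j => ?_
      rw [h1 j, upr_glpm, hent s j]
    exact congrFun h2 j
  · have h1 := hmev u
    set m' : Fin N → k := fun l => eval (fun q => u q.1 q.2) (m l) with hm'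
    rw [upr_glpm]
    have hU := glpm_UH hup m' (List.finRange N)
    ext a b
    rcases lt_trichotomy (h a) (h b) with h2 | h2 | h2
    · have hne : a ≠ b := by
        rintro rfl
        exact lt_irrefl _ h2
      obtain ⟨j, hj⟩ := h' ⟨(a, b), hne⟩ h2
      have h3 := h1 j
      have h4 := hent m' j
      rw [hj] at h3 h4
      change _ = u a b at h3
      change glpm c m' (List.finRange N) a b = _ at h4
      rw [h4, ← h3]
    · have h3 : a = b := hinj h2
      subst h3
      rw [hu.1, hU.1]
    · rw [hu.2 a b h2, hU.2 a b h2]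

lemma gl_up_inj : Function.Injective (fun i : Fin n => ((i : ℕ) : ℤ)) := by
  intro i j h
  exact Fin.ext (by simpa using h)

lemma gl_lo_inj : Function.Injective (fun i : Fin n => -((i : ℕ) : ℤ)) := by
  intro i j h
  exact Fin.ext (by simpa using h)

lemma UH_up {u : Matrix (Fin n) (Fin n) A} : UH (fun i : Fin n => ((i : ℕ) : ℤ)) u ↔ UTri u := by
  refine and_congr Iff.rfl ?_
  refine forall_congr' fun i => forall_congr' fun j => ?_
  simp only [Nat.cast_lt, Fin.val_fin_lt]

lemma UH_lo {u : Matrix (Fin n) (Fin n) A} : UH (fun i : Fin n => -((i : ℕ) : ℤ)) u ↔ LTri u := by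
  refine and_congr Iff.rfl ?_
  refine forall_congr' fun i => forall_congr' fun j => ?_
  simp only [neg_lt_neg_iff, Nat.cast_lt, Fin.val_fin_lt]

end uni_aux

lemma upr_utri {N : ℕ} {c : Fin N → GLI n} (h : ∀ j, (c j).1.1 < (c j).1.2) (s : Fin N → k) :
    UTri (upr (fun j => glx (c j)) s).1 := by
  rw [upr_glpm, ← UH_up]
  exact glpm_UH (fun j => by
    have := h j
    simpa using this) s _

lemma upr_ltri {N : ℕ} {c : Fin N → GLI n} (h : ∀ j, (c j).1.2 < (c j).1.1) (s : Fin N → k) :
    LTri (upr (fun j => glx (c j)) s).1 := by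
  rw [upr_glpm, ← UH_lo]
  exact glpm_UH (fun j => by
    have := h j
    simpa using this) s _

theorem gl_coord {N : ℕ} {c : Fin N → GLI n} (hc : Function.Injective c)
    (h : ∀ j, (c j).1.1 < (c j).1.2) (h' : ∀ p : GLI n, p.1.1 < p.1.2 → ∃ j, c j = p) :
    ∃ m : Fin N → MvPolynomial (Fin n × Fin n) k,
      (∀ (s : Fin N → k) j, s j =
        eval (fun q => (upr (fun j => glx (c j)) s).1 q.1 q.2) (m j)) ∧
      ∀ u : Matrix (Fin n) (Fin n) k, UTri u →
        u = (upr (fun j => glx (c j)) fun j => eval (fun q => u q.1 q.2) (m j)).1 := by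
  obtain ⟨m, h1, h2⟩ := gl_coord_h (k := k) gl_up_inj hc (fun j => by
    have := h j
    simpa using this) (fun p hp => h' p (by simpa using hp))
  exact ⟨m, h1, fun u hu => h2 u (UH_up.2 hu)⟩

theorem gl_coord' {N : ℕ} {c : Fin N → GLI n} (hc : Function.Injective c)
    (h : ∀ j, (c j).1.2 < (c j).1.1) (h' : ∀ p : GLI n, p.1.2 < p.1.1 → ∃ j, c j = p) :
    ∃ m : Fin N → MvPolynomial (Fin n × Fin n) k,
      (∀ (s : Fin N → k) j, s j =
        eval (fun q => (upr (fun j => glx (c j)) s).1 q.1 q.2) (m j)) ∧
      ∀ v : Matrix (Fin n) (Fin n) k, LTri v →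
        v = (upr (fun j => glx (c j)) fun j => eval (fun q => v q.1 q.2) (m j)).1 := by
  obtain ⟨m, h1, h2⟩ := gl_coord_h (k := k) gl_lo_inj hc (fun j => by
    have := h j
    simpa using this) (fun p hp => h' p (by simpa using hp))
  exact ⟨m, h1, fun u hu => h2 u (UH_lo.2 hu)⟩

end Pool.Agent.RG
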