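import Pool.Agent.RDG.Conj

/-!
# RG / GEN: the unipotent groups are generated by the simple root subgroups

* `pair_dense`: `a`, `c` are linearly independent over `ℤ`. There is `y : X →+ ℤ` with `y c = 0`,
  `d = y a ≠ 0` (`X` finitely generated free). For `τ ∈ kˣ` let `z(x) = τ ^ y(x)`: so
  `(τ ^ d, 1)` is in the set, hence `(τ ^ d - τ' ^ d, 0)` is in the additive group. `1 = τ ^ d - τ' ^ d`
  for suitable `τ, τ' ≠ 0` (choose `τ'` with `1 + τ' ^ d ≠ 0` and a `d`-th root, `k` algebraically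
  closed, infinite).
* `split`: `H` is a subgroup stable under the torus, `h = upr xp s ∈ H`. It suffices to show: if
  `h ∈ H`, `h = x_m(s_m) x_{m+1}(s_{m+1}) ...` (`s_j = 0` for `j < m`), then `x_m(s_m) ∈ H` (then
  replace `h` by `x_m(s_m)⁻¹ h`). Claim: for every `n > m` there is `h_n ∈ H` with
  `h_n ∈ x_m(s_m) U_{≥n}`, `U_{≥n}` the group generated by `xp l`, `l ≥ n`. Given
  `h_n = x_m(s_m) x_n(e) u`, `u ∈ U_{≥n+1}`: `U_{≥n+1}` is normal in `U_{≥m}` and `x_n` is central in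
  `U_{≥m}` modulo `U_{≥n+1}` (`comm_xp`). By `pair_dense` (for the roots `m` and `n`, which are not
  proportional: `nonprop`) `∑ ε_i (ch (root m) z_i, ch (root n) z_i) = (1, 0)` with `ε_i = ± 1`; the
  product of the `(t z_i * h_n * (t z_i)⁻¹) ^ ε_i ∈ H` is in `x_m(s_m) x_n(0) U_{≥n+1}`.
  For `n = N` this is the claim.
* `full`: `ch (root j) z` takes all values in `kˣ` (`root j ≠ 0`, `k` algebraically closed).
* `gen_U`: let `H` be the group generated by the simple `xp j`, `i` simple and `M` the group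
  generated by all `x_i(c) x_j(s) x_i(c)⁻¹` with `c ≠ 0`, `j ≠ i` simple. `M` is stable under the torus,
  `M ≤ UI i`. Since the `j`-th coordinate of `x_i(c) x_j(s) x_i(c)⁻¹ = upr xp q` is `q_j = s`
  (`mul_simple` twice), `split` gives `x_j(s) ∈ M`. So `M` is normalised by `x_i(k)`, `H = x_i(k) M`.
  `nn i * M * (nn i)⁻¹ ≤ M`: `wl * up c = up (-c⁻¹) * dg (-c⁻¹) * lo (c⁻¹)`; `x_{-i}` commutes with
  `x_j` (`comm`: there is no root `m α_j - n α_i` with `m, n > 0`, simple roots are a base), `dg` maps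
  `x_j(s)` to `x_j(s')` (`φ_dg`, `x_t`), so
  `nn i * (x_i(c) x_j(s) x_i(c)⁻¹) * (nn i)⁻¹ = x_i(-c⁻¹) x_j(s') x_i(-c⁻¹)⁻¹ ∈ M`.
  Now every positive root `q` has `xp q r ∈ H`: induction `RootPairing.Base.IsPos.induction_on_reflect`
  (with the statement `q` or `-q`, whichever is positive): if it holds for `q ≠ i`, then
  `xp q r = x_i(c) n'` with `n' ∈ M ≤ UI i`, and `c = 0` by the `i`-th coordinate (`mem_UI`,
  `mul_simple`), so `xp q r ∈ M` and `nn i * xp q r * (nn i)⁻¹ = xp (s_i q) (c_q r) ∈ M`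
  (`nn_conj`).
-/

set_option autoImplicit false

open MvPolynomial

namespace Pool.Agent.RG

section abs

variable {k Γ : Type*} [Field k] [Group Γ] {N : ℕ}

/-- the group generated by the root subgroups from `n` on -/
private def gU (x : Fin N → k → Γ) (n : ℕ) : Subgroup Γ :=
  Subgroup.closure (⋃ m : Fin N, ⋃ (_ : n ≤ m.val), Set.range (x m))

variable {x : Fin N → k → Γ}

private lemma gU_mem {n : ℕ} {m : Fin N} (h : n ≤ m.val) (s : k) : x m s ∈ gU x n :=
  Subgroup.subset_closure (Set.mem_iUnion.2 ⟨m, Set.mem_iUnion.2 ⟨h, ⟨s, rfl⟩⟩⟩)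

private lemma gU_le {n : ℕ} {H : Subgroup Γ} (h : ∀ m : Fin N, n ≤ m.val → ∀ s, x m s ∈ H) :
    gU x n ≤ H := by
  refine (Subgroup.closure_le H).2 fun y hy => ?_
  obtain ⟨m, hm⟩ := Set.mem_iUnion.1 hy
  obtain ⟨hn, s, rfl⟩ := Set.mem_iUnion.1 hm
  exact h m hn s

private lemma gU_anti {n n' : ℕ} (h : n ≤ n') : gU x n' ≤ gU x n :=
  gU_le fun _ hm s => gU_mem (h.trans hm) s

private lemma gU_top {u : Γ} (hu : u ∈ gU x N) : u = 1 := by
  have h : gU x N ≤ ⊥ := gU_le fun m hm s => absurd m.isLt (not_lt.2 hm)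
  exact (Subgroup.mem_bot).1 (h hu)

variable (hadd : ∀ j s r, x j (s + r) = x j s * x j r)

include hadd in
private lemma gx_zero (j : Fin N) : x j 0 = 1 := by
  have h := hadd j 0 0
  rw [add_zero] at h
  exact (mul_eq_left.1 h.symm)

include hadd in
private lemma gx_neg (j : Fin N) (s : k) : x j (-s) = (x j s)⁻¹ := by
  have h := hadd j (-s) s
  rw [neg_add_cancel, gx_zero hadd] at h
  exact eq_inv_of_mul_eq_one_left h.symm

variable (hcomm : ∀ j l : Fin N, j < l → ∀ s r, x j s * x l r * (x j s)⁻¹ * (x l r)⁻¹ ∈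
      Subgroup.closure (⋃ m, ⋃ (_ : l < m), Set.range (x m)))

include hcomm in
private lemma gcomm1 (j l : Fin N) (h : j < l) (s r : k) :
    x j s * x l r * (x j s)⁻¹ * (x l r)⁻¹ ∈ gU x (l.val + 1) := hcomm j l h s r

include hadd hcomm in
private lemma gcomm (j l : Fin N) (s r : k) :
    x j s * x l r * (x j s)⁻¹ * (x l r)⁻¹ ∈ gU x (l.val + 1) := by
  rcases lt_trichotomy j l with h | h | h
  · exact gcomm1 hcomm j l h s r
  · subst h
    have h1 : x j s * x j r * (x j s)⁻¹ * (x j r)⁻¹ = 1 := by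
      rw [← hadd, add_comm, hadd, mul_inv_cancel_right, mul_inv_cancel]
    rw [h1]
    exact Subgroup.one_mem _
  · have h1 := (gU x (l.val + 1)).inv_mem (gU_anti (by
      have : l.val < j.val := h
      omega) (gcomm1 hcomm l j h r s))
    have h2 : (x l r * x j s * (x l r)⁻¹ * (x j s)⁻¹)⁻¹ =
        x j s * x l r * (x j s)⁻¹ * (x l r)⁻¹ := by group
    rwa [h2] at h1

include hadd hcomm in
private lemma gnorm {w : Γ} (hw : w ∈ gU x 0) (n : ℕ) {v : Γ} (hv : v ∈ gU x n) :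
    w * v * w⁻¹ ∈ gU x n := by
  have h1 : ∀ (j : Fin N) (s : k), ∀ v ∈ gU x n, x j s * v * (x j s)⁻¹ ∈ gU x n := by
    intro j s v hv
    have h2 : gU x n ≤ (gU x n).comap (MulAut.conj (x j s)).toMonoidHom := by
      refine gU_le fun m hm r => ?_
      change x j s * x m r * (x j s)⁻¹ ∈ gU x n
      have h3 := (gU x n).mul_mem (gU_anti (by omega) (gcomm hadd hcomm j m s r)) (gU_mem hm r)
      rwa [inv_mul_cancel_right] at h3
    exact h2 hv
  have h2 : gU x 0 ≤ Subgroup.normalizer (gU x n) := by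
    refine gU_le fun j _ s => ?_
    rw [Subgroup.mem_normalizer_iff]
    intro h
    refine ⟨h1 j s h, fun h3 => ?_⟩
    have h4 := h1 j (-s) _ h3
    rw [gx_neg hadd] at h4
    have h5 : (x j s)⁻¹ * (x j s * h * (x j s)⁻¹) * (x j s)⁻¹⁻¹ = h := by group
    rwa [h5] at h4
  exact (Subgroup.mem_normalizer_iff.1 (h2 hw) v).1 hv

include hadd hcomm in
private lemma gcentr {w : Γ} (hw : w ∈ gU x 0) (n : Fin N) (r : k) :
    w * x n r * w⁻¹ * (x n r)⁻¹ ∈ gU x (n.val + 1) := by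
  induction hw using Subgroup.closure_induction with
  | mem y hy =>
    obtain ⟨m, hm⟩ := Set.mem_iUnion.1 hy
    obtain ⟨hn, s, rfl⟩ := Set.mem_iUnion.1 hm
    exact gcomm hadd hcomm m n s r
  | one =>
    have h1 : (1 : Γ) * x n r * (1 : Γ)⁻¹ * (x n r)⁻¹ = 1 := by group
    rw [h1]
    exact Subgroup.one_mem _
  | mul a c ha hc iha ihc =>
    have h1 := gnorm hadd hcomm (w := a) ha _ ihc
    have h2 := Subgroup.mul_mem _ h1 iha
    have h3 : a * (c * x n r * c⁻¹ * (x n r)⁻¹) * a⁻¹ * (a * x n r * a⁻¹ * (x n r)⁻¹) =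
        a * c * x n r * (a * c)⁻¹ * (x n r)⁻¹ := by group
    rwa [h3] at h2
  | inv a ha iha =>
    have h1 := gnorm hadd hcomm (w := a⁻¹) ((gU x 0).inv_mem ha) _ (Subgroup.inv_mem _ iha)
    have h3 : a⁻¹ * (a * x n r * a⁻¹ * (x n r)⁻¹)⁻¹ * a⁻¹⁻¹ =
        a⁻¹ * x n r * a⁻¹⁻¹ * (x n r)⁻¹ := by group
    rwa [h3] at h1

include hadd hcomm in
private lemma gdecomp (n : Fin N) {v : Γ} (hv : v ∈ gU x n.val) :
    ∃ e, ∃ u ∈ gU x (n.val + 1), v = x n e * u := by
  induction hv using Subgroup.closure_induction with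
  | mem y hy =>
    obtain ⟨m, hm⟩ := Set.mem_iUnion.1 hy
    obtain ⟨hn, s, rfl⟩ := Set.mem_iUnion.1 hm
    rcases Nat.eq_or_lt_of_le hn with h | h
    · have : n = m := Fin.ext h
      subst this
      exact ⟨s, 1, Subgroup.one_mem _, (mul_one _).symm⟩
    · exact ⟨0, x m s, gU_mem h s, by rw [gx_zero hadd, one_mul]⟩
  | one => exact ⟨0, 1, Subgroup.one_mem _, by rw [gx_zero hadd, one_mul]⟩
  | mul a c ha hc iha ihc =>
    obtain ⟨e, u, hu, rfl⟩ := iha
    obtain ⟨e', u', hu', rfl⟩ := ihc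
    have h1 := gnorm hadd hcomm (w := x n (-e')) (gU_mem (Nat.zero_le _) _) _ hu
    refine ⟨e + e', _, Subgroup.mul_mem _ h1 hu', ?_⟩
    rw [gx_neg hadd, hadd]
    group
  | inv a ha iha =>
    obtain ⟨e, u, hu, rfl⟩ := iha
    have h1 := gnorm hadd hcomm (w := x n e) (gU_mem (Nat.zero_le _) _) _ (Subgroup.inv_mem _ hu)
    refine ⟨-e, _, h1, ?_⟩
    rw [gx_neg hadd]
    group

/-- the partial products -/
private def gpp (x : Fin N → k → Γ) (s : Fin N → k) (m : ℕ) : Γ :=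
  ((List.ofFn fun j => x j (s j)).drop m).prod

private lemma gpp_zero (s : Fin N → k) : gpp x s 0 = upr x s := by
  rw [gpp, List.drop_zero, upr]

private lemma gpp_succ (s : Fin N → k) (m : Fin N) :
    gpp x s m.val = x m (s m) * gpp x s (m.val + 1) := by
  have h : m.val < (List.ofFn fun j => x j (s j)).length := by
    rw [List.length_ofFn]
    exact m.isLt
  rw [gpp, List.drop_eq_getElem_cons h, List.prod_cons, List.getElem_ofFn]
  rfl

private lemma gpp_mem (s : Fin N → k) (m : ℕ) : gpp x s m ∈ gU x m := by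
  refine Subgroup.list_prod_mem _ fun y hy => ?_
  obtain ⟨i, hi, rfl⟩ := List.mem_iff_getElem.1 hy
  rw [List.getElem_drop, List.getElem_ofFn]
  exact gU_mem (Nat.le_add_right _ _) _

variable {T : Type*} {t : T → Γ} {w : Fin N → T → k}
  (ht : ∀ j z s, t z * x j s * (t z)⁻¹ = x j (w j z * s))
  (hdense : ∀ m n : Fin N, m ≠ n → ((1 : k), (0 : k)) ∈ AddSubgroup.closure
      (Set.range fun z : T => (w m z, w n z)))

include ht in
private lemma gU_t (z : T) {n : ℕ} {u : Γ} (hu : u ∈ gU x n) : t z * u * (t z)⁻¹ ∈ gU x n := by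
  have h2 : gU x n ≤ (gU x n).comap (MulAut.conj (t z)).toMonoidHom := by
    refine gU_le fun m hm r => ?_
    change t z * x m r * (t z)⁻¹ ∈ gU x n
    rw [ht]
    exact gU_mem hm _
  exact h2 hu

include hadd hcomm ht hdense in
private lemma gstep (H : Subgroup Γ) (hT : ∀ z, ∀ h ∈ H, t z * h * (t z)⁻¹ ∈ H) (m n : Fin N)
    (hmn : m ≠ n) (c e : k) {u : Γ} (hu : u ∈ gU x (n.val + 1))
    (h : x m c * x n e * u ∈ H) : ∃ u' ∈ gU x (n.val + 1), x m c * u' ∈ H := by
  let B : AddSubgroup (k × k) :=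
    { carrier := {p | ∃ u ∈ gU x (n.val + 1), x m (p.1 * c) * x n (p.2 * e) * u ∈ H}
      add_mem' := by
        rintro ⟨a, b⟩ ⟨a', b'⟩ ⟨u, hu, h⟩ ⟨u', hu', h'⟩
        have h1 := H.mul_mem h h'
        set p := x m (a * c)
        set q := x n (b * e)
        set p' := x m (a' * c) with hp'
        set q' := x n (b' * e)
        have hp0 : p' ∈ gU x 0 := gU_mem (Nat.zero_le _) _
        have hq0 : q ∈ gU x 0 := gU_mem (Nat.zero_le _) _
        have hq0' : q' ∈ gU x 0 := gU_mem (Nat.zero_le _) _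
        have h2 := gcentr hadd hcomm (w := p'⁻¹) ((gU x 0).inv_mem hp0) n (b * e)
        have h3 := gnorm hadd hcomm (w := q⁻¹) ((gU x 0).inv_mem hq0) _ h2
        have h4 := gnorm hadd hcomm (w := q'⁻¹) ((gU x 0).inv_mem hq0') _ h3
        have h5 := gnorm hadd hcomm (w := (p' * q')⁻¹)
          ((gU x 0).inv_mem ((gU x 0).mul_mem hp0 hq0')) _ hu
        refine ⟨_, Subgroup.mul_mem _ (Subgroup.mul_mem _ h4 h5) hu', ?_⟩
        change x m ((a + a') * c) * x n ((b + b') * e) * _ ∈ H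
        rw [add_mul, add_mul, hadd, hadd]
        have h6 : p * p' * (q * q') *
            (q'⁻¹ * (q⁻¹ * (p'⁻¹ * q * p'⁻¹⁻¹ * q⁻¹) * q⁻¹⁻¹) * q'⁻¹⁻¹ *
            ((p' * q')⁻¹ * u * (p' * q')⁻¹⁻¹) * u') = p * q * u * (p' * q' * u') := by group
        rw [← h6] at h1
        exact h1
      zero_mem' := by
        refine ⟨1, Subgroup.one_mem _, ?_⟩
        change x m (0 * c) * x n (0 * e) * 1 ∈ H
        rw [zero_mul, zero_mul, gx_zero hadd, gx_zero hadd, mul_one, mul_one]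
        exact H.one_mem
      neg_mem' := by
        rintro ⟨a, b⟩ ⟨u, hu, h⟩
        have h1 := H.inv_mem h
        set p := x m (a * c) with hp
        set q := x n (b * e) with hq
        have hp0 : p ∈ gU x 0 := gU_mem (Nat.zero_le _) _
        have hq0 : q ∈ gU x 0 := gU_mem (Nat.zero_le _) _
        have h2 := gcentr hadd hcomm (w := p) hp0 n (b * e)
        have h3 := gnorm hadd hcomm (w := q * p) ((gU x 0).mul_mem hq0 hp0) _
          (Subgroup.inv_mem _ hu)
        refine ⟨_, Subgroup.mul_mem _ h3 (Subgroup.inv_mem _ h2), ?_⟩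
        change x m (-a * c) * x n (-b * e) * _ ∈ H
        rw [neg_mul, neg_mul, gx_neg hadd, gx_neg hadd]
        have h6 : p⁻¹ * q⁻¹ * (q * p * u⁻¹ * (q * p)⁻¹ * (p * q * p⁻¹ * q⁻¹)⁻¹) =
            (p * q * u)⁻¹ := by group
        rw [← h6] at h1
        exact h1 }
  have hB : ((1 : k), (0 : k)) ∈ B := by
    refine (AddSubgroup.closure_le B).2 ?_ (hdense m n hmn)
    rintro - ⟨z, rfl⟩
    refine ⟨t z * u * (t z)⁻¹, gU_t ht z hu, ?_⟩
    change x m (w m z * c) * x n (w n z * e) * (t z * u * (t z)⁻¹) ∈ H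
    rw [← ht, ← ht]
    have h1 := hT z _ h
    have h2 : t z * x m c * (t z)⁻¹ * (t z * x n e * (t z)⁻¹) * (t z * u * (t z)⁻¹) =
        t z * (x m c * x n e * u) * (t z)⁻¹ := by group
    rw [h2]
    exact h1
  obtain ⟨u', hu', h'⟩ := hB
  refine ⟨u', hu', ?_⟩
  change x m (1 * c) * x n (0 * e) * u' ∈ H at h'
  rw [one_mul, zero_mul, gx_zero hadd, mul_one] at h'
  exact h'

include hadd hcomm ht hdense in
private lemma gfirst (H : Subgroup Γ) (hT : ∀ z, ∀ h ∈ H, t z * h * (t z)⁻¹ ∈ H) (m : Fin N)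
    (c : k) {u : Γ} (hu : u ∈ gU x (m.val + 1)) (h : x m c * u ∈ H) : x m c ∈ H := by
  have h1 : ∀ d : ℕ, m.val + 1 + d ≤ N → ∃ u ∈ gU x (m.val + 1 + d), x m c * u ∈ H := by
    intro d
    induction d with
    | zero => exact fun _ => ⟨u, hu, h⟩
    | succ d ih =>
      intro hd
      obtain ⟨u, hu, h⟩ := ih (by omega)
      have hlt : m.val + 1 + d < N := by omega
      obtain ⟨e, v, hv, rfl⟩ := gdecomp hadd hcomm ⟨m.val + 1 + d, hlt⟩ hu
      rw [← mul_assoc] at h
      exact gstep hadd hcomm ht hdense H hT m ⟨m.val + 1 + d, hlt⟩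
        (fun h => by have := congrArg Fin.val h; simp only at this; omega) c e hv h
  obtain ⟨v, hv, h2⟩ := h1 (N - (m.val + 1)) (by have := m.isLt; omega)
  have h3 : m.val + 1 + (N - (m.val + 1)) = N := by have := m.isLt; omega
  rw [h3] at hv
  rwa [gU_top hv, mul_one] at h2

include hadd hcomm ht hdense in
private lemma gsplit (H : Subgroup Γ) (hT : ∀ z, ∀ h ∈ H, t z * h * (t z)⁻¹ ∈ H)
    {s : Fin N → k} (hs : upr x s ∈ H) (j : Fin N) : x j (s j) ∈ H := by
  have h1 : ∀ m : ℕ, m ≤ N → gpp x s m ∈ H := by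
    intro m
    induction m with
    | zero => exact fun _ => (gpp_zero (x := x) s).symm ▸ hs
    | succ m ih =>
      intro hm
      have h2 := ih (by omega)
      have h3 := gpp_succ (x := x) s ⟨m, hm⟩
      have h4 : x ⟨m, hm⟩ (s ⟨m, hm⟩) ∈ H := by
        refine gfirst hadd hcomm ht hdense H hT ⟨m, hm⟩ _ (gpp_mem s (m + 1)) ?_
        rw [← h3]
        exact h2
      have h5 : gpp x s (m + 1) = (x ⟨m, hm⟩ (s ⟨m, hm⟩))⁻¹ * gpp x s m := by
        rw [h3, inv_mul_cancel_left]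
      rw [h5]
      exact H.mul_mem (H.inv_mem h4) h2
  refine gfirst hadd hcomm ht hdense H hT j _ (gpp_mem s (j.val + 1)) ?_
  rw [← gpp_succ]
  exact h1 _ (le_of_lt j.isLt)

end abs

section abs2

variable {k Γ : Type*} [Field k] [Group Γ] {N : ℕ} {x : Fin N → k → Γ}
  (hadd : ∀ j s r, x j (s + r) = x j s * x j r)

include hadd in
private lemma gupr_single (j : Fin N) (s : k) : upr x (Pi.single j s) = x j s := by
  classical
  have h1 : ∀ d m : ℕ, m + d = N → gpp x (Pi.single j s) m = if m ≤ j.val then x j s else 1 := by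
    intro d
    induction d with
    | zero =>
      intro m hm
      have h2 := gpp_mem (x := x) (Pi.single j s) m
      have h3 : m = N := by omega
      subst h3
      rw [gU_top h2, if_neg (by have := j.isLt; omega)]
    | succ d ih =>
      intro m hm
      have hlt : m < N := by omega
      have h3 := gpp_succ (x := x) (Pi.single j s) ⟨m, hlt⟩
      simp only at h3
      rw [h3, ih (m + 1) (by omega)]
      by_cases hmj : (⟨m, hlt⟩ : Fin N) = j
      · subst hmj
        rw [Pi.single_eq_same, if_neg (by simp), if_pos (le_refl _), mul_one]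
      · rw [Pi.single_eq_of_ne hmj, gx_zero hadd, one_mul]
        have h4 : m ≠ j.val := fun h => hmj (Fin.ext h)
        by_cases h5 : m ≤ j.val
        · rw [if_pos h5, if_pos (by omega)]
        · rw [if_neg h5, if_neg (by omega)]
  rw [← gpp_zero, h1 N 0 (by omega), if_pos (Nat.zero_le _)]

/-- the group generated by the simple root subgroups -/
private def gH (x : Fin N → k → Γ) (S : Set (Fin N)) : Subgroup Γ :=
  Subgroup.closure (⋃ j, ⋃ (_ : j ∈ S), Set.range (x j))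

/-- the conjugates of the other simple root subgroups by elements of the `i`-th one -/
private def gM (x : Fin N → k → Γ) (S : Set (Fin N)) (i : Fin N) : Subgroup Γ :=
  Subgroup.closure {g | ∃ (c : k) (j : Fin N) (s : k), c ≠ 0 ∧ j ∈ S ∧ j ≠ i ∧
    g = x i c * x j s * (x i c)⁻¹}

variable {S : Set (Fin N)} {T : Type*} {t : T → Γ} {w : Fin N → T → k} {n : Fin N → Γ}

private lemma gH_mem {j : Fin N} (hj : j ∈ S) (s : k) : x j s ∈ gH x S :=
  Subgroup.subset_closure (Set.mem_iUnion.2 ⟨j, Set.mem_iUnion.2 ⟨hj, ⟨s, rfl⟩⟩⟩)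

private lemma gM_mem {i j : Fin N} (hj : j ∈ S) (hji : j ≠ i) {c : k} (hc : c ≠ 0) (s : k) :
    x i c * x j s * (x i c)⁻¹ ∈ gM x S i :=
  Subgroup.subset_closure ⟨c, j, s, hc, hj, hji, rfl⟩

private lemma gM_ind {i : Fin N} {H : Subgroup Γ}
    (h : ∀ j ∈ S, j ≠ i → ∀ c ≠ 0, ∀ s, x i c * x j s * (x i c)⁻¹ ∈ H) : gM x S i ≤ H := by
  refine (Subgroup.closure_le H).2 ?_
  rintro - ⟨c, j, s, hc, hj, hji, rfl⟩
  exact h j hj hji c hc s

private lemma gM_map {i : Fin N} (y : Γ)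
    (h : ∀ j ∈ S, j ≠ i → ∀ c ≠ 0, ∀ s, y * (x i c * x j s * (x i c)⁻¹) * y⁻¹ ∈ gM x S i)
    {m : Γ} (hm : m ∈ gM x S i) : y * m * y⁻¹ ∈ gM x S i := by
  have h2 : gM x S i ≤ (gM x S i).comap (MulAut.conj y).toMonoidHom :=
    gM_ind fun j hj hji c hc s => h j hj hji c hc s
  exact h2 hm

private lemma gM_le_H {i : Fin N} (hi : i ∈ S) : gM x S i ≤ gH x S :=
  gM_ind fun _ hj _ _ _ _ =>
    (gH x S).mul_mem ((gH x S).mul_mem (gH_mem hi _) (gH_mem hj _)) ((gH x S).inv_mem (gH_mem hi _))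

variable
  (ht : ∀ j z s, t z * x j s * (t z)⁻¹ = x j (w j z * s)) (hw : ∀ j z, w j z ≠ 0)
  (hsplit : ∀ H : Subgroup Γ, (∀ z, ∀ h ∈ H, t z * h * (t z)⁻¹ ∈ H) → ∀ s : Fin N → k,
    upr x s ∈ H → ∀ j, x j (s j) ∈ H)
  (hU : ∀ u ∈ Subgroup.closure (⋃ j, Set.range (x j)), ∃ s, u = upr x s)
  (hUI : ∀ i ∈ S, ∀ u ∈ Subgroup.closure (⋃ j, ⋃ (_ : j ≠ i), Set.range (x j)),
    ∃ s, s i = 0 ∧ u = upr x s)
  (hmul : ∀ i ∈ S, ∀ s r q : Fin N → k, upr x s * upr x r = upr x q → q i = s i + r i)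
  (hnorm : ∀ i ∈ S, ∀ (c : k), ∀ u ∈ Subgroup.closure (⋃ j, ⋃ (_ : j ≠ i), Set.range (x j)),
    x i c * u * (x i c)⁻¹ ∈ Subgroup.closure (⋃ j, ⋃ (_ : j ≠ i), Set.range (x j)))
  (hn : ∀ i ∈ S, ∀ j ∈ S, j ≠ i → ∀ c ≠ 0, ∀ s, ∃ c' ≠ 0, ∃ s',
    n i * (x i c * x j s * (x i c)⁻¹) * (n i)⁻¹ = x i c' * x j s' * (x i c')⁻¹)

include ht hw in
private lemma gM_t {i : Fin N} (z : T) {m : Γ} (hm : m ∈ gM x S i) :
    t z * m * (t z)⁻¹ ∈ gM x S i := by
  refine gM_map (t z) (fun j hj hji c hc s => ?_) hm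
  have h1 : t z * (x i c * x j s * (x i c)⁻¹) * (t z)⁻¹ =
      (t z * x i c * (t z)⁻¹) * (t z * x j s * (t z)⁻¹) * (t z * x i c * (t z)⁻¹)⁻¹ := by group
  rw [h1, ht, ht]
  exact gM_mem hj hji (mul_ne_zero (hw i z) hc) _

include hn in
private lemma gM_n {i : Fin N} (hi : i ∈ S) {m : Γ} (hm : m ∈ gM x S i) :
    n i * m * (n i)⁻¹ ∈ gM x S i := by
  refine gM_map (n i) (fun j hj hji c hc s => ?_) hm
  obtain ⟨c', hc', s', h⟩ := hn i hi j hj hji c hc s
  rw [h]
  exact gM_mem hj hji hc' _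

include hadd ht hw hsplit hU hmul in
private lemma gM_simple {i j : Fin N} (hj : j ∈ S) (hji : j ≠ i) (s : k) : x j s ∈ gM x S i := by
  classical
  have hm : ∀ (l : Fin N) (r : k), x l r ∈ Subgroup.closure (⋃ j, Set.range (x j)) := fun l r =>
    Subgroup.subset_closure (Set.mem_iUnion.2 ⟨l, ⟨r, rfl⟩⟩)
  have h1 : x i 1 * x j s * (x i 1)⁻¹ ∈ gM x S i := gM_mem hj hji one_ne_zero s
  obtain ⟨q, hq⟩ := hU (x i 1 * x j s * (x i 1)⁻¹)
    (Subgroup.mul_mem _ (Subgroup.mul_mem _ (hm _ _) (hm _ _)) (Subgroup.inv_mem _ (hm _ _)))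
  obtain ⟨r, hr⟩ := hU (x i 1 * x j s) (Subgroup.mul_mem _ (hm _ _) (hm _ _))
  have h2 := hmul j hj (Pi.single i 1) (Pi.single j s) r (by
    rw [gupr_single hadd, gupr_single hadd, hr])
  have h3 := hmul j hj q (Pi.single i 1) r (by
    rw [gupr_single hadd, ← hq, ← hr, inv_mul_cancel_right])
  rw [Pi.single_eq_same, Pi.single_eq_of_ne hji, zero_add] at h2
  rw [Pi.single_eq_of_ne hji, add_zero] at h3
  have h4 : q j = s := by rw [← h3, h2]
  rw [hq] at h1
  have h5 := hsplit (gM x S i) (fun z h hh => gM_t ht hw z hh) q h1 j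
  rwa [h4] at h5

include hadd ht hw hsplit hU hmul in
private lemma gM_conj {i : Fin N} (c : k) {m : Γ} (hm : m ∈ gM x S i) :
    x i c * m * (x i c)⁻¹ ∈ gM x S i := by
  refine gM_map (x i c) (fun j hj hji d hd s => ?_) hm
  have h1 : x i c * (x i d * x j s * (x i d)⁻¹) * (x i c)⁻¹ =
      x i (c + d) * x j s * (x i (c + d))⁻¹ := by
    rw [hadd]
    group
  rw [h1]
  by_cases h0 : c + d = 0
  · rw [h0, gx_zero hadd, one_mul, inv_one, mul_one]
    exact gM_simple hadd ht hw hsplit hU hmul hj hji s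
  · exact gM_mem hj hji h0 s

include hadd ht hw hsplit hU hmul in
private lemma gH_decomp {i : Fin N} {h : Γ} (hh : h ∈ gH x S) :
    ∃ c, ∃ m ∈ gM x S i, h = x i c * m := by
  induction hh using Subgroup.closure_induction with
  | mem y hy =>
    obtain ⟨j, hj⟩ := Set.mem_iUnion.1 hy
    obtain ⟨hjS, s, rfl⟩ := Set.mem_iUnion.1 hj
    by_cases hji : j = i
    · subst hji
      exact ⟨s, 1, Subgroup.one_mem _, (mul_one _).symm⟩
    · exact ⟨0, x j s, gM_simple hadd ht hw hsplit hU hmul hjS hji s, by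
        rw [gx_zero hadd, one_mul]⟩
  | one => exact ⟨0, 1, Subgroup.one_mem _, by rw [gx_zero hadd, one_mul]⟩
  | mul a c ha hc iha ihc =>
    obtain ⟨e, u, hu, rfl⟩ := iha
    obtain ⟨e', u', hu', rfl⟩ := ihc
    have h1 := gM_conj hadd ht hw hsplit hU hmul (-e') hu
    refine ⟨e + e', _, Subgroup.mul_mem _ h1 hu', ?_⟩
    rw [gx_neg hadd, hadd]
    group
  | inv a ha iha =>
    obtain ⟨e, u, hu, rfl⟩ := iha
    have h1 := gM_conj hadd ht hw hsplit hU hmul e (Subgroup.inv_mem _ hu)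
    refine ⟨-e, _, h1, ?_⟩
    rw [gx_neg hadd]
    group

include hadd ht hw hsplit hU hUI hmul hnorm hn in
private lemma gmain {i : Fin N} (hi : i ∈ S) {q : Fin N} (hq : q ≠ i) {r : k}
    (h : x q r ∈ gH x S) : n i * x q r * (n i)⁻¹ ∈ gH x S := by
  classical
  obtain ⟨c, m, hm, hcm⟩ := gH_decomp hadd ht hw hsplit hU hmul (i := i) h
  have hmUI : m ∈ Subgroup.closure (⋃ j, ⋃ (_ : j ≠ i), Set.range (x j)) := by
    refine gM_ind (fun j _ hji d _ s => ?_) hm
    exact hnorm i hi d _ (Subgroup.subset_closure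
      (Set.mem_iUnion.2 ⟨j, Set.mem_iUnion.2 ⟨hji, ⟨s, rfl⟩⟩⟩))
  obtain ⟨s, hs0, hs⟩ := hUI i hi m hmUI
  have h1 := hmul i hi (Pi.single i c) s (Pi.single q r) (by
    rw [gupr_single hadd, gupr_single hadd, ← hs, ← hcm])
  rw [Pi.single_eq_same, Pi.single_eq_of_ne hq.symm, hs0, add_zero] at h1
  have h2 : x q r = m := by
    rw [hcm, ← h1, gx_zero hadd, one_mul]
  rw [h2]
  exact gM_le_H hi (gM_n hn hi hm)

end abs2

section tor

private lemma gex_tor (k : Type*) [Field k] {X : Type*} [AddCommGroup X] (y : X →+ ℤ) (τ : kˣ) :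
    ∃ z : Tor k X, ∀ a, ch a z = τ ^ y a :=
  ⟨(zpowersHom kˣ τ).comp (AddMonoidHom.toMultiplicative y), fun _ => rfl⟩

private lemma gex_zpow {k : Type*} [Field k] [IsAlgClosed k] {d : ℤ} (hd : d ≠ 0) (e : kˣ) :
    ∃ τ : kˣ, τ ^ d = e := by
  have hn : 0 < d.natAbs := Int.natAbs_pos.2 hd
  have h1 : ∀ e : kˣ, ∃ τ : kˣ, τ ^ d.natAbs = e := by
    intro e
    obtain ⟨z, hz⟩ := IsAlgClosed.exists_pow_nat_eq (e : k) hn
    have hz0 : z ≠ 0 := by
      rintro rfl
      rw [zero_pow hn.ne'] at hz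
      exact e.ne_zero hz.symm
    exact ⟨Units.mk0 z hz0, Units.ext (by rw [Units.val_pow_eq_pow_val, Units.val_mk0, hz])⟩
  rcases Int.natAbs_eq d with h | h
  · obtain ⟨τ, hτ⟩ := h1 e
    exact ⟨τ, by rw [h, zpow_natCast, hτ]⟩
  · obtain ⟨τ, hτ⟩ := h1 e⁻¹
    exact ⟨τ, by rw [h, zpow_neg, zpow_natCast, hτ, inv_inv]⟩

end tor

variable {k : Type*} [Field k] {ι X Y : Type*} [AddCommGroup X] [AddCommGroup Y] [Finite ι]
  {P : RootDatum ι X Y} {b : P.Base} {Γ : Type*} [Group Γ] (G : RedGrp k P b Γ)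
  [IsAlgClosed k] [Module.Finite ℤ X] [Module.Free ℤ X] [P.IsReduced]

omit [Finite ι] [P.IsReduced] in
lemma pair_dense (k : Type*) [Field k] [IsAlgClosed k] {a c : X}
    (h : ∀ m n : ℤ, m • a + n • c = 0 → m = 0 ∧ n = 0) :
    ((1 : k), (0 : k)) ∈ AddSubgroup.closure
      (Set.range fun z : Tor k X => ((ch a z : k), (ch c z : k))) := by
  classical
  set B := Module.Free.chooseBasis ℤ X with hB
  have hc0 : ∃ j, B.repr c j ≠ 0 := by
    by_contra! hcon
    have h1 : c = 0 := by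
      apply B.repr.injective
      ext j
      rw [hcon j, map_zero]
      rfl
    have h2 := (h 0 1 (by rw [h1, smul_zero, zero_smul, add_zero])).2
    exact one_ne_zero h2
  obtain ⟨j, hj⟩ := hc0
  have hij : ∃ i, B.repr a i * B.repr c j - B.repr a j * B.repr c i ≠ 0 := by
    by_contra! hcon
    have h1 : B.repr c j • a + (-B.repr a j) • c = 0 := by
      apply B.repr.injective
      ext i
      rw [map_add, map_smul, map_smul, map_zero, Finsupp.add_apply, Finsupp.smul_apply,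
        Finsupp.smul_apply, smul_eq_mul, smul_eq_mul, Finsupp.zero_apply]
      have := hcon i
      linarith
    exact hj (h _ _ h1).1
  obtain ⟨i, hi⟩ := hij
  let y : X →+ ℤ := AddMonoidHom.mk' (fun v => B.repr v i * B.repr c j - B.repr v j * B.repr c i)
    (by
      intro v w
      simp only [map_add, Finsupp.add_apply]
      ring)
  have hyc : y c = 0 := by
    change B.repr c i * B.repr c j - B.repr c j * B.repr c i = 0
    ring
  have hya : y a ≠ 0 := hi
  have h1 : ∀ e : kˣ, ((e : k), (1 : k)) ∈ AddSubgroup.closure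
      (Set.range fun z : Tor k X => ((ch a z : k), (ch c z : k))) := by
    intro e
    obtain ⟨τ, hτ⟩ := gex_zpow hya e
    obtain ⟨z, hz⟩ := gex_tor k y τ
    refine AddSubgroup.subset_closure ⟨z, ?_⟩
    change ((ch a z : k), (ch c z : k)) = _
    rw [hz, hz, hyc, hτ, zpow_zero, Units.val_one]
  obtain ⟨e, he⟩ := Infinite.exists_notMem_finset ({0, -1} : Finset k)
  rw [Finset.mem_insert, Finset.mem_singleton, not_or] at he
  have he1 : 1 + e ≠ 0 := fun h0 => he.2 (by linear_combination h0)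
  have h2 := AddSubgroup.sub_mem _ (h1 (Units.mk0 _ he1)) (h1 (Units.mk0 _ he.1))
  rw [Units.val_mk0, Units.val_mk0, Prod.mk_sub_mk, add_sub_cancel_right, sub_self] at h2
  exact h2

omit [IsAlgClosed k] [Module.Finite ℤ X] [Module.Free ℤ X] [Group Γ] [Field k] in
private lemma groot_indep {i j : Fin (enN b)} (hij : i ≠ j) (m n : ℤ)
    (h : m • P.root (en b i : ι) + n • P.root (en b j : ι) = 0) : m = 0 ∧ n = 0 := by
  have hi := (en b i).2
  have hj := (en b j).2
  have hne : (en b i : ι) ≠ (en b j : ι) := fun h0 => hij ((en b).injective (Subtype.ext h0))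
  have h1 := congrArg (hgt b) h
  rw [map_add, map_zsmul, map_zsmul, map_zero, hgt_root_eq, hgt_root_eq, smul_eq_mul,
    smul_eq_mul] at h1
  have hi' := (b.isPos_iff).1 hi
  have hj' := (b.isPos_iff).1 hj
  rcases lt_trichotomy m 0 with hm | hm | hm
  · exfalso
    have hn : 0 < n := by
      by_contra hn
      have h2 : m * (2 * b.height (en b i : ι)) < 0 := mul_neg_of_neg_of_pos hm (by omega)
      have h3 : n * (2 * b.height (en b j : ι)) ≤ 0 :=
        mul_nonpos_of_nonpos_of_nonneg (by omega) (by omega)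
      omega
    obtain ⟨m', hm'⟩ := Int.eq_ofNat_of_zero_le (a := -m) (by omega)
    obtain ⟨n', hn'⟩ := Int.eq_ofNat_of_zero_le (a := n) (by omega)
    have h4 : m' • P.root (en b i : ι) = n' • P.root (en b j : ι) := by
      rw [← natCast_zsmul, ← natCast_zsmul, ← hm', ← hn', neg_smul]
      exact (neg_eq_of_add_eq_zero_right h)
    exact hne (nonprop b hi hj (by omega) h4)
  · subst hm
    refine ⟨rfl, ?_⟩
    rw [zero_mul, zero_add] at h1
    rcases mul_eq_zero.1 h1 with h2 | h2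
    · exact h2
    · omega
  · exfalso
    have hn : n < 0 := by
      by_contra hn
      have h2 : 0 < m * (2 * b.height (en b i : ι)) := mul_pos hm (by omega)
      have h3 : 0 ≤ n * (2 * b.height (en b j : ι)) := mul_nonneg (by omega) (by omega)
      omega
    obtain ⟨m', hm'⟩ := Int.eq_ofNat_of_zero_le (a := m) (by omega)
    obtain ⟨n', hn'⟩ := Int.eq_ofNat_of_zero_le (a := -n) (by omega)
    have h4 : m' • P.root (en b i : ι) = n' • P.root (en b j : ι) := by
      rw [← natCast_zsmul, ← natCast_zsmul, ← hm', ← hn', neg_smul]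
      exact eq_neg_of_add_eq_zero_left h
    exact hne (nonprop b hi hj (by omega) h4)

omit [IsAlgClosed k] [Module.Finite ℤ X] [Module.Free ℤ X] [Group Γ] [Field k] in
private lemma gno_root {i j : ι} (hi : i ∈ b.support) (hj : j ∈ b.support) (hij : i ≠ j)
    {m n : ℕ} (hm : 0 < m) (hn : 0 < n) (q : ι) :
    P.root q ≠ m • (-P.root i) + n • P.root j := by
  intro h
  obtain ⟨li, hi1, hi2, hi3⟩ := exists_functional b hi
  obtain ⟨lj, hj1, hj2, hj3⟩ := exists_functional b hj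
  have h1 := congrArg li h
  have h2 := congrArg lj h
  rw [map_add, map_nsmul, map_nsmul, map_neg, hi2 j hj hij.symm, smul_zero, add_zero,
    nsmul_eq_mul] at h1
  rw [map_add, map_nsmul, map_nsmul, map_neg, hj2 i hi hij, neg_zero, smul_zero, zero_add,
    nsmul_eq_mul] at h2
  have hm' : (0 : ℤ) < m := by exact_mod_cast hm
  have hn' : (0 : ℤ) < n := by exact_mod_cast hn
  by_cases hq : b.IsPos q
  · have h3 := hi3 q hq
    rw [h1] at h3
    have h4 : (m : ℤ) * -li (P.root i) < 0 := mul_neg_of_pos_of_neg hm' (by omega)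
    omega
  · have h3 := hj3 _ ((RootPairing.Base.IsPos.neg_iff_not b q).2 hq)
    have h5 : P.root (P.reflectionPerm q q) = -P.root q := root_neg P q
    change 0 ≤ lj (P.root (P.reflectionPerm q q)) at h3
    rw [h5, map_neg, h2] at h3
    have h4 : 0 < (n : ℤ) * lj (P.root j) := mul_pos hn' hj1
    omega

private lemma gcommute {i j : ι} (hi : i ∈ b.support) (hj : j ∈ b.support) (hij : i ≠ j)
    (s r : k) : G.x (P.reflectionPerm i i) s * G.x j r = G.x j r * G.x (P.reflectionPerm i i) s := by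
  have h1 : P.root (P.reflectionPerm i i) ≠ P.root j := by
    rw [root_neg]
    exact (b.root_ne_neg_of_ne hj hi hij.symm).symm
  have h2 : P.root (P.reflectionPerm i i) ≠ -P.root j := by
    rw [root_neg]
    intro h
    exact hij (P.root.injective (neg_injective h))
  obtain ⟨l, hl, h⟩ := G.comm (P.reflectionPerm i i) j h1 h2
  have hl0 : l = [] := by
    rcases l with _ | ⟨q, l⟩
    · rfl
    · obtain ⟨h3, h4, h5⟩ := hl q (List.mem_cons_self)
      rw [root_neg] at h5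
      exact absurd h5 (gno_root hi hj hij h3 h4 q.1)
  have h3 := h s r
  rw [hl0, List.map_nil, List.prod_nil, mul_inv_eq_one, mul_inv_eq_iff_eq_mul] at h3
  exact h3

private lemma gwl_up {k : Type*} [Field k] (c : kˣ) :
    wl k * up (c : k) = up (-(c : k)⁻¹) * dg (-c⁻¹) * lo ((c : k)⁻¹) := by
  have hc : (c : k) ≠ 0 := c.ne_zero
  apply Subtype.ext
  ext i j
  fin_cases i <;> fin_cases j <;>
    simp [wl, up, lo, dg, Matrix.mul_apply, Fin.sum_univ_two, hc, inv_neg]

private lemma gwl_lo {k : Type*} [Field k] (c : kˣ) :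
    wl k * lo (c : k) = lo (-(c : k)⁻¹) * dg c * up ((c : k)⁻¹) := by
  have hc : (c : k) ≠ 0 := c.ne_zero
  apply Subtype.ext
  ext i j
  fin_cases i <;> fin_cases j <;>
    simp [wl, up, lo, dg, Matrix.mul_apply, Fin.sum_univ_two, hc]

omit [IsAlgClosed k] [Module.Finite ℤ X] [Module.Free ℤ X] in
/-- induction over the positive roots -/
private lemma gpos_ind {p : ι → Prop} (h₁ : ∀ i ∈ b.support, p i)
    (h₂ : ∀ q i, b.IsPos q → p q → i ∈ b.support → q ≠ i → p (P.reflectionPerm i q))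
    {q : ι} (hq : b.IsPos q) : p q := by
  have h : b.IsPos q → p q := by
    refine RootPairing.Base.IsPos.induction_on_reflect (b := b) hq
      (p := fun q => b.IsPos q → p q) (fun i hi _ => h₁ i hi) ?_
    intro q i hpq hi hpos
    by_cases h3 : P.reflectionPerm i q = i
    · rw [h3]
      exact h₁ i hi
    · have h4 := refl_pos b hi hpos h3
      have h5 : P.reflectionPerm i (P.reflectionPerm i q) = q := by
        simp
      rw [h5] at h4
      exact h₂ q i h4.1 (hpq h4.1) hi h4.2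
  exact h hq

namespace RedGrp

theorem split (H : Subgroup Γ) (hT : ∀ z, ∀ h ∈ H, G.t z * h * (G.t z)⁻¹ ∈ H)
    {s : Fin (enN b) → k} (hs : upr G.xp s ∈ H) (j : Fin (enN b)) : G.xp j (s j) ∈ H :=
  gsplit (x := G.xp) (t := fun z => G.t z) (w := fun j z => (ch (P.root (en b j : ι)) z : k))
    G.xp_add G.comm_xp G.t_xp
    (fun _ _ hmn => pair_dense k (groot_indep hmn)) H hT hs j

theorem split' (H : Subgroup Γ) (hT : ∀ z, ∀ h ∈ H, G.t z * h * (G.t z)⁻¹ ∈ H)
    {s : Fin (enN b) → k} (hs : upr G.xm s ∈ H) (j : Fin (enN b)) : G.xm j (s j) ∈ H :=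
  gsplit (x := G.xm) (t := fun z => G.t z) (w := fun j z => (ch (-P.root (en b j : ι)) z : k))
    G.xm_add G.comm_xm G.t_xm
    (fun m n hmn => pair_dense k (a := -P.root (en b m : ι)) (c := -P.root (en b n : ι))
      (fun p q h => groot_indep hmn p q (by
        rw [smul_neg, smul_neg, ← neg_add, neg_eq_zero] at h
        exact h))) H hT hs j

theorem full (H : Subgroup Γ) (hT : ∀ z, ∀ h ∈ H, G.t z * h * (G.t z)⁻¹ ∈ H)
    (j : Fin (enN b)) {s : k} (hs0 : s ≠ 0) (hs : G.xp j s ∈ H) (r : k) : G.xp j r ∈ H := by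
  by_cases hr : r = 0
  · rw [hr]
    have h : G.xp j 0 = 1 := G.x_zero _
    rw [h]
    exact H.one_mem
  · obtain ⟨τ, hτ⟩ := gex_zpow (k := k) (d := 2) two_ne_zero
      (Units.mk0 (r / s) (div_ne_zero hr hs0))
    obtain ⟨z, hz⟩ := gex_tor k (prY P (en b j : ι)) τ
    have h1 := hT z _ hs
    rw [G.t_xp, hz, prY_root_self, hτ, Units.val_mk0, div_mul_cancel₀ _ hs0] at h1
    exact h1

/-- the indices of the simple roots -/
private def gS (b : P.Base) : Set (Fin (enN b)) := {j | (en b j : ι) ∈ b.support}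

private lemma gn_U (i j : Fin (enN b)) (hi : i ∈ gS b) (hj : j ∈ gS b) (hji : j ≠ i)
    (c : k) (hc : c ≠ 0) (s : k) : ∃ c' ≠ 0, ∃ s',
    G.nn (en b i : ι) * (G.xp i c * G.xp j s * (G.xp i c)⁻¹) * (G.nn (en b i : ι))⁻¹ =
      G.xp i c' * G.xp j s' * (G.xp i c')⁻¹ := by
  have hne : (en b i : ι) ≠ (en b j : ι) := fun h0 => hji ((en b).injective (Subtype.ext h0)).symm
  obtain ⟨z, hz, -⟩ := G.φ_dg (en b i : ι) (-(Units.mk0 c hc)⁻¹)
  refine ⟨-c⁻¹, neg_ne_zero.2 (inv_ne_zero hc), (ch (P.root (en b j : ι)) z : k) * s, ?_⟩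
  have h1 : G.nn (en b i : ι) * G.xp i c =
      G.xp i (-c⁻¹) * G.t z * G.x (P.reflectionPerm (en b i : ι) (en b i : ι)) c⁻¹ := by
    have h2 := congrArg (G.φ (en b i : ι)) (gwl_up (Units.mk0 c hc))
    rw [map_mul, map_mul, map_mul, G.φ_up, G.φ_up, G.φ_lo, hz, Units.val_mk0] at h2
    exact h2
  have h3 := gcommute G hi hj hne c⁻¹ s
  have h4 : G.nn (en b i : ι) * (G.xp i c * G.xp j s * (G.xp i c)⁻¹) * (G.nn (en b i : ι))⁻¹ =
      (G.nn (en b i : ι) * G.xp i c) * G.xp j s * (G.nn (en b i : ι) * G.xp i c)⁻¹ := by group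
  have h5 : G.x (P.reflectionPerm (en b i : ι) (en b i : ι)) c⁻¹ * G.xp j s *
      (G.x (P.reflectionPerm (en b i : ι) (en b i : ι)) c⁻¹)⁻¹ = G.xp j s :=
    mul_inv_eq_of_eq_mul h3
  rw [h4, h1, ← G.t_xp]
  calc G.xp i (-c⁻¹) * G.t z * G.x (P.reflectionPerm (en b i : ι) (en b i : ι)) c⁻¹ * G.xp j s *
        (G.xp i (-c⁻¹) * G.t z * G.x (P.reflectionPerm (en b i : ι) (en b i : ι)) c⁻¹)⁻¹
      = G.xp i (-c⁻¹) * (G.t z * (G.x (P.reflectionPerm (en b i : ι) (en b i : ι)) c⁻¹ *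
        G.xp j s * (G.x (P.reflectionPerm (en b i : ι) (en b i : ι)) c⁻¹)⁻¹) * (G.t z)⁻¹) *
        (G.xp i (-c⁻¹))⁻¹ := by group
    _ = _ := by rw [h5]

private lemma gn_V (i j : Fin (enN b)) (hi : i ∈ gS b) (hj : j ∈ gS b) (hji : j ≠ i)
    (c : k) (hc : c ≠ 0) (s : k) : ∃ c' ≠ 0, ∃ s',
    G.nn (en b i : ι) * (G.xm i c * G.xm j s * (G.xm i c)⁻¹) * (G.nn (en b i : ι))⁻¹ =
      G.xm i c' * G.xm j s' * (G.xm i c')⁻¹ := by
  have hne : (en b i : ι) ≠ (en b j : ι) := fun h0 => hji ((en b).injective (Subtype.ext h0)).symm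
  obtain ⟨z, hz, -⟩ := G.φ_dg (en b i : ι) (Units.mk0 c hc)
  refine ⟨-c⁻¹, neg_ne_zero.2 (inv_ne_zero hc), (ch (-P.root (en b j : ι)) z : k) * s, ?_⟩
  have h1 : G.nn (en b i : ι) * G.xm i c =
      G.xm i (-c⁻¹) * G.t z * G.x (en b i : ι) c⁻¹ := by
    have h2 := congrArg (G.φ (en b i : ι)) (gwl_lo (Units.mk0 c hc))
    rw [map_mul, map_mul, map_mul, G.φ_up, G.φ_lo, G.φ_lo, hz, Units.val_mk0] at h2
    exact h2
  have h3 : G.x (en b i : ι) c⁻¹ * G.xm j s = G.xm j s * G.x (en b i : ι) c⁻¹ :=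
    (gcommute G hj hi hne.symm s c⁻¹).symm
  have h4 : G.nn (en b i : ι) * (G.xm i c * G.xm j s * (G.xm i c)⁻¹) * (G.nn (en b i : ι))⁻¹ =
      (G.nn (en b i : ι) * G.xm i c) * G.xm j s * (G.nn (en b i : ι) * G.xm i c)⁻¹ := by group
  have h5 : G.x (en b i : ι) c⁻¹ * G.xm j s * (G.x (en b i : ι) c⁻¹)⁻¹ = G.xm j s :=
    mul_inv_eq_of_eq_mul h3
  rw [h4, h1, ← G.t_xm]
  calc G.xm i (-c⁻¹) * G.t z * G.x (en b i : ι) c⁻¹ * G.xm j s *
        (G.xm i (-c⁻¹) * G.t z * G.x (en b i : ι) c⁻¹)⁻¹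
      = G.xm i (-c⁻¹) * (G.t z * (G.x (en b i : ι) c⁻¹ *
        G.xm j s * (G.x (en b i : ι) c⁻¹)⁻¹) * (G.t z)⁻¹) *
        (G.xm i (-c⁻¹))⁻¹ := by group
    _ = _ := by rw [h5]

private lemma gmain_U {i q : Fin (enN b)} (hi : i ∈ gS b) (hq : q ≠ i) {r : k}
    (h : G.xp q r ∈ gH G.xp (gS b)) :
    G.nn (en b i : ι) * G.xp q r * (G.nn (en b i : ι))⁻¹ ∈ gH G.xp (gS b) :=
  gmain (x := G.xp) (S := gS b) (t := fun z => G.t z)
    (w := fun j z => (ch (P.root (en b j : ι)) z : k)) (n := fun i => G.nn (en b i : ι))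
    G.xp_add G.t_xp (fun j z => Units.ne_zero _)
    (fun H hT s hs j => G.split H hT hs j) (fun u hu => G.mem_U hu)
    (fun i hi u hu => G.mem_UI hi hu) (fun i hi s r q h => G.mul_simple hi h)
    (fun i hi c u hu => by
      have h := G.UI_norm hi hu (up c)
      rw [G.φ_up] at h
      exact h)
    (fun i hi j hj hji c hc s => gn_U G i j hi hj hji c hc s) hi hq h

private lemma gmain_V {i q : Fin (enN b)} (hi : i ∈ gS b) (hq : q ≠ i) {r : k}
    (h : G.xm q r ∈ gH G.xm (gS b)) :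
    G.nn (en b i : ι) * G.xm q r * (G.nn (en b i : ι))⁻¹ ∈ gH G.xm (gS b) :=
  gmain (x := G.xm) (S := gS b) (t := fun z => G.t z)
    (w := fun j z => (ch (-P.root (en b j : ι)) z : k)) (n := fun i => G.nn (en b i : ι))
    G.xm_add G.t_xm (fun j z => Units.ne_zero _)
    (fun H hT s hs j => G.split' H hT hs j) (fun u hu => G.mem_V hu)
    (fun i hi u hu => G.mem_VI hi hu) (fun i hi s r q h => G.mul_simple' hi h)
    (fun i hi c u hu => by
      have h := G.VI_norm hi hu (lo c)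
      rw [G.φ_lo] at h
      exact h)
    (fun i hi j hj hji c hc s => gn_V G i j hi hj hji c hc s) hi hq h

theorem gen_U (K : Subgroup Γ) (h : ∀ j, (en b j : ι) ∈ b.support → ∀ s, G.xp j s ∈ K) :
    ∀ j s, G.xp j s ∈ K := by
  have hle : gH G.xp (gS b) ≤ K := by
    refine (Subgroup.closure_le K).2 fun y hy => ?_
    obtain ⟨j, hj⟩ := Set.mem_iUnion.1 hy
    obtain ⟨hjS, s, rfl⟩ := Set.mem_iUnion.1 hj
    exact h j hjS s
  have h1 : ∀ q : ι, b.IsPos q → ∀ r, G.x q r ∈ gH G.xp (gS b) := by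
    intro q hq
    refine gpos_ind (p := fun q => ∀ r, G.x q r ∈ gH G.xp (gS b)) ?_ ?_ hq
    · intro i hi r
      have h2 := (en b).apply_symm_apply ⟨i, RootPairing.Base.isPos_of_mem_support hi⟩
      have h3 : (en b ((en b).symm ⟨i, RootPairing.Base.isPos_of_mem_support hi⟩) : ι) = i := by
        rw [h2]
      have h4 := gH_mem (x := G.xp) (S := gS b)
        (j := (en b).symm ⟨i, RootPairing.Base.isPos_of_mem_support hi⟩)
        (by change (en b _ : ι) ∈ b.support; rw [h3]; exact hi) r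
      rw [xp, h3] at h4
      exact h4
    · intro q i hq hp hi hqi r
      obtain ⟨c, hc⟩ := G.nn_conj hi q
      have h2 := hc (((c⁻¹ : kˣ) : k) * r)
      rw [← mul_assoc, Units.mul_inv, one_mul] at h2
      rw [← h2]
      have h3 : (en b ((en b).symm ⟨i, RootPairing.Base.isPos_of_mem_support hi⟩) : ι) = i := by
        rw [(en b).apply_symm_apply]
      have h4 : (en b ((en b).symm ⟨q, hq⟩) : ι) = q := by
        rw [(en b).apply_symm_apply]
      have h5 := gmain_U G (i := (en b).symm ⟨i, RootPairing.Base.isPos_of_mem_support hi⟩)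
        (q := (en b).symm ⟨q, hq⟩) (r := ((c⁻¹ : kˣ) : k) * r)
        (by change (en b _ : ι) ∈ b.support; rw [h3]; exact hi)
        (fun h0 => hqi (by rw [← h3, ← h0, h4]))
        (by rw [xp, h4]; exact hp _)
      rw [xp, h3, h4] at h5
      exact h5
  intro j s
  exact hle (h1 _ (en b j).2 s)

theorem gen_V (K : Subgroup Γ) (h : ∀ j, (en b j : ι) ∈ b.support → ∀ s, G.xm j s ∈ K) :
    ∀ j s, G.xm j s ∈ K := by
  have hle : gH G.xm (gS b) ≤ K := by
    refine (Subgroup.closure_le K).2 fun y hy => ?_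
    obtain ⟨j, hj⟩ := Set.mem_iUnion.1 hy
    obtain ⟨hjS, s, rfl⟩ := Set.mem_iUnion.1 hj
    exact h j hjS s
  have h1 : ∀ q : ι, b.IsPos q → ∀ r, G.x (P.reflectionPerm q q) r ∈ gH G.xm (gS b) := by
    intro q hq
    refine gpos_ind (p := fun q => ∀ r, G.x (P.reflectionPerm q q) r ∈ gH G.xm (gS b)) ?_ ?_ hq
    · intro i hi r
      have h3 : (en b ((en b).symm ⟨i, RootPairing.Base.isPos_of_mem_support hi⟩) : ι) = i := by
        rw [(en b).apply_symm_apply]
      have h4 := gH_mem (x := G.xm) (S := gS b)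
        (j := (en b).symm ⟨i, RootPairing.Base.isPos_of_mem_support hi⟩)
        (by change (en b _ : ι) ∈ b.support; rw [h3]; exact hi) r
      rw [xm, h3] at h4
      exact h4
    · intro q i hq hp hi hqi r
      obtain ⟨c, hc⟩ := G.nn_conj hi (P.reflectionPerm q q)
      have h2 := hc (((c⁻¹ : kˣ) : k) * r)
      rw [← mul_assoc, Units.mul_inv, one_mul] at h2
      have h6 : P.reflectionPerm i (P.reflectionPerm q q) =
          P.reflectionPerm (P.reflectionPerm i q) (P.reflectionPerm i q) := by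
        apply P.root.injective
        rw [root_neg P (P.reflectionPerm i q), P.root_reflectionPerm i, P.root_reflectionPerm i,
          root_neg P q, map_neg]
      rw [← h6, ← h2]
      have h3 : (en b ((en b).symm ⟨i, RootPairing.Base.isPos_of_mem_support hi⟩) : ι) = i := by
        rw [(en b).apply_symm_apply]
      have h4 : (en b ((en b).symm ⟨q, hq⟩) : ι) = q := by
        rw [(en b).apply_symm_apply]
      have h5 := gmain_V G (i := (en b).symm ⟨i, RootPairing.Base.isPos_of_mem_support hi⟩)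
        (q := (en b).symm ⟨q, hq⟩) (r := ((c⁻¹ : kˣ) : k) * r)
        (by change (en b _ : ι) ∈ b.support; rw [h3]; exact hi)
        (fun h0 => hqi (by rw [← h3, ← h0, h4]))
        (by rw [xm, h4]; exact hp _)
      rw [xm, h3, h4] at h5
      exact h5
  intro j s
  exact hle (h1 _ (en b j).2 s)

/-- the group is generated by the torus and the simple root subgroups (the `nn i` are in the group
generated by them, `nn_conj`; or `gen_U`, `gen_V`, `gen_all`) -/
theorem gen_simple (K : Subgroup Γ) (ht : ∀ z, G.t z ∈ K)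
    (h : ∀ j, (en b j : ι) ∈ b.support → ∀ s, G.xp j s ∈ K ∧ G.xm j s ∈ K) : K = ⊤ := by
  apply G.gen_all K ht
  · exact G.gen_U K fun j hj s => (h j hj s).1
  · exact G.gen_V K fun j hj s => (h j hj s).2

end RedGrp

end Pool.Agent.RG
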