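import Pool.Agent.RDG.Br
import Pool.Agent.DM.Core
import Pool.Agent.DM.Pth
import Pool.Agent.DM.Rep
import Pool.Agent.TRN.HasS

/-!
# RDG / INST: Donkin-Mathieu and Steinberg modules for a reductive group

* `tws_ax`: `twist_ax` with `DM.PinData.exists_root` for `G.pin`.
* `tws_stz`: `exists_stz` with `even_two_rho`.
* `pin_ext2`: let `m` be such that `l = m • 2ρ - de` is dominant (`two_rho`), `m > 0`, `v` the function of `Hw (2ρ)`, `v'` that of
  `Hw l` (`hw_of_dmt`); `v ^ m = vd * v'` (`eq_zero`), and `v g = 0` iff `vd g = 0`. For `Q` let `F (s, r) = eval r Q`;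
  `vd_ext'` gives `f ∈ A` with `f (om s z r) = vd ^ n * eval r Q`, zero where `vd` is zero (`n ≥ 1`). So `f * v' ^ n` has the value
  `v ^ (m n) * eval r Q` at `om s z r`, and is zero outside the cell. `f' (g * u c)` is a polynomial in `c` for `f' ∈ A`
  (`trL`, `Rg.upr`). The exponent is `m n`. (`Ext2` is in `DM/Rep.lean`.)
* `tws_ext2`: the same statement, since `twist_rho2`, `ch_jj`.
* `dmt`: `DM G.pg`. Let `φ : Ind a ⊗ Ind b → (Γ × Γ → k)`, `F ⊗ F' ↦ (x ↦ F x.1 * F' x.2)`
  (`TensorProduct.lift`), injective (write an element as `∑ F_i ⊗ F'_i` with independent `F_i`, `DM.box_sum_eq_zero`),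
  equivariant for `lreg`, with range `bx (Ind a) (Ind b)`. `donkin_mathieu` for the twist, `Ind_jj`, `mem_pin_Ind`, `Good.of_inj`
  and `goodIn_of_good` with `W = ⊤` (`ratOn`).
-/

set_option autoImplicit false

open MvPolynomial

namespace Pool.Agent.RG

open Pool.Agent.TRN

variable {k : Type*} [Field k] {ι X Y : Type*} [AddCommGroup X] [AddCommGroup Y] [Finite ι]
  {P : RootDatum ι X Y} {b : P.Base} {Γ : Type*} [Group Γ] (G : RedGrp k P b Γ)
  [IsAlgClosed k] [Module.Finite ℤ X] [Module.Free ℤ X] [P.IsReduced]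
  (p : ℕ) [Fact p.Prime] [CharP k p]

namespace RedGrp

private lemma om_s'' (s : Fin (enN b) → k) : G.om s 1 0 = upr G.xp s := by
  have h : upr G.xm (0 : Fin (enN b) → k) = 1 := by
    apply List.prod_eq_one
    intro y hy
    rw [List.mem_ofFn] at hy
    obtain ⟨j, rfl⟩ := hy
    exact G.x_zero _
  rw [om, h, map_one, mul_one, mul_one]

/-- `m (2ρ) - δ` is dominant -/
private lemma exists_m' : ∃ m : ℕ, 0 < m ∧ Dmt b (m • (∑ j, P.root (en b j : ι)) - G.de) := by
  refine ⟨∑ j, (prY P (en b j : ι) G.de).natAbs + 1, Nat.succ_pos _, fun i hi => ?_⟩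
  rw [map_sub, map_nsmul, two_rho b hi]
  have h1 : (prY P i G.de).natAbs ≤ ∑ j, (prY P (en b j : ι) G.de).natAbs := by
    have h2 := Finset.single_le_sum (f := fun j => (prY P (en b j : ι) G.de).natAbs)
      (fun j _ => Nat.zero_le _)
      (Finset.mem_univ ((en b).symm ⟨i, RootPairing.Base.isPos_of_mem_support hi⟩))
    simp only [Equiv.apply_symm_apply] at h2
    exact h2
  have h3 : prY P i G.de ≤ ((prY P i G.de).natAbs : ℤ) := Int.le_natAbs
  rw [nsmul_eq_mul]
  push_cast
  have h4 : ((prY P i G.de).natAbs : ℤ) ≤ ((∑ j, (prY P (en b j : ι) G.de).natAbs : ℕ) : ℤ) := by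
    exact_mod_cast h1
  push_cast at h4
  linarith [abs_nonneg (prY P i G.de), le_abs_self (prY P i G.de)]

private lemma aeval_fun' {τ : Type*} (Q : MvPolynomial τ k) (v : τ → k) :
    (MvPolynomial.aeval (R := k) (fun (j : τ) (v : τ → k) => v j) Q) v = eval v Q := by
  induction Q using MvPolynomial.induction_on with
  | C a => simp
  | add p q hp hq => rw [map_add, Pi.add_apply, hp, hq, map_add]
  | mul_X p i hp => rw [map_mul, Pi.mul_apply, hp, map_mul, aeval_X, eval_X]

private lemma poly_up {f : Γ → k} (hf : f ∈ G.A) (g : Γ) :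
    ∃ Q : MvPolynomial (Fin (enN b)) k, ∀ c, f (g * upr G.xp c) = eval c Q := by
  have h3 : G.Rg (MvPolynomial.aeval (R := k)
      (fun (j : Fin (enN b)) (v : Fin (enN b) → k) => v j)).range
      (fun c : Fin (enN b) → k => upr G.xp c) :=
    Rg.upr (s := fun (j : Fin (enN b)) (z : Fin (enN b) → k) => z j)
      fun j => Rg.x G (en b j : ι) ⟨MvPolynomial.X j, aeval_X _ _⟩
  obtain ⟨Q, hQ⟩ := h3 _ (G.trL hf g)
  refine ⟨Q, fun c => ?_⟩
  have h4 := congrFun hQ c
  exact h4.symm.trans (aeval_fun' Q c)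

theorem tws_ax : (G.tws p).Ax :=
  twist_ax G.pin_ax fun _ _ hl _ hv g =>
    DM.PinData.exists_root G.pin_ax (fun i _ => hl i) hv g

theorem tws_stz : ∃ z : tw G.pin p, (G.tws p).Stz p z :=
  exists_stz G.pin_ax fun i => even_two_rho b i

theorem pin_ext2 : G.pin.Ext2 := by
  intro Q
  change MvPolynomial (Fin (enN b)) k at Q
  obtain ⟨m, hm0, hm⟩ := G.exists_m'
  have hLR : LR (fun (v : Fin (enN b) ⊕ Fin (enN b) → k) (_ : Tor k X) =>
      eval v (rename Sum.inr Q)) := LR.poly' _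
  obtain ⟨n, hn⟩ := G.vd_ext' hLR
  obtain ⟨f, hf, hf1, hf0⟩ := hn n le_rfl
  have hd : Dmt b (n • (m • (∑ j, P.root (en b j : ι)) - G.de)) := by
    intro i hi
    rw [map_nsmul, nsmul_eq_mul]
    exact mul_nonneg (Nat.cast_nonneg _) (hm i hi)
  obtain ⟨v, hv, hv1⟩ := G.hw_of_dmt hd
  have hcell : ∀ s z r, (f * v) (G.om s z r) =
      (((ch G.pin.rho2 z)⁻¹ : kˣ) : k) ^ (n * m) * eval r Q := by
    intro s z r
    rw [Pi.mul_apply, hf1, hv1, G.vd_om]
    have h1 : eval (Sum.elim s r) (rename Sum.inr Q) = eval r Q := by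
      rw [eval_rename]
      rfl
    rw [h1]
    have h2 : (((ch G.de z)⁻¹ : kˣ) : k) ^ n * (((ch (n • (m • (∑ j, P.root (en b j : ι)) - G.de)) z)⁻¹ : kˣ) : k) =
        (((ch G.pin.rho2 z)⁻¹ : kˣ) : k) ^ (n * m) := by
      rw [← Units.val_pow_eq_pow_val, ← Units.val_pow_eq_pow_val, ← Units.val_mul]
      congr 1
      rw [inv_pow, inv_pow, ← mul_inv, ← ch_nsmul, ← ch_nsmul, ← ch_add]
      congr 2
      rw [smul_sub, smul_smul]
      show _ = (n * m) • ∑ j, P.root (en b j : ι)
      abel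
    rw [← h2]
    ring
  refine ⟨n * m, fun g => ?_⟩
  obtain ⟨Q', hQ'⟩ := G.poly_up (G.A.mul_mem hf hv) g
  refine ⟨Q', fun c => ⟨fun a t r h => ?_, fun h => ?_⟩⟩
  · change Fin (enN b) → k at c a r
    rw [G.pin_u, G.pin_u, G.pin_v] at h
    have h1 := hQ' c
    have h2 : g * upr G.xp c = G.om a t r := h
    rw [h2, hcell] at h1
    exact h1.symm
  · change Fin (enN b) → k at c
    have h1 := hQ' c
    have h2 : G.vd (g * upr G.xp c) = 0 := by
      by_contra hne
      obtain ⟨s, z, r, h3⟩ := (G.vd_ne _).1 hne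
      apply h
      refine ⟨s, z, r, ?_⟩
      rw [G.pin_u, G.pin_u, G.pin_v]
      exact h3
    rw [Pi.mul_apply, hf0 _ h2, zero_mul] at h1
    exact h1.symm

theorem tws_ext2 : (G.tws p).Ext2 := by
  intro Q
  obtain ⟨n, hn⟩ := G.pin_ext2 Q
  refine ⟨n, fun g => ?_⟩
  obtain ⟨Q', hQ'⟩ := hn g
  refine ⟨Q', fun c => ⟨fun a t r h => ?_, fun h => (hQ' c).2 h⟩⟩
  have h1 := (hQ' c).1 a t r h
  have h2 : (G.tws p).ch (G.tws p).rho2 t = G.pin.ch G.pin.rho2 t := by
    have h3 : (G.tws p).rho2 = jj G.pin p G.pin.rho2 := twist_rho2 G.pin_ax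
    rw [h3]
    exact ch_jj G.pin_ax _ _
  rw [h2]
  exact h1

open TensorProduct in
include p in
theorem dmt [Infinite k] : TRN.DM G.pg := by
  intro a a'
  have hP := G.tws_ax p
  obtain ⟨z, hz⟩ := G.tws_stz p
  have ea : ∀ a : X, (G.tws p).Ind (jj G.pin p a) = G.pg.Ind a := fun a =>
    (Ind_jj G.pin_ax a).trans (Submodule.ext fun f => G.mem_pin_Ind)
  have hgood := DM.PinData.donkin_mathieu hP hz (jj G.pin p a) (jj G.pin p a')
  rw [ea, ea] at hgood
  have hfd : FiniteDimensional k (G.pg.Ind a) := by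
    rw [← ea]
    exact DM.PinData.Ind_fin hP _
  obtain ⟨π, hπ⟩ : ∃ π : (G.pg.Ind a) ⊗[k] (G.pg.Ind a') →ₗ[k] (Γ × Γ → k),
      ∀ f f', π (f ⊗ₜ[k] f') = DM.box (f : Γ → k) (f' : Γ → k) := by
    refine ⟨TensorProduct.lift (LinearMap.mk₂ k
      (fun f f' => DM.box (f : Γ → k) (f' : Γ → k))
      (fun f g h => by funext y; simp only [DM.box, Submodule.coe_add, Pi.add_apply]; ring)
      (fun c f h => by
        funext y; simp only [DM.box, Submodule.coe_smul, Pi.smul_apply, smul_eq_mul]; ring)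
      (fun f g h => by funext y; simp only [DM.box, Submodule.coe_add, Pi.add_apply]; ring)
      (fun c f h => by
        funext y; simp only [DM.box, Submodule.coe_smul, Pi.smul_apply, smul_eq_mul]; ring)),
      fun f f' => TensorProduct.lift.tmul f f'⟩
  have key : ∀ x, π x = 0 → x = 0 := by
    intro x hx
    obtain ⟨n, ⟨e⟩⟩ : ∃ n, Nonempty (Module.Basis (Fin n) k (G.pg.Ind a)) :=
      ⟨_, ⟨Module.finBasis k (G.pg.Ind a)⟩⟩
    have hli : LinearIndependent k (fun j => (e j : Γ → k)) :=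
      e.linearIndependent.map' (G.pg.Ind a).subtype (Submodule.ker_subtype _)
    obtain ⟨c, hc⟩ := TensorProduct.eq_repr_basis_left e x
    have hc' : x = ∑ i, e i ⊗ₜ[k] c i := by
      rw [← hc, Finsupp.sum_fintype]
      intro i
      exact TensorProduct.tmul_zero _ _
    have h1 : ∑ i, DM.box (e i : Γ → k) ((c i : G.pg.Ind a') : Γ → k) = 0 := by
      rw [← hx, hc', map_sum]
      exact Finset.sum_congr rfl fun i _ => (hπ _ _).symm
    have h2 : ∀ i, c i = 0 := fun i => Subtype.ext (DM.box_sum_eq_zero hli h1 i)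
    rw [hc']
    refine Finset.sum_eq_zero fun i _ => ?_
    rw [h2 i, TensorProduct.tmul_zero]
  refine goodIn_of_good hP _ (fun g v _ => Submodule.mem_top) ?_
  refine Good.of_inj hP (φ := π) (ρ' := DM.lreg k Γ (Γ × Γ)) ?_ ?_
    (ratOn (PG.isRational_tprod (PG.isRational_ind G.pg a) (PG.isRational_ind G.pg a'))
      (fun g v _ => Submodule.mem_top)) ?_
  · intro g x
    induction x using TensorProduct.induction_on with
    | zero => simp only [map_zero]
    | tmul f f' =>
      have h1 : ((G.pg.indRep a).tprod (G.pg.indRep a')) g (f ⊗ₜ[k] f') =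
        G.pg.indRep a g f ⊗ₜ[k] G.pg.indRep a' g f' := rfl
      rw [h1, hπ, hπ, DM.lreg_box]
      rfl
    | add x y hx hy => rw [map_add, map_add, map_add, map_add, hx, hy]
  · have hzero : ∀ x, π x = 0 → x = 0 := by
      intro x hx
      exact key x hx
    intro x y hxy
    have h1 : π (x + (-1 : k) • y) = 0 := by
      rw [map_add, map_smul, hxy]
      funext w
      simp
    have h2 := hzero _ h1
    have h3 : (-1 : k) • y + y = 0 := by
      nth_rw 2 [← one_smul k y]
      rw [← add_smul, neg_add_cancel, zero_smul]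
    calc x = x + ((-1 : k) • y + y) := by rw [h3, add_zero]
      _ = (x + (-1 : k) • y) + y := by rw [add_assoc]
      _ = y := by rw [h2, zero_add]
  · have hmap : Submodule.map π ⊤ = DM.bx (G.pg.Ind a) (G.pg.Ind a') := by
      apply le_antisymm
      · rintro _ ⟨x, -, rfl⟩
        induction x using TensorProduct.induction_on with
        | zero =>
          rw [map_zero]
          exact zero_mem _
        | tmul f f' =>
          rw [hπ]
          exact DM.box_mem f.2 f'.2
        | add x y hx hy =>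
          rw [map_add]
          exact add_mem hx hy
      · refine DM.bx_induct _ fun f hf f' hf' => ?_
        exact ⟨(⟨f, hf⟩ : G.pg.Ind a) ⊗ₜ[k] (⟨f', hf'⟩ : G.pg.Ind a'), Submodule.mem_top, hπ _ _⟩
    rw [hmap]
    exact hgood

end RedGrp

end Pool.Agent.RG
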