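import Pool.Agent.RDG.StA
import Pool.Agent.RDG.Conv
import Pool.Agent.RDG.GLCell
import Pool.Agent.TRN.Final
import Pool.Agent.TRN.FgA

/-!
# RDG / MAIN: tilting covers for all connected reductive groups
-/

set_option autoImplicit false

namespace Pool.Agent.RG

open TensorProduct

universe u v w

theorem RedGrp.tilting_cover (p : ℕ) [Fact p.Prime] {k : Type u} [Field k] [IsAlgClosed k]
    [CharP k p] {ι X Y : Type*} [Finite ι] [AddCommGroup X] [Module.Free ℤ X] [Module.Finite ℤ X]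
    [AddCommGroup Y] {P : RootDatum ι X Y} [P.IsReduced] {b : P.Base} {Γ : Type u} [Group Γ]
    (G : RedGrp k P b Γ)
    {S : Type v} [CommRing S] [Algebra k S] [Algebra.FiniteType k S]
    (σ : Representation k Γ S) (hσ : IsMul σ) (hσr : G.IsRational σ)
    (hσg : G.HasGoodFiltration σ ⊤)
    {M : Type w} [AddCommGroup M] [Module k M] [Module S M] [IsScalarTower k S M]
    [Module.Finite S M] (ρ : Representation k Γ M) (hρ : IsEquivModule σ ρ)
    (hρr : G.IsRational ρ) (hρg : G.HasGoodFiltration ρ ⊤) :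
    ∃ (T : Type u) (_ : AddCommGroup T) (_ : Module k T) (τ : Representation k Γ T),
      G.IsTilting τ ∧ ∃ φ : T ⊗[k] S →ₗ[k] M, Function.Surjective φ ∧
        (∀ t s s', φ (t ⊗ₜ (s' * s)) = s' • φ (t ⊗ₜ s)) ∧
        (∀ g x, φ (τ.tprod σ g x) = ρ g (φ x)) ∧
        G.HasGoodFiltration (τ.tprod σ) (LinearMap.ker φ) := by
  have : Infinite k := IsAlgClosed.instInfinite
  have hfd := G.fd
  have hN := G.nz
  have hDM := G.dmt p
  have hS := G.hasSt p
  obtain ⟨W, φ, h1, h2, h3, h4, h5⟩ := TRN.PG.tilting_cover (D := G.pg) hfd hDM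
    (TRN.PG.hasTop hfd hN (TRN.PG.hasEmb_of_st hS)) (TRN.PG.geomRed_of_st hS)
    (TRN.PG.fg_AU hfd hDM hN) σ ρ hσ hσr hρr hρ ((G.good_iff σ ⊤).1 hσg) ((G.good_iff ρ ⊤).1 hρg)
  exact ⟨W.V, W.ac, W.md, W.ρ, G.tilting_of h1, φ, h2, h3, h4, (G.good_iff _ _).2 h5⟩

end Pool.Agent.RG
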