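import Pool.Agent.RDG.Defs

/-!
# RDG / MODS: modules over a connected reductive group

The definitions of Jantzen, Representations of algebraic groups, I.2, II.2 and II.4, for a group `G : RedGrp k P b Γ`:
rational modules, the induced modules `∇(a) = ind_B^G(a)` (`B` the Borel subgroup of the negative roots), good filtrations,
Weyl filtrations, tilting modules, and modules over an algebra with an action of the group.

The induced modules are described without a bundled representation: `InNabla a F` says that the function `F` on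
the group lies in `∇(a)`, and `IsNabla a τ` says that the representation `τ` is isomorphic to `∇(a)`.
-/

set_option autoImplicit false

namespace Pool.Agent.RG

universe u

section

variable {k : Type*} [Field k] {Γ : Type*} [Group Γ] {V E : Type*} [AddCommGroup V] [Module k V]
  [AddCommGroup E] [Module k E]

/-- stable subspaces -/
def Stable (ρ : Representation k Γ V) (N : Submodule k V) : Prop := ∀ g, ∀ v ∈ N, ρ g v ∈ N

/-- `N' / N` is isomorphic to the representation `τ`. -/
def IsLayer (τ : Representation k Γ E) (ρ : Representation k Γ V) (N N' : Submodule k V) : Prop :=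
  N ≤ N' ∧ ∃ f : N' →ₗ[k] E, Function.Surjective f ∧ (∀ x : N', f x = 0 ↔ (x : V) ∈ N) ∧
    ∀ (g : Γ) (x y : N'), (y : V) = ρ g x → f y = τ g (f x)

/-- action by algebra automorphisms -/
def IsMul {S : Type*} [CommRing S] [Algebra k S] (σ : Representation k Γ S) : Prop :=
  ∀ g a b, σ g (a * b) = σ g a * σ g b

/-- modules over an algebra with an action of the group: `g (s m) = (g s) (g m)` -/
def IsEquivModule {S M : Type*} [CommRing S] [Algebra k S] [AddCommGroup M] [Module k M]
    [Module S M] (σ : Representation k Γ S) (ρ : Representation k Γ M) : Prop :=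
  ∀ g s m, ρ g (s • m) = σ g s • ρ g m

end

namespace RedGrp

section

variable {k : Type*} [Field k] {ι X Y : Type*} [AddCommGroup X] [AddCommGroup Y]
  {P : RootDatum ι X Y} {b : P.Base} {Γ : Type*} [Group Γ] (G : RedGrp k P b Γ)
  {V : Type*} [AddCommGroup V] [Module k V]

/-- rational representations: the orbit maps are regular -/
def IsRational (ρ : Representation k Γ V) : Prop :=
  ∀ v, ∃ (m : ℕ) (f : Fin m → Γ → k) (w : Fin m → V), (∀ i, f i ∈ G.A) ∧
    ∀ g, ρ g v = ∑ i, f i g • w i

/-- the unipotent radical of the Borel subgroup of the negative roots: the group generated by the root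
subgroups of the negative roots -/
def Uneg : Subgroup Γ :=
  Subgroup.closure {g | ∃ i s, b.IsPos i ∧ g = G.φ i (lo s)}

/-- `F` lies in the induced module `∇(a) = ind_B^G(a)`: it is a regular function on the group with
`F (g c) = a(c)⁻¹ F g` for `c` in the Borel subgroup of the negative roots. -/
def InNabla (a : X) (F : Γ → k) : Prop :=
  F ∈ G.A ∧ ∀ g, ∀ u ∈ G.Uneg, ∀ z, F (g * (u * G.t z)) = ((ch a z)⁻¹ : kˣ) * F g

/-- The representation `τ` is isomorphic to the induced module `∇(a)`, on which the group acts by
`(g F) (h) = F (g⁻¹ h)`. -/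
def IsNabla (a : X) (τ : Representation k Γ V) : Prop :=
  ∃ f : V →ₗ[k] (Γ → k), Function.Injective f ∧ (∀ F, G.InNabla a F ↔ ∃ x, f x = F) ∧
    ∀ g x h, f (τ g x) h = f x (g⁻¹ * h)

/-- dominant weights -/
def Dominant (_ : RedGrp k P b Γ) (a : X) : Prop :=
  ∀ i ∈ b.support, 0 ≤ P.toLinearMap a (P.coroot i)

end

section

variable {k : Type u} [Field k] {ι X Y : Type*} [AddCommGroup X] [AddCommGroup Y]
  {P : RootDatum ι X Y} {b : P.Base} {Γ : Type u} [Group Γ] (G : RedGrp k P b Γ)
  {V : Type*} [AddCommGroup V] [Module k V]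

/-- `Y` has a good filtration: an exhaustive ascending chain `0 = N 0 ⊆ N 1 ⊆ ...` of stable subspaces
whose subquotients are `0` or isomorphic to induced modules `∇(a)`, `a` dominant. -/
def HasGoodFiltration (ρ : Representation k Γ V) (Y : Submodule k V) : Prop :=
  ∃ N : ℕ → Submodule k V, N 0 = ⊥ ∧ (∀ i, Stable ρ (N i)) ∧
    (∀ i, N i = N (i + 1) ∨ ∃ (a : X) (E : Type u) (_ : AddCommGroup E) (_ : Module k E)
      (τ : Representation k Γ E), G.Dominant a ∧ G.IsNabla a τ ∧ IsLayer τ ρ (N i) (N (i + 1))) ∧
    ⨆ i, N i = Y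

/-- The same for the Weyl modules, i.e. the duals of the induced modules `∇(a)`, `a` dominant. -/
def HasWeylFiltration (ρ : Representation k Γ V) (Y : Submodule k V) : Prop :=
  ∃ N : ℕ → Submodule k V, N 0 = ⊥ ∧ (∀ i, Stable ρ (N i)) ∧
    (∀ i, N i = N (i + 1) ∨ ∃ (a : X) (E : Type u) (_ : AddCommGroup E) (_ : Module k E)
      (τ : Representation k Γ E), G.Dominant a ∧ G.IsNabla a τ ∧
        IsLayer τ.dual ρ (N i) (N (i + 1))) ∧
    ⨆ i, N i = Y

/-- tilting modules -/
structure IsTilting (ρ : Representation k Γ V) : Prop where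
  finite : Module.Finite k V
  rational : G.IsRational ρ
  good : G.HasGoodFiltration ρ ⊤
  weyl : G.HasWeylFiltration ρ ⊤

end

end RedGrp

end Pool.Agent.RG
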