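import Pool.Agent.RDG.Glue

/-!
# RDG / NRM: `Hw l`: the highest weight function of weight `l` is regular; roots

`Hw l`: the function `om s z r ↦ (ch l z)⁻¹` on the big cell extends to a regular function.

`Hw.of_smul` (a normality argument). Let `V ∈ A`, `V (om s z r) = (ch (m l) z)⁻¹`, and `n ≥ 1`,
`f₀ ∈ A` with `f₀ = vd ^ n * ch (-l) z` on the cell and `f₀ = 0` outside (`vd_ext'`). Then
`f₀ ^ m = V * vd ^ (n m)` in `A` (`eq_zero`). For `g ∈ Γ` let `A_g (v, z) = f₀ (g * om)`,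
`V_g (v, z) = V (g * om)`, `W_g (v, z) = vd (g * om) ^ n`: regular functions (`A_LR` for the
translates, `trL`), `A_g ^ m = V_g * W_g ^ m` and `W_g` is not zero (`dense`). `LR.dvd`: `A_g = W_g * q_g`,
`q_g` regular. Let `F g = q_g (0, 1)` (`om 0 1 0 = 1`).
Claim: `F (g * h) = q_g (v, z)` for `h = om v z`. Let `g' = g h`; let `a₁, a₂ ∈ A`, `n₁, n₂ ≥ 1` with
`a₁ = vd ^ n₁ * q_g`, `a₂ = vd ^ n₂ * q_{g'}` on the cell and `0` outside (`vd_ext'`). For all `x ∈ Γ`
`a₁ (h x) * vd x ^ n₂ * vd (g' x) ^ n = a₂ x * vd (h x) ^ n₁ * vd (g' x) ^ n`: both sides vanish if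
`vd x = 0` or `vd (h x) = 0`; otherwise `x = om v' z'`, `h x = om v'' z''` and
`vd (g' x) ^ n * q_g (v'', z'') = (W_g q_g) (v'', z'') = A_g (v'', z'') = f₀ (g h x) = f₀ (g' x) =
A_{g'} (v', z') = vd (g' x) ^ n * q_{g'} (v', z')`. Since `A` is a domain (`G.dom`) and
`x ↦ vd (g' x)` is not zero, `a₁ (h x) * vd x ^ n₂ = a₂ x * vd (h x) ^ n₁` for all `x`. For `x = 1`:
`vd h ^ n₁ * q_g (v, z) = q_{g'} (0, 1) * vd h ^ n₁`, `vd h ≠ 0`. (`uniqueness` of the representation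
of points of the cell is not needed for `q_g`, or use `om_inj`.)
`glue` gives `F ∈ A`; for `g = 1`: `vd ^ n * ch (-l) = vd ^ n * q_1` on the cell, so
`F (om v z) = q_1 (v, z) = ch (-l) z`.
-/

set_option autoImplicit false

open MvPolynomial

namespace Pool.Agent.RG

variable {k : Type*} [Field k] {ι X Y : Type*} [AddCommGroup X] [AddCommGroup Y] [Finite ι]
  {P : RootDatum ι X Y} {b : P.Base} {Γ : Type*} [Group Γ] (G : RedGrp k P b Γ)

namespace RedGrp

/-- the highest weight function of weight `l` is regular -/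
def Hw (l : X) : Prop := ∃ v ∈ G.A, ∀ s z r, v (G.om s z r) = ((ch l z)⁻¹ : kˣ)

variable {G}

lemma Hw.zero : G.Hw 0 :=
  ⟨1, G.A.one_mem, fun s z r => by rw [Pi.one_apply, ch_zero, inv_one, Units.val_one]⟩

lemma Hw.add {l m : X} (h : G.Hw l) (h' : G.Hw m) : G.Hw (l + m) := by
  obtain ⟨v, hv, e⟩ := h
  obtain ⟨v', hv', e'⟩ := h'
  exact ⟨v * v', G.A.mul_mem hv hv', fun s z r => by
    rw [Pi.mul_apply, e, e', ch_add, mul_inv, Units.val_mul]⟩

lemma Hw.smul {l : X} (h : G.Hw l) (n : ℕ) : G.Hw (n • l) := by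
  induction n with
  | zero =>
    rw [zero_smul]
    exact Hw.zero
  | succ n ih =>
    rw [succ_nsmul]
    exact ih.add h

variable (G) [IsAlgClosed k] [Module.Finite ℤ X] [Module.Free ℤ X] [P.IsReduced]

lemma Hw_de : G.Hw G.de := ⟨G.vd, G.vd_mem, G.vd_om⟩

/-- `vd_ext` for `Q = 1` -/
lemma exists_Hw_add (l : X) : ∃ n : ℕ, G.Hw (n • G.de + l) := by
  obtain ⟨n, f, hf, e⟩ := G.vd_ext 1 (-l)
  refine ⟨n, f, hf, fun s z r => ?_⟩
  rw [e, vd_om, map_one, one_mul, ch_add, ch_nsmul, ch_neg, mul_inv, Units.val_mul, ← inv_pow,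
    Units.val_pow_eq_pow_val]

variable {G}

private lemma nrm_om_ex {x : Γ} (hx : G.vd x ≠ 0) : ∃ (v : Fin (enN b) ⊕ Fin (enN b) → k)
    (z : Tor k X), x = G.om (fun j => v (Sum.inl j)) z fun j => v (Sum.inr j) := by
  obtain ⟨s, z, r, e⟩ := (G.vd_ne x).1 hx
  exact ⟨Sum.elim s r, z, e⟩

private lemma nrm_ext {F : (Fin (enN b) ⊕ Fin (enN b) → k) → Tor k X → k} (h : LR F) :
    ∃ n : ℕ, 0 < n ∧ ∃ f ∈ G.A,
      (∀ (v : Fin (enN b) ⊕ Fin (enN b) → k) z,
        f (G.om (fun j => v (Sum.inl j)) z fun j => v (Sum.inr j)) =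
        G.vd (G.om (fun j => v (Sum.inl j)) z fun j => v (Sum.inr j)) ^ n * F v z) ∧
      ∀ g, G.vd g = 0 → f g = 0 := by
  obtain ⟨n₀, hn₀⟩ := G.vd_ext' h
  obtain ⟨f, hf, e1, e2⟩ := hn₀ (n₀ + 1) (Nat.le_succ _)
  refine ⟨n₀ + 1, Nat.succ_pos _, f, hf, fun v z => ?_, e2⟩
  rw [e1]
  congr 2
  funext j
  cases j <;> rfl

private lemma nrm_one : G.om (fun j => (0 : Fin (enN b) ⊕ Fin (enN b) → k) (Sum.inl j)) 1
    (fun j => (0 : Fin (enN b) ⊕ Fin (enN b) → k) (Sum.inr j)) = 1 := G.om_one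

theorem Hw.of_smul {m : ℕ} (hm : 0 < m) {l : X} (h : G.Hw (m • l)) : G.Hw l := by
  classical
  obtain ⟨V, hV, eV⟩ := h
  obtain ⟨n, hn, f₀, hf₀, e1, e2⟩ := nrm_ext (G := G)
    (LR.char (k := k) (X := X) (τ := Fin (enN b) ⊕ Fin (enN b)) (-l))
  -- the equation
  have e3 : ∀ g, f₀ g ^ m = V g * (G.vd g ^ n) ^ m := by
    have h1 : f₀ ^ m - V * (G.vd ^ n) ^ m = 0 := by
      refine G.eq_zero (sub_mem (pow_mem hf₀ _) (mul_mem hV (pow_mem (pow_mem G.vd_mem _) _)))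
        fun s z r => ?_
      have h2 := e1 (Sum.elim s r) z
      simp only [Sum.elim_inl, Sum.elim_inr] at h2
      rw [Pi.sub_apply, Pi.mul_apply, Pi.pow_apply, Pi.pow_apply, Pi.pow_apply, h2, eV, ch_nsmul,
        mul_pow, ch_neg, ← inv_pow, Units.val_pow_eq_pow_val]
      ring
    intro g
    have h2 := congrFun h1 g
    rw [Pi.sub_apply, Pi.mul_apply, Pi.pow_apply, Pi.pow_apply, Pi.pow_apply, Pi.zero_apply] at h2
    exact sub_eq_zero.1 h2
  -- the quotients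
  have key : ∀ g : Γ, ∃ q : (Fin (enN b) ⊕ Fin (enN b) → k) → Tor k X → k, LR q ∧ ∀ v z,
      f₀ (g * G.om (fun j => v (Sum.inl j)) z fun j => v (Sum.inr j)) =
      G.vd (g * G.om (fun j => v (Sum.inl j)) z fun j => v (Sum.inr j)) ^ n * q v z := by
    intro g
    refine LR.dvd (G.A_LR (G.trL hf₀ g)) (G.A_LR (G.trL hV g))
      (LR.pow (G.A_LR (G.trL G.vd_mem g)) n) ?_ hm fun v z => e3 _
    obtain ⟨s, s', z, r', e⟩ := G.dense g
    refine ⟨Sum.elim s 0, 1, pow_ne_zero n ?_⟩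
    simp only [Sum.elim_inl, Sum.elim_inr]
    refine (G.vd_ne _).2 ⟨s', z, r', ?_⟩
    rw [← e]
    congr 1
    have h0 : upr G.xm (fun j => (0 : Fin (enN b) → k) j) = 1 := by
      apply List.prod_eq_one
      intro y hy
      rw [List.mem_ofFn] at hy
      obtain ⟨j, rfl⟩ := hy
      exact G.x_zero _
    rw [om, h0, map_one, mul_one, mul_one]
  choose q hq eq using key
  have claim : ∀ (g : Γ) (v : Fin (enN b) ⊕ Fin (enN b) → k) (z : Tor k X),
      q (g * G.om (fun j => v (Sum.inl j)) z fun j => v (Sum.inr j)) 0 1 = q g v z := by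
    intro g v z
    set h : Γ := G.om (fun j => v (Sum.inl j)) z fun j => v (Sum.inr j) with hh
    have hvh : G.vd h ≠ 0 := (G.vd_ne _).2 ⟨_, _, _, rfl⟩
    obtain ⟨n₁, hn₁, a₁, ha₁, ea₁, za₁⟩ := nrm_ext (G := G) (hq g)
    obtain ⟨n₂, hn₂, a₂, ha₂, ea₂, za₂⟩ := nrm_ext (G := G) (hq (g * h))
    have h1 : ((fun x => a₁ (h * x)) * G.vd ^ n₂ - a₂ * (fun x => G.vd (h * x)) ^ n₁) *
        (fun x => G.vd (g * h * x)) ^ n = 0 := by
      funext x
      rw [Pi.mul_apply, Pi.sub_apply, Pi.mul_apply, Pi.mul_apply, Pi.pow_apply, Pi.pow_apply,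
        Pi.pow_apply, Pi.zero_apply]
      by_cases hx : G.vd x = 0
      · rw [hx, za₂ x hx, zero_pow hn₂.ne', mul_zero, zero_mul, sub_zero, zero_mul]
      · by_cases hx' : G.vd (h * x) = 0
        · rw [hx', za₁ _ hx', zero_pow hn₁.ne', mul_zero, zero_mul, sub_zero, zero_mul]
        · obtain ⟨v', z', rfl⟩ := nrm_om_ex (G := G) hx
          obtain ⟨v'', z'', e''⟩ := nrm_om_ex (G := G) hx'
          have h2 := eq g v'' z''
          have h3 := eq (g * h) v' z'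
          rw [← e'', ← mul_assoc] at h2
          have h4 := h2.symm.trans h3
          have h5 := ea₁ v'' z''
          rw [← e''] at h5
          rw [h5, ea₂]
          linear_combination (G.vd (h * G.om (fun j => v' (Sum.inl j)) z' fun j => v' (Sum.inr j)) ^ n₁ *
            G.vd (G.om (fun j => v' (Sum.inl j)) z' fun j => v' (Sum.inr j)) ^ n₂) * h4
    rcases G.dom _ (sub_mem (mul_mem (G.trL ha₁ h) (pow_mem G.vd_mem _))
      (mul_mem ha₂ (pow_mem (G.trL G.vd_mem h) _))) _ (pow_mem (G.trL G.vd_mem (g * h)) _) h1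
      with h2 | h2
    · have h3 := congrFun h2 1
      rw [Pi.sub_apply, Pi.mul_apply, Pi.mul_apply, Pi.pow_apply, Pi.pow_apply, Pi.zero_apply,
        vd_one, one_pow, mul_one, mul_one] at h3
      have h4 := ea₁ v z
      have h5 := ea₂ 0 1
      rw [nrm_one, vd_one, one_pow, one_mul] at h5
      rw [← hh] at h4
      rw [h4, h5] at h3
      have h6 := sub_eq_zero.1 h3
      rw [mul_comm] at h6
      exact (mul_right_cancel₀ (pow_ne_zero n₁ hvh) h6).symm
    · exfalso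
      have h3 := congrFun h2 (g * h)⁻¹
      rw [Pi.pow_apply, mul_inv_cancel, vd_one, one_pow] at h3
      exact one_ne_zero h3
  refine ⟨fun g => q g 0 1, ?_, fun s z r => ?_⟩
  · exact G.glue _ fun g => (hq g).congr fun v z => claim g v z
  · have h1 := claim 1 (Sum.elim s r) z
    have h2 := eq 1 (Sum.elim s r) z
    have h3 := e1 (Sum.elim s r) z
    simp only [Sum.elim_inl, Sum.elim_inr, one_mul] at h1 h2 h3
    show q (G.om s z r) 0 1 = _
    rw [h1, ← ch_neg]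
    rw [h3] at h2
    refine (mul_left_cancel₀ (pow_ne_zero n ?_) h2).symm
    exact (G.vd_ne _).2 ⟨_, _, _, rfl⟩

/-- the highest weight function is in the induced module: for `u ∈ U⁻` -/
lemma Hw.right {l : X} {v : Γ → k} (hv : v ∈ G.A) (h : ∀ s z r, v (G.om s z r) = ((ch l z)⁻¹ : kˣ))
    (g : Γ) {u : Γ} (hu : u ∈ G.VV) (z : Tor k X) :
    v (g * (u * G.t z)) = ((ch l z)⁻¹ : kˣ) * v g := by
  have h1 : (fun g => v (g * (u * G.t z))) - (((ch l z)⁻¹ : kˣ) : k) • v = 0 := by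
    refine G.eq_zero (sub_mem (G.trR hv (u * G.t z)) (G.A.smul_mem hv _)) fun s z₁ r => ?_
    obtain ⟨r', hr'⟩ := G.mem_V (G.VV.mul_mem (G.upr_mem_VV r) hu)
    have h2 : G.om s z₁ r * (u * G.t z) = G.om s z₁ r' * G.t z := by
      rw [om, om, ← hr']
      group
    rw [Pi.sub_apply, Pi.smul_apply, h2, om_right, h, h, ch_mul', mul_inv, Units.val_mul,
      smul_eq_mul]
    ring
  have h2 := congrFun h1 g
  rw [Pi.sub_apply, Pi.smul_apply, Pi.zero_apply, smul_eq_mul] at h2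
  exact sub_eq_zero.1 h2

end RedGrp

end Pool.Agent.RG
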