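import Pool.Agent.RDG.Defs

/-!
# RG / ORD: ordered products (pure group theory)

Let `x j : K → Γ` be homomorphisms such that for `j < l` the commutators of `x j s` and `x l r` are
in the group generated by the `x m`, `m > l`. Then every element of the group generated by all the
`x j` is an ordered product `x_0 (s_0) ... x_{N-1} (s_{N-1})`.

PROOF of `ord_closure`. Let `H n` be the group generated by the `x m`, `m ≥ n`. If `j < n ≤ l` then
`x_j(s) x_l(r) x_j(s)⁻¹ = c x_l(r)` with `c ∈ H (l+1) ≤ H n`, so `x_j(s)` normalises `H n` (same for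
`x_j(s)⁻¹ = x_j(-s)`). Hence `x_n(K) H (n+1)` is a group, equal to `H n`. By downward induction on
`n` the elements of `H n` are the products `x_n (s_n) ... x_{N-1} (s_{N-1})`, i.e. `upr x s` with
`s j = 0` for `j < n`.
-/

set_option autoImplicit false

namespace Pool.Agent.RG

private theorem one_of_add {K Γ : Type*} [AddGroup K] [Group Γ] (f : K → Γ)
    (hadd : ∀ s r, f (s + r) = f s * f r) : f 0 = 1 := by
  have h := hadd 0 0
  rw [add_zero] at h
  exact (mul_eq_left.mp h.symm)

private theorem neg_of_add {K Γ : Type*} [AddGroup K] [Group Γ] (f : K → Γ)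
    (hadd : ∀ s r, f (s + r) = f s * f r) (s : K) : f (-s) = (f s)⁻¹ := by
  have h := hadd (-s) s
  rw [neg_add_cancel, one_of_add f hadd] at h
  exact (eq_inv_of_mul_eq_one_left h.symm)

/-- one step: a one-parameter group which normalises `H` -/
private theorem step {K Γ : Type*} [AddGroup K] [Group Γ] (f : K → Γ)
    (hadd : ∀ s r, f (s + r) = f s * f r) (S : Set Γ)
    (hn : ∀ s, ∀ g ∈ S, f s * g * (f s)⁻¹ * g⁻¹ ∈ Subgroup.closure S) :
    ∀ u ∈ Subgroup.closure (Set.range f ∪ S), ∃ s, ∃ h ∈ Subgroup.closure S, u = f s * h := by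
  have h0 : f 0 = 1 := one_of_add f hadd
  have hneg : ∀ s, f (-s) = (f s)⁻¹ := neg_of_add f hadd
  have hnorm : ∀ s, ∀ h ∈ Subgroup.closure S, f s * h * (f s)⁻¹ ∈ Subgroup.closure S := by
    intro s h hh
    induction hh using Subgroup.closure_induction with
    | mem g hg =>
      have h1 := mul_mem (hn s g hg) (Subgroup.subset_closure hg)
      simpa [mul_assoc] using h1
    | one => simp
    | mul a b _ _ ha hb =>
      have h1 := mul_mem ha hb
      have e : f s * a * (f s)⁻¹ * (f s * b * (f s)⁻¹) = f s * (a * b) * (f s)⁻¹ := by group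
      rwa [e] at h1
    | inv a _ ha =>
      have h1 := inv_mem ha
      have e : (f s * a * (f s)⁻¹)⁻¹ = f s * a⁻¹ * (f s)⁻¹ := by group
      rwa [e] at h1
  intro u hu
  induction hu using Subgroup.closure_induction with
  | mem g hg =>
    rcases hg with ⟨s, rfl⟩ | hg
    · exact ⟨s, 1, one_mem _, by simp⟩
    · exact ⟨0, g, Subgroup.subset_closure hg, by simp [h0]⟩
  | one => exact ⟨0, 1, one_mem _, by simp [h0]⟩
  | mul a b _ _ ha hb =>
    obtain ⟨s, h, hh, rfl⟩ := ha
    obtain ⟨r, h', hh', rfl⟩ := hb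
    refine ⟨s + r, (f (-r) * h * (f (-r))⁻¹) * h', mul_mem (hnorm _ _ hh) hh', ?_⟩
    rw [hadd, hneg]
    group
  | inv a _ ha =>
    obtain ⟨s, h, hh, rfl⟩ := ha
    refine ⟨-s, f s * h⁻¹ * (f s)⁻¹, hnorm _ _ (inv_mem hh), ?_⟩
    rw [hneg]
    group

theorem ord_closure {K Γ : Type*} [AddGroup K] [Group Γ] {N : ℕ} (x : Fin N → K → Γ)
    (hadd : ∀ j s r, x j (s + r) = x j s * x j r)
    (hc : ∀ j l, j < l → ∀ s r, x j s * x l r * (x j s)⁻¹ * (x l r)⁻¹ ∈
      Subgroup.closure (⋃ m, ⋃ (_ : l < m), Set.range (x m))) :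
    ∀ u ∈ Subgroup.closure (⋃ j, Set.range (x j)), ∃ s : Fin N → K, u = upr x s := by
  induction N with
  | zero =>
    intro u hu
    refine ⟨fun _ => 0, ?_⟩
    have e : (⋃ j : Fin 0, Set.range (x j)) = ∅ := Set.iUnion_of_empty _
    rw [e, Subgroup.closure_empty, Subgroup.mem_bot] at hu
    simp [upr, hu]
  | succ N ih =>
    have hsub : ∀ l : Fin (N + 1), Subgroup.closure (⋃ m, ⋃ (_ : l < m), Set.range (x m)) ≤
        Subgroup.closure (⋃ j : Fin N, Set.range (x j.succ)) := by
      intro l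
      apply Subgroup.closure_mono
      intro g hg
      simp only [Set.mem_iUnion] at hg ⊢
      obtain ⟨m, hm, hg⟩ := hg
      have hm0 : m ≠ 0 := by
        rintro rfl
        exact (Fin.not_lt_zero l) hm
      obtain ⟨m', rfl⟩ := Fin.exists_succ_eq.mpr hm0
      exact ⟨m', hg⟩
    have ih' := ih (fun j => x j.succ) (fun j => hadd j.succ) (by
      intro j l hjl s r
      have h1 := hc j.succ l.succ (Fin.succ_lt_succ_iff.mpr hjl) s r
      refine Subgroup.closure_mono ?_ h1
      intro g hg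
      simp only [Set.mem_iUnion] at hg ⊢
      obtain ⟨m, hm, hg⟩ := hg
      have hm0 : m ≠ 0 := by
        rintro rfl
        exact (Fin.not_lt_zero _) hm
      obtain ⟨m', rfl⟩ := Fin.exists_succ_eq.mpr hm0
      exact ⟨m', Fin.succ_lt_succ_iff.mp hm, hg⟩)
    intro u hu
    have e : (⋃ j, Set.range (x j)) = Set.range (x 0) ∪ ⋃ j : Fin N, Set.range (x j.succ) := by
      ext g
      simp only [Set.mem_iUnion, Set.mem_union, Fin.exists_fin_succ]
    rw [e] at hu
    obtain ⟨s, h, hh, rfl⟩ := step (x 0) (hadd 0) _ (by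
      intro s g hg
      simp only [Set.mem_iUnion] at hg
      obtain ⟨l, r, rfl⟩ := hg
      exact hsub l.succ (hc 0 l.succ (Fin.succ_pos l) s r)) u hu
    obtain ⟨t, rfl⟩ := ih' h hh
    refine ⟨Fin.cons s t, ?_⟩
    simp [upr, List.ofFn_succ]

/-- ordered products are in the group generated by the factors -/
theorem upr_mem {K Γ : Type*} [Group Γ] {N : ℕ} (x : Fin N → K → Γ) (s : Fin N → K)
    (H : Subgroup Γ) (h : ∀ j, x j (s j) ∈ H) : upr x s ∈ H := by
  unfold upr
  apply Subgroup.list_prod_mem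
  intro g hg
  rw [List.mem_ofFn'] at hg
  obtain ⟨j, rfl⟩ := hg
  exact h j

/-- the version for a subset of the indices -/
theorem ord_closure_ne {K Γ : Type*} [AddGroup K] [Group Γ] {N : ℕ} (x : Fin N → K → Γ)
    (hadd : ∀ j s r, x j (s + r) = x j s * x j r) (i : Fin N)
    (hc : ∀ j l, j < l → j ≠ i → l ≠ i → ∀ s r, x j s * x l r * (x j s)⁻¹ * (x l r)⁻¹ ∈
      Subgroup.closure (⋃ m, ⋃ (_ : l < m ∧ m ≠ i), Set.range (x m))) :
    ∀ u ∈ Subgroup.closure (⋃ j, ⋃ (_ : j ≠ i), Set.range (x j)),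
      ∃ s : Fin N → K, s i = 0 ∧ u = upr x s := by
  classical
  set y : Fin N → K → Γ := fun j s => if j = i then 1 else x j s with hy
  have hyi : ∀ s, y i s = 1 := fun s => by simp [hy]
  have hyn : ∀ j, j ≠ i → y j = x j := fun j hj => by
    funext s
    simp [hy, hj]
  have hadd' : ∀ j s r, y j (s + r) = y j s * y j r := by
    intro j s r
    by_cases hj : j = i
    · subst hj
      simp [hyi]
    · rw [hyn j hj]
      exact hadd j s r
  have hc' : ∀ j l, j < l → ∀ s r, y j s * y l r * (y j s)⁻¹ * (y l r)⁻¹ ∈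
      Subgroup.closure (⋃ m, ⋃ (_ : l < m), Set.range (y m)) := by
    intro j l hjl s r
    by_cases hj : j = i
    · subst hj
      simp [hyi]
    by_cases hl : l = i
    · subst hl
      simp [hyi]
    rw [hyn j hj, hyn l hl]
    refine Subgroup.closure_mono ?_ (hc j l hjl hj hl s r)
    intro g hg
    simp only [Set.mem_iUnion] at hg ⊢
    obtain ⟨m, ⟨hm, hmi⟩, hg⟩ := hg
    exact ⟨m, hm, by rwa [hyn m hmi]⟩
  intro u hu
  have hu' : u ∈ Subgroup.closure (⋃ j, Set.range (y j)) := by
    refine Subgroup.closure_mono ?_ hu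
    intro g hg
    simp only [Set.mem_iUnion] at hg ⊢
    obtain ⟨m, hmi, hg⟩ := hg
    exact ⟨m, by rwa [hyn m hmi]⟩
  obtain ⟨s, rfl⟩ := ord_closure y hadd' hc' u hu'
  refine ⟨Function.update s i 0, by simp, ?_⟩
  unfold upr
  congr 2
  funext j
  by_cases hj : j = i
  · subst hj
    rw [hyi, Function.update_self, one_of_add (x j) (hadd j)]
  · rw [Function.update_of_ne hj, hyn j hj]

end Pool.Agent.RG
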