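import Pool.Agent.RDG.Sys2

/-!
# RDG / SYS3: elements of the Weyl group which preserve the positive roots are trivial

`act_eq_self`: let `l` be a list of simple roots such that `act P l` maps all positive roots to
positive roots. Then `act P l a = a` for all `a`. PROOF: strong induction on the length of `l` (exchange
condition). `l = []`: clear. Otherwise `l = l' ++ [i]`; `act P l (root i) = - act P l' (root i)`
is positive, so `act P l' (root i)` is negative. Let `l' = l₁ ++ [j] ++ l₂` with `β = act P l₂ (root i)`
positive and `act P (j :: l₂) (root i)` negative (take the shortest suffix of `l'` with negative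
result); `s_j β` is negative, `β` positive, `j` simple, so `β = root j` (`refl_pos`). Hence
`s_j = w s_i w⁻¹` with `w = act P l₂` (the reflection of the root `w (root i)`; use
`RootPairing.reflection_reflectionPerm` or `act_pair`: `s_β x = x - ⟨x, β^∨⟩ β`), so
`s_j w s_i = w s_i s_i = w`, i.e. `act P (l₁ ++ [j] ++ l₂ ++ [i]) = act P (l₁ ++ l₂)`, and the shorter list
`l₁ ++ l₂` has the same action, so the induction hypothesis applies.

`act_w0_sq`: the list `l ++ l` for the list `l` of `exists_w0` maps positive roots to positive roots.

`even_two_rho`: `⟨2ρ, α_j^∨⟩` is even for all positive `j`: `coroot_closure`, `two_rho`.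
-/

set_option autoImplicit false

open MvPolynomial

namespace Pool.Agent.RG

variable {ι X Y : Type*} [AddCommGroup X] [AddCommGroup Y] {P : RootDatum ι X Y}
  (b : P.Base) [Finite ι] [P.IsReduced]

omit [Finite ι] [P.IsReduced] in
/-- the exchange condition, combinatorial part -/
private lemma sys3_split {i : ι} (hi : b.IsPos i) (l : List ι) (h : ¬ b.IsPos (actI P l i)) :
    ∃ (l₁ : List ι) (j : ι) (l₂ : List ι), l = l₁ ++ j :: l₂ ∧ b.IsPos (actI P l₂ i) ∧
      ¬ b.IsPos (actI P (j :: l₂) i) := by
  induction l with
  | nil => exact absurd hi h
  | cons j l ih =>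
    by_cases h1 : b.IsPos (actI P l i)
    · exact ⟨[], j, l, rfl, h1, h⟩
    · obtain ⟨l₁, j', l₂, e, h2, h3⟩ := ih h1
      exact ⟨j :: l₁, j', l₂, by rw [e]; rfl, h2, h3⟩

omit [Finite ι] [P.IsReduced] in
private lemma sys3_zsmul (l : List ι) (n : ℤ) (a : X) : act P l (n • a) = n • act P l a :=
  map_zsmul (AddMonoidHom.mk' (act P l) fun a c => act_add P l a c) n a

omit [Finite ι] [P.IsReduced] in
private lemma sys3_comm (l : List ι) (i : ι) (a : X) :
    act P l (P.reflection i a) = P.reflection (actI P l i) (act P l a) := by
  rw [refl_eq, refl_eq, act_pair, sub_eq_add_neg, sub_eq_add_neg, act_add, act_neg, sys3_zsmul,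
    act_root]

theorem act_eq_self (l : List ι) (hl : ∀ i ∈ l, i ∈ b.support)
    (h : ∀ j, b.IsPos j → b.IsPos (actI P l j)) (a : X) : act P l a = a := by
  have key : ∀ n : ℕ, ∀ l : List ι, l.length ≤ n → (∀ i ∈ l, i ∈ b.support) →
      (∀ j, b.IsPos j → b.IsPos (actI P l j)) → ∀ a : X, act P l a = a := by
    intro n
    induction n with
    | zero =>
      intro l hn hl h a
      have h1 : l = [] := List.length_eq_zero_iff.1 (Nat.le_zero.1 hn)
      rw [h1, act_nil]
    | succ n ih =>
      intro l hn hl h a
      rcases List.eq_nil_or_concat l with h0 | ⟨l', i, e⟩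
      · rw [h0, act_nil]
      · rw [List.concat_eq_append] at e
        subst e
        have hi : i ∈ b.support := hl i (by simp)
        have hip : b.IsPos i := RootPairing.Base.isPos_of_mem_support hi
        have h1 := h i hip
        rw [actI_append] at h1
        change b.IsPos (actI P l' (P.reflectionPerm i i)) at h1
        rw [actI_neg, pos_neg b] at h1
        obtain ⟨l₁, j, l₂, e, h2, h3⟩ := sys3_split b hip l' h1
        have hj : j ∈ b.support := hl j (by simp [e])
        have h4 : actI P l₂ i = j := by
          by_contra hne
          exact h3 (refl_pos b hj h2 hne).1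
        have h5 : ∀ c : X, act P (l' ++ [i]) c = act P (l₁ ++ l₂) c := by
          intro c
          have h6 := sys3_comm (P := P) l₂ i (P.reflection i c)
          rw [P.reflection_same, h4] at h6
          rw [e, act_append, act_append, act_cons, act_append, h6]
          rfl
        rw [h5]
        refine ih (l₁ ++ l₂) ?_ ?_ ?_ a
        · rw [e] at hn
          simp only [List.length_append, List.length_cons, List.length_nil] at hn ⊢
          lia
        · intro q hq
          refine hl q ?_
          rw [e]
          simp only [List.mem_append, List.mem_cons] at hq ⊢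
          tauto
        · intro q hq
          have h6 := h5 (P.root q)
          rw [act_root, act_root] at h6
          rw [← P.root.injective h6]
          exact h q hq
  exact key l.length l le_rfl hl h a

theorem act_w0_sq (l : List ι) (hl : ∀ i ∈ l, i ∈ b.support)
    (σ : Equiv.Perm (Fin (enN b)))
    (h : ∀ j, act P l (P.root (en b j : ι)) = -P.root (en b (σ j) : ι)) (a : X) :
    act P l (act P l a) = a := by
  rw [← act_append]
  refine act_eq_self b (l ++ l) ?_ ?_ a
  · intro i hi
    rcases List.mem_append.1 hi with hi | hi
    · exact hl i hi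
    · exact hl i hi
  · have h1 : ∀ j : Fin (enN b), actI P l (en b j : ι) =
        P.reflectionPerm (en b (σ j) : ι) (en b (σ j) : ι) := by
      intro j
      apply P.root.injective
      rw [← act_root, h, root_neg]
    intro j hj
    obtain ⟨m, hm⟩ := (en b).surjective ⟨j, hj⟩
    have h2 : j = (en b m : ι) := by rw [hm]
    rw [h2, actI_append, h1, actI_neg, h1, pos_neg b, pos_neg b]
    exact not_not.2 (en b _).2

theorem even_two_rho (j : Fin (enN b)) :
    Even (prY P (en b j : ι) (∑ j, P.root (en b j : ι))) := by
  have h1 : ∀ c ∈ AddSubmonoid.closure (P.coroot '' (b.support : Set ι)),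
      Even (P.toLinearMap (∑ j, P.root (en b j : ι)) c) := by
    intro c hc
    induction hc using AddSubmonoid.closure_induction with
    | mem x hx =>
      obtain ⟨i, hi, rfl⟩ := hx
      have h2 := two_rho b (i := i) hi
      rw [prY_apply] at h2
      rw [h2]
      exact even_two
    | zero =>
      rw [map_zero]
      exact Even.zero
    | add x y _ _ hx hy =>
      rw [map_add]
      exact hx.add hy
  rw [prY_apply]
  exact h1 _ (coroot_closure b (en b j).2)

end Pool.Agent.RG
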