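import Pool.Agent.RDG.Cen
import Pool.Agent.RDG.Sys3
import Pool.Agent.DM.Defs

/-!
# RDG / PINA: a reductive group satisfies the axioms of `DM.PinData`

`DM.up = up` etc. definitionally; `pin.xp j s = G.xp j s` (`φ_up`), `pin.u c = upr G.xp c`,
`pin.cell = {om s z r}`. The fields:
* `ch_add`, `ch_inj` (`ch_inj`), `rt_inj`, `rt_red` (`nonprop`), `h_pos` (`hgt_pos`), `h_mono`
  (`hgt_root_eq`, `en_mono`), `h_dom` (`Dmt.hgt_nonneg`), `tor_xp`, `tor_xm` (`t_xp`, `t_xm`), `phi_dg`,
  `ch_cr` (`φ_dg`), `pair_rt`, `pair_rho` (`two_rho`);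
* `u_inj`, `v_inj`, `cell_inj` (`om_inj`); `u_mul`, `u_inv`, ... : `poly_U`, `poly_V` with `Z = (τ → k)`,
  `R` the polynomial functions on `k ^ τ` (range of `MvPolynomial.aeval` of the coordinates) and
  `Rg.upr`, `Rg.mul`, `Rg.inv`; `dense` (`RedGrp.dense`);
* `conj_u`: `F v = xm i (v none) * upr xp (c with c i := 0) * xm i (- v none)` for `v : Option (Fin N) → k`,
  `c j = v (some j)`: in `UI i` (`UI_norm` with `lo`), `poly_U`; its `i`-th coordinate is `0` (`mem_UI`,
  `om_inj`). Same for `conj_v`;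
* `w0_tor`, `wT_wT`, `ch_wX`: `pg_n0_t` gives `s` with `t z * n0 = n0 * t (s z)`, `ch a (s z) =
  ch (act P (w0l b) a) z`; `act_w0_sq` gives `s (s z) = z`; `wX_rt` (`w0_root`), `w0_xp`, `w0_xm`
  (`n0_xp`, `n0_xm`), `sg_S` (`w0_simple`), `h_wX` (`w0_hgt`);
* `dom`: `hw_of_dmt`, `Hw.right`; `f (g * u c)` is a polynomial in `c` (`trL`, `Rg.upr`). In general
  `mem_pin_Ind`: `f ∈ A` with `f (g * (u * t z)) = (ch l z)⁻¹ f g` for `u ∈ VV` is in `pin.Ind l`;
* `delta`: the function `v` of `Hw (2ρ)` (`two_rho`: dominant). Take `m` with `m • 2ρ - de` dominant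
  (`⟨2ρ, α_i^∨⟩ = 2`); `v ^ m = vd * v'` with the function `v'` of `Hw (m • 2ρ - de)` (`eq_zero`), so `v = 0`
  where `vd = 0` (`vd_ne`);
* `ext`: `vd_ext'` for `F (s, r) = eval s Q` gives `f = vd ^ n * Q`; multiply by the function of
  `Hw (n • (m • 2ρ - de))`, the product is in `pin.Ind ((n m) • 2ρ)`;
* `gen_u`, `gen_v`, `gen`: `gen_U`, `gen_V`, `gen_simple` and `upr_mem`.
-/

set_option autoImplicit false
set_option linter.unusedSectionVars false

open MvPolynomial

namespace Pool.Agent.RG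

open Pool.Agent.TRN

variable {k : Type*} [Field k] {ι X Y : Type*} [AddCommGroup X] [AddCommGroup Y] [Finite ι]
  {P : RootDatum ι X Y} {b : P.Base} {Γ : Type*} [Group Γ] (G : RedGrp k P b Γ)
  [IsAlgClosed k] [Module.Finite ℤ X] [Module.Free ℤ X] [P.IsReduced]

/-- the one parameter subgroup of the torus given by a coroot -/
noncomputable def crT (k : Type*) [Field k] {ι X Y : Type*} [AddCommGroup X] [AddCommGroup Y]
    (P : RootDatum ι X Y) (i : ι) : kˣ →* Tor k X where
  toFun c :=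
    { toFun := fun x => c ^ prY P i x.toAdd
      map_one' := by rw [toAdd_one, map_zero, zpow_zero]
      map_mul' := fun x y => by rw [toAdd_mul, map_add, zpow_add] }
  map_one' := by
    apply MonoidHom.ext
    intro x
    exact one_zpow _
  map_mul' c d := by
    apply MonoidHom.ext
    intro x
    exact mul_zpow _ _ _

namespace RedGrp

open Classical in
/-- the data of `DM.PinData` of a reductive group -/
noncomputable def pin : DM.PinData k Γ (Tor k X) X where
  N := enN b
  tor := G.t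
  ch := chHom k
  rt j := P.root (en b j : ι)
  phi j := G.φ (en b j)
  cr j := crT k P (en b j)
  pair j := prY P (en b j)
  S := Finset.univ.filter fun j => (en b j : ι) ∈ b.support
  h := hgt b
  w0 := G.n0
  wT :=
    { toFun := fun z => z.comp (AddMonoidHom.toMultiplicative
        ⟨⟨fun a => act P (w0l b) a, by simpa using act_add P (w0l b) 0 0⟩, act_add P (w0l b)⟩)
      map_one' := rfl
      map_mul' := fun _ _ => rfl }
  wX := ⟨⟨fun a => act P (w0l b) a, by simpa using act_add P (w0l b) 0 0⟩, act_add P (w0l b)⟩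
  sg := w0s b

lemma pin_u (c : Fin (enN b) → k) : G.pin.u c = upr G.xp c := rfl

lemma pin_v (c : Fin (enN b) → k) : G.pin.v c = upr G.xm c := by
  show (List.ofFn fun i => G.φ (en b i) (DM.lo (c i))).prod = _
  unfold upr
  congr 2
  funext i
  exact G.φ_lo _ _

lemma pin_xp (j : Fin (enN b)) (c : k) : G.pin.xp j c = G.xp j c := G.φ_up _ _

lemma pin_xm (j : Fin (enN b)) (c : k) : G.pin.xm j c = G.xm j c := G.φ_lo _ _

open Classical in
lemma pin_S (j : Fin (enN b)) : j ∈ G.pin.S ↔ (en b j : ι) ∈ b.support := by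
  show j ∈ Finset.univ.filter (fun j => (en b j : ι) ∈ b.support) ↔ _
  rw [Finset.mem_filter]
  exact ⟨fun h => h.2, fun h => ⟨Finset.mem_univ _, h⟩⟩

private lemma pin_u' : G.pin.u = (upr G.xp : (Fin (enN b) → k) → Γ) := _root_.funext G.pin_u

private lemma pin_v' : G.pin.v = (upr G.xm : (Fin (enN b) → k) → Γ) := _root_.funext G.pin_v

private lemma pin_xp' : G.pin.xp = (G.xp : Fin (enN b) → k → Γ) := by
  funext j s
  exact G.pin_xp j s

private lemma pin_xm' : G.pin.xm = (G.xm : Fin (enN b) → k → Γ) := by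
  funext j s
  exact G.pin_xm j s

private lemma t_inv' (z : Tor k X) : G.t z⁻¹ = (G.t z)⁻¹ := map_inv G.t z

lemma pin_dom (l : X) : G.pin.Dom l ↔ Dmt b l := by
  constructor
  · intro h i hi
    have h1 := h ((en b).symm ⟨i, RootPairing.Base.isPos_of_mem_support hi⟩)
      ((G.pin_S _).2 (by rw [Equiv.apply_symm_apply]; exact hi))
    have h2 : G.pin.pair ((en b).symm ⟨i, RootPairing.Base.isPos_of_mem_support hi⟩) l =
        prY P i l := by
      show prY P (en b _ : ι) l = _
      rw [Equiv.apply_symm_apply]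
    rwa [h2] at h1
  · intro h j hj
    exact h _ ((G.pin_S j).1 hj)

/-- the polynomial functions -/
private noncomputable def polR (k : Type*) [Field k] (τ : Type*) : Subalgebra k ((τ → k) → k) :=
  (MvPolynomial.aeval (R := k) (fun (j : τ) (v : τ → k) => v j)).range

private lemma aeval_fun {τ : Type*} (Q : MvPolynomial τ k) (v : τ → k) :
    (MvPolynomial.aeval (R := k) (fun (j : τ) (v : τ → k) => v j) Q) v = eval v Q := by
  induction Q using MvPolynomial.induction_on with
  | C a => simp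
  | add p q hp hq => rw [map_add, Pi.add_apply, hp, hq, map_add]
  | mul_X p i hp => rw [map_mul, Pi.mul_apply, hp, map_mul, aeval_X, eval_X]

private lemma mem_polR {τ : Type*} {f : (τ → k) → k} :
    f ∈ polR k τ ↔ ∃ Q : MvPolynomial τ k, ∀ v, f v = eval v Q := by
  constructor
  · rintro ⟨Q, hQ⟩
    exact ⟨Q, fun v => by rw [← hQ]; exact aeval_fun Q v⟩
  · rintro ⟨Q, hQ⟩
    exact ⟨Q, by funext v; rw [hQ]; exact aeval_fun Q v⟩

private lemma X_polR {τ : Type*} (j : τ) : (fun v : τ → k => v j) ∈ polR k τ :=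
  mem_polR.2 ⟨X j, fun v => by rw [eval_X]⟩

private lemma om_s' (s : Fin (enN b) → k) : G.om s 1 0 = upr G.xp s := by
  have h : upr G.xm (0 : Fin (enN b) → k) = 1 := by
    apply List.prod_eq_one
    intro y hy
    rw [List.mem_ofFn] at hy
    obtain ⟨j, rfl⟩ := hy
    exact G.x_zero _
  rw [om, h, map_one, mul_one, mul_one]

private lemma om_r' (r : Fin (enN b) → k) : G.om 0 1 r = upr G.xm r := by
  have h : upr G.xp (0 : Fin (enN b) → k) = 1 := by
    apply List.prod_eq_one
    intro y hy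
    rw [List.mem_ofFn] at hy
    obtain ⟨j, rfl⟩ := hy
    exact G.x_zero _
  rw [om, h, map_one, one_mul, one_mul]

private lemma upr_xp_inj {s s' : Fin (enN b) → k} (h : upr G.xp s = upr G.xp s') : s = s' := by
  rw [← G.om_s', ← G.om_s'] at h
  exact (G.om_inj h).1

private lemma upr_xm_inj {s s' : Fin (enN b) → k} (h : upr G.xm s = upr G.xm s') : s = s' := by
  rw [← G.om_r', ← G.om_r'] at h
  exact (G.om_inj h).2.2

private lemma conjT_VV (z : Tor k X) {u : Γ} (hu : u ∈ G.VV) : G.t z * u * (G.t z)⁻¹ ∈ G.VV := by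
  obtain ⟨r, rfl⟩ := G.mem_V hu
  rw [G.t_upr_xm]
  exact G.upr_mem_VV _

/-- right multiplication of the cell by the negative Borel subgroup -/
private lemma om_mul_ut (s : Fin (enN b) → k) (z : Tor k X) (r : Fin (enN b) → k) {u : Γ}
    (hu : u ∈ G.VV) (w : Tor k X) : ∃ r', G.om s z r * (u * G.t w) = G.om s (z * w) r' := by
  obtain ⟨r', hr'⟩ := G.mem_V (G.VV.mul_mem (G.upr_mem_VV r) hu)
  have h1 : G.om s z r * (u * G.t w) = G.om s z r' * G.t w := by
    rw [← mul_assoc]
    congr 1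
    rw [om, om, ← hr', mul_assoc]
  rw [h1, om_right]
  exact ⟨_, rfl⟩

/-- the transformation rule on the cell suffices -/
private lemma cell_rule {l : X} {F : Γ → k} (hF : F ∈ G.A)
    (h : ∀ s z r, F (G.om s z r) = ((ch l z)⁻¹ : kˣ) * F (G.om s 1 0)) (g : Γ) {u : Γ} (hu : u ∈ G.VV)
    (z : Tor k X) : F (g * (u * G.t z)) = ((ch l z)⁻¹ : kˣ) * F g := by
  have h1 : (fun g => F (g * (u * G.t z))) - (((ch l z)⁻¹ : kˣ) : k) • F = 0 := by
    refine G.eq_zero (G.A.sub_mem (G.trR hF _) (G.A.smul_mem hF _)) fun s z' r => ?_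
    obtain ⟨r', hr'⟩ := G.om_mul_ut s z' r hu z
    rw [Pi.sub_apply, Pi.smul_apply, smul_eq_mul, hr', h s (z' * z) r', h s z' r, ch_mul', mul_inv,
      Units.val_mul]
    ring
  have h2 := congrFun h1 g
  rw [Pi.sub_apply, Pi.smul_apply, smul_eq_mul, Pi.zero_apply, sub_eq_zero] at h2
  exact h2

/-- the induced modules are the same -/
theorem mem_pin_Ind {l : X} {f : Γ → k} : f ∈ G.pin.Ind l ↔ f ∈ G.pg.Ind l := by
  constructor
  · rintro ⟨h1, h2⟩
    have h1' : ∀ g, ∀ u ∈ G.VV, ∀ z, f (g * (u * G.t z)) = ((ch l z)⁻¹ : kˣ) * f g := by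
      intro g u hu z
      have h3 := G.conjT_VV z⁻¹ hu
      rw [t_inv', inv_inv] at h3
      obtain ⟨r, hr⟩ := G.mem_V h3
      have h4 : u * G.t z = G.t z * upr G.xm r := by rw [← hr]; group
      rw [h4]
      have h5 := h1 g z r
      rw [G.pin_v] at h5
      exact h5
    refine ⟨G.glue' l f h1' fun g => ?_, h1'⟩
    obtain ⟨r, Q, v, hv⟩ := h2 g
    change Fin r → MvPolynomial (Fin (enN b)) k at Q
    refine ⟨∑ j, C (v j) * Q j, fun s => ?_⟩
    have h3 : f (g * G.pin.u s) = ∑ j, eval s (Q j) • v j := hv s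
    rw [G.pin_u s] at h3
    rw [h3, map_sum]
    refine Finset.sum_congr rfl fun j _ => ?_
    rw [map_mul, eval_C, smul_eq_mul, mul_comm]
  · rintro ⟨h1, h2⟩
    have h2' : ∀ g, ∀ u ∈ G.VV, ∀ z, f (g * (u * G.t z)) = ((ch l z)⁻¹ : kˣ) * f g := h2
    refine ⟨fun g t c => ?_, fun g => ?_⟩
    · have h3 : G.pin.tor t * G.pin.v c = (G.t t * upr G.xm c * (G.t t)⁻¹) * G.t t := by
        rw [G.pin_v c]
        show G.t t * _ = _
        group
      rw [h3]
      exact h2' g _ (G.conjT_VV t (G.upr_mem_VV c)) t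
    · have h3 : G.Rg (polR k (Fin (enN b))) (fun c : Fin (enN b) → k => upr G.xp c) :=
        Rg.upr (s := fun (j : Fin (enN b)) (z : Fin (enN b) → k) => z j)
          fun j => Rg.x G (en b j : ι) (X_polR j)
      obtain ⟨Q, hQ⟩ := mem_polR.1 (h3 _ (G.trL h1 g))
      refine ⟨1, fun _ => Q, fun _ => 1, fun c => ?_⟩
      have h4 : f (g * upr G.xp c) = eval c Q := hQ c
      rw [← G.pin_u c] at h4
      show f (g * G.pin.u c) = _
      rw [h4]
      simp

private lemma ax_u_mul : ∃ m : Fin (enN b) → MvPolynomial (Fin (enN b) ⊕ Fin (enN b)) k, ∀ a c,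
    upr G.xp a * upr G.xp c = upr G.xp fun i => eval (Sum.elim a c) (m i) := by
  have h : G.Rg (polR k (Fin (enN b) ⊕ Fin (enN b))) (fun v =>
      upr G.xp (fun j => v (Sum.inl j)) * upr G.xp (fun j => v (Sum.inr j))) :=
    Rg.mul (Rg.upr fun j => Rg.x G _ (X_polR _)) (Rg.upr fun j => Rg.x G _ (X_polR _))
  obtain ⟨m, hm, e⟩ := G.poly_U h fun v => G.UU.mul_mem (G.upr_mem_UU _) (G.upr_mem_UU _)
  choose Q hQ using fun j => mem_polR.1 (hm j)
  refine ⟨Q, fun a c => ?_⟩
  have := e (Sum.elim a c)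
  simp only [Sum.elim_inl, Sum.elim_inr] at this
  rw [this]
  congr 1
  funext j
  exact hQ j _

private lemma ax_v_mul : ∃ m : Fin (enN b) → MvPolynomial (Fin (enN b) ⊕ Fin (enN b)) k, ∀ a c,
    upr G.xm a * upr G.xm c = upr G.xm fun i => eval (Sum.elim a c) (m i) := by
  have h : G.Rg (polR k (Fin (enN b) ⊕ Fin (enN b))) (fun v =>
      upr G.xm (fun j => v (Sum.inl j)) * upr G.xm (fun j => v (Sum.inr j))) :=
    Rg.mul (Rg.upr fun j => Rg.x G _ (X_polR _)) (Rg.upr fun j => Rg.x G _ (X_polR _))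
  obtain ⟨m, hm, e⟩ := G.poly_V h fun v => G.VV.mul_mem (G.upr_mem_VV _) (G.upr_mem_VV _)
  choose Q hQ using fun j => mem_polR.1 (hm j)
  refine ⟨Q, fun a c => ?_⟩
  have := e (Sum.elim a c)
  simp only [Sum.elim_inl, Sum.elim_inr] at this
  rw [this]
  congr 1
  funext j
  exact hQ j _

private lemma ax_u_inv : ∃ m : Fin (enN b) → MvPolynomial (Fin (enN b)) k, ∀ a,
    (upr G.xp a)⁻¹ = upr G.xp fun i => eval a (m i) := by
  have h : G.Rg (polR k (Fin (enN b))) (fun v => (upr G.xp (fun j => v j))⁻¹) :=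
    Rg.inv (Rg.upr fun j => Rg.x G _ (X_polR _))
  obtain ⟨m, hm, e⟩ := G.poly_U h fun v => G.UU.inv_mem (G.upr_mem_UU _)
  choose Q hQ using fun j => mem_polR.1 (hm j)
  refine ⟨Q, fun a => ?_⟩
  have := e a
  refine this.trans ?_
  congr 1
  funext j
  exact hQ j _

private lemma ax_v_inv : ∃ m : Fin (enN b) → MvPolynomial (Fin (enN b)) k, ∀ a,
    (upr G.xm a)⁻¹ = upr G.xm fun i => eval a (m i) := by
  have h : G.Rg (polR k (Fin (enN b))) (fun v => (upr G.xm (fun j => v j))⁻¹) :=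
    Rg.inv (Rg.upr fun j => Rg.x G _ (X_polR _))
  obtain ⟨m, hm, e⟩ := G.poly_V h fun v => G.VV.inv_mem (G.upr_mem_VV _)
  choose Q hQ using fun j => mem_polR.1 (hm j)
  refine ⟨Q, fun a => ?_⟩
  have := e a
  refine this.trans ?_
  congr 1
  funext j
  exact hQ j _

open Classical in
private lemma ax_conj_u (i : Fin (enN b)) (hi : (en b i : ι) ∈ b.support) :
    ∃ q : Fin (enN b) → MvPolynomial (Option (Fin (enN b))) k,
    ∀ (s : k) (c : Fin (enN b) → k), c i = 0 → eval (fun o => o.elim s c) (q i) = 0 ∧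
      G.xm i s * upr G.xp c * G.xm i (-s) = upr G.xp fun j => eval (fun o => o.elim s c) (q j) := by
  have hs : ∀ j, (fun v : Option (Fin (enN b)) → k => if j = i then 0 else v (some j)) ∈
      polR k (Option (Fin (enN b))) := by
    intro j
    by_cases h : j = i
    · simp only [if_pos h]
      exact (polR k _).zero_mem
    · simp only [if_neg h]
      exact X_polR _
  have hR : G.Rg (polR k (Option (Fin (enN b)))) (fun v =>
      G.xm i (v none) * upr G.xp (fun j => if j = i then 0 else v (some j)) * G.xm i (-v none)) :=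
    Rg.mul (Rg.mul (Rg.x G _ (X_polR _)) (Rg.upr fun j => Rg.x G _ (hs j)))
      (Rg.x G _ ((polR k _).neg_mem (X_polR _)))
  have hUI : ∀ v : Option (Fin (enN b)) → k,
      G.xm i (v none) * upr G.xp (fun j => if j = i then 0 else v (some j)) * G.xm i (-v none) ∈
      G.UI i := by
    intro v
    have h1 : upr G.xp (fun j => if j = i then 0 else v (some j)) ∈ G.UI i := by
      refine upr_mem _ _ _ fun j => ?_
      by_cases h : j = i
      · rw [if_pos h]
        have : G.xp j 0 = 1 := G.x_zero _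
        rw [this]
        exact (G.UI i).one_mem
      · rw [if_neg h]
        exact Subgroup.subset_closure (Set.mem_iUnion₂.2 ⟨j, h, Set.mem_range_self _⟩)
    have h2 := G.UI_norm hi h1 (lo (v none))
    rw [G.φ_lo] at h2
    have h3 : G.xm i (-v none) = (G.x (P.reflectionPerm (en b i) (en b i)) (v none))⁻¹ :=
      G.x_neg _ _
    rw [h3]
    exact h2
  have hUU : ∀ v : Option (Fin (enN b)) → k,
      G.xm i (v none) * upr G.xp (fun j => if j = i then 0 else v (some j)) * G.xm i (-v none) ∈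
      G.UU := by
    intro v
    obtain ⟨s, -, hs⟩ := G.mem_UI hi (hUI v)
    rw [hs]
    exact G.upr_mem_UU _
  obtain ⟨m, hm, e⟩ := G.poly_U hR hUU
  choose Q hQ using fun j => mem_polR.1 (hm j)
  refine ⟨Q, fun s c hc => ?_⟩
  have e1 := e (fun o => o.elim s c)
  have e2 : (fun j => if j = i then 0 else (some j).elim s c) = c := by
    funext j
    by_cases h : j = i
    · rw [if_pos h, h, hc]
    · rw [if_neg h]; rfl
  have e3 : (fun j => m j fun o => o.elim s c) = fun j => eval (fun o => o.elim s c) (Q j) := by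
    funext j
    exact hQ j _
  constructor
  · obtain ⟨s', hs', hs''⟩ := G.mem_UI hi (hUI (fun o => o.elim s c))
    rw [e (fun o => o.elim s c)] at hs''
    have h5 := congrFun (G.upr_xp_inj hs'') i
    rw [hs'] at h5
    rw [← hQ i]
    exact h5
  · rw [← e3, ← e1]
    have e4 : upr G.xp c = upr G.xp (fun j => if j = i then 0 else (some j).elim s c) := by rw [e2]
    rw [e4]
    rfl

open Classical in
private lemma ax_conj_v (i : Fin (enN b)) (hi : (en b i : ι) ∈ b.support) :
    ∃ q : Fin (enN b) → MvPolynomial (Option (Fin (enN b))) k,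
    ∀ (s : k) (c : Fin (enN b) → k), c i = 0 → eval (fun o => o.elim s c) (q i) = 0 ∧
      G.xp i s * upr G.xm c * G.xp i (-s) = upr G.xm fun j => eval (fun o => o.elim s c) (q j) := by
  have hs : ∀ j, (fun v : Option (Fin (enN b)) → k => if j = i then 0 else v (some j)) ∈
      polR k (Option (Fin (enN b))) := by
    intro j
    by_cases h : j = i
    · simp only [if_pos h]
      exact (polR k _).zero_mem
    · simp only [if_neg h]
      exact X_polR _
  have hR : G.Rg (polR k (Option (Fin (enN b)))) (fun v =>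
      G.xp i (v none) * upr G.xm (fun j => if j = i then 0 else v (some j)) * G.xp i (-v none)) :=
    Rg.mul (Rg.mul (Rg.x G _ (X_polR _)) (Rg.upr fun j => Rg.x G _ (hs j)))
      (Rg.x G _ ((polR k _).neg_mem (X_polR _)))
  have hVI : ∀ v : Option (Fin (enN b)) → k,
      G.xp i (v none) * upr G.xm (fun j => if j = i then 0 else v (some j)) * G.xp i (-v none) ∈
      G.VI i := by
    intro v
    have h1 : upr G.xm (fun j => if j = i then 0 else v (some j)) ∈ G.VI i := by
      refine upr_mem _ _ _ fun j => ?_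
      by_cases h : j = i
      · rw [if_pos h]
        have : G.xm j 0 = 1 := G.x_zero _
        rw [this]
        exact (G.VI i).one_mem
      · rw [if_neg h]
        exact Subgroup.subset_closure (Set.mem_iUnion₂.2 ⟨j, h, Set.mem_range_self _⟩)
    have h2 := G.VI_norm hi h1 (up (v none))
    rw [G.φ_up] at h2
    have h3 : G.xp i (-v none) = (G.x (en b i : ι) (v none))⁻¹ :=
      G.x_neg _ _
    rw [h3]
    exact h2
  have hVV : ∀ v : Option (Fin (enN b)) → k,
      G.xp i (v none) * upr G.xm (fun j => if j = i then 0 else v (some j)) * G.xp i (-v none) ∈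
      G.VV := by
    intro v
    obtain ⟨s, -, hs⟩ := G.mem_VI hi (hVI v)
    rw [hs]
    exact G.upr_mem_VV _
  obtain ⟨m, hm, e⟩ := G.poly_V hR hVV
  choose Q hQ using fun j => mem_polR.1 (hm j)
  refine ⟨Q, fun s c hc => ?_⟩
  have e1 := e (fun o => o.elim s c)
  have e2 : (fun j => if j = i then 0 else (some j).elim s c) = c := by
    funext j
    by_cases h : j = i
    · rw [if_pos h, h, hc]
    · rw [if_neg h]; rfl
  have e3 : (fun j => m j fun o => o.elim s c) = fun j => eval (fun o => o.elim s c) (Q j) := by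
    funext j
    exact hQ j _
  constructor
  · obtain ⟨s', hs', hs''⟩ := G.mem_VI hi (hVI (fun o => o.elim s c))
    rw [e (fun o => o.elim s c)] at hs''
    have h5 := congrFun (G.upr_xm_inj hs'') i
    rw [hs'] at h5
    rw [← hQ i]
    exact h5
  · rw [← e3, ← e1]
    have e4 : upr G.xm c = upr G.xm (fun j => if j = i then 0 else (some j).elim s c) := by rw [e2]
    rw [e4]
    rfl

private lemma ax_wT_wT (t : Tor k X) : G.pin.wT (G.pin.wT t) = t := by
  apply MonoidHom.ext
  intro a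
  show t (Multiplicative.ofAdd (act P (w0l b) (act P (w0l b) a.toAdd))) = _
  rw [act_w0_sq b (w0l b) (w0l_mem b) (w0s b) (w0_root b)]
  rfl

private lemma ax_w0_tor (t : Tor k X) : G.n0 * G.t t * G.n0⁻¹ = G.t (G.pin.wT t) := by
  obtain ⟨s, hs⟩ := G.pg_n0_t
  have h1 : ∀ z, s z = G.pin.wT z := by
    intro z
    apply MonoidHom.ext
    intro a
    exact (hs z).2 a.toAdd
  have h2 := (hs (G.pin.wT t)).1
  rw [h1, G.ax_wT_wT] at h2
  rw [← h2]
  group

/-- a function of weight `l` on the cell, with value `1` on `U` -/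
private lemma hw_fun {l : X} (h : Dmt b l) : ∃ f ∈ G.A, (∀ s z r, f (G.om s z r) = ((ch l z)⁻¹ : kˣ)) ∧
    f ∈ G.pin.Ind l ∧ ∀ c, f (G.pin.u c) = 1 := by
  obtain ⟨v, hv, hv'⟩ := G.hw_of_dmt h
  refine ⟨v, hv, hv', G.mem_pin_Ind.2 ⟨hv, fun g u hu z => Hw.right hv hv' g hu z⟩, fun c => ?_⟩
  rw [G.pin_u c, ← G.om_s' c, hv' c, ch_one', inv_one, Units.val_one]

private lemma dmt_two_rho : Dmt b (∑ j, P.root (en b j : ι)) := by
  intro i hi
  rw [two_rho b hi]
  norm_num

/-- `m (2ρ) - δ` is dominant -/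
private lemma exists_m : ∃ m : ℕ, 0 < m ∧ Dmt b (m • (∑ j, P.root (en b j : ι)) - G.de) := by
  refine ⟨∑ j, (prY P (en b j : ι) G.de).natAbs + 1, Nat.succ_pos _, fun i hi => ?_⟩
  rw [map_sub, map_nsmul, two_rho b hi]
  have h1 : (prY P i G.de).natAbs ≤ ∑ j, (prY P (en b j : ι) G.de).natAbs := by
    have h2 := Finset.single_le_sum (f := fun j => (prY P (en b j : ι) G.de).natAbs)
      (fun j _ => Nat.zero_le _)
      (Finset.mem_univ ((en b).symm ⟨i, RootPairing.Base.isPos_of_mem_support hi⟩))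
    simp only [Equiv.apply_symm_apply] at h2
    exact h2
  have h3 : prY P i G.de ≤ ((prY P i G.de).natAbs : ℤ) := Int.le_natAbs
  rw [nsmul_eq_mul]
  push_cast
  have h4 : ((prY P i G.de).natAbs : ℤ) ≤ ((∑ j, (prY P (en b j : ι) G.de).natAbs : ℕ) : ℤ) := by
    exact_mod_cast h1
  push_cast at h4
  linarith [abs_nonneg (prY P i G.de), le_abs_self (prY P i G.de)]

private lemma ax_delta : ∃ f ∈ G.pin.Ind G.pin.rho2, (∀ c, f (G.pin.u c) = 1) ∧
    ∀ g, g ∉ G.pin.cell → f g = 0 := by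
  obtain ⟨f, hf, hf1, hf2, hf3⟩ := G.hw_fun (dmt_two_rho (b := b))
  refine ⟨f, hf2, hf3, fun g hg => ?_⟩
  obtain ⟨m, hm0, hm⟩ := G.exists_m
  obtain ⟨v, hv, hv1, -, -⟩ := G.hw_fun hm
  have h1 : f ^ m - G.vd * v = 0 := by
    refine G.eq_zero (G.A.sub_mem (G.A.pow_mem hf m) (G.A.mul_mem G.vd_mem hv)) fun s z r => ?_
    rw [Pi.sub_apply, Pi.pow_apply, Pi.mul_apply, hf1, hv1, G.vd_om, ← Units.val_mul, ← Units.val_pow_eq_pow_val,
      sub_eq_zero]
    congr 1
    rw [← mul_inv, ← ch_add, inv_pow, ← ch_nsmul]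
    congr 2
    abel
  have h2 := congrFun h1 g
  rw [Pi.sub_apply, Pi.pow_apply, Pi.mul_apply, Pi.zero_apply] at h2
  have h3 : G.vd g = 0 := by
    by_contra hne
    obtain ⟨s, z, r, rfl⟩ := (G.vd_ne _).1 hne
    apply hg
    refine ⟨s, z, r, ?_⟩
    rw [G.pin_u, G.pin_v]
    rfl
  rw [h3, zero_mul, sub_zero] at h2
  exact pow_eq_zero_iff hm0.ne' |>.1 h2

private lemma ax_ext (Q : MvPolynomial (Fin (enN b)) k) : ∃ n : ℕ, ∃ f ∈ G.pin.Ind (n • G.pin.rho2),
    ∀ c, f (G.pin.u c) = eval c Q := by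
  obtain ⟨m, hm0, hm⟩ := G.exists_m
  have hLR : LR (fun (v : Fin (enN b) ⊕ Fin (enN b) → k) (_ : Tor k X) =>
      eval v (rename Sum.inl Q)) := LR.poly' _
  obtain ⟨n, hn⟩ := G.vd_ext' hLR
  obtain ⟨f, hf, hf1, -⟩ := hn n le_rfl
  have hd : Dmt b (n • (m • (∑ j, P.root (en b j : ι)) - G.de)) := by
    intro i hi
    rw [map_nsmul, nsmul_eq_mul]
    exact mul_nonneg (Nat.cast_nonneg _) (hm i hi)
  obtain ⟨v, hv, hv1, -, -⟩ := G.hw_fun hd
  have hcell : ∀ s z r, (f * v) (G.om s z r) =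
      ((ch ((n * m) • G.pin.rho2) z)⁻¹ : kˣ) * eval s Q := by
    intro s z r
    rw [Pi.mul_apply, hf1, hv1, G.vd_om]
    have h1 : eval (Sum.elim s r) (rename Sum.inl Q) = eval s Q := by
      rw [eval_rename]
      rfl
    rw [h1]
    have h2 : (((ch G.de z)⁻¹ : kˣ) : k) ^ n * (((ch (n • (m • (∑ j, P.root (en b j : ι)) - G.de)) z)⁻¹ : kˣ) : k) =
        (((ch ((n * m) • G.pin.rho2) z)⁻¹ : kˣ) : k) := by
      rw [← Units.val_pow_eq_pow_val, ← Units.val_mul]
      congr 1
      rw [inv_pow, ← mul_inv, ← ch_nsmul, ← ch_add]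
      congr 2
      rw [smul_sub, smul_smul]
      show _ = (n * m) • ∑ j, P.root (en b j : ι)
      abel
    rw [← h2]
    ring
  refine ⟨n * m, f * v, G.mem_pin_Ind.2 ⟨G.A.mul_mem hf hv, fun g u hu z => ?_⟩, fun c => ?_⟩
  · refine G.cell_rule (G.A.mul_mem hf hv) (fun s z r => ?_) g hu z
    rw [hcell s z r, hcell s 1 0, ch_one', inv_one, Units.val_one, one_mul]
  · change Fin (enN b) → k at c
    have h5 := hcell c 1 0
    rw [G.om_s', ch_one', inv_one, Units.val_one, one_mul] at h5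
    rw [← G.pin_u c] at h5
    exact h5

theorem pin_ax : G.pin.Ax where
  ch_add l m t := ch_add l m t
  ch_inj := pg_chi_inj
  rt_inj := fun i j h => (en b).injective (Subtype.ext (P.root.injective h))
  rt_red := fun i j m n hm h =>
    (en b).injective (Subtype.ext (nonprop b (en b i).2 (en b j).2 hm h))
  h_pos := fun i => hgt_pos i
  h_mono := fun i j h => by
    show hgt b (P.root (en b i : ι)) ≤ hgt b (P.root (en b j : ι))
    rw [hgt_root_eq, hgt_root_eq]
    have := en_mono b i j h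
    linarith
  h_dom := fun l hl => Dmt.hgt_nonneg b ((G.pin_dom l).1 hl)
  tor_xp := by
    rw [pin_xp']
    exact fun i t a => G.t_xp i t a
  tor_xm := by
    rw [pin_xm']
    intro i t a
    have h := G.t_xm i t a
    rw [ch_neg] at h
    exact h
  phi_dg := fun i z => by
    obtain ⟨w, hw, hw'⟩ := G.φ_dg (en b i : ι) z
    have h1 : w = crT k P (en b i : ι) z := by
      apply MonoidHom.ext
      intro a
      exact hw' a.toAdd
    show G.φ (en b i : ι) (dg z) = G.t (crT k P (en b i : ι) z)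
    rw [hw, h1]
  ch_cr := fun i l z => rfl
  pair_rt := fun i => prY_root_self P (en b i : ι)
  pair_rho := fun i hi => two_rho b ((G.pin_S i).1 hi)
  u_inj := by
    rw [pin_u']
    exact fun c c' h => G.upr_xp_inj h
  u_mul := by
    rw [pin_u']
    exact G.ax_u_mul
  u_inv := by
    rw [pin_u']
    exact G.ax_u_inv
  v_inj := by
    rw [pin_v']
    exact fun c c' h => G.upr_xm_inj h
  v_mul := by
    rw [pin_v']
    exact G.ax_v_mul
  v_inv := by
    rw [pin_v']
    exact G.ax_v_inv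
  cell_inj := by
    rw [pin_u', pin_v']
    exact fun a t c a' t' c' h => G.om_inj h
  dense := fun g => by
    obtain ⟨s, s', z, r', h⟩ := G.dense g
    refine ⟨s, s', z, r', ?_⟩
    rw [G.pin_u, G.pin_u, G.pin_v]
    exact h
  conj_u := by
    rw [pin_u', pin_xm']
    exact fun i hi => G.ax_conj_u i ((G.pin_S i).1 hi)
  conj_v := by
    rw [pin_v', pin_xp']
    exact fun i hi => G.ax_conj_v i ((G.pin_S i).1 hi)
  w0_tor := fun t => G.ax_w0_tor t
  wT_wT := fun t => G.ax_wT_wT t
  ch_wX := fun l t => rfl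
  wX_rt := fun i => w0_root b i
  w0_xp := by
    rw [pin_xp', pin_xm']
    intro i
    obtain ⟨c, hc⟩ := G.n0_xp i
    exact ⟨c, c.ne_zero, hc⟩
  w0_xm := by
    rw [pin_xp', pin_xm']
    intro i
    obtain ⟨c, hc⟩ := G.n0_xm i
    exact ⟨c, c.ne_zero, hc⟩
  sg_S := fun i hi => (G.pin_S _).2 (w0_simple b i ((G.pin_S i).1 hi))
  h_wX := fun l => w0_hgt b l
  dom := fun l hl => by
    obtain ⟨f, -, -, hf, hf'⟩ := G.hw_fun ((G.pin_dom l).1 hl)
    exact ⟨f, hf, hf'⟩
  delta := G.ax_delta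
  ext := G.ax_ext
  gen_u := fun K hK c => by
    rw [G.pin_u c]
    refine upr_mem _ _ _ fun j => ?_
    refine G.gen_U K (fun j hj s => ?_) j _
    have := hK j ((G.pin_S j).2 hj) s
    rwa [G.pin_xp j s] at this
  gen_v := fun K hK c => by
    rw [G.pin_v c]
    refine upr_mem _ _ _ fun j => ?_
    refine G.gen_V K (fun j hj s => ?_) j _
    have := hK j ((G.pin_S j).2 hj) s
    rwa [G.pin_xm j s] at this
  gen := fun K hK hK' => by
    refine G.gen_simple K hK fun j hj s => ?_
    have := hK' j ((G.pin_S j).2 hj) s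
    rwa [G.pin_xp, G.pin_xm] at this

end RedGrp

end Pool.Agent.RG
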