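import Pool.Agent.TRN.Defs
import Pool.Agent.RDG.Defs

/-!
# RG / SG: additional structure of a pinned group

`SG D` contains what the proof of the theorem of Donkin and Mathieu (tensor products of good modules
are good) uses in addition to `D : PG k Γ T X` (`Pool/Agent/TRN/Defs.lean`): the coordinates of `U`
and `U⁻`, the `SL₂`'s, the simple roots, the extension of functions from the big cell.
It is constructed for every connected reductive group `RedGrp` (`Pool/Agent/RG/Defs.lean`), and for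
its twist whose characters are the `p`-th roots of characters.
-/

set_option autoImplicit false

open MvPolynomial

namespace Pool.Agent.RG

open Pool.Agent.TRN

/-- the vector of the entries of a matrix in `SL₂` and of the `s j` -/
def ent {k : Type*} [Field k] {N : ℕ} (g : Matrix.SpecialLinearGroup (Fin 2) k) (s : Fin N → k) :
    (Fin 2 × Fin 2) ⊕ Fin N → k := Sum.elim (fun p => g.1 p.1 p.2) s

structure SG {k Γ T X : Type*} [Field k] [Group Γ] [CommGroup T] [AddCommGroup X]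
    (D : PG k Γ T X) where
  /-- number of positive roots -/
  N : ℕ
  /-- enumeration of the positive roots -/
  e : Fin N ≃ D.R
  ht_mono : ∀ i j, i ≤ j → D.ht (D.root (e i)) ≤ D.ht (D.root (e j))
  /-- different positive roots are not proportional -/
  nonprop : ∀ (i j : Fin N) (m n : ℕ), 0 < m → m • D.root (e i) = n • D.root (e j) → i = j
  x_add : ∀ i s r, D.x i (s + r) = D.x i s * D.x i r
  y_add : ∀ i s r, D.y i (s + r) = D.y i s * D.y i r
  /-- multiplication and inversion in `U` and `U⁻` -/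
  mulU : ∃ m : Fin N → MvPolynomial (Fin N ⊕ Fin N) k, ∀ s r,
    upr (fun j => D.x (e j)) s * upr (fun j => D.x (e j)) r =
      upr (fun j => D.x (e j)) fun j => eval (Sum.elim s r) (m j)
  invU : ∃ m : Fin N → MvPolynomial (Fin N) k, ∀ s,
    (upr (fun j => D.x (e j)) s)⁻¹ = upr (fun j => D.x (e j)) fun j => eval s (m j)
  mulV : ∃ m : Fin N → MvPolynomial (Fin N ⊕ Fin N) k, ∀ s r,
    upr (fun j => D.y (e j)) s * upr (fun j => D.y (e j)) r =
      upr (fun j => D.y (e j)) fun j => eval (Sum.elim s r) (m j)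
  invV : ∃ m : Fin N → MvPolynomial (Fin N) k, ∀ s,
    (upr (fun j => D.y (e j)) s)⁻¹ = upr (fun j => D.y (e j)) fun j => eval s (m j)
  /-- the product map is injective -/
  inj : ∀ s z r s' z' r', upr (fun j => D.x (e j)) s * D.t z * upr (fun j => D.y (e j)) r =
    upr (fun j => D.x (e j)) s' * D.t z' * upr (fun j => D.y (e j)) r' → s = s' ∧ z = z' ∧ r = r'
  /-- the simple roots -/
  simple : Finset (Fin N)
  nat : ∀ j, D.root (e j) ∈ AddSubmonoid.closure ((fun i => D.root (e i)) '' (simple : Set (Fin N)))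
  /-- the coroots -/
  pr : Fin N → X →+ ℤ
  pr_two : ∀ j, pr j (D.root (e j)) = 2
  pr_refl : ∀ i ∈ simple, ∀ j, j ≠ i → ∃ l, l ≠ i ∧
    D.root (e l) = D.root (e j) - pr i (D.root (e j)) • D.root (e i)
  dom_iff : ∀ a, D.dom a = a ↔ ∀ i ∈ simple, 0 ≤ pr i a
  pr_nonneg : ∀ a, D.dom a = a → ∀ j, 0 ≤ pr j a
  ht_dom : ∀ a, D.dom a = a → 0 ≤ D.ht a
  /-- the homomorphisms from `SL₂` -/
  φ : Fin N → Matrix.SpecialLinearGroup (Fin 2) k →* Γ
  φ_reg : ∀ f ∈ D.A, ∀ i, ∃ Q : MvPolynomial (Fin 2 × Fin 2) k,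
    ∀ h, f (φ i h) = eval (fun p => h.1 p.1 p.2) Q
  φ_up : ∀ i s, φ i (up s) = D.x (e i) s
  φ_lo : ∀ i s, φ i (lo s) = D.y (e i) s
  φ_dg : ∀ i c, ∃ z, φ i (dg c) = D.t z ∧ ∀ a, D.chi a z = c ^ pr i a
  /-- the coordinates of the simple roots are additive -/
  mul_simple : ∀ i ∈ simple, ∀ s r q, upr (fun j => D.x (e j)) s * upr (fun j => D.x (e j)) r =
    upr (fun j => D.x (e j)) q → q i = s i + r i
  mul_simple' : ∀ i ∈ simple, ∀ s r q, upr (fun j => D.y (e j)) s * upr (fun j => D.y (e j)) r =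
    upr (fun j => D.y (e j)) q → q i = s i + r i
  /-- `SL₂` of a simple root acts by conjugation on the product of the other root subgroups -/
  conjU : ∀ i ∈ simple, ∃ m : Fin N → MvPolynomial ((Fin 2 × Fin 2) ⊕ Fin N) k, ∀ g s, s i = 0 →
    φ i g * upr (fun j => D.x (e j)) s * (φ i g)⁻¹ =
      upr (fun j => D.x (e j)) (fun j => eval (ent g s) (m j)) ∧ eval (ent g s) (m i) = 0
  conjV : ∀ i ∈ simple, ∃ m : Fin N → MvPolynomial ((Fin 2 × Fin 2) ⊕ Fin N) k, ∀ g s, s i = 0 →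
    φ i g * upr (fun j => D.y (e j)) s * (φ i g)⁻¹ =
      upr (fun j => D.y (e j)) (fun j => eval (ent g s) (m j)) ∧ eval (ent g s) (m i) = 0
  /-- polynomials on `U` which are right invariant under the simple root subgroups are constant -/
  gen : ∀ Q : MvPolynomial (Fin N) k, (∀ i ∈ simple, ∀ s c q, upr (fun j => D.x (e j)) s *
    D.x (e i) c = upr (fun j => D.x (e j)) q → eval q Q = eval s Q) → ∃ c, Q = C c
  genG : Subgroup.closure (Set.range D.t ∪ ⋃ i ∈ simple, (Set.range (D.x (e i)) ∪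
    Set.range (D.y (e i)))) = ⊤
  /-- existence of highest weight vectors -/
  hw : ∀ l, D.dom l = l → ∃ v ∈ D.Ind l, v 1 = 1
  /-- gluing -/
  glue : ∀ (l : X) (F : Γ → k),
    (∀ g, ∀ u ∈ D.Um, ∀ z, F (g * (u * D.t z)) = ((D.chi l z)⁻¹ : kˣ) * F g) →
    (∀ g, ∃ Q : MvPolynomial (Fin N) k, ∀ s, F (g * upr (fun j => D.x (e j)) s) = eval s Q) →
    F ∈ D.A
  /-- a weight and the function defining the big cell -/
  δ : X
  vδ : Γ → k
  vδ_mem : vδ ∈ D.Ind δ
  vδ_one : vδ 1 = 1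
  vδ_iff : ∀ g, vδ g ≠ 0 ↔ ∃ s z r,
    g = upr (fun j => D.x (e j)) s * D.t z * upr (fun j => D.y (e j)) r
  ext : ∀ Q : MvPolynomial (Fin N ⊕ Fin N) k, ∃ n, ∃ f ∈ D.A, ∀ s z r,
    f (upr (fun j => D.x (e j)) s * D.t z * upr (fun j => D.y (e j)) r) =
    vδ (upr (fun j => D.x (e j)) s * D.t z * upr (fun j => D.y (e j)) r) ^ n *
      eval (Sum.elim s r) Q
  domain : ∀ f ∈ D.A, ∀ f' ∈ D.A, f * f' = 0 → f = 0 ∨ f' = 0
  /-- the longest element of the Weyl group -/
  σ : Equiv.Perm (Fin N)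
  σ_simple : ∀ i ∈ simple, σ i ∈ simple
  n0_x' : ∀ j, ∃ c : kˣ, ∀ s, D.n0 * D.x (e j) s * D.n0⁻¹ = D.y (e (σ j)) (c * s)
  n0_y' : ∀ j, ∃ c : kˣ, ∀ s, D.n0 * D.y (e j) s * D.n0⁻¹ = D.x (e (σ j)) (c * s)
  w0_root : ∀ j, D.w0 (D.root (e j)) = -D.root (e (σ j))
  w0_add : ∀ a c, D.w0 (a + c) = D.w0 a + D.w0 c
  pr_w0 : ∀ j a, pr (σ j) (D.w0 a) = -pr j a

/-- the weight `z = (p - 1) ρ` -/
structure SG.Z {k Γ T X : Type*} [Field k] [Group Γ] [CommGroup T] [AddCommGroup X]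
    {D : PG k Γ T X} (S : SG D) (p : ℕ) where
  z : X
  z_pr : ∀ i ∈ S.simple, S.pr i z = p - 1
  z_two : 2 • z = (p - 1) • ∑ j, D.root (S.e j)

end Pool.Agent.RG
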