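import Pool.Agent.RDG.Inst
import Pool.Agent.DM.StGood

/-!
# RDG / STA: Steinberg modules for a reductive group

Let `τ` be a finite-dimensional representation on `L`, rational (`RatOn`) on `⊤`, and consider the conjugation
`(τ.linHom τ) g x = τ g ∘ x ∘ τ g⁻¹`.

* `linHom_rat`: `fin`: take `⊤`. `wts`: `L` has a basis `e_i` of weight vectors of weights `l_i` (`hτ.wts`; or: it suffices that
  `id = ∑ pr_l` with the projections `pr_l` onto the weight spaces, `x = ∑ pr_l ∘ x ∘ pr_l'`, and `pr_l ∘ x ∘ pr_l'` has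
  weight `l - l'`). `pu`: `(c ↦ τ (u c) ∘ x ∘ τ (u c)⁻¹)` applied to the vectors of a basis is polynomial (`pu`, `pu_inv`,
  `u_inv`), and a map with values in the finite-dimensional space `L →ₗ L` which is polynomial after
  evaluation at a basis is polynomial. `pv`: the same (`v_inv`).
* `linHom_wt`: let `x ≠ 0` have weight `l`. There is a weight vector `y` of some weight `l2` with `x y ≠ 0`
  (`hτ.wts`), and `x y` has weight `l1 = l + l2`.
* `hasSt`: let `V` be finite-dimensional and rational, so `RatOn` for the twist (`ratOn`). `st_good` gives `l`; let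
  `L = (G.tws p).Ind l` with `τ = (G.tws p).indRep l` (`Ind_rat`, `Ind_fin`). The weights of `L` are
  `l - ∑ B_i rt_i` (`Ind_wt`), so the weights of `τ.linHom τ` are in the image of `jj` (`rt_i = jj (P.rt i)` in the
  twist); `rational_of_ratOn` shows that `τ.linHom τ` is rational; `goodIn_of_good` (`W = ⊤`).
-/

set_option autoImplicit false

open MvPolynomial TensorProduct

namespace Pool.Agent.RG

open Pool.Agent.TRN

universe u

section

variable {k : Type*} [Field k] [Infinite k] {G : Type*} [Group G] {T : Type*} [CommGroup T]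
  {X : Type*} [AddCommGroup X] {P : DM.PinData k G T X} {L : Type*} [AddCommGroup L]
  [Module k L] {τ : Representation k G L}

omit [Infinite k] in
/-- a basis of weight vectors -/
private lemma st_basis (h : P.RatOn τ ⊤) : ∃ (I : Set L) (e : Module.Basis I k L)
    (wl : I → X), ∀ i, e i ∈ P.wt τ (wl i) := by
  have h1 : ⊤ ≤ Submodule.span k {y : L | ∃ l, y ∈ P.wt τ l} := by
    refine h.wts.trans (iSup_le fun l y hy => Submodule.subset_span ⟨l, hy⟩)
  have h2 := Module.Basis.ofSpan_subset h1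
  have h3 : ∀ i, ∃ l, Module.Basis.ofSpan h1 i ∈ P.wt τ l := fun i => h2 ⟨i, rfl⟩
  choose wl hwl using h3
  exact ⟨_, Module.Basis.ofSpan h1, wl, hwl⟩

omit [Infinite k] in
private lemma st_lin_apply (g : G) (x : L →ₗ[k] L) (y : L) :
    (τ.linHom τ) g x y = τ g (x (τ g⁻¹ y)) := rfl

omit [Infinite k] in
private lemma st_sum {I : Type*} [Fintype I] (e : Module.Basis I k L) (x : L →ₗ[k] L) :
    x = ∑ i, (e.coord i).smulRight (x (e i)) := by
  classical
  refine e.ext fun j => ?_
  rw [LinearMap.sum_apply, Finset.sum_eq_single j]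
  · rw [LinearMap.smulRight_apply, Module.Basis.coord_apply, Module.Basis.repr_self,
      Finsupp.single_eq_same, one_smul]
  · intro i _ hij
    rw [LinearMap.smulRight_apply, Module.Basis.coord_apply, Module.Basis.repr_self,
      Finsupp.single_eq_of_ne hij, zero_smul]
  · intro hj
    exact absurd (Finset.mem_univ j) hj

omit [Infinite k] in
private lemma st_poly {σ : Type*} [Module.Finite k L] {w : (σ → k) → G}
    (h1 : ∀ y, DM.PolyMap fun c => τ (w c) y) (h2 : ∀ y, DM.PolyMap fun c => τ (w c)⁻¹ y)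
    (x : L →ₗ[k] L) : DM.PolyMap fun c => (τ.linHom τ) (w c) x := by
  have h3 : ∀ y, DM.PolyMap fun c => τ (w c) (x (τ (w c)⁻¹ y)) := by
    intro y
    obtain ⟨r, Q, v, hv⟩ := h2 y
    have h4 : (fun c => τ (w c) (x (τ (w c)⁻¹ y))) =
        fun c => ∑ j, eval c (Q j) • τ (w c) (x (v j)) := by
      funext c
      have h5 := hv c
      beta_reduce at h5
      rw [h5, map_sum, map_sum]
      exact Finset.sum_congr rfl fun j _ => by rw [map_smul, map_smul]
    rw [h4]
    exact DM.PolyMap.sum _ fun j _ => (h1 (x (v j))).psmul (Q j)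
  let e := Module.finBasis k L
  have h6 : (fun c => (τ.linHom τ) (w c) x) = fun c => ∑ i,
      LinearMap.smulRightₗ (e.coord i) (τ (w c) (x (τ (w c)⁻¹ (e i)))) := by
    funext c
    rw [st_sum e ((τ.linHom τ) (w c) x)]
    rfl
  rw [h6]
  exact DM.PolyMap.sum _ fun i _ => (h3 (e i)).map _

omit [Infinite k] in
private lemma st_ch (hP : P.Ax) (m l : X) (t : T) :
    P.ch (m - l) t = P.ch m t * (P.ch l t)⁻¹ := by
  have h1 := hP.ch_add (m - l) l t
  rw [sub_add_cancel] at h1
  rw [h1, mul_inv_cancel_right]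

omit [Infinite k] in
private lemma st_tinv {l : X} {y : L} (hy : y ∈ P.wt τ l) (t : T) :
    τ (P.tor t)⁻¹ y = (((P.ch l t)⁻¹ : kˣ) : k) • y := by
  have h1 := hy t⁻¹
  rw [map_inv P.tor, map_inv (P.ch l)] at h1
  exact h1

theorem linHom_rat (hP : P.Ax) [Module.Finite k L] (h : P.RatOn τ ⊤) :
    P.RatOn (τ.linHom τ) ⊤ := by
  classical
  obtain ⟨I, e, wl, hwl⟩ := st_basis h
  have hI : Finite I := Module.Finite.finite_basis e
  have := Fintype.ofFinite I
  refine ⟨fun _ _ _ => Submodule.mem_top, fun x _ => ⟨⊤, Submodule.mem_top, le_rfl,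
    inferInstance, fun _ _ _ => Submodule.mem_top⟩, fun x _ => ?_, fun x _ => ?_, fun x _ => ?_⟩
  · rw [st_sum e x]
    refine Submodule.sum_mem _ fun i _ => ?_
    have h1 : (⨆ l, P.wt τ l) ≤ (⨆ l, P.wt (τ.linHom τ) l).comap
        (LinearMap.smulRightₗ (e.coord i)) := by
      refine iSup_le fun m y hy => ?_
      rw [Submodule.mem_comap]
      refine Submodule.mem_iSup_of_mem (m - wl i) fun t => ?_
      refine e.ext fun j => ?_
      change τ (P.tor t) (((e.coord i).smulRight y) (τ (P.tor t)⁻¹ (e j))) =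
        ((P.ch (m - wl i) t : kˣ) : k) • (((e.coord i).smulRight y) (e j))
      rw [st_tinv (hwl j) t, map_smul, LinearMap.smulRight_apply, Module.Basis.coord_apply,
        Module.Basis.repr_self, map_smul, map_smul, hy t, st_ch hP]
      by_cases hij : j = i
      · subst hij
        rw [Finsupp.single_eq_same, one_smul, one_smul, smul_smul, Units.val_mul, mul_comm]
      · rw [Finsupp.single_eq_of_ne (Ne.symm hij), zero_smul, zero_smul, smul_zero, smul_zero]
    exact h1 (h.wts (Submodule.mem_top (x := x (e i))))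
  · obtain ⟨m, hm⟩ := hP.u_inv
    refine st_poly (fun y => h.pu y Submodule.mem_top) (fun y => ?_) x
    have h2 := (h.pu y Submodule.mem_top).subst m
    have h3 : (fun c => τ (P.u c)⁻¹ y) = fun c => τ (P.u fun i => eval c (m i)) y := by
      funext c
      rw [hm]
    rw [h3]
    exact h2
  · obtain ⟨m, hm⟩ := hP.v_inv
    refine st_poly (fun y => h.pv y Submodule.mem_top) (fun y => ?_) x
    have h2 := (h.pv y Submodule.mem_top).subst m
    have h3 : (fun c => τ (P.v c)⁻¹ y) = fun c => τ (P.v fun i => eval c (m i)) y := by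
      funext c
      rw [hm]
    rw [h3]
    exact h2

omit [Infinite k] in
theorem linHom_wt (hP : P.Ax) (h : P.RatOn τ ⊤) {l : X} {x : L →ₗ[k] L}
    (hx : x ∈ P.wt (τ.linHom τ) l) (h0 : x ≠ 0) : ∃ l1 l2 : X, (∃ y ∈ P.wt τ l1, y ≠ 0) ∧
      (∃ y ∈ P.wt τ l2, y ≠ 0) ∧ l = l1 - l2 := by
  by_contra hcon
  apply h0
  have h1 : (⨆ l, P.wt τ l) ≤ LinearMap.ker x := by
    refine iSup_le fun m y hy => ?_
    rw [LinearMap.mem_ker]
    by_contra hxy
    apply hcon
    refine ⟨l + m, m, ⟨x y, fun t => ?_, hxy⟩, ⟨y, hy, fun hy0 => hxy (by rw [hy0, map_zero])⟩,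
      (add_sub_cancel_right l m).symm⟩
    have h2 := LinearMap.congr_fun (hx t) (τ (P.tor t) y)
    rw [st_lin_apply, LinearMap.smul_apply] at h2
    have h3 : τ (P.tor t)⁻¹ (τ (P.tor t) y) = y := by
      rw [← Module.End.mul_apply, ← map_mul, inv_mul_cancel, map_one, Module.End.one_apply]
    rw [h3, hy t, map_smul, smul_smul] at h2
    rw [h2, hP.ch_add]
    push_cast
    rfl
  apply LinearMap.ext
  intro y
  exact h1 (h.wts (Submodule.mem_top (x := y)))

end

variable {k : Type u} [Field k] {ι X Y : Type*} [AddCommGroup X] [AddCommGroup Y] [Finite ι]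
  {P : RootDatum ι X Y} {b : P.Base} {Γ : Type u} [Group Γ] (G : RedGrp k P b Γ)
  [IsAlgClosed k] [Infinite k] [Module.Finite ℤ X] [Module.Free ℤ X] [P.IsReduced]
  (p : ℕ) [Fact p.Prime] [CharP k p]

namespace RedGrp

include p in
theorem hasSt : HasSt G.pg := by
  intro V _ _ ρ hfin hρ
  have hP : (G.tws p).Ax := G.tws_ax p
  obtain ⟨z, hz⟩ := G.tws_stz p
  have hR : (G.tws p).RatOn ρ ⊤ := ratOn hρ (fun _ _ _ => Submodule.mem_top)
  obtain ⟨l, ⟨f, hf, hf0⟩, hgood⟩ := DM.PinData.st_good (p := p) hP hz (G.tws_ext2 p) hR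
  have hfd : Module.Finite k ((G.tws p).Ind l) := DM.PinData.Ind_fin hP l
  have hI := DM.PinData.indRep_rat hP l
  have hL := linHom_rat hP hI
  have hrat : G.pg.IsRational (V := (G.tws p).Ind l →ₗ[k] (G.tws p).Ind l) (((G.tws p).indRep l).linHom
      ((G.tws p).indRep l)) := by
    refine rational_of_ratOn hP hL fun l' x hx hx0 => ?_
    obtain ⟨l1, l2, ⟨y1, hy1, hy10⟩, ⟨y2, hy2, hy20⟩, hl⟩ := linHom_wt hP hI hx hx0
    have key : ∀ (e : tw G.pin p) (y : (G.tws p).Ind l), y ∈ (G.tws p).wt ((G.tws p).indRep l) e →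
        y ≠ 0 → ∃ a, jj G.pin p a = l - e := by
      intro e y hy hy0
      obtain ⟨B, hB⟩ := DM.PinData.Ind_wt hP y.2 (e := e)
        (fun t => congrArg Subtype.val (hy t)) (fun h0 => hy0 (Subtype.ext h0))
      refine ⟨∑ i, B i • G.pin.rt i, ?_⟩
      rw [← hB, map_sum]
      refine Finset.sum_congr rfl fun i _ => ?_
      rw [map_nsmul]
      rfl
    obtain ⟨a1, ha1⟩ := key l1 y1 hy1 hy10
    obtain ⟨a2, ha2⟩ := key l2 y2 hy2 hy20
    refine ⟨a2 - a1, ?_⟩
    rw [map_sub, ha1, ha2, hl]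
    abel
  refine ⟨(G.tws p).Ind l, inferInstance, inferInstance, (G.tws p).indRep l, hrat, hfd,
    ⟨⟨⟨f, hf⟩, 0, fun h0 => hf0 (congrArg Subtype.val h0)⟩⟩, ?_⟩
  exact goodIn_of_good hP (PG.isRational_tprod hρ hrat) (fun _ _ _ => Submodule.mem_top) hgood

end RedGrp

end Pool.Agent.RG
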