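import Pool.Agent.RDG.Defs

/-!
# RG / TORF: functions on `k ^ n × T`

`LR F`: `F (v, z) = ∑_a Q_a(v) χ_a(z)`, a finite sum with polynomials `Q_a`. `X` is a finitely
generated free abelian group, `T = Hom(X, kˣ)`, `k` is algebraically closed (infinite).

* `ch_inj`: for `a ≠ 0` there is `z` with `ch a z ≠ 1`: choose a basis of `X`
  (`Module.Free.chooseBasis`), `a` has a nonzero coordinate `m_i`; `z` maps `e_i` to `c` and the
  others to `1`; `c ^ m_i ≠ 1` for some `c ∈ kˣ` (`k` infinite).
* `ch_indep`: `linearIndependent_monoidHom` for the homomorphisms `z ↦ (ch a z : k)`, injective in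
  `a` by `ch_inj`.
* `LR.unique`: if `F = 0` then the polynomials `Q_a` can be taken `0` (`ch_indep` for fixed `v`,
  `MvPolynomial.funext`).
-/

set_option autoImplicit false

open MvPolynomial

namespace Pool.Agent.RG

section char

variable {k : Type*} [Field k] {X : Type*} [AddCommGroup X]

lemma ch_add (a c : X) (z : Tor k X) : ch (a + c) z = ch a z * ch c z := by
  unfold ch
  rw [ofAdd_add, map_mul]

lemma ch_zero (z : Tor k X) : ch (0 : X) z = 1 := by
  unfold ch
  rw [ofAdd_zero, map_one]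

lemma ch_neg (a : X) (z : Tor k X) : ch (-a) z = (ch a z)⁻¹ := by
  unfold ch
  rw [ofAdd_neg, map_inv]

lemma ch_nsmul (n : ℕ) (a : X) (z : Tor k X) : ch (n • a) z = ch a z ^ n := by
  unfold ch
  rw [ofAdd_nsmul, map_pow]

lemma ch_zsmul (n : ℤ) (a : X) (z : Tor k X) : ch (n • a) z = ch a z ^ n := by
  unfold ch
  rw [ofAdd_zsmul, map_zpow]

lemma ch_one' (a : X) : ch a (1 : Tor k X) = 1 := rfl

lemma ch_mul' (a : X) (z w : Tor k X) : ch a (z * w) = ch a z * ch a w := rfl

lemma ch_inv' (a : X) (z : Tor k X) : ch a z⁻¹ = (ch a z)⁻¹ := rfl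

/-- the character group of `Hom(X, kˣ)` -/
def chHom (k : Type*) [Field k] {X : Type*} [AddCommGroup X] (a : X) : Tor k X →* kˣ where
  toFun z := ch a z
  map_one' := rfl
  map_mul' _ _ := rfl

variable [Infinite k] [Module.Finite ℤ X] [Module.Free ℤ X]

theorem ch_inj {a c : X} (h : ∀ z : Tor k X, ch a z = ch c z) : a = c := by
  classical
  by_contra hne
  have hd : a - c ≠ 0 := sub_ne_zero.2 hne
  set B := Module.Free.chooseBasis ℤ X
  obtain ⟨i, hi⟩ : ∃ i, B.repr (a - c) i ≠ 0 := by
    by_contra hc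
    push Not at hc
    apply hd
    apply B.repr.injective
    rw [map_zero]
    ext i
    exact hc i
  set m : ℤ := B.repr (a - c) i with hm
  obtain ⟨u, hu⟩ : ∃ u : kˣ, u ^ m ≠ 1 := by
    have hP : (Polynomial.X * (Polynomial.X ^ m.natAbs - Polynomial.C (1 : k))) ≠ 0 := by
      refine mul_ne_zero Polynomial.X_ne_zero ?_
      exact Polynomial.X_pow_sub_C_ne_zero (Int.natAbs_pos.2 hi) 1
    obtain ⟨u, hu⟩ := Infinite.exists_notMem_finset
      (Polynomial.X * (Polynomial.X ^ m.natAbs - Polynomial.C (1 : k))).roots.toFinset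
    rw [Multiset.mem_toFinset, Polynomial.mem_roots hP, Polynomial.IsRoot.def] at hu
    simp only [Polynomial.eval_mul, Polynomial.eval_X, Polynomial.eval_sub, Polynomial.eval_pow,
      Polynomial.eval_C, mul_eq_zero, not_or] at hu
    obtain ⟨hu0, hu1⟩ := hu
    refine ⟨Units.mk0 u hu0, fun h1 => hu1 ?_⟩
    have h2 : (Units.mk0 u hu0) ^ m.natAbs = 1 := by
      rcases Int.natAbs_eq m with h3 | h3
      · rw [← zpow_natCast, ← h3]
        exact h1
      · rw [← inv_eq_one, ← zpow_natCast, ← zpow_neg, ← h3]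
        exact h1
    have h4 := congrArg (fun x : kˣ => (x : k)) h2
    simp only [Units.val_pow_eq_pow_val, Units.val_mk0, Units.val_one] at h4
    rw [h4, sub_self]
  let z : Tor k X := (zpowersHom kˣ u).comp (AddMonoidHom.toMultiplicative (B.coord i).toAddMonoidHom)
  have hz : ∀ b : X, ch b z = u ^ (B.repr b i) := fun b => rfl
  have h5 := h z
  rw [hz, hz] at h5
  apply hu
  rw [hm, map_sub, Finsupp.sub_apply, zpow_sub, h5, mul_inv_cancel]

theorem ch_indep (s : Finset X) (c : X → k) (h : ∀ z : Tor k X, ∑ a ∈ s, c a * (ch a z : k) = 0) :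
    ∀ a ∈ s, c a = 0 := by
  have h1 : LinearIndependent k (fun f : Tor k X →* k => (f : Tor k X → k)) :=
    linearIndependent_monoidHom (Tor k X) k
  have h2 : Function.Injective (fun a : X => (Units.coeHom k).comp (chHom k a)) := by
    intro a b hab
    apply ch_inj (k := k)
    intro z
    have h3 := DFunLike.congr_fun hab z
    exact Units.ext h3
  have h3 := h1.comp _ h2
  rw [linearIndependent_iff'] at h3
  apply h3 s c
  funext z
  simp only [Finset.sum_apply, Pi.smul_apply, Function.comp, smul_eq_mul, Pi.zero_apply]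
  exact h z

end char

/-- regular functions on `k ^ τ × T` -/
def LR {k : Type*} [Field k] {X : Type*} [AddCommGroup X] {τ : Type*}
    (F : (τ → k) → Tor k X → k) : Prop :=
  ∃ (s : Finset X) (Q : X → MvPolynomial τ k), ∀ v z, F v z = ∑ a ∈ s, eval v (Q a) * (ch a z : k)

section LR

variable {k : Type*} [Field k] {X : Type*} [AddCommGroup X] {τ τ' : Type*}
  {F F' : (τ → k) → Tor k X → k}

lemma LR.congr (h : LR F) (e : ∀ v z, F' v z = F v z) : LR F' := by
  obtain ⟨s, Q, hQ⟩ := h
  exact ⟨s, Q, fun v z => (e v z).trans (hQ v z)⟩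

lemma LR.add (h : LR F) (h' : LR F') : LR (fun v z => F v z + F' v z) := by
  classical
  obtain ⟨s, Q, hQ⟩ := h
  obtain ⟨s', Q', hQ'⟩ := h'
  refine ⟨s ∪ s', fun a => (if a ∈ s then Q a else 0) + (if a ∈ s' then Q' a else 0),
    fun v z => ?_⟩
  have h1 : ∑ a ∈ s ∪ s', eval v (if a ∈ s then Q a else 0) * (ch a z : k) =
      ∑ a ∈ s, eval v (Q a) * (ch a z : k) := by
    rw [← Finset.sum_subset Finset.subset_union_left]
    · exact Finset.sum_congr rfl fun a ha => by rw [if_pos ha]
    · intro a _ ha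
      rw [if_neg ha, map_zero, zero_mul]
  have h2 : ∑ a ∈ s ∪ s', eval v (if a ∈ s' then Q' a else 0) * (ch a z : k) =
      ∑ a ∈ s', eval v (Q' a) * (ch a z : k) := by
    rw [← Finset.sum_subset Finset.subset_union_right]
    · exact Finset.sum_congr rfl fun a ha => by rw [if_pos ha]
    · intro a _ ha
      rw [if_neg ha, map_zero, zero_mul]
  simp only [map_add, add_mul, Finset.sum_add_distrib]
  rw [h1, h2, hQ, hQ']

lemma LR.single (Q : MvPolynomial τ k) (a : X) :
    LR (fun v (z : Tor k X) => eval v Q * (ch a z : k)) :=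
  ⟨{a}, fun _ => Q, fun v z => by rw [Finset.sum_singleton]⟩

lemma LR.zero' : LR (fun (_ : τ → k) (_ : Tor k X) => (0 : k)) :=
  ⟨∅, fun _ => 0, fun v z => by rw [Finset.sum_empty]⟩

lemma LR.sum {ι' : Type*} (s : Finset ι') {f : ι' → (τ → k) → Tor k X → k}
    (h : ∀ i ∈ s, LR (f i)) : LR (fun v z => ∑ i ∈ s, f i v z) := by
  classical
  induction s using Finset.induction_on with
  | empty => exact LR.zero'.congr fun v z => Finset.sum_empty
  | insert i s hi ih =>
    have h1 := (h i (Finset.mem_insert_self i s)).add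
      (ih fun j hj => h j (Finset.mem_insert_of_mem hj))
    exact h1.congr fun v z => Finset.sum_insert hi

lemma LR.mul (h : LR F) (h' : LR F') : LR (fun v z => F v z * F' v z) := by
  obtain ⟨s, Q, hQ⟩ := h
  obtain ⟨s', Q', hQ'⟩ := h'
  have h1 : LR (fun v (z : Tor k X) => ∑ a ∈ s, ∑ b ∈ s', eval v (Q a * Q' b) * (ch (a + b) z : k)) :=
    LR.sum s fun a _ => LR.sum s' fun b _ => LR.single _ _
  refine h1.congr fun v z => ?_
  rw [hQ, hQ', Finset.sum_mul_sum]
  refine Finset.sum_congr rfl fun a _ => Finset.sum_congr rfl fun b _ => ?_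
  rw [map_mul, ch_add, Units.val_mul]
  ring

lemma LR.poly' (Q : MvPolynomial τ k) : LR (fun v (_ : Tor k X) => eval v Q) :=
  (LR.single Q (0 : X)).congr fun v z => by rw [ch_zero, Units.val_one, mul_one]

lemma LR.char (a : X) : LR (fun (_ : τ → k) z => (ch a z : k)) :=
  (LR.single 1 a).congr fun v z => by rw [map_one, one_mul]

lemma LR.const (c : k) : LR (fun (_ : τ → k) (_ : Tor k X) => c) :=
  (LR.poly' (C c)).congr fun v z => by rw [eval_C]

lemma LR.pow (h : LR F) (n : ℕ) : LR (fun v z => F v z ^ n) := by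
  induction n with
  | zero => exact (LR.const 1).congr fun v z => pow_zero _
  | succ n ih => exact (ih.mul h).congr fun v z => pow_succ _ _

/-- substitution of polynomials in the variables `v` -/
lemma LR.comp (h : LR F) (m : τ → MvPolynomial τ' k) :
    LR (fun v z => F (fun j => eval v (m j)) z) := by
  obtain ⟨s, Q, hQ⟩ := h
  refine ⟨s, fun a => bind₁ m (Q a), fun v z => ?_⟩
  refine (hQ _ z).trans (Finset.sum_congr rfl fun a _ => ?_)
  congr 1
  change _ = eval v (bind₁ m (Q a))
  rw [← aeval_eq_eval, ← aeval_eq_eval]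
  change _ = aeval v (bind₁ m (Q a))
  rw [aeval_bind₁]

variable [Infinite k] [Module.Finite ℤ X] [Module.Free ℤ X]

/-- uniqueness of the coefficients -/
lemma LR.unique (s : Finset X) (Q : X → MvPolynomial τ k)
    (h : ∀ v (z : Tor k X), ∑ a ∈ s, eval v (Q a) * (ch a z : k) = 0) : ∀ a ∈ s, Q a = 0 := by
  intro a ha
  apply MvPolynomial.funext
  intro v
  rw [map_zero]
  exact ch_indep s (fun a => eval v (Q a)) (h v) a ha

end LR

end Pool.Agent.RG
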