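import Pool.Agent.RDG.Ord
import Pool.Agent.RDG.Enu

/-!
# RG / UNI: the unipotent groups of the positive and negative roots

`xp j = x (en b j)`, `xm j = x (- en b j)`.

* `mem_U`, `mem_V`: `ord_closure`. For `j < l` the roots `root (en j)`, `root (en l)` are different
  and not opposite (both positive), and in the commutator formula (`comm`) the roots
  `γ = m root j + n root l` with `m, n > 0` are positive of height `> height (en l) ≥ height (en j)`,
  so `γ = root (en q)` with `q > l` (`en_mono`). For the negative roots apply `comm` to the negatives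
  (`root_neg`): `γ = - (m root j + n root l)`.
* `mem_UI`, `mem_VI`: the same with `ord_closure_ne`; `γ ≠ root (en i)` because `i` is simple, of
  height `1`, and `γ` has height `≥ 2`.
* `UI_norm`: it suffices (`sl_closure`) to conjugate the generators `x_j r`, `j ≠ i`, by
  `x (± en i) s`. The roots `root j`, `± root i` are different and not opposite, and every root
  `γ = m root j ± n root i`, `m, n > 0`, is positive and different from `root i`: `root j` is a
  combination of simple roots with nonnegative coefficients (`root_closure`) and, not being a multiple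
  of `root i` (`nonprop`), has a positive coefficient at a simple root different from `root i`; the
  same coefficient of `γ` is positive. `x s * x_j r * (x s)⁻¹ = (commutator) * x_j r`.
* `xi_UI`: `UI` is normalised by `xp i s`, so every element of `U` is `xp i c * u'` with `u' ∈ UI`.
-/

set_option autoImplicit false

open MvPolynomial

namespace Pool.Agent.RG

variable {k : Type*} [Field k] {ι X Y : Type*} [AddCommGroup X] [AddCommGroup Y] [Finite ι]
  {P : RootDatum ι X Y} {b : P.Base} {Γ : Type*} [Group Γ] (G : RedGrp k P b Γ)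

namespace RedGrp

/-- the positive root subgroups -/
noncomputable def xp (j : Fin (enN b)) : k → Γ := G.x (en b j)

/-- the negative root subgroups -/
noncomputable def xm (j : Fin (enN b)) : k → Γ := G.x (P.reflectionPerm (en b j) (en b j))

/-- the unipotent group of the positive roots -/
def UU : Subgroup Γ := Subgroup.closure (⋃ j, Set.range (G.xp j))

/-- the unipotent group of the negative roots -/
def VV : Subgroup Γ := Subgroup.closure (⋃ j, Set.range (G.xm j))

/-- the group generated by the positive root subgroups except one -/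
def UI (i : Fin (enN b)) : Subgroup Γ := Subgroup.closure (⋃ j, ⋃ (_ : j ≠ i), Set.range (G.xp j))

/-- the group generated by the negative root subgroups except one -/
def VI (i : Fin (enN b)) : Subgroup Γ := Subgroup.closure (⋃ j, ⋃ (_ : j ≠ i), Set.range (G.xm j))

lemma uni_root_neg_neg (i : ι) :
    P.reflectionPerm (P.reflectionPerm i i) (P.reflectionPerm i i) = i := by
  apply P.root.injective
  rw [root_neg, root_neg, neg_neg]

lemma uni_upr_map (f : Γ →* Γ) {N : ℕ} (x : Fin N → k → Γ) (s : Fin N → k) :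
    f (upr x s) = (List.ofFn fun j => f (x j (s j))).prod := by
  unfold upr
  rw [map_list_prod, List.map_ofFn]
  rfl

lemma upr_mem_UU (s : Fin (enN b) → k) : upr G.xp s ∈ G.UU := by
  exact upr_mem G.xp s _ fun j => Subgroup.subset_closure (Set.mem_iUnion.2 ⟨j, _, rfl⟩)

lemma upr_mem_VV (s : Fin (enN b) → k) : upr G.xm s ∈ G.VV := by
  exact upr_mem G.xm s _ fun j => Subgroup.subset_closure (Set.mem_iUnion.2 ⟨j, _, rfl⟩)

lemma xp_add (j : Fin (enN b)) (s r : k) : G.xp j (s + r) = G.xp j s * G.xp j r := G.x_add _ _ _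

lemma xm_add (j : Fin (enN b)) (s r : k) : G.xm j (s + r) = G.xm j s * G.xm j r := G.x_add _ _ _

lemma t_xp (j : Fin (enN b)) (z : Tor k X) (s : k) :
    G.t z * G.xp j s * (G.t z)⁻¹ = G.xp j ((ch (P.root (en b j : ι)) z : k) * s) := G.x_t _ _ _

lemma t_xm (j : Fin (enN b)) (z : Tor k X) (s : k) :
    G.t z * G.xm j s * (G.t z)⁻¹ = G.xm j ((ch (-P.root (en b j : ι)) z : k) * s) := by
  have h := G.x_t (P.reflectionPerm (en b j : ι) (en b j : ι)) z s
  rw [root_neg] at h
  exact h

lemma t_upr_xp (z : Tor k X) (s : Fin (enN b) → k) : G.t z * upr G.xp s * (G.t z)⁻¹ =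
    upr G.xp fun j => (ch (P.root (en b j : ι)) z : k) * s j := by
  have h := uni_upr_map (MulAut.conj (G.t z)).toMonoidHom G.xp s
  change G.t z * upr G.xp s * (G.t z)⁻¹ = _ at h
  rw [h]
  unfold upr
  congr 2
  funext j
  exact G.t_xp j z (s j)

lemma t_upr_xm (z : Tor k X) (s : Fin (enN b) → k) : G.t z * upr G.xm s * (G.t z)⁻¹ =
    upr G.xm fun j => (ch (-P.root (en b j : ι)) z : k) * s j := by
  have h := uni_upr_map (MulAut.conj (G.t z)).toMonoidHom G.xm s
  change G.t z * upr G.xm s * (G.t z)⁻¹ = _ at h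
  rw [h]
  unfold upr
  congr 2
  funext j
  exact G.t_xm j z (s j)

variable [P.IsReduced]

omit [P.IsReduced] in
lemma uni_pos (j : Fin (enN b)) : 0 < b.height (en b j : ι) :=
  (RootPairing.Base.isPos_iff b).1 (en b j).2

omit [P.IsReduced] in
lemma uni_inj {j l : Fin (enN b)} (h : j ≠ l) : (en b j : ι) ≠ (en b l : ι) := fun h1 =>
  h ((en b).injective (Subtype.ext h1))

omit [P.IsReduced] in
lemma uni_root_ne {i j : ι} (h : i ≠ j) : P.root i ≠ P.root j := fun h1 => h (P.root.injective h1)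

/-- the root of the positive combination of two positive roots -/
lemma uni_height {i j γ : ι} {m n : ℕ} (h : P.root γ = m • P.root i + n • P.root j) :
    b.height γ = m * b.height i + n * b.height j := by
  have h1 := congrArg (hgt b) h
  rw [map_add, map_nsmul, map_nsmul, hgt_root_eq, hgt_root_eq, hgt_root_eq, nsmul_eq_mul,
    nsmul_eq_mul] at h1
  linarith

lemma uni_root_ne_neg {i j : ι} (hi : b.IsPos i) (hj : b.IsPos j) : P.root i ≠ -P.root j := by
  intro h2
  have h3 := congrArg (hgt b) h2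
  rw [map_neg, hgt_root_eq, hgt_root_eq] at h3
  rw [RootPairing.Base.isPos_iff] at hi hj
  omega

omit [P.IsReduced] in
lemma uni_exists {γ : ι} (h : b.IsPos γ) : ∃ q, (en b q : ι) = γ :=
  ⟨(en b).symm ⟨γ, h⟩, by rw [Equiv.apply_symm_apply]⟩

lemma uni_gt {j l : Fin (enN b)} {γ : ι} {m n : ℕ} (hm : 0 < m) (hn : 0 < n)
    (h : P.root γ = m • P.root (en b j : ι) + n • P.root (en b l : ι)) :
    ∃ q, (en b q : ι) = γ ∧ l < q ∧ 2 ≤ b.height (en b q : ι) := by
  have h1 := uni_height (b := b) h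
  have h2 := uni_pos (b := b) j
  have h3 := uni_pos (b := b) l
  have hm' : (1 : ℤ) ≤ m := by exact_mod_cast hm
  have hn' : (1 : ℤ) ≤ n := by exact_mod_cast hn
  have h4 : b.height (en b j : ι) ≤ m * b.height (en b j : ι) := by nlinarith
  have h5 : b.height (en b l : ι) ≤ n * b.height (en b l : ι) := by nlinarith
  have h6 : b.IsPos γ := by
    rw [RootPairing.Base.isPos_iff]
    omega
  obtain ⟨q, hq⟩ := uni_exists h6
  refine ⟨q, hq, ?_, ?_⟩
  · by_contra hlt
    push Not at hlt
    have h7 := en_mono b q l hlt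
    rw [hq] at h7
    omega
  · rw [hq]
    omega

variable [IsAlgClosed k] [Module.Finite ℤ X] [Module.Free ℤ X]

theorem comm_xp' (j l : Fin (enN b)) (h : j < l) (s r : k) :
    G.xp j s * G.xp l r * (G.xp j s)⁻¹ * (G.xp l r)⁻¹ ∈
      Subgroup.closure (⋃ m, ⋃ (_ : l < m ∧ 2 ≤ b.height (en b m : ι)), Set.range (G.xp m)) := by
  obtain ⟨L, hL, hc⟩ := G.comm (en b j) (en b l) (uni_root_ne (uni_inj h.ne))
    (uni_root_ne_neg (en b j).2 (en b l).2)
  unfold xp
  rw [hc]
  apply Subgroup.list_prod_mem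
  intro g hg
  rw [List.mem_map] at hg
  obtain ⟨q, hq, rfl⟩ := hg
  obtain ⟨h1, h2, h3⟩ := hL q hq
  obtain ⟨q', hq', hlt, hht⟩ := uni_gt h1 h2 h3
  apply Subgroup.subset_closure
  rw [Set.mem_iUnion]
  refine ⟨q', Set.mem_iUnion.2 ⟨⟨hlt, hht⟩, ?_⟩⟩
  rw [hq']
  exact ⟨_, rfl⟩

theorem comm_xm' (j l : Fin (enN b)) (h : j < l) (s r : k) :
    G.xm j s * G.xm l r * (G.xm j s)⁻¹ * (G.xm l r)⁻¹ ∈
      Subgroup.closure (⋃ m, ⋃ (_ : l < m ∧ 2 ≤ b.height (en b m : ι)), Set.range (G.xm m)) := by
  obtain ⟨L, hL, hc⟩ := G.comm (P.reflectionPerm (en b j : ι) (en b j : ι))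
    (P.reflectionPerm (en b l : ι) (en b l : ι)) (by
      rw [root_neg, root_neg]
      exact fun h1 => uni_root_ne (uni_inj h.ne) (neg_injective h1)) (by
      rw [root_neg, root_neg]
      exact fun h1 => uni_root_ne_neg (en b j).2 (en b l).2 (neg_injective h1))
  unfold xm
  rw [hc]
  apply Subgroup.list_prod_mem
  intro g hg
  rw [List.mem_map] at hg
  obtain ⟨q, hq, rfl⟩ := hg
  obtain ⟨h1, h2, h3⟩ := hL q hq
  have h4 : P.root (P.reflectionPerm q.1 q.1) =
      q.2.1 • P.root (en b j : ι) + q.2.2.1 • P.root (en b l : ι) := by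
    rw [root_neg, h3, root_neg, root_neg, smul_neg, smul_neg, neg_add, neg_neg, neg_neg]
  obtain ⟨q', hq', hlt, hht⟩ := uni_gt h1 h2 h4
  apply Subgroup.subset_closure
  rw [Set.mem_iUnion]
  refine ⟨q', Set.mem_iUnion.2 ⟨⟨hlt, hht⟩, ?_⟩⟩
  rw [hq', uni_root_neg_neg]
  exact ⟨_, rfl⟩

/-- a combination of a simple root and another positive root -/
lemma uni_simple {i j γ : ι} (hi : i ∈ b.support) (hj : b.IsPos j) (hij : j ≠ i) {m n : ℕ}
    (hm : 0 < m) (hn : 0 < n) (h : P.root γ = m • P.root i + n • P.root j ∨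
      P.root γ = m • -P.root i + n • P.root j) : b.IsPos γ ∧ γ ≠ i := by
  have hi1 : b.IsPos i := RootPairing.Base.isPos_of_mem_support hi
  have hih : b.height i = 1 := RootPairing.Base.height_one_of_mem_support hi
  have hjh : 0 < b.height j := (RootPairing.Base.isPos_iff b).1 hj
  have hm' : (1 : ℤ) ≤ m := by exact_mod_cast hm
  have hn' : (1 : ℤ) ≤ n := by exact_mod_cast hn
  rcases h with h | h
  · have h1 := uni_height (b := b) h
    have h2 : b.height j ≤ n * b.height j := by nlinarith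
    rw [hih, mul_one] at h1
    refine ⟨?_, ?_⟩
    · rw [RootPairing.Base.isPos_iff]
      omega
    · rintro rfl
      omega
  · constructor
    · by_contra hneg
      classical
      obtain ⟨f, -, hf1, hf⟩ := b.exists_root_eq_sum_int j
      obtain ⟨g, -, hg1, hg⟩ := b.exists_root_eq_sum_int γ
      have hf0 : 0 < f := by
        rcases hf1 with h1 | h1
        · exact h1
        · exfalso
          have h2 := RootPairing.Base.height_eq_sum hf
          have h3 : ∑ l ∈ b.support, f l ≤ 0 := Finset.sum_nonpos fun l _ => h1.le l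
          omega
      have hg0 : g < 0 := by
        rcases hg1 with h1 | h1
        · exfalso
          apply hneg
          rw [RootPairing.Base.isPos_iff']
          rw [RootPairing.Base.height_eq_sum hg]
          exact Finset.sum_nonneg fun l _ => h1.le l
        · exact h1
      have hrel : ∑ l ∈ b.support, (g l + m * (if l = i then 1 else 0) - n * f l) • P.root l = 0 := by
        simp only [sub_smul, add_smul, Finset.sum_sub_distrib, Finset.sum_add_distrib]
        rw [← hg]
        have e1 : ∑ l ∈ b.support, ((n : ℤ) * f l) • P.root l = n • P.root j := by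
          rw [hf, Finset.smul_sum]
          refine Finset.sum_congr rfl fun l _ => ?_
          rw [mul_smul, natCast_zsmul]
        have e2 : ∑ l ∈ b.support, ((m : ℤ) * (if l = i then 1 else 0)) • P.root l =
            m • P.root i := by
          rw [Finset.sum_eq_single_of_mem i hi]
          · simp
          · intro l _ hl
            simp [hl]
        rw [e1, e2, h, smul_neg]
        abel
      have hli := linearIndepOn_finset_iff.1 b.linearIndepOn_root _ hrel
      have hfl : ∀ l ∈ b.support, l ≠ i → f l = 0 := by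
        intro l hl hli'
        have h1 := hli l hl
        rw [if_neg hli', mul_zero, add_zero] at h1
        have h2 : g l ≤ 0 := hg0.le l
        have h3 : 0 ≤ f l := hf0.le l
        nlinarith
      have hfi : 0 ≤ f i := hf0.le i
      have hprop : (1 : ℕ) • P.root j = (f i).toNat • P.root i := by
        rw [one_smul, hf, Finset.sum_eq_single_of_mem i hi (fun l hl hli' => by
          rw [hfl l hl hli', zero_smul]), ← natCast_zsmul, Int.toNat_of_nonneg hfi]
      exact hij (nonprop b hj hi1 one_pos hprop)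
    · rintro rfl
      have h1 : n • P.root j = (m + 1) • P.root γ := by
        rw [add_smul, one_smul]
        nth_rewrite 2 [h]
        rw [smul_neg]
        abel
      exact hij (nonprop b hj hi1 hn h1)

/-- commutators of positive root subgroups -/
theorem comm_xp (j l : Fin (enN b)) (h : j < l) (s r : k) :
    G.xp j s * G.xp l r * (G.xp j s)⁻¹ * (G.xp l r)⁻¹ ∈
      Subgroup.closure (⋃ m, ⋃ (_ : l < m), Set.range (G.xp m)) := by
  refine Subgroup.closure_mono ?_ (G.comm_xp' j l h s r)
  intro g hg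
  simp only [Set.mem_iUnion] at hg ⊢
  obtain ⟨m, ⟨hm, -⟩, hg⟩ := hg
  exact ⟨m, hm, hg⟩

theorem comm_xm (j l : Fin (enN b)) (h : j < l) (s r : k) :
    G.xm j s * G.xm l r * (G.xm j s)⁻¹ * (G.xm l r)⁻¹ ∈
      Subgroup.closure (⋃ m, ⋃ (_ : l < m), Set.range (G.xm m)) := by
  refine Subgroup.closure_mono ?_ (G.comm_xm' j l h s r)
  intro g hg
  simp only [Set.mem_iUnion] at hg ⊢
  obtain ⟨m, ⟨hm, -⟩, hg⟩ := hg
  exact ⟨m, hm, hg⟩

theorem mem_U {u : Γ} (hu : u ∈ G.UU) : ∃ s, u = upr G.xp s := by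
  exact ord_closure G.xp G.xp_add G.comm_xp u hu

theorem mem_V {u : Γ} (hu : u ∈ G.VV) : ∃ s, u = upr G.xm s := by
  exact ord_closure G.xm G.xm_add G.comm_xm u hu

variable {i : Fin (enN b)} (hi : (en b i : ι) ∈ b.support)

include hi

theorem mem_UI {u : Γ} (hu : u ∈ G.UI i) : ∃ s, s i = 0 ∧ u = upr G.xp s := by
  refine ord_closure_ne G.xp G.xp_add i (fun j l hjl _ _ s r => ?_) u hu
  refine Subgroup.closure_mono ?_ (G.comm_xp' j l hjl s r)
  intro g hg
  simp only [Set.mem_iUnion] at hg ⊢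
  obtain ⟨m, ⟨hm, hm2⟩, hg⟩ := hg
  refine ⟨m, ⟨hm, ?_⟩, hg⟩
  rintro rfl
  rw [RootPairing.Base.height_one_of_mem_support hi] at hm2
  omega

theorem mem_VI {u : Γ} (hu : u ∈ G.VI i) : ∃ s, s i = 0 ∧ u = upr G.xm s := by
  refine ord_closure_ne G.xm G.xm_add i (fun j l hjl _ _ s r => ?_) u hu
  refine Subgroup.closure_mono ?_ (G.comm_xm' j l hjl s r)
  intro g hg
  simp only [Set.mem_iUnion] at hg ⊢
  obtain ⟨m, ⟨hm, hm2⟩, hg⟩ := hg
  refine ⟨m, ⟨hm, ?_⟩, hg⟩
  rintro rfl
  rw [RootPairing.Base.height_one_of_mem_support hi] at hm2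
  omega

omit [P.IsReduced] hi in
/-- conjugation by `SL₂` from conjugation by its root subgroups -/
theorem uni_conj (H : Subgroup Γ) (hup : ∀ s, ∀ u ∈ H, G.x (en b i : ι) s * u * (G.x (en b i : ι) s)⁻¹ ∈ H)
    (hlo : ∀ s, ∀ u ∈ H, G.x (P.reflectionPerm (en b i : ι) (en b i : ι)) s * u *
      (G.x (P.reflectionPerm (en b i : ι) (en b i : ι)) s)⁻¹ ∈ H)
    (g : Matrix.SpecialLinearGroup (Fin 2) k) :
    ∀ u ∈ H, G.φ (en b i) g * u * (G.φ (en b i) g)⁻¹ ∈ H := by
  have key : ∀ g ∈ Subgroup.closure (Set.range (up : k → _) ∪ Set.range (lo : k → _)),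
      (∀ u ∈ H, G.φ (en b i) g * u * (G.φ (en b i) g)⁻¹ ∈ H) ∧
      (∀ u ∈ H, (G.φ (en b i) g)⁻¹ * u * G.φ (en b i) g ∈ H) := by
    intro g hg
    induction hg using Subgroup.closure_induction with
    | mem g hg =>
      rcases hg with ⟨s, rfl⟩ | ⟨s, rfl⟩
      · refine ⟨fun u hu => ?_, fun u hu => ?_⟩
        · rw [G.φ_up]
          exact hup s u hu
        · have h1 := hup (-s) u hu
          rw [G.x_neg, inv_inv] at h1
          rw [G.φ_up]
          exact h1
      · refine ⟨fun u hu => ?_, fun u hu => ?_⟩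
        · rw [G.φ_lo]
          exact hlo s u hu
        · have h1 := hlo (-s) u hu
          rw [G.x_neg, inv_inv] at h1
          rw [G.φ_lo]
          exact h1
    | one => exact ⟨fun u hu => by simpa using hu, fun u hu => by simpa using hu⟩
    | mul a c _ _ ha hc =>
      refine ⟨fun u hu => ?_, fun u hu => ?_⟩
      · have h1 := ha.1 _ (hc.1 u hu)
        rw [map_mul]
        have e : G.φ (en b i) a * G.φ (en b i) c * u * (G.φ (en b i) a * G.φ (en b i) c)⁻¹ =
            G.φ (en b i) a * (G.φ (en b i) c * u * (G.φ (en b i) c)⁻¹) * (G.φ (en b i) a)⁻¹ := by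
          group
        rw [e]
        exact h1
      · have h1 := hc.2 _ (ha.2 u hu)
        rw [map_mul]
        have e : (G.φ (en b i) a * G.φ (en b i) c)⁻¹ * u * (G.φ (en b i) a * G.φ (en b i) c) =
            (G.φ (en b i) c)⁻¹ * ((G.φ (en b i) a)⁻¹ * u * G.φ (en b i) a) * G.φ (en b i) c := by
          group
        rw [e]
        exact h1
    | inv a _ ha =>
      refine ⟨fun u hu => ?_, fun u hu => ?_⟩
      · rw [map_inv, inv_inv]
        exact ha.2 u hu
      · rw [map_inv, inv_inv]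
        exact ha.1 u hu
  exact (key g (sl_closure g)).1

omit hi [P.IsReduced] in
/-- conjugation of a group given by generators -/
theorem uni_conj_closure (S : Set Γ) (a : Γ)
    (h : ∀ g ∈ S, a * g * a⁻¹ * g⁻¹ ∈ Subgroup.closure S) :
    ∀ u ∈ Subgroup.closure S, a * u * a⁻¹ ∈ Subgroup.closure S := by
  intro u hu
  induction hu using Subgroup.closure_induction with
  | mem g hg =>
    have h1 := mul_mem (h g hg) (Subgroup.subset_closure hg)
    simpa [mul_assoc] using h1
  | one => simp
  | mul x y _ _ hx hy =>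
    have h1 := mul_mem hx hy
    have e : a * x * a⁻¹ * (a * y * a⁻¹) = a * (x * y) * a⁻¹ := by group
    rwa [e] at h1
  | inv x _ hx =>
    have h1 := inv_mem hx
    have e : (a * x * a⁻¹)⁻¹ = a * x⁻¹ * a⁻¹ := by group
    rwa [e] at h1

theorem uni_UI_gen (ε : ι) (hε : P.root ε = P.root (en b i : ι) ∨ P.root ε = -P.root (en b i : ι))
    (s : k) : ∀ u ∈ G.UI i, G.x ε s * u * (G.x ε s)⁻¹ ∈ G.UI i := by
  refine uni_conj_closure _ _ fun g hg => ?_
  simp only [Set.mem_iUnion] at hg
  obtain ⟨j, hji, r, rfl⟩ := hg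
  have hne : (en b j : ι) ≠ (en b i : ι) := uni_inj hji
  have h1 : P.root ε ≠ P.root (en b j : ι) := by
    rcases hε with h | h
    · rw [h]
      exact (uni_root_ne hne).symm
    · rw [h]
      exact fun h2 => uni_root_ne_neg (en b j).2 (en b i).2 h2.symm
  have h2 : P.root ε ≠ -P.root (en b j : ι) := by
    rcases hε with h | h
    · rw [h]
      exact uni_root_ne_neg (en b i).2 (en b j).2
    · rw [h]
      exact fun h2 => (uni_root_ne hne).symm (neg_injective h2)
  obtain ⟨L, hL, hc⟩ := G.comm ε (en b j) h1 h2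
  unfold xp
  rw [hc]
  apply Subgroup.list_prod_mem
  intro g hg
  rw [List.mem_map] at hg
  obtain ⟨q, hq, rfl⟩ := hg
  obtain ⟨h3, h4, h5⟩ := hL q hq
  obtain ⟨h6, h7⟩ := uni_simple hi (en b j).2 hne h3 h4 (γ := q.1) (by
    rcases hε with h | h
    · left
      rw [h5, h]
    · right
      rw [h5, h])
  obtain ⟨q', hq'⟩ := uni_exists h6
  apply Subgroup.subset_closure
  rw [Set.mem_iUnion]
  refine ⟨q', Set.mem_iUnion.2 ⟨?_, ?_⟩⟩
  · rintro rfl
    exact h7 hq'.symm
  · rw [hq']
    exact ⟨_, rfl⟩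

theorem uni_VI_gen (ε : ι) (hε : P.root ε = P.root (en b i : ι) ∨ P.root ε = -P.root (en b i : ι))
    (s : k) : ∀ u ∈ G.VI i, G.x ε s * u * (G.x ε s)⁻¹ ∈ G.VI i := by
  refine uni_conj_closure _ _ fun g hg => ?_
  simp only [Set.mem_iUnion] at hg
  obtain ⟨j, hji, r, rfl⟩ := hg
  have hne : (en b j : ι) ≠ (en b i : ι) := uni_inj hji
  have h1 : P.root ε ≠ P.root (P.reflectionPerm (en b j : ι) (en b j : ι)) := by
    rw [root_neg]
    rcases hε with h | h
    · rw [h]
      exact uni_root_ne_neg (en b i).2 (en b j).2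
    · rw [h]
      exact fun h2 => (uni_root_ne hne).symm (neg_injective h2)
  have h2 : P.root ε ≠ -P.root (P.reflectionPerm (en b j : ι) (en b j : ι)) := by
    rw [root_neg, neg_neg]
    rcases hε with h | h
    · rw [h]
      exact (uni_root_ne hne).symm
    · rw [h]
      exact fun h2 => uni_root_ne_neg (en b j).2 (en b i).2 h2.symm
  obtain ⟨L, hL, hc⟩ := G.comm ε _ h1 h2
  unfold xm
  rw [hc]
  apply Subgroup.list_prod_mem
  intro g hg
  rw [List.mem_map] at hg
  obtain ⟨q, hq, rfl⟩ := hg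
  obtain ⟨h3, h4, h5⟩ := hL q hq
  obtain ⟨h6, h7⟩ := uni_simple hi (en b j).2 hne h3 h4 (γ := P.reflectionPerm q.1 q.1) (by
    rcases hε with h | h
    · right
      rw [root_neg, h5, h, root_neg, neg_add, smul_neg, smul_neg, neg_neg]
    · left
      rw [root_neg, h5, h, root_neg, neg_add, smul_neg, smul_neg, neg_neg, neg_neg])
  obtain ⟨q', hq'⟩ := uni_exists h6
  apply Subgroup.subset_closure
  rw [Set.mem_iUnion]
  refine ⟨q', Set.mem_iUnion.2 ⟨?_, ?_⟩⟩
  · rintro rfl
    exact h7 hq'.symm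
  · rw [hq', uni_root_neg_neg]
    exact ⟨_, rfl⟩

omit [Finite ι] [P.IsReduced] hi in
/-- moving one factor to the front -/
theorem uni_front {N : ℕ} (x : Fin N → k → Γ) (s : Fin N → k) (i : Fin N) (H : Subgroup Γ)
    (hH : ∀ j, j ≠ i → x j (s j) ∈ H) (hn : ∀ h ∈ H, (x i (s i))⁻¹ * h * x i (s i) ∈ H) :
    ∃ h ∈ H, upr x s = x i (s i) * h := by
  induction N with
  | zero => exact i.elim0
  | succ N ih =>
    have e : upr x s = x 0 (s 0) * upr (fun j : Fin N => x j.succ) (fun j => s j.succ) := by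
      unfold upr
      rw [List.ofFn_succ, List.prod_cons]
    by_cases hi0 : i = 0
    · subst hi0
      refine ⟨_, ?_, e⟩
      exact upr_mem _ _ _ fun j => hH j.succ (Fin.succ_ne_zero j)
    · obtain ⟨i', rfl⟩ := Fin.exists_succ_eq.2 hi0
      obtain ⟨h, hh, he⟩ := ih (fun j => x j.succ) (fun j => s j.succ) i'
        (fun j hj => hH j.succ fun h1 => hj (Fin.succ_injective _ h1)) hn
      refine ⟨((x i'.succ (s i'.succ))⁻¹ * x 0 (s 0) * x i'.succ (s i'.succ)) * h,
        mul_mem (hn _ (hH 0 (Fin.succ_ne_zero i').symm)) hh, ?_⟩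
      rw [e, he]
      group

theorem UI_norm {u : Γ} (hu : u ∈ G.UI i) (g : Matrix.SpecialLinearGroup (Fin 2) k) :
    G.φ (en b i) g * u * (G.φ (en b i) g)⁻¹ ∈ G.UI i := by
  refine G.uni_conj (G.UI i) (fun s u hu => ?_) (fun s u hu => ?_) g u hu
  · exact G.uni_UI_gen hi _ (Or.inl rfl) s u hu
  · exact G.uni_UI_gen hi _ (Or.inr (root_neg P _)) s u hu

theorem VI_norm {u : Γ} (hu : u ∈ G.VI i) (g : Matrix.SpecialLinearGroup (Fin 2) k) :
    G.φ (en b i) g * u * (G.φ (en b i) g)⁻¹ ∈ G.VI i := by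
  refine G.uni_conj (G.VI i) (fun s u hu => ?_) (fun s u hu => ?_) g u hu
  · exact G.uni_VI_gen hi _ (Or.inl rfl) s u hu
  · exact G.uni_VI_gen hi _ (Or.inr (root_neg P _)) s u hu

theorem xi_UI (s : Fin (enN b) → k) : ∃ u ∈ G.UI i, upr G.xp s = G.xp i (s i) * u := by
  refine uni_front G.xp s i (G.UI i) (fun j hj => ?_) fun h hh => ?_
  · apply Subgroup.subset_closure
    rw [Set.mem_iUnion]
    exact ⟨j, Set.mem_iUnion.2 ⟨hj, _, rfl⟩⟩
  · have h1 := G.UI_norm hi hh (up (s i))⁻¹
    rw [map_inv, inv_inv, G.φ_up] at h1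
    exact h1

theorem xi_VI (s : Fin (enN b) → k) : ∃ u ∈ G.VI i, upr G.xm s = G.xm i (s i) * u := by
  refine uni_front G.xm s i (G.VI i) (fun j hj => ?_) fun h hh => ?_
  · apply Subgroup.subset_closure
    rw [Set.mem_iUnion]
    exact ⟨j, Set.mem_iUnion.2 ⟨hj, _, rfl⟩⟩
  · have h1 := G.VI_norm hi hh (lo (s i))⁻¹
    rw [map_inv, inv_inv, G.φ_lo] at h1
    exact h1

end RedGrp

end Pool.Agent.RG
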